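import Mathlib

section

/-!
# Empty triangles on a pair: basic facts

`E` is the plane. `Deg X P Q` is the set of all `z` such that `P Q z` is an empty triangle.
-/

set_option autoImplicit false

namespace Pool.Agent.Lib.MP_8bcb9d_co

/-- the plane -/
abbrev E : Type := EuclideanSpace ℝ (Fin 2)

/-- no three points on a line -/
def GenPos (X : Finset E) : Prop :=
  ∀ a ∈ X, ∀ b ∈ X, ∀ c ∈ X, a ≠ b → a ≠ c → b ≠ c → ¬ Collinear ℝ ({a, b, c} : Set E)

/-- the third vertices of the empty triangles with side `P Q` -/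
def Deg (X : Finset E) (P Q : E) : Set E :=
  {z : E | z ∈ X ∧ z ≠ P ∧ z ≠ Q ∧
    ∀ w ∈ X, w ∈ convexHull ℝ ({P, Q, z} : Set E) → w = P ∨ w = Q ∨ w = z}

theorem Deg.finite (X : Finset E) (P Q : E) : (Deg X P Q).Finite :=
  X.finite_toSet.subset fun _ hz => hz.1

/-- cross product -/
def cr (a b : E) : ℝ := a 0 * b 1 - a 1 * b 0

/-- scalar product -/
def dt (a b : E) : ℝ := a 0 * b 0 + a 1 * b 1

theorem dist_sq (x y : E) : dist x y ^ 2 = (x 0 - y 0) ^ 2 + (x 1 - y 1) ^ 2 := by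
  rw [EuclideanSpace.dist_eq, Fin.sum_univ_two, Real.sq_sqrt (by positivity),
    Real.dist_eq, Real.dist_eq, sq_abs, sq_abs]

theorem abs_sub_zero_le (x y : E) : |x 0 - y 0| ≤ dist x y := by
  apply abs_le_of_sq_le_sq _ dist_nonneg
  rw [dist_sq]
  nlinarith [sq_nonneg (x 1 - y 1)]

theorem abs_sub_one_le (x y : E) : |x 1 - y 1| ≤ dist x y := by
  apply abs_le_of_sq_le_sq _ dist_nonneg
  rw [dist_sq]
  nlinarith [sq_nonneg (x 0 - y 0)]

theorem dist_le_abs (x y : E) : dist x y ≤ |x 0 - y 0| + |x 1 - y 1| := by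
  apply le_of_sq_le_sq _ (by positivity)
  rw [dist_sq]
  nlinarith [abs_nonneg (x 0 - y 0), abs_nonneg (x 1 - y 1), sq_abs (x 0 - y 0),
    sq_abs (x 1 - y 1)]

/-- points of a triangle -/
theorem mem_triangle {P Q z w : E} (h : w ∈ convexHull ℝ ({P, Q, z} : Set E)) :
    ∃ a b c : ℝ, 0 ≤ a ∧ 0 ≤ b ∧ 0 ≤ c ∧ a + b + c = 1 ∧ w = a • P + b • Q + c • z := by
  rw [convexHull_insert (Set.insert_nonempty _ _), convexHull_pair] at h
  rw [mem_convexJoin] at h
  obtain ⟨p, hp, q, hq, hw⟩ := h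
  rw [Set.mem_singleton_iff] at hp
  subst hp
  obtain ⟨s, t, hs, ht, hst, rfl⟩ := hq
  obtain ⟨s', t', hs', ht', hst', rfl⟩ := hw
  refine ⟨s', t' * s, t' * t, hs', mul_nonneg ht' hs, mul_nonneg ht' ht, ?_, ?_⟩
  · rw [add_assoc, ← mul_add, hst, mul_one, hst']
  · rw [smul_add, smul_smul, smul_smul, add_assoc]

theorem triangle_mem {P Q z : E} {a b c : ℝ} (ha : 0 ≤ a) (hb : 0 ≤ b) (hc : 0 ≤ c)
    (h : a + b + c = 1) : a • P + b • Q + c • z ∈ convexHull ℝ ({P, Q, z} : Set E) := by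
  have hP : P ∈ convexHull ℝ ({P, Q, z} : Set E) := subset_convexHull _ _ (by simp)
  have hQ : Q ∈ convexHull ℝ ({P, Q, z} : Set E) := subset_convexHull _ _ (by simp)
  have hz : z ∈ convexHull ℝ ({P, Q, z} : Set E) := subset_convexHull _ _ (by simp)
  rcases eq_or_lt_of_le (add_nonneg ha hb) with h0 | h0
  · have ha0 : a = 0 := by linarith
    have hb0 : b = 0 := by linarith
    have hc1 : c = 1 := by linarith
    rw [ha0, hb0, hc1]
    simpa using hz
  · have hm : (a / (a + b)) • P + (b / (a + b)) • Q ∈ convexHull ℝ ({P, Q, z} : Set E) :=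
      (convex_convexHull ℝ _) hP hQ (div_nonneg ha h0.le) (div_nonneg hb h0.le)
        (by rw [← add_div, div_self h0.ne'])
    have := (convex_convexHull ℝ _) hm hz h0.le hc h
    rw [smul_add, smul_smul, smul_smul, mul_div_cancel₀ _ h0.ne',
      mul_div_cancel₀ _ h0.ne'] at this
    exact this

/-- three points with vanishing cross product are collinear -/
theorem collinear_of_cr {P Q z : E} (hPQ : P ≠ Q) (h : cr (Q - P) (z - P) = 0) :
    Collinear ℝ ({P, Q, z} : Set E) := by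
  rw [collinear_iff_of_mem (p₀ := P) (by simp)]
  refine ⟨Q - P, ?_⟩
  have hne : 0 < dist Q P ^ 2 := by
    have := dist_pos.2 hPQ.symm
    positivity
  rw [dist_sq] at hne
  intro x hx
  simp only [Set.mem_insert_iff, Set.mem_singleton_iff] at hx
  rcases hx with rfl | rfl | rfl
  · exact ⟨0, by simp⟩
  · exact ⟨1, by simp⟩
  · refine ⟨dt (Q - P) (x - P) / ((Q 0 - P 0) ^ 2 + (Q 1 - P 1) ^ 2), ?_⟩
    have e : ∀ i : Fin 2, x i = dt (Q - P) (x - P) / ((Q 0 - P 0) ^ 2 + (Q 1 - P 1) ^ 2) *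
        (Q i - P i) + P i := by
      simp only [cr, PiLp.sub_apply] at h
      intro i
      rw [div_mul_eq_mul_div, div_add' _ _ _ hne.ne', eq_div_iff hne.ne']
      simp only [dt, PiLp.sub_apply]
      fin_cases i
      · simp only [Fin.zero_eta, Fin.isValue]
        linear_combination (-(Q 1 - P 1)) * h
      · simp only [Fin.mk_one, Fin.isValue]
        linear_combination (Q 0 - P 0) * h
    ext i
    simpa using e i

theorem cr_ne_zero {X : Finset E} (hX : GenPos X) {P Q z : E} (hP : P ∈ X) (hQ : Q ∈ X)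
    (hz : z ∈ X) (hPQ : P ≠ Q) (hzP : z ≠ P) (hzQ : z ≠ Q) : cr (Q - P) (z - P) ≠ 0 := fun h =>
  hX P hP Q hQ z hz hPQ hzP.symm hzQ.symm (collinear_of_cr hPQ h)

/-- the cross and scalar products of a point of a triangle -/
theorem cr_comb {P Q z w : E} {a b c : ℝ} (h : a + b + c = 1) (hw : w = a • P + b • Q + c • z) :
    cr (Q - P) (w - P) = c * cr (Q - P) (z - P) ∧
      dt (Q - P) (w - P) = b * dt (Q - P) (Q - P) + c * dt (Q - P) (z - P) := by
  have ha : a = 1 - b - c := by linarith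
  subst hw ha
  constructor
  · simp only [cr, PiLp.sub_apply, PiLp.add_apply, PiLp.smul_apply, smul_eq_mul]
    ring
  · simp only [dt, PiLp.sub_apply, PiLp.add_apply, PiLp.smul_apply, smul_eq_mul]
    ring

/-- Every point of `X` has a partner in its triangle. -/
theorem exists_partner {X : Finset E} (hX : GenPos X) {P Q z : E} (hP : P ∈ X) (hQ : Q ∈ X)
    (hz : z ∈ X) (hPQ : P ≠ Q) (hzP : z ≠ P) (hzQ : z ≠ Q) :
    ∃ w ∈ Deg X P Q, w ∈ convexHull ℝ ({P, Q, z} : Set E) := by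
  classical
  let S : Finset E := X.filter fun w => w ≠ P ∧ w ≠ Q ∧ w ∈ convexHull ℝ ({P, Q, z} : Set E)
  have hS : S.Nonempty := ⟨z, by
    simp only [S, Finset.mem_filter]
    exact ⟨hz, hzP, hzQ, subset_convexHull _ _ (by simp)⟩⟩
  obtain ⟨w, hwS, hmin⟩ := S.exists_min_image (fun w => |cr (Q - P) (w - P)|) hS
  simp only [S, Finset.mem_filter] at hwS
  obtain ⟨hwX, hwP, hwQ, hwc⟩ := hwS
  refine ⟨w, ⟨hwX, hwP, hwQ, ?_⟩, hwc⟩
  intro w' hw' hw'c
  by_contra hcon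
  push Not at hcon
  obtain ⟨h1, h2, h3⟩ := hcon
  have hsub : convexHull ℝ ({P, Q, w} : Set E) ⊆ convexHull ℝ ({P, Q, z} : Set E) := by
    apply convexHull_min _ (convex_convexHull ℝ _)
    intro x hx
    simp only [Set.mem_insert_iff, Set.mem_singleton_iff] at hx
    rcases hx with rfl | rfl | rfl
    · exact subset_convexHull _ _ (by simp)
    · exact subset_convexHull _ _ (by simp)
    · exact hwc
  have hw'S : w' ∈ S := by
    simp only [S, Finset.mem_filter]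
    exact ⟨hw', h1, h2, hsub hw'c⟩
  have h4 := hmin w' hw'S
  obtain ⟨a, b, c, ha, hb, hc, habc, hw'e⟩ := mem_triangle hw'c
  have h5 := (cr_comb habc hw'e).1
  have h6 := abs_pos.2 (cr_ne_zero hX hP hQ hwX hPQ hwP hwQ)
  rw [h5, abs_mul, abs_of_nonneg hc] at h4
  have hc1 : 1 ≤ c := by
    by_contra hlt
    push Not at hlt
    nlinarith
  have ha0 : a = 0 := by linarith
  have hb0 : b = 0 := by linarith
  have hc1' : c = 1 := by linarith
  rw [ha0, hb0, hc1'] at hw'e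
  exact h3 (by simpa using hw'e)

end Pool.Agent.Lib.MP_8bcb9d_co
end

section

/-!
# Empty triangles on a pair: a missed angular scale at an almost mutually nearest pair
-/

set_option autoImplicit false

namespace Pool.Agent.Lib.MP_8bcb9d_co

/-- the pair `P, Q` is almost mutually nearest -/
structure NearPair (X : Finset E) (P Q : E) : Prop where
  hP : P ∈ X
  hQ : Q ∈ X
  hne : P ≠ Q
  near : ∀ z ∈ X, z ≠ P → dist P Q ≤ dist P z
  almost : ∀ z ∈ X, z ≠ Q → dist P Q ≤ 2 * dist Q z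

/-- Every point has an almost mutually nearest pair near it. -/
theorem exists_nearPair {X : Finset E} {p q : E} (hp : p ∈ X) (hq : q ∈ X) (hpq : q ≠ p) :
    ∃ P Q : E, NearPair X P Q ∧ ∀ z ∈ X, z ≠ p → dist p P ≤ 2 * dist p z := by
  classical
  have hS : X.offDiag.Nonempty := ⟨(p, q), by simp [hp, hq, hpq.symm]⟩
  obtain ⟨⟨P, Q⟩, hPQ, hmin⟩ := X.offDiag.exists_min_image
    (fun x => dist p x.1 + 2 * dist x.1 x.2) hS
  rw [Finset.mem_offDiag] at hPQ
  obtain ⟨hP, hQ, hne⟩ := hPQ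
  have hmin' : ∀ x ∈ X, ∀ y ∈ X, x ≠ y → dist p P + 2 * dist P Q ≤ dist p x + 2 * dist x y :=
    fun x hx y hy hxy => hmin (x, y) (by simp [hx, hy, hxy])
  simp only at hP hQ hne
  refine ⟨P, Q, ⟨hP, hQ, hne, ?_, ?_⟩, ?_⟩
  · intro z hz hzP
    have := hmin' P hP z hz hzP.symm
    linarith
  · intro z hz hzQ
    have h1 := hmin' Q hQ z hz hzQ.symm
    have h2 := dist_triangle p P Q
    linarith
  · intro z hz hzp
    have h1 := hmin' p hp z hz hzp.symm
    rw [dist_self] at h1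
    have h2 : 0 ≤ dist P Q := dist_nonneg
    linarith

theorem dt_self (u : E) : dt u u = u 0 ^ 2 + u 1 ^ 2 := by
  unfold dt; ring

theorem dt_sq_add_cr_sq (u v : E) : dt u v ^ 2 + cr u v ^ 2 = dt u u * dt v v := by
  unfold dt cr; ring

theorem dist_sq_dt (P z : E) : dist P z ^ 2 = dt (z - P) (z - P) := by
  rw [dist_comm, dist_sq, dt_self]
  simp only [PiLp.sub_apply]

/-- numerical part of the next lemma -/
theorem cone_lower_aux {s D C : ℝ} (hs : 0 < s) (hD : 0 < D) (hC : C ^ 2 ≤ D ^ 2 / 100)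
    (h1 : s ^ 2 ≤ D ^ 2 + C ^ 2) (h2 : s ^ 2 ≤ 4 * ((D - s) ^ 2 + C ^ 2)) : 4 / 3 * s ≤ D := by
  by_contra hlt
  push Not at hlt
  have h3 : 0.99 * s ≤ D := by
    by_contra h4
    push Not at h4
    nlinarith
  nlinarith

/-- points in the cone are far -/
theorem cone_lower {X : Finset E} {P Q : E} (h : NearPair X P Q) {w : E} (hw : w ∈ X)
    (hD : 0 < dt (Q - P) (w - P)) (hC0 : 0 < cr (Q - P) (w - P))
    (hC : cr (Q - P) (w - P) ≤ dt (Q - P) (w - P) / 10) :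
    4 / 3 * dt (Q - P) (Q - P) ≤ dt (Q - P) (w - P) := by
  have hwP : w ≠ P := by
    rintro rfl
    rw [sub_self] at hC0
    simp [cr] at hC0
  have hwQ : w ≠ Q := by
    rintro rfl
    simp only [cr] at hC0
    nlinarith
  have hd : 0 < dist P Q := dist_pos.2 h.hne
  have hs : 0 < dt (Q - P) (Q - P) := by
    rw [← dist_sq_dt]; positivity
  have h1 : dist P Q ^ 2 ≤ dist P w ^ 2 := by
    have := h.near w hw hwP
    nlinarith
  have h2 : dist P Q ^ 2 ≤ 4 * dist Q w ^ 2 := by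
    have := h.almost w hw hwQ
    nlinarith [dist_nonneg (x := Q) (y := w)]
  rw [dist_sq_dt, dist_sq_dt] at h1 h2
  have e1 := dt_sq_add_cr_sq (Q - P) (w - P)
  have e2 : dt (w - Q) (w - Q) = dt (w - P) (w - P) - 2 * dt (Q - P) (w - P) +
      dt (Q - P) (Q - P) := by
    simp only [dt, PiLp.sub_apply]; ring
  rw [e2] at h2
  refine cone_lower_aux hs hD (C := cr (Q - P) (w - P)) ?_ ?_ ?_
  · nlinarith
  · rw [e1]; nlinarith
  · have : 4 * ((dt (Q - P) (w - P) - dt (Q - P) (Q - P)) ^ 2 + cr (Q - P) (w - P) ^ 2) =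
        dt (Q - P) (Q - P) * (4 * (dt (w - P) (w - P) - 2 * dt (Q - P) (w - P) +
          dt (Q - P) (Q - P))) := by
      linear_combination 4 * e1
    rw [this, pow_two]
    exact mul_le_mul_of_nonneg_left h2 hs.le

/-- a point in the cone has a partner with comparable slope -/
theorem cone_partner {X : Finset E} (hX : GenPos X) {P Q : E} (h : NearPair X P Q) {z : E}
    (hz : z ∈ X) (hD : 0 < dt (Q - P) (z - P)) (hC0 : 0 < cr (Q - P) (z - P))
    (hC : cr (Q - P) (z - P) ≤ dt (Q - P) (z - P) / 10) :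
    ∃ w ∈ Deg X P Q, 0 < dt (Q - P) (w - P) ∧ 0 < cr (Q - P) (w - P) ∧
      cr (Q - P) (w - P) * dt (Q - P) (z - P) ≤ cr (Q - P) (z - P) * dt (Q - P) (w - P) ∧
      cr (Q - P) (z - P) * dt (Q - P) (w - P) ≤
        4 * cr (Q - P) (w - P) * dt (Q - P) (z - P) := by
  have hzP : z ≠ P := by
    rintro rfl
    rw [sub_self] at hC0
    simp [cr] at hC0
  have hzQ : z ≠ Q := by
    rintro rfl
    simp only [cr] at hC0
    nlinarith
  obtain ⟨w, hwD, hwc⟩ := exists_partner hX h.hP h.hQ hz h.hne hzP hzQ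
  obtain ⟨a, b, c, ha, hb, hc, habc, hwe⟩ := mem_triangle hwc
  obtain ⟨e1, e2⟩ := cr_comb habc hwe
  have hwX := hwD.1
  have hcr := cr_ne_zero hX h.hP h.hQ hwX h.hne hwD.2.1 hwD.2.2.1
  have hd : 0 < dist P Q := dist_pos.2 h.hne
  have hs : 0 < dt (Q - P) (Q - P) := by
    rw [← dist_sq_dt]; positivity
  set s := dt (Q - P) (Q - P) with hsdef
  set D := dt (Q - P) (z - P) with hDdef
  set C := cr (Q - P) (z - P) with hCdef
  have hc0 : 0 < c := by
    rcases hc.lt_or_eq with h0 | h0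
    · exact h0
    · rw [e1, ← h0, zero_mul] at hcr
      exact absurd rfl hcr
  have hb1 : b ≤ 1 := by linarith
  have hcC : 0 < cr (Q - P) (w - P) := by rw [e1]; positivity
  have hdD : 0 < dt (Q - P) (w - P) := by rw [e2]; positivity
  have hcone : cr (Q - P) (w - P) ≤ dt (Q - P) (w - P) / 10 := by
    rw [e1, e2]
    nlinarith [mul_nonneg hb hs.le]
  have hfar := cone_lower h hwX hdD hcC hcone
  refine ⟨w, hwD, hdD, hcC, ?_, ?_⟩
  · rw [e1, e2]
    nlinarith [mul_nonneg (mul_nonneg hb hs.le) hC0.le]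
  · rw [← hsdef, e2] at hfar
    rw [e1, e2]
    have h3 : b * s ≤ 3 * (c * D) := by nlinarith
    nlinarith

/-- the angular scales -/
noncomputable def eta (j : ℕ) : ℝ := 1 / (40 * 16 ^ j)

theorem eta_pos (j : ℕ) : 0 < eta j := by unfold eta; positivity

theorem eta_le (j : ℕ) : eta j ≤ 1 / 40 := by
  unfold eta
  apply one_div_le_one_div_of_le (by norm_num)
  have : (1 : ℝ) ≤ 16 ^ j := one_le_pow₀ (by norm_num)
  linarith

theorem eta_lt {i j : ℕ} (h : i < j) : 4 * eta j ≤ eta i / 4 := by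
  unfold eta
  rw [div_div, mul_one_div, div_le_div_iff₀ (by positivity) (by positivity)]
  have : (16 : ℝ) ^ (i + 1) ≤ 16 ^ j := pow_le_pow_right₀ (by norm_num) h
  rw [pow_succ] at this
  linarith

/-- an almost mutually nearest pair has a missed scale -/
theorem exists_missed {X : Finset E} (hX : GenPos X) {P Q : E} (h : NearPair X P Q) {K : ℕ}
    (hK : (Deg X P Q).ncard ≤ K) :
    ∃ j ≤ K, ∀ z ∈ X, 0 < dt (Q - P) (z - P) →
      ¬ (eta j * dt (Q - P) (z - P) ≤ cr (Q - P) (z - P) ∧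
        cr (Q - P) (z - P) < 4 * eta j * dt (Q - P) (z - P)) := by
  classical
  by_contra hcon
  push Not at hcon
  have key : ∀ j : ℕ, ∃ w : E, j ≤ K → (w ∈ Deg X P Q ∧ 0 < dt (Q - P) (w - P) ∧
      eta j / 4 * dt (Q - P) (w - P) ≤ cr (Q - P) (w - P) ∧
      cr (Q - P) (w - P) < 4 * eta j * dt (Q - P) (w - P)) := by
    intro j
    by_cases hj : j ≤ K
    · obtain ⟨z, hz, hD, h1, h2⟩ := hcon j hj
      have he := eta_pos j
      have he' := eta_le j
      have hC0 : 0 < cr (Q - P) (z - P) := lt_of_lt_of_le (by positivity) h1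
      have hC : cr (Q - P) (z - P) ≤ dt (Q - P) (z - P) / 10 := by nlinarith
      obtain ⟨w, hw, hwD, hwC, h3, h4⟩ := cone_partner hX h hz hD hC0 hC
      refine ⟨w, fun _ => ⟨hw, hwD, ?_, ?_⟩⟩
      · have h5 : eta j * dt (Q - P) (z - P) * dt (Q - P) (w - P) ≤
            4 * cr (Q - P) (w - P) * dt (Q - P) (z - P) :=
          (mul_le_mul_of_nonneg_right h1 hwD.le).trans h4
        have h6 : (eta j * dt (Q - P) (w - P)) * dt (Q - P) (z - P) ≤
            (4 * cr (Q - P) (w - P)) * dt (Q - P) (z - P) := by linarith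
        have h7 := le_of_mul_le_mul_right h6 hD
        linarith
      · have h5 : cr (Q - P) (w - P) * dt (Q - P) (z - P) <
            4 * eta j * dt (Q - P) (w - P) * dt (Q - P) (z - P) := by
          calc cr (Q - P) (w - P) * dt (Q - P) (z - P)
              ≤ cr (Q - P) (z - P) * dt (Q - P) (w - P) := h3
            _ < 4 * eta j * dt (Q - P) (z - P) * dt (Q - P) (w - P) :=
                mul_lt_mul_of_pos_right h2 hwD
            _ = _ := by ring
        exact lt_of_mul_lt_mul_right h5 hD.le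
    · exact ⟨P, fun h => absurd h hj⟩
  choose f hf using key
  have hfin := Deg.finite X P Q
  have h1 : (Finset.range (K + 1)).card ≤ hfin.toFinset.card := by
    apply Finset.card_le_card_of_injOn f
    · intro j hj
      have hj' : j ≤ K := by simpa [Nat.lt_succ_iff] using hj
      simpa using (hf j hj').1
    · intro i hi j hj hij
      have hi' : i ≤ K := by simpa [Nat.lt_succ_iff] using hi
      have hj' : j ≤ K := by simpa [Nat.lt_succ_iff] using hj
      obtain ⟨-, a1, a2, a3⟩ := hf i hi'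
      obtain ⟨-, b1, b2, b3⟩ := hf j hj'
      rw [hij] at a1 a2 a3
      by_contra hne
      rcases lt_or_gt_of_ne hne with hlt | hlt
      · have := eta_lt hlt
        nlinarith
      · have := eta_lt hlt
        nlinarith
  rw [Finset.card_range, ← Set.ncard_eq_toFinset_card _ hfin] at h1
  omega

end Pool.Agent.Lib.MP_8bcb9d_co
end

section

/-!
# Empty triangles on a pair: direction classes and Lipschitz graphs
-/

set_option autoImplicit false

namespace Pool.Agent.Lib.MP_8bcb9d_co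

/-- scalar product with the vector `(g0, g1)` -/
def dt' (g0 g1 : ℝ) (v : E) : ℝ := g0 * v 0 + g1 * v 1

/-- cross product with the vector `(g0, g1)` -/
def cr' (g0 g1 : ℝ) (v : E) : ℝ := g0 * v 1 - g1 * v 0

/-- the linear functional of a class -/
noncomputable def hh (η g0 g1 : ℝ) (v : E) : ℝ := cr' g0 g1 v - 5 / 2 * η * dt' g0 g1 v

/-- basic bounds for a grid vector near a unit vector -/
theorem grid_bounds {ε g0 g1 e0 e1 : ℝ} (hε1 : ε ≤ 1 / 4000)
    (hu : (g0 + e0) ^ 2 + (g1 + e1) ^ 2 = 1) (h0 : 0 ≤ e0) (h0' : e0 ≤ ε) (h1 : 0 ≤ e1)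
    (h1' : e1 ≤ ε) : |g0| ≤ 1.001 ∧ |g1| ≤ 1.001 ∧ 0.99 ≤ g0 ^ 2 + g1 ^ 2 := by
  have b0 : |g0 + e0| ≤ 1 := abs_le_of_sq_le_sq (by nlinarith [sq_nonneg (g1 + e1)]) (by norm_num)
  have b1 : |g1 + e1| ≤ 1 := abs_le_of_sq_le_sq (by nlinarith [sq_nonneg (g0 + e0)]) (by norm_num)
  rw [abs_le] at b0 b1
  refine ⟨?_, ?_, ?_⟩
  · rw [abs_le]; constructor <;> linarith
  · rw [abs_le]; constructor <;> linarith
  · nlinarith [mul_nonneg h0 (by linarith : 0 ≤ 1 - (g0 + e0)),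
      mul_nonneg h1 (by linarith : 0 ≤ 1 - (g1 + e1))]

/-- the numerical part of the class lemma -/
theorem class_aux {η ε g0 g1 e0 e1 v0 v1 : ℝ} (hη : 0 < η) (hη1 : η ≤ 1 / 40)
    (hε1 : ε ≤ η / 100)
    (hu : (g0 + e0) ^ 2 + (g1 + e1) ^ 2 = 1) (h0 : 0 ≤ e0) (h0' : e0 ≤ ε) (h1 : 0 ≤ e1)
    (h1' : e1 ≤ ε) (hD : 0 < g0 * v0 + g1 * v1)
    (hh : |g0 * v1 - g1 * v0 - 5 / 2 * η * (g0 * v0 + g1 * v1)| ≤ η * (g0 * v0 + g1 * v1)) :
    0 < (g0 + e0) * v0 + (g1 + e1) * v1 ∧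
      η * ((g0 + e0) * v0 + (g1 + e1) * v1) ≤ (g0 + e0) * v1 - (g1 + e1) * v0 ∧
      (g0 + e0) * v1 - (g1 + e1) * v0 < 4 * η * ((g0 + e0) * v0 + (g1 + e1) * v1) := by
  obtain ⟨b0, b1, b2⟩ := grid_bounds (by linarith : ε ≤ 1 / 4000) hu h0 h0' h1 h1'
  set D := g0 * v0 + g1 * v1 with hDdef
  set C := g0 * v1 - g1 * v0 with hCdef
  have e0' : (g0 ^ 2 + g1 ^ 2) * v0 = g0 * D - g1 * C := by rw [hDdef, hCdef]; ring
  have e1' : (g0 ^ 2 + g1 ^ 2) * v1 = g1 * D + g0 * C := by rw [hDdef, hCdef]; ring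
  have hηD : η * D ≤ D / 40 := by nlinarith
  rw [abs_le] at hh
  have hC1 : 3 / 2 * (η * D) ≤ C := by linarith
  have hC2 : C ≤ 7 / 2 * (η * D) := by linarith
  have hC0 : 0 ≤ C := by nlinarith [mul_pos hη hD]
  have hCD : C ≤ D / 10 := by linarith
  have bv0 : |v0| ≤ 1.2 * D := by
    have h2 : (g0 ^ 2 + g1 ^ 2) * |v0| ≤ 1.001 * D + 1.001 * C := by
      calc (g0 ^ 2 + g1 ^ 2) * |v0| = |(g0 ^ 2 + g1 ^ 2) * v0| := by
            rw [abs_mul, abs_of_nonneg (a := g0 ^ 2 + g1 ^ 2) (by positivity)]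
        _ = |g0 * D - g1 * C| := by rw [e0']
        _ ≤ |g0 * D| + |g1 * C| := abs_sub _ _
        _ = |g0| * D + |g1| * C := by rw [abs_mul, abs_mul, abs_of_pos hD, abs_of_nonneg hC0]
        _ ≤ _ := add_le_add (mul_le_mul_of_nonneg_right b0 hD.le)
            (mul_le_mul_of_nonneg_right b1 hC0)
    nlinarith [abs_nonneg v0]
  have bv1 : |v1| ≤ 1.2 * D := by
    have h2 : (g0 ^ 2 + g1 ^ 2) * |v1| ≤ 1.001 * D + 1.001 * C := by
      calc (g0 ^ 2 + g1 ^ 2) * |v1| = |(g0 ^ 2 + g1 ^ 2) * v1| := by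
            rw [abs_mul, abs_of_nonneg (a := g0 ^ 2 + g1 ^ 2) (by positivity)]
        _ = |g1 * D + g0 * C| := by rw [e1']
        _ ≤ |g1 * D| + |g0 * C| := abs_add_le _ _
        _ = |g1| * D + |g0| * C := by rw [abs_mul, abs_mul, abs_of_pos hD, abs_of_nonneg hC0]
        _ ≤ _ := add_le_add (mul_le_mul_of_nonneg_right b1 hD.le)
            (mul_le_mul_of_nonneg_right b0 hC0)
    nlinarith [abs_nonneg v1]
  have hε0 : 0 ≤ ε := h0.trans h0'
  have herr : ∀ x y : ℝ, |x| ≤ 1.2 * D → |y| ≤ 1.2 * D → |e0 * x + e1 * y| ≤ 0.024 * (η * D) := by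
    intro x y hx hy
    calc |e0 * x + e1 * y| ≤ |e0 * x| + |e1 * y| := abs_add_le _ _
      _ = e0 * |x| + e1 * |y| := by rw [abs_mul, abs_mul, abs_of_nonneg h0, abs_of_nonneg h1]
      _ ≤ ε * (1.2 * D) + ε * (1.2 * D) := by
          gcongr
      _ ≤ _ := by nlinarith
  have r1 := abs_le.1 (herr v0 v1 bv0 bv1)
  have r2 := abs_le.1 (herr v1 (-v0) bv1 (by rwa [abs_neg]))
  have q1 : (g0 + e0) * v0 + (g1 + e1) * v1 = D + (e0 * v0 + e1 * v1) := by rw [hDdef]; ring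
  have q2 : (g0 + e0) * v1 - (g1 + e1) * v0 = C + (e0 * v1 + e1 * (-v0)) := by rw [hCdef]; ring
  rw [q1, q2]
  have hDη : 0 < η * D := mul_pos hη hD
  have hlow : 0.99 * D ≤ D + (e0 * v0 + e1 * v1) := by linarith [r1.1]
  have hupp : D + (e0 * v0 + e1 * v1) ≤ 1.01 * D := by linarith [r1.2]
  refine ⟨by linarith, ?_, ?_⟩
  · calc η * (D + (e0 * v0 + e1 * v1)) ≤ η * (1.01 * D) := mul_le_mul_of_nonneg_left hupp hη.le
      _ = 1.01 * (η * D) := by ring
      _ ≤ _ := by linarith [r2.1]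
  · calc C + (e0 * v1 + e1 * (-v0)) < 3.96 * (η * D) := by linarith [r2.2]
      _ = 4 * η * (0.99 * D) := by ring
      _ ≤ _ := mul_le_mul_of_nonneg_left hlow (by positivity)

/-- `P` is a centre of class `(η, g0, g1)` -/
def Centre (X : Finset E) (η g0 g1 : ℝ) (P : E) : Prop :=
  P ∈ X ∧ ∀ z ∈ X, 0 < dt' g0 g1 (z - P) → ¬ |hh η g0 g1 (z - P)| ≤ η * dt' g0 g1 (z - P)

/-- Differences of centres of one class are controlled by the functional `hh`. -/
theorem Centre.lip {X : Finset E} {η g0 g1 : ℝ} (hη : 0 < η) (hη1 : η ≤ 1 / 40)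
    (b0 : |g0| ≤ 1.001) (b1 : |g1| ≤ 1.001) (b2 : 0.99 ≤ g0 ^ 2 + g1 ^ 2) {P P' : E}
    (h : Centre X η g0 g1 P) (h' : Centre X η g0 g1 P') :
    η * |P' 0 - P 0| ≤ 1.2 * |hh η g0 g1 (P' - P)| ∧
      η * |P' 1 - P 1| ≤ 1.2 * |hh η g0 g1 (P' - P)| := by
  set D := dt' g0 g1 (P' - P) with hD
  set C := cr' g0 g1 (P' - P) with hC
  set H := |hh η g0 g1 (P' - P)| with hH
  have hDH : η * |D| ≤ H := by
    rcases lt_trichotomy 0 D with h0 | h0 | h0
    · have := h.2 P' h'.1 h0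
      rw [not_le] at this
      rw [abs_of_pos h0]
      exact this.le
    · rw [← h0, abs_zero, mul_zero]; exact abs_nonneg _
    · have e1 : dt' g0 g1 (P - P') = -D := by
        rw [hD]; simp only [dt', PiLp.sub_apply]; ring
      have e2 : hh η g0 g1 (P - P') = -hh η g0 g1 (P' - P) := by
        simp only [hh, dt', cr', PiLp.sub_apply]; ring
      have := h'.2 P h.1 (by rw [e1]; linarith)
      rw [not_le, e1, e2, abs_neg] at this
      rw [abs_of_neg h0]
      exact this.le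
  have hH0 : 0 ≤ H := abs_nonneg _
  have hCH : |C| ≤ 7 / 2 * H := by
    have : C = hh η g0 g1 (P' - P) + 5 / 2 * (η * D) := by
      rw [hC, hD]; simp only [hh]; ring
    calc |C| = |hh η g0 g1 (P' - P) + 5 / 2 * (η * D)| := by rw [← this]
      _ ≤ |hh η g0 g1 (P' - P)| + |5 / 2 * (η * D)| := abs_add_le _ _
      _ = H + 5 / 2 * (η * |D|) := by
          rw [abs_mul, abs_mul, abs_of_pos hη, abs_of_pos (by norm_num : (0 : ℝ) < 5 / 2)]
      _ ≤ _ := by linarith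
  have hηC : η * |C| ≤ 0.0875 * H := by nlinarith [abs_nonneg C]
  have e0' : (g0 ^ 2 + g1 ^ 2) * (P' 0 - P 0) = g0 * D - g1 * C := by
    rw [hD, hC]; simp only [dt', cr', PiLp.sub_apply]; ring
  have e1' : (g0 ^ 2 + g1 ^ 2) * (P' 1 - P 1) = g1 * D + g0 * C := by
    rw [hD, hC]; simp only [dt', cr', PiLp.sub_apply]; ring
  have hD0 := abs_nonneg D
  have hC0 := abs_nonneg C
  constructor
  · have h2 : (g0 ^ 2 + g1 ^ 2) * |P' 0 - P 0| ≤ 1.001 * |D| + 1.001 * |C| := by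
      calc (g0 ^ 2 + g1 ^ 2) * |P' 0 - P 0| = |(g0 ^ 2 + g1 ^ 2) * (P' 0 - P 0)| := by
            rw [abs_mul, abs_of_nonneg (a := g0 ^ 2 + g1 ^ 2) (by positivity)]
        _ = |g0 * D - g1 * C| := by rw [e0']
        _ ≤ |g0 * D| + |g1 * C| := abs_sub _ _
        _ = |g0| * |D| + |g1| * |C| := by rw [abs_mul, abs_mul]
        _ ≤ _ := add_le_add (mul_le_mul_of_nonneg_right b0 hD0)
            (mul_le_mul_of_nonneg_right b1 hC0)
    have h3 := mul_le_mul_of_nonneg_left h2 hη.le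
    have h4 : 0.99 * (η * |P' 0 - P 0|) ≤ η * ((g0 ^ 2 + g1 ^ 2) * |P' 0 - P 0|) := by
      nlinarith [mul_nonneg hη.le (abs_nonneg (P' 0 - P 0))]
    nlinarith
  · have h2 : (g0 ^ 2 + g1 ^ 2) * |P' 1 - P 1| ≤ 1.001 * |D| + 1.001 * |C| := by
      calc (g0 ^ 2 + g1 ^ 2) * |P' 1 - P 1| = |(g0 ^ 2 + g1 ^ 2) * (P' 1 - P 1)| := by
            rw [abs_mul, abs_of_nonneg (a := g0 ^ 2 + g1 ^ 2) (by positivity)]
        _ = |g1 * D + g0 * C| := by rw [e1']
        _ ≤ |g1 * D| + |g0 * C| := abs_add_le _ _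
        _ = |g1| * |D| + |g0| * |C| := by rw [abs_mul, abs_mul]
        _ ≤ _ := add_le_add (mul_le_mul_of_nonneg_right b1 hD0)
            (mul_le_mul_of_nonneg_right b0 hC0)
    have h3 := mul_le_mul_of_nonneg_left h2 hη.le
    have h4 : 0.99 * (η * |P' 1 - P 1|) ≤ η * ((g0 ^ 2 + g1 ^ 2) * |P' 1 - P 1|) := by
      nlinarith [mul_nonneg hη.le (abs_nonneg (P' 1 - P 1))]
    nlinarith

theorem hh_sub_le {η g0 g1 : ℝ} (hη : 0 < η) (hη1 : η ≤ 1 / 40)
    (b0 : |g0| ≤ 1.001) (b1 : |g1| ≤ 1.001) (x y : E) :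
    |hh η g0 g1 x - hh η g0 g1 y| ≤ 2.2 * dist x y := by
  have h0 := abs_sub_zero_le x y
  have h1 := abs_sub_one_le x y
  have hd : 0 ≤ dist x y := dist_nonneg
  have e : hh η g0 g1 x - hh η g0 g1 y = (g0 - 5 / 2 * η * g1) * (x 1 - y 1) -
      (g1 + 5 / 2 * η * g0) * (x 0 - y 0) := by
    simp only [hh, cr', dt']; ring
  rw [abs_le] at b0 b1
  have c0 : |g0 - 5 / 2 * η * g1| ≤ 1.1 := by
    rw [abs_le]; constructor <;> nlinarith
  have c1 : |g1 + 5 / 2 * η * g0| ≤ 1.1 := by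
    rw [abs_le]; constructor <;> nlinarith
  calc |hh η g0 g1 x - hh η g0 g1 y|
      ≤ |(g0 - 5 / 2 * η * g1) * (x 1 - y 1)| + |(g1 + 5 / 2 * η * g0) * (x 0 - y 0)| := by
        rw [e]; exact abs_sub _ _
    _ = |g0 - 5 / 2 * η * g1| * |x 1 - y 1| + |g1 + 5 / 2 * η * g0| * |x 0 - y 0| := by
        rw [abs_mul, abs_mul]
    _ ≤ 1.1 * dist x y + 1.1 * dist x y := by gcongr
    _ = _ := by ring

/-- Class lemma: near every point `p` of `X` there is a centre of one of finitely many classes. -/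
theorem exists_class {X : Finset E} (hX : GenPos X) {K : ℕ}
    (hK : ∀ x ∈ X, ∀ y ∈ X, x ≠ y → (Deg X x y).ncard ≤ K) {M : ℕ} (hM : M = 4000 * 16 ^ K)
    {p q : E} (hp : p ∈ X) (hq : q ∈ X) (hpq : q ≠ p) :
    ∃ (P : E) (j : ℕ) (a b : ℤ), j ≤ K ∧ |a| ≤ M ∧ |b| ≤ M ∧
      |(a : ℝ) / M| ≤ 1.001 ∧ |(b : ℝ) / M| ≤ 1.001 ∧
      0.99 ≤ ((a : ℝ) / M) ^ 2 + ((b : ℝ) / M) ^ 2 ∧
      Centre X (eta j) ((a : ℝ) / M) ((b : ℝ) / M) P ∧
      ∀ z ∈ X, z ≠ p → dist p P ≤ 2 * dist p z := by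
  obtain ⟨P, Q, hPQ, hdist⟩ := exists_nearPair hp hq hpq
  obtain ⟨j, hj, hmiss⟩ := exists_missed hX hPQ (hK P hPQ.hP Q hPQ.hQ hPQ.hne)
  have hd : 0 < dist P Q := dist_pos.2 hPQ.hne
  have hd2 : dist P Q ^ 2 = (Q 0 - P 0) ^ 2 + (Q 1 - P 1) ^ 2 := by
    rw [dist_comm, dist_sq]
  set d := dist P Q with hddef
  have hM0 : (0 : ℝ) < M := by rw [hM]; push_cast; positivity
  have hM1 : (4000 : ℝ) * 16 ^ K = M := by rw [hM]; push_cast; ring
  set u0 := (Q 0 - P 0) / d with hu0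
  set u1 := (Q 1 - P 1) / d with hu1
  have hu : u0 ^ 2 + u1 ^ 2 = 1 := by
    rw [hu0, hu1, div_pow, div_pow, ← add_div, ← hd2, div_self (by positivity)]
  have hf0 := Int.floor_le (M * u0)
  have hf1 := Int.lt_floor_add_one (M * u0)
  have hf2 := Int.floor_le (M * u1)
  have hf3 := Int.lt_floor_add_one (M * u1)
  have bu0 : |u0| ≤ 1 := abs_le_of_sq_le_sq (by nlinarith [sq_nonneg u1]) (by norm_num)
  have bu1 : |u1| ≤ 1 := abs_le_of_sq_le_sq (by nlinarith [sq_nonneg u0]) (by norm_num)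
  rw [abs_le] at bu0 bu1
  have hfloor : ∀ u : ℝ, -1 ≤ u → u ≤ 1 → |⌊(M : ℝ) * u⌋| ≤ (M : ℤ) := by
    intro u h1 h2
    rw [abs_le]
    constructor
    · apply Int.le_floor.2
      push_cast
      nlinarith
    · have h3 : (⌊(M : ℝ) * u⌋ : ℝ) ≤ ((M : ℤ) : ℝ) := by
        refine (Int.floor_le _).trans ?_
        push_cast
        nlinarith
      exact_mod_cast h3
  have hg0 : (⌊(M : ℝ) * u0⌋ : ℝ) / M ≤ u0 := by
    rw [div_le_iff₀ hM0]; linarith
  have hg0' : u0 - (⌊(M : ℝ) * u0⌋ : ℝ) / M ≤ 1 / M := by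
    rw [sub_le_iff_le_add, ← add_div, le_div_iff₀ hM0]; linarith
  have hg1 : (⌊(M : ℝ) * u1⌋ : ℝ) / M ≤ u1 := by
    rw [div_le_iff₀ hM0]; linarith
  have hg1' : u1 - (⌊(M : ℝ) * u1⌋ : ℝ) / M ≤ 1 / M := by
    rw [sub_le_iff_le_add, ← add_div, le_div_iff₀ hM0]; linarith
  set g0 := (⌊(M : ℝ) * u0⌋ : ℝ) / M with hg0def
  set g1 := (⌊(M : ℝ) * u1⌋ : ℝ) / M with hg1def
  have hη := eta_pos j
  have hη1 := eta_le j
  have hε : 1 / (M : ℝ) ≤ eta j / 100 := by
    unfold eta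
    rw [div_div, ← hM1]
    apply one_div_le_one_div_of_le (by positivity)
    have : (16 : ℝ) ^ j ≤ 16 ^ K := pow_le_pow_right₀ (by norm_num) hj
    linarith
  have hu' : (g0 + (u0 - g0)) ^ 2 + (g1 + (u1 - g1)) ^ 2 = 1 := by
    rw [← hu]; ring
  obtain ⟨b0, b1, b2⟩ := grid_bounds (by linarith : 1 / (M : ℝ) ≤ 1 / 4000) hu'
    (by linarith) hg0' (by linarith) hg1'
  refine ⟨P, j, ⌊(M : ℝ) * u0⌋, ⌊(M : ℝ) * u1⌋, hj, hfloor u0 bu0.1 bu0.2, hfloor u1 bu1.1 bu1.2,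
    b0, b1, b2, ⟨hPQ.hP, ?_⟩, hdist⟩
  intro z hz hD hcon
  have hD' : 0 < g0 * (z - P) 0 + g1 * (z - P) 1 := hD
  have hcon' : |g0 * (z - P) 1 - g1 * (z - P) 0 -
      5 / 2 * eta j * (g0 * (z - P) 0 + g1 * (z - P) 1)| ≤
      eta j * (g0 * (z - P) 0 + g1 * (z - P) 1) := hcon
  obtain ⟨c1, c2, c3⟩ := class_aux hη hη1 hε hu' (by linarith) hg0' (by linarith) hg1' hD' hcon'
  have e0 : g0 + (u0 - g0) = u0 := by ring
  have e1 : g1 + (u1 - g1) = u1 := by ring
  rw [e0, e1] at c1 c2 c3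
  have f1 : dt (Q - P) (z - P) = d * (u0 * (z - P) 0 + u1 * (z - P) 1) := by
    rw [hu0, hu1]
    simp only [dt, PiLp.sub_apply]
    field_simp
  have f2 : cr (Q - P) (z - P) = d * (u0 * (z - P) 1 - u1 * (z - P) 0) := by
    rw [hu0, hu1]
    simp only [cr, PiLp.sub_apply]
    field_simp
  refine hmiss z hz (by rw [f1]; positivity) ⟨?_, ?_⟩
  · rw [f1, f2]
    calc eta j * (d * (u0 * (z - P) 0 + u1 * (z - P) 1))
        = d * (eta j * (u0 * (z - P) 0 + u1 * (z - P) 1)) := by ring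
      _ ≤ _ := mul_le_mul_of_nonneg_left c2 hd.le
  · rw [f1, f2]
    calc d * (u0 * (z - P) 1 - u1 * (z - P) 0)
        < d * (4 * eta j * (u0 * (z - P) 0 + u1 * (z - P) 1)) := mul_lt_mul_of_pos_left c3 hd
      _ = _ := by ring

end Pool.Agent.Lib.MP_8bcb9d_co
end

section

/-!
# Empty triangles on a pair: counting
-/

set_option autoImplicit false

namespace Pool.Agent.Lib.MP_8bcb9d_co

theorem card_Icc_floor_le {x y : ℝ} (hxy : x ≤ y) :
    ((Finset.Icc ⌊x⌋ ⌊y⌋).card : ℝ) ≤ y - x + 2 := by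
  have h1 : ⌊x⌋ ≤ ⌊y⌋ := Int.floor_le_floor hxy
  rw [Int.card_Icc]
  have h2 : (((⌊y⌋ + 1 - ⌊x⌋).toNat : ℤ) : ℝ) = ((⌊y⌋ + 1 - ⌊x⌋ : ℤ) : ℝ) := by
    rw [Int.toNat_of_nonneg (by omega)]
  have h3 : (((⌊y⌋ + 1 - ⌊x⌋).toNat : ℕ) : ℝ) = ((⌊y⌋ + 1 - ⌊x⌋ : ℤ) : ℝ) := by
    rw [← h2]; push_cast; rfl
  rw [h3]
  push_cast
  have h4 := Int.floor_le y
  have h5 := Int.lt_floor_add_one x
  linarith

/-- two reals in the same cell are close -/
theorem abs_sub_lt_of_floor {x y s : ℝ} (hs : 0 < s) (h : ⌊x / s⌋ = ⌊y / s⌋) : |x - y| < s := by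
  have h1 := Int.abs_sub_lt_one_of_floor_eq_floor h
  rw [← sub_div, abs_div, abs_of_pos hs, div_lt_one hs] at h1
  exact h1

/-- separated sets in a small box -/
theorem packing {F : Finset E} {t : ℝ} (ht : 0 < t)
    (hsep : ∀ p ∈ F, ∀ q ∈ F, p ≠ q → t ≤ dist p q) {p0 : E}
    (h0 : ∀ p ∈ F, |p 0 - p0 0| ≤ 9.2 * t) (h1 : ∀ p ∈ F, |p 1 - p0 1| ≤ 9.2 * t) :
    F.card ≤ 1600 := by
  classical
  have hs : 0 < t / 2 := by positivity
  let f : E → ℤ × ℤ := fun p => (⌊p 0 / (t / 2)⌋, ⌊p 1 / (t / 2)⌋)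
  let B : Finset (ℤ × ℤ) :=
    Finset.Icc ⌊(p0 0 - 9.2 * t) / (t / 2)⌋ ⌊(p0 0 + 9.2 * t) / (t / 2)⌋ ×ˢ
      Finset.Icc ⌊(p0 1 - 9.2 * t) / (t / 2)⌋ ⌊(p0 1 + 9.2 * t) / (t / 2)⌋
  have hle : F.card ≤ B.card := by
    apply Finset.card_le_card_of_injOn f
    · intro p hp
      have a0 := abs_le.1 (h0 p hp)
      have a1 := abs_le.1 (h1 p hp)
      simp only [f, B, Finset.coe_product, Set.mem_prod, Finset.coe_Icc, Set.mem_Icc]
      refine ⟨⟨Int.floor_le_floor ?_, Int.floor_le_floor ?_⟩,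
        Int.floor_le_floor ?_, Int.floor_le_floor ?_⟩
      all_goals
        apply div_le_div_of_nonneg_right _ hs.le
        linarith
    · intro p hp q hq hpq
      by_contra hne
      have e0 : ⌊p 0 / (t / 2)⌋ = ⌊q 0 / (t / 2)⌋ := congrArg Prod.fst hpq
      have e1 : ⌊p 1 / (t / 2)⌋ = ⌊q 1 / (t / 2)⌋ := congrArg Prod.snd hpq
      have b0 := abs_lt.1 (abs_sub_lt_of_floor hs e0)
      have b1 := abs_lt.1 (abs_sub_lt_of_floor hs e1)
      have h2 := hsep p hp q hq hne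
      have h3 : t ^ 2 ≤ dist p q ^ 2 := by
        have : 0 ≤ dist p q := dist_nonneg
        nlinarith
      rw [dist_sq] at h3
      nlinarith
  have hcard : ∀ x : ℝ, (Finset.Icc ⌊(x - 9.2 * t) / (t / 2)⌋ ⌊(x + 9.2 * t) / (t / 2)⌋).card ≤
      40 := by
    intro x
    have h2 := card_Icc_floor_le (x := (x - 9.2 * t) / (t / 2)) (y := (x + 9.2 * t) / (t / 2))
      (div_le_div_of_nonneg_right (by linarith) hs.le)
    have h3 : (x + 9.2 * t) / (t / 2) - (x - 9.2 * t) / (t / 2) + 2 ≤ 40 := by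
      rw [← sub_div]
      have : (x + 9.2 * t - (x - 9.2 * t)) / (t / 2) = 36.8 := by
        field_simp
        ring
      rw [this]; norm_num
    exact_mod_cast h2.trans h3
  calc F.card ≤ B.card := hle
    _ ≤ 40 * 40 := by
        rw [Finset.card_product]
        exact Nat.mul_le_mul (hcard _) (hcard _)
    _ = 1600 := by norm_num

theorem hh_sub (η g0 g1 : ℝ) (x y : E) : hh η g0 g1 (x - y) = hh η g0 g1 x - hh η g0 g1 y := by
  simp only [hh, dt', cr', PiLp.sub_apply]; ring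

/-- Number of points of one class at one scale. -/
theorem class_card {X : Finset E} {η g0 g1 : ℝ} (hη : 0 < η) (hη1 : η ≤ 1 / 40)
    (b0 : |g0| ≤ 1.001) (b1 : |g1| ≤ 1.001) (b2 : 0.99 ≤ g0 ^ 2 + g1 ^ 2)
    {F : Finset E} {P : E → E} {c : E} {R t : ℝ} (ht : 0 < t) (htR : t ≤ 2 * R)
    (hsep : ∀ p ∈ F, ∀ q ∈ F, p ≠ q → t ≤ dist p q)
    (hP : ∀ p ∈ F, dist p (P p) ≤ 4 * t) (hR : ∀ p ∈ F, dist p c ≤ R)
    (hcen : ∀ p ∈ F, Centre X η g0 g1 (P p)) :
    (F.card : ℝ) ≤ 64000 * R / (η * t) := by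
  classical
  have hηt : 0 < η * t := mul_pos hη ht
  have hR0 : 0 < R := by linarith
  let f : E → ℤ := fun p => ⌊hh η g0 g1 (P p) / (η * t)⌋
  let lo : ℝ := (hh η g0 g1 c - 2.2 * (R + 4 * t)) / (η * t)
  let hi : ℝ := (hh η g0 g1 c + 2.2 * (R + 4 * t)) / (η * t)
  have himg : F.image f ⊆ Finset.Icc ⌊lo⌋ ⌊hi⌋ := by
    intro k hk
    obtain ⟨p, hp, rfl⟩ := Finset.mem_image.1 hk
    have h1 := hh_sub_le hη hη1 b0 b1 (P p) c
    have h2 : dist (P p) c ≤ R + 4 * t := by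
      calc dist (P p) c ≤ dist (P p) p + dist p c := dist_triangle _ _ _
        _ ≤ 4 * t + R := add_le_add (by rw [dist_comm]; exact hP p hp) (hR p hp)
        _ = _ := by ring
    have h3 := abs_le.1 h1
    rw [Finset.mem_Icc]
    constructor
    · apply Int.floor_le_floor
      apply div_le_div_of_nonneg_right _ hηt.le
      linarith [h3.1]
    · apply Int.floor_le_floor
      apply div_le_div_of_nonneg_right _ hηt.le
      linarith [h3.2]
  have hlohi : lo ≤ hi := by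
    apply div_le_div_of_nonneg_right _ hηt.le
    linarith
  have hcimg : ((F.image f).card : ℝ) ≤ 4.4 * (R + 4 * t) / (η * t) + 2 := by
    have h1 : ((F.image f).card : ℝ) ≤ ((Finset.Icc ⌊lo⌋ ⌊hi⌋).card : ℝ) := by
      exact_mod_cast Finset.card_le_card himg
    have h2 := card_Icc_floor_le hlohi
    have h3 : hi - lo = 4.4 * (R + 4 * t) / (η * t) := by
      simp only [lo, hi]
      rw [← sub_div]
      congr 1
      ring
    rw [h3] at h2
    exact h1.trans h2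
  have hfib : ∀ k ∈ F.image f, (F.filter fun p => f p = k).card ≤ 1600 := by
    intro k hk
    obtain ⟨p0, hp0, hk0⟩ := Finset.mem_image.1 hk
    have hclose : ∀ p ∈ F.filter (fun p => f p = k),
        |p 0 - p0 0| ≤ 9.2 * t ∧ |p 1 - p0 1| ≤ 9.2 * t := by
      intro p hp
      rw [Finset.mem_filter] at hp
      have h1 := (hcen p0 hp0).lip hη hη1 b0 b1 b2 (hcen p hp.1)
      have h2 : |hh η g0 g1 (P p - P p0)| < η * t := by
        rw [hh_sub]
        apply abs_sub_lt_of_floor hηt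
        rw [← hk0] at hp
        exact hp.2
      have h3 : ∀ x : ℝ, η * x ≤ 1.2 * |hh η g0 g1 (P p - P p0)| → x ≤ 1.2 * t := by
        intro x hx
        by_contra hcon
        push Not at hcon
        have : η * (1.2 * t) < η * x := mul_lt_mul_of_pos_left hcon hη
        linarith
      have h4 := h3 _ h1.1
      have h5 := h3 _ h1.2
      have h6 := hP p hp.1
      have h7 := hP p0 hp0
      have a1 := abs_le.1 ((abs_sub_zero_le p (P p)).trans h6)
      have a2 := abs_le.1 ((abs_sub_zero_le p0 (P p0)).trans h7)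
      have a3 := abs_le.1 ((abs_sub_one_le p (P p)).trans h6)
      have a4 := abs_le.1 ((abs_sub_one_le p0 (P p0)).trans h7)
      have a5 := abs_le.1 h4
      have a6 := abs_le.1 h5
      constructor
      · rw [abs_le]; constructor <;> linarith [a1.1, a1.2, a2.1, a2.2, a5.1, a5.2]
      · rw [abs_le]; constructor <;> linarith [a3.1, a3.2, a4.1, a4.2, a6.1, a6.2]
    refine packing ht ?_ (fun p hp => (hclose p hp).1) (fun p hp => (hclose p hp).2)
    intro p hp q hq hpq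
    exact hsep p (Finset.mem_filter.1 hp).1 q (Finset.mem_filter.1 hq).1 hpq
  have h1 := Finset.card_le_mul_card_image F 1600 hfib
  have h2 : (F.card : ℝ) ≤ 1600 * ((F.image f).card : ℝ) := by exact_mod_cast h1
  have h3 : 4.4 * (R + 4 * t) / (η * t) + 2 ≤ 40 * R / (η * t) := by
    rw [div_add' _ _ _ hηt.ne']
    apply div_le_div_of_nonneg_right _ hηt.le
    nlinarith
  calc (F.card : ℝ) ≤ 1600 * ((F.image f).card : ℝ) := h2
    _ ≤ 1600 * (40 * R / (η * t)) := by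
        apply mul_le_mul_of_nonneg_left (hcimg.trans h3) (by norm_num)
    _ = 64000 * R / (η * t) := by ring

/-- Number of points at one scale. -/
theorem scale_card {X : Finset E} (hX : GenPos X) {K : ℕ}
    (hK : ∀ x ∈ X, ∀ y ∈ X, x ≠ y → (Deg X x y).ncard ≤ K)
    {F : Finset E} (hF : F ⊆ X) {c : E} {R t : ℝ} (ht : 0 < t) (htR : t ≤ 2 * R)
    (hsep : ∀ p ∈ F, ∀ q ∈ F, p ≠ q → t ≤ dist p q)
    (hnear : ∀ p ∈ F, ∃ z ∈ X, z ≠ p ∧ dist p z ≤ 2 * t) (hR : ∀ p ∈ F, dist p c ≤ R) :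
    (F.card : ℝ) ≤ 4 * 10 ^ 14 * ((K + 1) * 4096 ^ K) * (R / t) := by
  classical
  obtain ⟨M, hM⟩ : ∃ M : ℕ, M = 4000 * 16 ^ K := ⟨_, rfl⟩
  have hR0 : 0 < R := by linarith
  have key : ∀ p : E, ∃ (P : E) (j : ℕ) (a b : ℤ), p ∈ F → (j ≤ K ∧ |a| ≤ M ∧ |b| ≤ M ∧
      |(a : ℝ) / M| ≤ 1.001 ∧ |(b : ℝ) / M| ≤ 1.001 ∧
      0.99 ≤ ((a : ℝ) / M) ^ 2 + ((b : ℝ) / M) ^ 2 ∧
      Centre X (eta j) ((a : ℝ) / M) ((b : ℝ) / M) P ∧ dist p P ≤ 4 * t) := by
    intro p
    by_cases hp : p ∈ F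
    · obtain ⟨z, hz, hzp, hzt⟩ := hnear p hp
      obtain ⟨P, j, a, b, h1, h2, h3, h4, h5, h6, h7, h8⟩ :=
        exists_class hX hK hM (hF hp) hz hzp
      exact ⟨P, j, a, b, fun _ => ⟨h1, h2, h3, h4, h5, h6, h7, by linarith [h8 z hz hzp]⟩⟩
    · exact ⟨p, 0, 0, 0, fun h => absurd h hp⟩
  choose P j a b hkey using key
  let f : E → ℕ × ℤ × ℤ := fun p => (j p, a p, b p)
  let B : Finset (ℕ × ℤ × ℤ) :=
    Finset.range (K + 1) ×ˢ (Finset.Icc (-(M : ℤ)) M ×ˢ Finset.Icc (-(M : ℤ)) M)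
  have himg : F.image f ⊆ B := by
    intro k hk
    obtain ⟨p, hp, rfl⟩ := Finset.mem_image.1 hk
    obtain ⟨h1, h2, h3, -⟩ := hkey p hp
    simp only [f, B, Finset.mem_product, Finset.mem_range, Finset.mem_Icc]
    rw [abs_le] at h2 h3
    exact ⟨by omega, h2, h3⟩
  have hBcard : (B.card : ℝ) = (K + 1) * (2 * M + 1) ^ 2 := by
    have e1 : ((M : ℤ) + 1 - -(M : ℤ)).toNat = 2 * M + 1 := by omega
    simp only [B, Finset.card_product, Finset.card_range, Int.card_Icc, e1]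
    push_cast; ring
  have hηK := eta_pos K
  have hfib : ∀ k ∈ F.image f, (F.filter fun p => f p = k).card ≤
      ⌊64000 * R / (eta K * t)⌋₊ := by
    intro k hk
    obtain ⟨p0, hp0, hk0⟩ := Finset.mem_image.1 hk
    obtain ⟨h1, h2, h3, h4, h5, h6, h7, h8⟩ := hkey p0 hp0
    apply Nat.le_floor
    have hcl := class_card (X := X) (eta_pos (j p0)) (eta_le (j p0)) h4 h5 h6
      (F := F.filter fun p => f p = k) (P := P) (c := c) (R := R) ht htR
      (fun p hp q hq hpq => hsep p (Finset.mem_filter.1 hp).1 q (Finset.mem_filter.1 hq).1 hpq)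
      (fun p hp => (hkey p (Finset.mem_filter.1 hp).1).2.2.2.2.2.2.2)
      (fun p hp => hR p (Finset.mem_filter.1 hp).1)
      (fun p hp => by
        obtain ⟨hpF, hpk⟩ := Finset.mem_filter.1 hp
        have h9 := (hkey p hpF).2.2.2.2.2.2.1
        have hpk' : f p = f p0 := hpk.trans hk0.symm
        have e1 : j p = j p0 := congrArg Prod.fst hpk'
        have e2 : a p = a p0 := congrArg (fun x => x.2.1) hpk'
        have e3 : b p = b p0 := congrArg (fun x => x.2.2) hpk'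
        rwa [e1, e2, e3] at h9)
    refine hcl.trans ?_
    apply div_le_div_of_nonneg_left (by positivity) (by positivity)
    apply mul_le_mul_of_nonneg_right _ ht.le
    unfold eta
    apply one_div_le_one_div_of_le (by positivity)
    have : (16 : ℝ) ^ (j p0) ≤ 16 ^ K := pow_le_pow_right₀ (by norm_num) h1
    linarith
  have h1 := Finset.card_le_mul_card_image F _ hfib
  have h2 : (F.card : ℝ) ≤ (⌊64000 * R / (eta K * t)⌋₊ : ℝ) * ((F.image f).card : ℝ) := by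
    exact_mod_cast h1
  have h3 : ((F.image f).card : ℝ) ≤ (K + 1) * (2 * M + 1) ^ 2 := by
    rw [← hBcard]
    exact_mod_cast Finset.card_le_card himg
  have h4 : (⌊64000 * R / (eta K * t)⌋₊ : ℝ) ≤ 64000 * R / (eta K * t) :=
    Nat.floor_le (by positivity)
  have h5 : 64000 * R / (eta K * t) = 2560000 * 16 ^ K * (R / t) := by
    unfold eta
    field_simp
    ring
  have h6 : ((2 : ℝ) * M + 1) ^ 2 ≤ 65000000 * 256 ^ K := by
    have e1 : (M : ℝ) = 4000 * 16 ^ K := by rw [hM]; push_cast; ring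
    have e2 : (256 : ℝ) ^ K = (16 ^ K) ^ 2 := by
      rw [← pow_mul, mul_comm K 2, pow_mul]; norm_num
    rw [e1, e2]
    have e3 : (1 : ℝ) ≤ 16 ^ K := one_le_pow₀ (by norm_num)
    nlinarith
  calc (F.card : ℝ) ≤ (⌊64000 * R / (eta K * t)⌋₊ : ℝ) * ((F.image f).card : ℝ) := h2
    _ ≤ (2560000 * 16 ^ K * (R / t)) * ((K + 1) * (65000000 * 256 ^ K)) := by
        rw [← h5]
        apply mul_le_mul h4 _ (by positivity) (by positivity)
        exact h3.trans (mul_le_mul_of_nonneg_left h6 (by positivity))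
    _ = 166400000000000 * ((K + 1) * (16 ^ K * 256 ^ K)) * (R / t) := by ring
    _ ≤ 4 * 10 ^ 14 * ((K + 1) * (16 ^ K * 256 ^ K)) * (R / t) := by
        gcongr
        norm_num
    _ = _ := by
        rw [← mul_pow]; norm_num

end Pool.Agent.Lib.MP_8bcb9d_co
end

section

/-!
# Empty triangles on a pair: the covering lemma
-/

set_option autoImplicit false

namespace Pool.Agent.Lib.MP_8bcb9d_co

/-- **Covering lemma.** If all pairs have degree at most `K`, then an `r`-separated subset of `X`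
in a ball of radius `R ≥ r` has at most `C_K * R / r` points. -/
theorem covering {X : Finset E} (hX : GenPos X) {K : ℕ}
    (hK : ∀ x ∈ X, ∀ y ∈ X, x ≠ y → (Deg X x y).ncard ≤ K)
    {S : Finset E} (hS : S ⊆ X) {c : E} {R r : ℝ} (hr : 0 < r) (hrR : r ≤ R)
    (hsep : ∀ p ∈ S, ∀ q ∈ S, p ≠ q → r ≤ dist p q) (hR : ∀ p ∈ S, dist p c ≤ R) :
    (S.card : ℝ) ≤ 10 ^ 15 * 8192 ^ K * (R / r) := by
  classical
  have hR0 : 0 < R := by linarith
  have hRr : 1 ≤ R / r := (one_le_div hr).2 hrR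
  have hK8 : (1 : ℝ) ≤ 8192 ^ K := one_le_pow₀ (by norm_num)
  rcases le_or_gt S.card 1 with h1 | h1
  · have h2 : (S.card : ℝ) ≤ 1 := by exact_mod_cast h1
    have h3 : (1 : ℝ) ≤ 8192 ^ K * (R / r) := one_le_mul_of_one_le_of_one_le hK8 hRr
    nlinarith
  -- nearest neighbours
  have hnn : ∀ p : E, ∃ q : E, p ∈ S → (q ∈ X ∧ q ≠ p ∧ ∀ z ∈ X, z ≠ p → dist p q ≤ dist p z) := by
    intro p
    by_cases hp : p ∈ S
    · obtain ⟨p', hp', hne⟩ := Finset.exists_mem_ne h1 p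
      have hne' : (X.erase p).Nonempty := ⟨p', Finset.mem_erase.2 ⟨hne, hS hp'⟩⟩
      obtain ⟨q, hq, hmin⟩ := (X.erase p).exists_min_image (fun z => dist p z) hne'
      rw [Finset.mem_erase] at hq
      exact ⟨q, fun _ => ⟨hq.2, hq.1, fun z hz hzp => hmin z (Finset.mem_erase.2 ⟨hzp, hz⟩)⟩⟩
    · exact ⟨p, fun h => absurd h hp⟩
  choose nn hnn using hnn
  -- dyadic scales
  have hdy : ∀ p : E, ∃ i : ℕ, p ∈ S → (2 ^ i ≤ max (dist p (nn p)) r / r ∧
      max (dist p (nn p)) r / r < 2 ^ (i + 1)) := by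
    intro p
    have : 1 ≤ max (dist p (nn p)) r / r := (one_le_div hr).2 (le_max_right _ _)
    obtain ⟨n, hn1, hn2⟩ := exists_nat_pow_near this (by norm_num : (1 : ℝ) < 2)
    exact ⟨n, fun _ => ⟨hn1, hn2⟩⟩
  choose ix hix using hdy
  have hdsep : ∀ p ∈ S, ∀ q ∈ S, p ≠ q → max (dist p (nn p)) r ≤ dist p q := by
    intro p hp q hq hpq
    exact max_le ((hnn p hp).2.2 q (hS hq) hpq.symm) (hsep p hp q hq hpq)
  let I : ℕ := S.sup ix + 1
  have hmaps : Set.MapsTo ix S (Finset.range I) := by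
    intro p hp
    simp only [I, Finset.coe_range, Set.mem_Iio]
    exact Nat.lt_succ_of_le (Finset.le_sup hp)
  have hsum := Finset.card_eq_sum_card_fiberwise (f := ix) (s := S) (t := Finset.range I) hmaps
  have hbound : ∀ i ∈ Finset.range I, ((S.filter fun p => ix p = i).card : ℝ) ≤
      4 * 10 ^ 14 * ((K + 1) * 4096 ^ K) * (R / r) * (1 / 2) ^ i := by
    intro i _
    rcases (S.filter fun p => ix p = i).eq_empty_or_nonempty with h0 | ⟨p0, hp0⟩
    · rw [h0, Finset.card_empty]; push_cast; positivity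
    have ht : 0 < 2 ^ i * r := by positivity
    have hlow : ∀ p ∈ S.filter (fun p => ix p = i), 2 ^ i * r ≤ max (dist p (nn p)) r := by
      intro p hp
      obtain ⟨hpS, hpi⟩ := Finset.mem_filter.1 hp
      have := (hix p hpS).1
      rwa [hpi, le_div_iff₀ hr] at this
    have hupp : ∀ p ∈ S.filter (fun p => ix p = i), dist p (nn p) ≤ 2 * (2 ^ i * r) := by
      intro p hp
      obtain ⟨hpS, hpi⟩ := Finset.mem_filter.1 hp
      have := (hix p hpS).2
      rw [hpi, div_lt_iff₀ hr, pow_succ] at this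
      calc dist p (nn p) ≤ max (dist p (nn p)) r := le_max_left _ _
        _ ≤ 2 ^ i * 2 * r := this.le
        _ = _ := by ring
    have htR : 2 ^ i * r ≤ 2 * R := by
      obtain ⟨hpS, -⟩ := Finset.mem_filter.1 hp0
      obtain ⟨p', hp', hne⟩ := Finset.exists_mem_ne h1 p0
      calc 2 ^ i * r ≤ max (dist p0 (nn p0)) r := hlow p0 hp0
        _ ≤ dist p0 p' := hdsep p0 hpS p' hp' hne.symm
        _ ≤ dist p0 c + dist c p' := dist_triangle _ _ _
        _ ≤ R + R := add_le_add (hR p0 hpS) (by rw [dist_comm]; exact hR p' hp')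
        _ = 2 * R := by ring
    have := scale_card hX hK (F := S.filter fun p => ix p = i)
      ((Finset.filter_subset _ _).trans hS) (c := c) (R := R) (t := 2 ^ i * r) ht htR
      (fun p hp q hq hpq => (hlow p hp).trans
        (hdsep p (Finset.mem_filter.1 hp).1 q (Finset.mem_filter.1 hq).1 hpq))
      (fun p hp => ⟨nn p, (hnn p (Finset.mem_filter.1 hp).1).1,
        (hnn p (Finset.mem_filter.1 hp).1).2.1, hupp p hp⟩)
      (fun p hp => hR p (Finset.mem_filter.1 hp).1)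
    refine this.trans (le_of_eq ?_)
    rw [one_div, inv_pow]
    field_simp
  have hgeom : ∑ i ∈ Finset.range I, ((1 : ℝ) / 2) ^ i ≤ 2 := sum_geometric_two_le I
  have hK1 : ((K : ℝ) + 1) * 4096 ^ K ≤ 8192 ^ K := by
    have h2 : ((K : ℝ) + 1) ≤ 2 ^ K := by
      have : K + 1 ≤ 2 ^ K := Nat.lt_two_pow_self
      exact_mod_cast this
    calc ((K : ℝ) + 1) * 4096 ^ K ≤ 2 ^ K * 4096 ^ K := by gcongr
      _ = 8192 ^ K := by rw [← mul_pow]; norm_num
  calc (S.card : ℝ) = ∑ i ∈ Finset.range I, ((S.filter fun p => ix p = i).card : ℝ) := by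
        rw [hsum]; push_cast; rfl
    _ ≤ ∑ i ∈ Finset.range I, 4 * 10 ^ 14 * ((K + 1) * 4096 ^ K) * (R / r) * (1 / 2) ^ i :=
        Finset.sum_le_sum hbound
    _ = 4 * 10 ^ 14 * ((K + 1) * 4096 ^ K) * (R / r) * ∑ i ∈ Finset.range I, (1 / 2 : ℝ) ^ i := by
        rw [Finset.mul_sum]
    _ ≤ 4 * 10 ^ 14 * ((K + 1) * 4096 ^ K) * (R / r) * 2 := by gcongr
    _ = 8 * 10 ^ 14 * (((K : ℝ) + 1) * 4096 ^ K) * (R / r) := by ring
    _ ≤ 10 ^ 15 * 8192 ^ K * (R / r) := by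
        gcongr
        norm_num

end Pool.Agent.Lib.MP_8bcb9d_co
end
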