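import Mathlib
import Pool.Agent.Lib.MP_8bcb9d_co.LemA5

section

/-!
# Limits of sets with bounded degrees
-/

set_option autoImplicit false

namespace Pool.Agent.Lib.MP_8bcb9d_co

open Filter Topology

/-- finite sets in general position all of whose pairs have degree at most `K` -/
structure KSet (K : ℕ) (X : Finset E) : Prop where
  gp : GenPos X
  deg : ∀ x ∈ X, ∀ y ∈ X, x ≠ y → (Deg X x y).ncard ≤ K

theorem no_many_partners {K : ℕ} {X : Finset E} (hX : KSet K X) {p q : E} (hp : p ∈ X)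
    (hq : q ∈ X) (hpq : p ≠ q) {w : Fin (K + 1) → E} (hw : ∀ i, w i ∈ Deg X p q)
    (hinj : Function.Injective w) : False := by
  classical
  have h1 := hX.deg p hp q hq hpq
  have hfin := Deg.finite X p q
  have h2 : (Finset.univ : Finset (Fin (K + 1))).card ≤ hfin.toFinset.card := by
    apply Finset.card_le_card_of_injOn w
    · intro i _
      simpa using hw i
    · intro i _ j _ hij
      exact hinj hij
  rw [Finset.card_univ, Fintype.card_fin, ← Set.ncard_eq_toFinset_card _ hfin] at h2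
  omega

/-- transport -/
theorem KSet.image_of {K : ℕ} {X : Finset E} (hX : KSet K X) (T : E → E)
    (hinj : ∀ x ∈ X, ∀ y ∈ X, T x = T y → x = y) (hgp : GenPos (X.image T))
    (hT : ∀ x ∈ X, ∀ y ∈ X, ∀ z ∈ X, ∀ w ∈ X, w ∈ convexHull ℝ ({x, y, z} : Set E) →
      T w ∈ convexHull ℝ ({T x, T y, T z} : Set E)) : KSet K (X.image T) := by
  classical
  refine ⟨hgp, ?_⟩
  intro x' hx' y' hy' hxy'
  obtain ⟨x, hx, rfl⟩ := Finset.mem_image.1 hx'
  obtain ⟨y, hy, rfl⟩ := Finset.mem_image.1 hy'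
  have hxy : x ≠ y := fun h => hxy' (by rw [h])
  have h1 := hX.deg x hx y hy hxy
  have hsub : Deg (X.image T) (T x) (T y) ⊆ T '' (Deg X x y) := by
    rintro z' ⟨hz', hzx, hzy, hz⟩
    obtain ⟨z, hzX, rfl⟩ := Finset.mem_image.1 hz'
    refine ⟨z, ⟨hzX, fun h => hzx (by rw [h]), fun h => hzy (by rw [h]), ?_⟩, rfl⟩
    intro w hw hwc
    have h2 := hz (T w) (Finset.mem_image_of_mem T hw) (hT x hx y hy z hzX w hw hwc)
    rcases h2 with h2 | h2 | h2
    · exact Or.inl (hinj w hw x hx h2)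
    · exact Or.inr (Or.inl (hinj w hw y hy h2))
    · exact Or.inr (Or.inr (hinj w hw z hzX h2))
  calc (Deg (X.image T) (T x) (T y)).ncard ≤ (T '' (Deg X x y)).ncard :=
        Set.ncard_le_ncard hsub ((Deg.finite X x y).image T)
    _ ≤ (Deg X x y).ncard := Set.ncard_image_le (Deg.finite X x y)
    _ ≤ K := h1

theorem KSet.affine {K : ℕ} {X : Finset E} (hX : KSet K X) (A : E ≃ᵃ[ℝ] E) :
    KSet K (X.image A) := by
  classical
  refine hX.image_of A (fun x _ y _ h => A.injective h) ?_ ?_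
  · intro a' ha' b' hb' c' hc' hab hac hbc hcol
    obtain ⟨a, ha, rfl⟩ := Finset.mem_image.1 ha'
    obtain ⟨b, hb, rfl⟩ := Finset.mem_image.1 hb'
    obtain ⟨c, hc, rfl⟩ := Finset.mem_image.1 hc'
    refine hX.gp a ha b hb c hc (fun h => hab (by rw [h])) (fun h => hac (by rw [h]))
      (fun h => hbc (by rw [h])) ?_
    rw [collinear_iff_of_mem (p₀ := A a) (by simp)] at hcol
    obtain ⟨v, hv⟩ := hcol
    rw [collinear_iff_of_mem (p₀ := a) (by simp)]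
    refine ⟨A.symm.linear v, ?_⟩
    intro p hp
    have hp' : A p ∈ ({A a, A b, A c} : Set E) := by
      simp only [Set.mem_insert_iff, Set.mem_singleton_iff] at hp ⊢
      rcases hp with rfl | rfl | rfl <;> simp
    obtain ⟨r, hr⟩ := hv (A p) hp'
    refine ⟨r, ?_⟩
    have h1 := congrArg A.symm hr
    rw [AffineEquiv.symm_apply_apply, AffineEquiv.map_vadd, AffineEquiv.symm_apply_apply,
      map_smul] at h1
    exact h1
  · intro x _ y _ z _ w _ hw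
    have h1 := AffineMap.image_convexHull (A : E →ᵃ[ℝ] E) ({x, y, z} : Set E)
    have h2 : (A : E →ᵃ[ℝ] E) '' ({x, y, z} : Set E) = {A x, A y, A z} := by
      simp [Set.image_insert_eq, Set.image_singleton]
    rw [h2] at h1
    rw [← h1]
    exact ⟨w, hw, rfl⟩

open Classical in
/-- windows -/
theorem KSet.window {K : ℕ} {X : Finset E} (hX : KSet K X) {C : Set E} (hC : Convex ℝ C) :
    KSet K (X.filter fun x => x ∈ C) := by
  constructor
  · intro a ha b hb c hc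
    exact hX.gp a (Finset.mem_filter.1 ha).1 b (Finset.mem_filter.1 hb).1 c
      (Finset.mem_filter.1 hc).1
  · intro x hx y hy hxy
    obtain ⟨hxX, hxC⟩ := Finset.mem_filter.1 hx
    obtain ⟨hyX, hyC⟩ := Finset.mem_filter.1 hy
    refine (Set.ncard_le_ncard ?_ (Deg.finite X x y)).trans (hX.deg x hxX y hyX hxy)
    rintro z ⟨hz, hzx, hzy, h⟩
    obtain ⟨hzX, hzC⟩ := Finset.mem_filter.1 hz
    refine ⟨hzX, hzx, hzy, ?_⟩
    intro w hw hwc
    refine h w (Finset.mem_filter.2 ⟨hw, ?_⟩) hwc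
    have : convexHull ℝ ({x, y, z} : Set E) ⊆ C := by
      apply convexHull_min _ hC
      intro v hv
      simp only [Set.mem_insert_iff, Set.mem_singleton_iff] at hv
      rcases hv with rfl | rfl | rfl <;> assumption
    exact this hwc

/-! ### ultralimits of sets -/

/-- limit of a family of sets along an ultrafilter -/
def ulim {ι : Type*} (U : Ultrafilter ι) (T : ι → Set E) : Set E :=
  {v | ∀ ε > 0, ∀ᶠ i in (U : Filter ι), ∃ t ∈ T i, dist t v < ε}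

section ulim

variable {ι : Type*} {U : Ultrafilter ι} {T : ι → Set E}

theorem isClosed_ulim : IsClosed (ulim U T) := by
  rw [← isSeqClosed_iff_isClosed]
  intro x v hx hv ε hε
  have h1 : ∀ᶠ n in atTop, dist (x n) v < ε / 2 := by
    rw [Metric.tendsto_nhds] at hv
    exact hv (ε / 2) (by positivity)
  obtain ⟨n, hn⟩ := h1.exists
  filter_upwards [hx n (ε / 2) (by positivity)] with i hi
  obtain ⟨t, ht, htd⟩ := hi
  refine ⟨t, ht, ?_⟩
  calc dist t v ≤ dist t (x n) + dist (x n) v := dist_triangle _ _ _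
    _ < ε / 2 + ε / 2 := add_lt_add htd hn
    _ = ε := by ring

theorem mem_ulim_of_tendsto {x : ι → E} {v : E} (hx : ∀ᶠ i in (U : Filter ι), x i ∈ T i)
    (h : Tendsto x U (𝓝 v)) : v ∈ ulim U T := by
  intro ε hε
  rw [Metric.tendsto_nhds] at h
  filter_upwards [hx, h ε hε] with i h1 h2
  exact ⟨x i, h1, h2⟩

/-- bounded families converge -/
theorem exists_tendsto {x : ι → E} {R : ℝ} (h : ∀ᶠ i in (U : Filter ι), ‖x i‖ ≤ R) :
    ∃ v, Tendsto x U (𝓝 v) := by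
  have hc : IsCompact (Metric.closedBall (0 : E) R) := isCompact_closedBall 0 R
  have h1 : (Ultrafilter.map x U : Filter E) ≤ 𝓟 (Metric.closedBall (0 : E) R) := by
    rw [Ultrafilter.coe_map, Filter.map_le_iff_le_comap, Filter.comap_principal,
      Filter.le_principal_iff]
    filter_upwards [h] with i hi
    simpa using hi
  obtain ⟨v, -, hv⟩ := hc.ultrafilter_le_nhds (Ultrafilter.map x U) h1
  exact ⟨v, hv⟩

theorem exists_tendsto_real {x : ι → ℝ} {R : ℝ} (h : ∀ᶠ i in (U : Filter ι), |x i| ≤ R) :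
    ∃ v, Tendsto x U (𝓝 v) := by
  have hc : IsCompact (Metric.closedBall (0 : ℝ) R) := isCompact_closedBall 0 R
  have h1 : (Ultrafilter.map x U : Filter ℝ) ≤ 𝓟 (Metric.closedBall (0 : ℝ) R) := by
    rw [Ultrafilter.coe_map, Filter.map_le_iff_le_comap, Filter.comap_principal,
      Filter.le_principal_iff]
    filter_upwards [h] with i hi
    simpa using hi
  obtain ⟨v, -, hv⟩ := hc.ultrafilter_le_nhds (Ultrafilter.map x U) h1
  exact ⟨v, hv⟩

theorem exists_seq_of_mem (hT : ∀ i, IsClosed (T i)) {v : E} (hv : v ∈ ulim U T) :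
    ∃ x : ι → E, (∀ᶠ i in (U : Filter ι), x i ∈ T i) ∧ Tendsto x U (𝓝 v) := by
  have h1 : ∀ i, ∃ y : E, (T i).Nonempty → (y ∈ T i ∧ Metric.infDist v (T i) = dist v y) := by
    intro i
    by_cases h : (T i).Nonempty
    · obtain ⟨y, hy, hd⟩ := (hT i).exists_infDist_eq_dist h v
      exact ⟨y, fun _ => ⟨hy, hd⟩⟩
    · exact ⟨v, fun h' => absurd h' h⟩
  choose y hy using h1
  refine ⟨y, ?_, ?_⟩
  · filter_upwards [hv 1 one_pos] with i hi
    obtain ⟨t, ht, -⟩ := hi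
    exact (hy i ⟨t, ht⟩).1
  · rw [Metric.tendsto_nhds]
    intro ε hε
    filter_upwards [hv ε hε] with i hi
    obtain ⟨t, ht, htd⟩ := hi
    have h2 := (hy i ⟨t, ht⟩).2
    rw [dist_comm, ← h2]
    exact lt_of_le_of_lt (Metric.infDist_le_dist_of_mem ht) (by rwa [dist_comm])

/-- bounded parts of `T i` are near the limit -/
theorem near_ulim (R : ℝ) {ε : ℝ} (hε : 0 < ε) :
    ∀ᶠ i in (U : Filter ι), ∀ t ∈ T i, ‖t‖ ≤ R → ∃ v ∈ ulim U T, dist t v ≤ ε := by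
  by_contra hcon
  rw [← Ultrafilter.eventually_not] at hcon
  have h1 : ∀ i, ∃ t : E, (¬ ∀ t ∈ T i, ‖t‖ ≤ R → ∃ v ∈ ulim U T, dist t v ≤ ε) →
      (t ∈ T i ∧ ‖t‖ ≤ R ∧ ∀ v ∈ ulim U T, ε < dist t v) := by
    intro i
    by_cases h : ∀ t ∈ T i, ‖t‖ ≤ R → ∃ v ∈ ulim U T, dist t v ≤ ε
    · exact ⟨0, fun h' => absurd h h'⟩
    · push Not at h
      obtain ⟨t, ht, htR, h2⟩ := h
      exact ⟨t, fun _ => ⟨ht, htR, h2⟩⟩
  choose t ht using h1
  have h2 : ∀ᶠ i in (U : Filter ι), t i ∈ T i := hcon.mono fun i hi => (ht i hi).1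
  have h3 : ∀ᶠ i in (U : Filter ι), ‖t i‖ ≤ R := hcon.mono fun i hi => (ht i hi).2.1
  obtain ⟨v, hv⟩ := exists_tendsto h3
  have hvm := mem_ulim_of_tendsto h2 hv
  rw [Metric.tendsto_nhds] at hv
  obtain ⟨i, hi1, hi2⟩ := (hcon.and (hv ε hε)).exists
  have := (ht i hi1).2.2 v hvm
  linarith

/-- the limit is near `T i` -/
theorem ulim_near (R : ℝ) {ε : ℝ} (hε : 0 < ε) :
    ∀ᶠ i in (U : Filter ι), ∀ v ∈ ulim U T, ‖v‖ ≤ R → ∃ t ∈ T i, dist t v ≤ ε := by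
  have hc : IsCompact (ulim U T ∩ Metric.closedBall (0 : E) R) :=
    (isCompact_closedBall 0 R).inter_left isClosed_ulim
  obtain ⟨F, hFsub, hFfin, hFcov⟩ := hc.finite_cover_balls (e := ε / 2) (by positivity)
  have h1 : ∀ᶠ i in (U : Filter ι), ∀ v ∈ F, ∃ t ∈ T i, dist t v < ε / 2 := by
    rw [Filter.eventually_all_finite hFfin]
    intro v hv
    exact (hFsub hv).1 (ε / 2) (by positivity)
  filter_upwards [h1] with i hi
  intro v hv hvR
  have h2 := hFcov ⟨hv, by simpa using hvR⟩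
  rw [Set.mem_iUnion₂] at h2
  obtain ⟨w, hw, hvw⟩ := h2
  obtain ⟨t, ht, htw⟩ := hi w hw
  refine ⟨t, ht, ?_⟩
  rw [Metric.mem_ball] at hvw
  calc dist t v ≤ dist t w + dist w v := dist_triangle _ _ _
    _ ≤ ε / 2 + ε / 2 := add_le_add htw.le (by rw [dist_comm]; exact hvw.le)
    _ = ε := by ring

end ulim

/-! ### the class of limits -/

/-- `T` is a limit of sets with degrees at most `K` which have points far away in all the
directions of `Φ`. -/
def Lim (K : ℕ) (Φ : Finset E) (T : Set E) : Prop :=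
  IsClosed T ∧ ∀ R : ℝ, ∀ ε > 0, ∃ X : Finset E, KSet K X ∧
    (∀ x ∈ X, ‖x‖ ≤ R → ∃ t ∈ T, dist x t ≤ ε) ∧ (∀ t ∈ T, ‖t‖ ≤ R → ∃ x ∈ X, dist x t ≤ ε) ∧
    ∀ φ ∈ Φ, ∃ f ∈ X, ∃ τ : ℝ, R ≤ τ ∧ 0 < τ ∧ dist f (τ • φ) ≤ ε * τ

theorem Lim.ulim {ι : Type*} {U : Ultrafilter ι} {T : ι → Set E} {K : ℕ} {Φ : Finset E}
    (h : ∀ᶠ i in (U : Filter ι), Lim K Φ (T i)) : Lim K Φ (ulim U T) := by
  refine ⟨isClosed_ulim, ?_⟩
  intro R ε hε
  obtain ⟨i, ⟨h1, h2⟩, h3⟩ := ((h.and (near_ulim (U := U) (T := T) (R + ε)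
    (half_pos hε))).and (ulim_near (U := U) (T := T) R (half_pos hε))).exists
  obtain ⟨X, hX, a1, a2, a3⟩ := h1.2 (R + ε) (ε / 2) (half_pos hε)
  refine ⟨X, hX, ?_, ?_, ?_⟩
  · intro x hx hxR
    obtain ⟨t, ht, htd⟩ := a1 x hx (by linarith)
    have htR : ‖t‖ ≤ R + ε := by
      have := norm_sub_norm_le t x
      rw [← dist_eq_norm, dist_comm] at this
      linarith
    obtain ⟨v, hv, hvd⟩ := h2 t ht htR
    refine ⟨v, hv, ?_⟩
    calc dist x v ≤ dist x t + dist t v := dist_triangle _ _ _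
      _ ≤ ε := by linarith
  · intro v hv hvR
    obtain ⟨t, ht, htd⟩ := h3 v hv hvR
    have htR : ‖t‖ ≤ R + ε := by
      have := norm_sub_norm_le t v
      rw [← dist_eq_norm] at this
      linarith
    obtain ⟨x, hx, hxd⟩ := a2 t ht htR
    refine ⟨x, hx, ?_⟩
    calc dist x v ≤ dist x t + dist t v := dist_triangle _ _ _
      _ ≤ ε := by linarith
  · intro φ hφ
    obtain ⟨f, hf, τ, h4, h5, h6⟩ := a3 φ hφ
    refine ⟨f, hf, τ, by linarith, h5, h6.trans ?_⟩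
    nlinarith

/-- the ultrafilter used for sequences -/
noncomputable abbrev UN : Ultrafilter ℕ := Filter.hyperfilter ℕ

theorem UN_le : (UN : Filter ℕ) ≤ atTop := Nat.hyperfilter_le_atTop

/-- sequence of sets converging to `T` -/
structure SeqTo (K : ℕ) (Φ : Finset E) (T : Set E) (X : ℕ → Finset E) : Prop where
  kset : ∀ n, KSet K (X n)
  lim : Pool.Agent.Lib.MP_8bcb9d_co.ulim UN (fun n => (X n : Set E)) = T
  far : ∀ φ ∈ Φ, ∃ (f : ℕ → E) (τ : ℕ → ℝ), (∀ n, f n ∈ X n) ∧ (∀ n, 0 < τ n) ∧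
    Tendsto τ UN atTop ∧ Tendsto (fun n => (τ n)⁻¹ • f n) UN (𝓝 φ)

theorem Lim.seq {K : ℕ} {Φ : Finset E} {T : Set E} (h : Lim K Φ T) : ∃ X, SeqTo K Φ T X := by
  have h1 : ∀ n : ℕ, (0 : ℝ) < 1 / ((n : ℝ) + 1) := fun n => by positivity
  have h2 := fun n : ℕ => h.2 n (1 / ((n : ℝ) + 1)) (h1 n)
  choose X hX a1 a2 a3 using h2
  have hε : Tendsto (fun n : ℕ => 1 / ((n : ℝ) + 1)) UN (𝓝 0) :=
    tendsto_one_div_add_atTop_nhds_zero_nat.mono_left UN_le
  have hR : Tendsto (fun n : ℕ => (n : ℝ)) UN atTop :=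
    tendsto_natCast_atTop_atTop.mono_left UN_le
  refine ⟨X, hX, ?_, ?_⟩
  · apply Set.Subset.antisymm
    · intro v hv
      obtain ⟨x, hx, hxv⟩ := exists_seq_of_mem (fun n => (X n).finite_toSet.isClosed) hv
      -- points of `T` near `x n`
      have h3 : ∀ᶠ n in (UN : Filter ℕ), ∃ t ∈ T, dist (x n) t ≤ 1 / ((n : ℝ) + 1) := by
        have h4 : ∀ᶠ n in (UN : Filter ℕ), ‖x n‖ ≤ ‖v‖ + 1 := by
          have := hxv.norm
          filter_upwards [this.eventually (gt_mem_nhds (by linarith : ‖v‖ < ‖v‖ + 1))] with n hn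
          exact hn.le
        filter_upwards [hx, h4, hR.eventually_ge_atTop (‖v‖ + 1)] with n b1 b2 b3
        exact a1 n (x n) b1 (b2.trans b3)
      have h5 : Tendsto (fun n => Metric.infDist (x n) T) UN (𝓝 (Metric.infDist v T)) :=
        ((Metric.continuous_infDist_pt T).tendsto v).comp hxv
      have h6 : Metric.infDist v T = 0 := by
        apply le_antisymm _ Metric.infDist_nonneg
        refine le_of_tendsto_of_tendsto h5 hε ?_
        filter_upwards [h3] with n hn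
        obtain ⟨t, ht, htd⟩ := hn
        exact (Metric.infDist_le_dist_of_mem ht).trans htd
      have hne : T.Nonempty := by
        obtain ⟨n, t, ht, -⟩ := h3.exists
        exact ⟨t, ht⟩
      exact (h.1.mem_iff_infDist_zero hne).2 h6
    · intro v hv ε hε'
      filter_upwards [hR.eventually_ge_atTop ‖v‖, hε.eventually (gt_mem_nhds hε')] with n b1 b2
      obtain ⟨x, hx, hxd⟩ := a2 n v hv b1
      exact ⟨x, hx, lt_of_le_of_lt hxd b2⟩
  · intro φ hφ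
    have h3 := fun n => a3 n φ hφ
    choose f hf τ hτ1 hτ2 hτ3 using h3
    refine ⟨f, τ, hf, hτ2, ?_, ?_⟩
    · exact tendsto_atTop_mono hτ1 hR
    · rw [tendsto_iff_dist_tendsto_zero]
      refine squeeze_zero (fun _ => dist_nonneg) (fun n => ?_) hε
      have h4 : dist ((τ n)⁻¹ • f n) φ = (τ n)⁻¹ * dist (f n) (τ n • φ) := by
        rw [dist_eq_norm, dist_eq_norm]
        have : (τ n)⁻¹ • f n - φ = (τ n)⁻¹ • (f n - τ n • φ) := by
          rw [smul_sub, smul_smul, inv_mul_cancel₀ (hτ2 n).ne', one_smul]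
        rw [this, norm_smul, Real.norm_of_nonneg (inv_nonneg.2 (hτ2 n).le)]
      rw [h4]
      calc (τ n)⁻¹ * dist (f n) (τ n • φ) ≤ (τ n)⁻¹ * (1 / ((n : ℝ) + 1) * τ n) :=
            mul_le_mul_of_nonneg_left (hτ3 n) (inv_nonneg.2 (hτ2 n).le)
        _ = 1 / ((n : ℝ) + 1) := by
            field_simp [(hτ2 n).ne']

theorem SeqTo.lim' {K : ℕ} {Φ : Finset E} {T : Set E} {X : ℕ → Finset E} (h : SeqTo K Φ T X) :
    Lim K Φ T := by
  obtain ⟨h1, h2, h3⟩ := h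
  refine ⟨by rw [← h2]; exact isClosed_ulim, ?_⟩
  intro R ε hε
  have a1 := near_ulim (U := UN) (T := fun n => (X n : Set E)) R hε
  have a2 := ulim_near (U := UN) (T := fun n => (X n : Set E)) R hε
  rw [h2] at a1 a2
  have a3 : ∀ᶠ n in (UN : Filter ℕ), ∀ φ ∈ Φ, ∃ f ∈ X n, ∃ τ : ℝ, R ≤ τ ∧ 0 < τ ∧
      dist f (τ • φ) ≤ ε * τ := by
    rw [Filter.eventually_all_finset]
    intro φ hφ
    obtain ⟨f, τ, hf, hτ, hτ1, hτ2⟩ := h3 φ hφ
    rw [Metric.tendsto_nhds] at hτ2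
    filter_upwards [hτ1.eventually_ge_atTop R, hτ2 ε hε] with n b1 b2
    refine ⟨f n, hf n, τ n, b1, hτ n, ?_⟩
    have h4 : dist ((τ n)⁻¹ • f n) φ = (τ n)⁻¹ * dist (f n) (τ n • φ) := by
      rw [dist_eq_norm, dist_eq_norm]
      have : (τ n)⁻¹ • f n - φ = (τ n)⁻¹ • (f n - τ n • φ) := by
        rw [smul_sub, smul_smul, inv_mul_cancel₀ (hτ n).ne', one_smul]
      rw [this, norm_smul, Real.norm_of_nonneg (inv_nonneg.2 (hτ n).le)]
    rw [h4, inv_mul_eq_div, div_lt_iff₀ (hτ n)] at b2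
    exact b2.le
  obtain ⟨n, ⟨b1, b2⟩, b3⟩ := ((a1.and a2).and a3).exists
  exact ⟨X n, h1 n, fun x hx hxR => b1 x hx hxR, fun t ht htR => by
    obtain ⟨x, hx, hd⟩ := b2 t ht htR
    exact ⟨x, hx, hd⟩, b3⟩

end Pool.Agent.Lib.MP_8bcb9d_co
end

section

/-!
# Limits of sets with bounded degrees: invariance, packing, partners
-/

set_option autoImplicit false

namespace Pool.Agent.Lib.MP_8bcb9d_co

open Filter Topology

/-- constants of an affine equivalence -/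
theorem affine_bounds (A : E ≃ᵃ[ℝ] E) : ∃ C : ℝ, 1 ≤ C ∧ (∀ v w, dist (A v) (A w) ≤ C * dist v w) ∧
    (∀ v w, dist v w ≤ C * dist (A v) (A w)) := by
  let L : E →L[ℝ] E := LinearMap.toContinuousLinearMap (A.linear : E →ₗ[ℝ] E)
  let L' : E →L[ℝ] E := LinearMap.toContinuousLinearMap (A.symm.linear : E →ₗ[ℝ] E)
  have h1 : ∀ v w, A v - A w = L (v - w) := by
    intro v w
    exact ((A : E →ᵃ[ℝ] E).linearMap_vsub v w).symm
  have h2 : ∀ v w, v - w = L' (A v - A w) := by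
    intro v w
    have h3 := (A.symm : E →ᵃ[ℝ] E).linearMap_vsub (A v) (A w)
    have h4 : (A.symm : E →ᵃ[ℝ] E) (A v) -ᵥ (A.symm : E →ᵃ[ℝ] E) (A w) = v - w := by
      simp
    rw [h4] at h3
    exact h3.symm
  refine ⟨max 1 (max ‖L‖ ‖L'‖), le_max_left _ _, ?_, ?_⟩
  · intro v w
    rw [dist_eq_norm, dist_eq_norm, h1]
    refine (L.le_opNorm _).trans (mul_le_mul_of_nonneg_right ?_ (norm_nonneg _))
    exact (le_max_left _ _).trans (le_max_right _ _)
  · intro v w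
    rw [dist_eq_norm, dist_eq_norm]
    nth_rewrite 1 [h2 v w]
    refine (L'.le_opNorm _).trans (mul_le_mul_of_nonneg_right ?_ (norm_nonneg _))
    exact (le_max_right _ _).trans (le_max_right _ _)

open Classical in
theorem Lim.affine {K : ℕ} {Φ : Finset E} {T : Set E} (h : Lim K Φ T) (A : E ≃ᵃ[ℝ] E) :
    Lim K (Φ.image A.linear) (A '' T) := by
  obtain ⟨C, hC1, hC2, hC3⟩ := affine_bounds A
  have hC0 : 0 < C := by linarith
  have hcl : IsClosed (A '' T) := by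
    have hhom : Continuous A.symm := by
      have : LipschitzWith ⟨C, hC0.le⟩ A.symm := by
        apply LipschitzWith.of_dist_le_mul
        intro v w
        have := hC3 (A.symm v) (A.symm w)
        rwa [A.apply_symm_apply, A.apply_symm_apply] at this
      exact this.continuous
    have : A '' T = A.symm ⁻¹' T := by
      ext v
      constructor
      · rintro ⟨w, hw, rfl⟩
        simpa using hw
      · intro hv
        exact ⟨A.symm v, hv, by simp⟩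
    rw [this]
    exact h.1.preimage hhom
  refine ⟨hcl, ?_⟩
  intro R ε hε
  have hA0 : ∀ v, ‖v‖ ≤ C * (‖A v‖ + ‖A 0‖) := by
    intro v
    have := hC3 v 0
    rw [dist_zero_right, dist_eq_norm] at this
    exact this.trans (mul_le_mul_of_nonneg_left (norm_sub_le _ _) hC0.le)
  obtain ⟨X, hX, a1, a2, a3⟩ := h.2 (max (C * (R + ‖A 0‖)) (max R (2 * ‖A 0‖ / ε)))
    (ε / (2 * C)) (by positivity)
  have hεC : C * (ε / (2 * C)) = ε / 2 := by field_simp
  refine ⟨X.image A, hX.affine A, ?_, ?_, ?_⟩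
  · intro x' hx' hxR
    obtain ⟨x, hx, rfl⟩ := Finset.mem_image.1 hx'
    have h1 : ‖x‖ ≤ max (C * (R + ‖A 0‖)) (max R (2 * ‖A 0‖ / ε)) :=
      ((hA0 x).trans (mul_le_mul_of_nonneg_left (by linarith) hC0.le)).trans (le_max_left _ _)
    obtain ⟨t, ht, htd⟩ := a1 x hx h1
    refine ⟨A t, ⟨t, ht, rfl⟩, ?_⟩
    calc dist (A x) (A t) ≤ C * dist x t := hC2 _ _
      _ ≤ C * (ε / (2 * C)) := mul_le_mul_of_nonneg_left htd hC0.le
      _ ≤ ε := by rw [hεC]; linarith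
  · rintro t' ⟨t, ht, rfl⟩ htR
    have h1 : ‖t‖ ≤ max (C * (R + ‖A 0‖)) (max R (2 * ‖A 0‖ / ε)) :=
      ((hA0 t).trans (mul_le_mul_of_nonneg_left (by linarith) hC0.le)).trans (le_max_left _ _)
    obtain ⟨x, hx, hxd⟩ := a2 t ht h1
    refine ⟨A x, Finset.mem_image_of_mem _ hx, ?_⟩
    calc dist (A x) (A t) ≤ C * dist x t := hC2 _ _
      _ ≤ C * (ε / (2 * C)) := mul_le_mul_of_nonneg_left hxd hC0.le
      _ ≤ ε := by rw [hεC]; linarith
  · intro φ' hφ'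
    obtain ⟨φ, hφ, rfl⟩ := Finset.mem_image.1 hφ'
    obtain ⟨f, hf, τ, h1, h2, h3⟩ := a3 φ hφ
    refine ⟨A f, Finset.mem_image_of_mem _ hf, τ,
      ((le_max_left _ _).trans (le_max_right _ _)).trans h1, h2, ?_⟩
    have h4 : A (τ • φ) = τ • A.linear φ + A 0 := by
      have := A.map_vadd 0 (τ • φ)
      simpa using this
    have h5 : dist (A (τ • φ)) (τ • A.linear φ) = ‖A 0‖ := by
      rw [h4, dist_eq_norm]
      congr 1
      abel
    have h6 : 2 * ‖A 0‖ / ε ≤ τ := ((le_max_right _ _).trans (le_max_right _ _)).trans h1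
    rw [div_le_iff₀ hε] at h6
    calc dist (A f) (τ • A.linear φ) ≤ dist (A f) (A (τ • φ)) + dist (A (τ • φ)) (τ • A.linear φ) :=
          dist_triangle _ _ _
      _ ≤ C * (ε / (2 * C) * τ) + ‖A 0‖ := by
          rw [h5]
          exact add_le_add ((hC2 _ _).trans (mul_le_mul_of_nonneg_left h3 hC0.le)) le_rfl
      _ = ε / 2 * τ + ‖A 0‖ := by rw [← mul_assoc, hεC]
      _ ≤ ε * τ := by nlinarith

/-- the homothety `v ↦ s • (v - x)` -/
noncomputable def homo (s : ℝ) (hs : s ≠ 0) (x : E) : E ≃ᵃ[ℝ] E :=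
  (AffineEquiv.constVAdd ℝ E (-x)).trans (LinearEquiv.smulOfNeZero ℝ E s hs).toAffineEquiv

theorem homo_apply (s : ℝ) (hs : s ≠ 0) (x v : E) : homo s hs x v = s • (v - x) := by
  simp [homo, sub_eq_neg_add]

theorem homo_linear (s : ℝ) (hs : s ≠ 0) (x v : E) : (homo s hs x).linear v = s • v := by
  have h := (homo s hs x : E →ᵃ[ℝ] E).linearMap_vsub v 0
  have h1 : (homo s hs x).linear v = homo s hs x v - homo s hs x 0 := by simpa using h
  rw [h1, homo_apply, homo_apply, ← smul_sub]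
  congr 1
  abel

/-- Homotheties keep the class. -/
theorem Lim.homo {K : ℕ} {Φ : Finset E} {T : Set E} (h : Lim K Φ T) {s : ℝ} (hs : 0 < s)
    (x : E) : Lim K Φ ((fun v => s • (v - x)) '' T) := by
  classical
  have h1 := h.affine (Pool.Agent.Lib.MP_8bcb9d_co.homo s hs.ne' x)
  have h2 : (Pool.Agent.Lib.MP_8bcb9d_co.homo s hs.ne' x) '' T = (fun v => s • (v - x)) '' T := by
    apply Set.image_congr
    intro v _
    exact homo_apply s hs.ne' x v
  rw [h2] at h1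
  refine ⟨h1.1, ?_⟩
  intro R ε hε
  obtain ⟨X, hX, a1, a2, a3⟩ := h1.2 (max R (R / s)) (min ε (ε * s))
    (by positivity)
  refine ⟨X, hX, fun v hv hvR => ?_, fun v hv hvR => ?_, ?_⟩
  · obtain ⟨t, ht, htd⟩ := a1 v hv (hvR.trans (le_max_left _ _))
    exact ⟨t, ht, htd.trans (min_le_left _ _)⟩
  · obtain ⟨t, ht, htd⟩ := a2 v hv (hvR.trans (le_max_left _ _))
    exact ⟨t, ht, htd.trans (min_le_left _ _)⟩
  · intro φ hφ
    obtain ⟨f, hf, τ, b1, b2, b3⟩ := a3 _ (Finset.mem_image_of_mem _ hφ)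
    rw [homo_linear, smul_smul] at b3
    refine ⟨f, hf, τ * s, ?_, by positivity, b3.trans ?_⟩
    · have : R / s ≤ τ := (le_max_right _ _).trans b1
      rwa [div_le_iff₀ hs] at this
    · have : min ε (ε * s) ≤ ε * s := min_le_right _ _
      nlinarith

/-- Packing bound for limits. -/
theorem Lim.packing {K : ℕ} {Φ : Finset E} {T : Set E} (h : Lim K Φ T) {S : Finset E}
    (hS : (S : Set E) ⊆ T) {c : E} {R r : ℝ} (hr : 0 < r) (hrR : r ≤ R)
    (hsep : ∀ p ∈ S, ∀ q ∈ S, p ≠ q → r ≤ dist p q) (hR : ∀ p ∈ S, dist p c ≤ R) :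
    (S.card : ℝ) ≤ 4 * 10 ^ 15 * 8192 ^ K * (R / r) := by
  classical
  obtain ⟨X, hX, -, a2, -⟩ := h.2 (‖c‖ + R) (r / 4) (by positivity)
  have h1 : ∀ p : E, ∃ x : E, p ∈ S → (x ∈ X ∧ dist x p ≤ r / 4) := by
    intro p
    by_cases hp : p ∈ S
    · have h2 : ‖p‖ ≤ ‖c‖ + R := by
        have := norm_le_norm_add_norm_sub' p c
        rw [← dist_eq_norm] at this
        exact this.trans (add_le_add le_rfl (hR p hp))
      obtain ⟨x, hx, hd⟩ := a2 p (hS hp) h2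
      exact ⟨x, fun _ => ⟨hx, hd⟩⟩
    · exact ⟨0, fun h => absurd h hp⟩
  choose x hx using h1
  have hsep' : ∀ p ∈ S, ∀ q ∈ S, p ≠ q → r / 2 ≤ dist (x p) (x q) := by
    intro p hp q hq hpq
    have h3 := hsep p hp q hq hpq
    have h4 := (hx p hp).2
    have h5 := (hx q hq).2
    have h6 : dist p q ≤ dist p (x p) + dist (x p) (x q) + dist (x q) q := dist_triangle4 _ _ _ _
    rw [dist_comm p (x p)] at h6
    linarith
  have hinj : Set.InjOn x S := by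
    intro p hp q hq hpq
    by_contra hne
    have := hsep' p hp q hq hne
    rw [hpq, dist_self] at this
    linarith
  have h2 := covering hX.gp hX.deg (S := S.image x)
    (fun y hy => by
      obtain ⟨p, hp, rfl⟩ := Finset.mem_image.1 hy
      exact (hx p hp).1) (c := c) (R := 2 * R) (r := r / 2) (by positivity) (by linarith)
    (by
      intro y hy z hz hyz
      obtain ⟨p, hp, rfl⟩ := Finset.mem_image.1 hy
      obtain ⟨q, hq, rfl⟩ := Finset.mem_image.1 hz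
      exact hsep' p hp q hq fun h => hyz (by rw [h]))
    (by
      intro y hy
      obtain ⟨p, hp, rfl⟩ := Finset.mem_image.1 hy
      calc dist (x p) c ≤ dist (x p) p + dist p c := dist_triangle _ _ _
        _ ≤ r / 4 + R := add_le_add (hx p hp).2 (hR p hp)
        _ ≤ 2 * R := by linarith)
  rw [Finset.card_image_of_injOn hinj] at h2
  refine h2.trans (le_of_eq ?_)
  field_simp
  ring

section seq

variable {K : ℕ} {Φ : Finset E} {T : Set E} {X : ℕ → Finset E}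

theorem SeqTo.exists_seq (h : SeqTo K Φ T X) {v : E} (hv : v ∈ T) :
    ∃ x : ℕ → E, (∀ᶠ n in (UN : Filter ℕ), x n ∈ X n) ∧ Tendsto x UN (𝓝 v) := by
  rw [← h.lim] at hv
  exact exists_seq_of_mem (fun n => (X n).finite_toSet.isClosed) hv

theorem SeqTo.mem (h : SeqTo K Φ T X) {x : ℕ → E} {v : E}
    (hx : ∀ᶠ n in (UN : Filter ℕ), x n ∈ X n) (hv : Tendsto x UN (𝓝 v)) : v ∈ T := by
  rw [← h.lim]
  exact mem_ulim_of_tendsto hx hv

theorem SeqTo.exists_lim (h : SeqTo K Φ T X) {x : ℕ → E} {R : ℝ}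
    (hx : ∀ᶠ n in (UN : Filter ℕ), x n ∈ X n) (hR : ∀ᶠ n in (UN : Filter ℕ), ‖x n‖ ≤ R) :
    ∃ v ∈ T, Tendsto x UN (𝓝 v) := by
  obtain ⟨v, hv⟩ := exists_tendsto hR
  exact ⟨v, h.mem hx hv, hv⟩

theorem exists_partners (h : ∀ n, KSet K (X n)) {p q z : ℕ → E}
    (hp : ∀ᶠ n in (UN : Filter ℕ), p n ∈ X n) (hq : ∀ᶠ n in (UN : Filter ℕ), q n ∈ X n)
    (hz : ∀ᶠ n in (UN : Filter ℕ), z n ∈ X n) (hpq : ∀ᶠ n in (UN : Filter ℕ), p n ≠ q n)
    (hzp : ∀ᶠ n in (UN : Filter ℕ), z n ≠ p n) (hzq : ∀ᶠ n in (UN : Filter ℕ), z n ≠ q n) :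
    ∃ w : ℕ → E, ∀ᶠ n in (UN : Filter ℕ), w n ∈ Deg (X n) (p n) (q n) ∧
      w n ∈ convexHull ℝ ({p n, q n, z n} : Set E) := by
  have h1 : ∀ n, ∃ w : E, (p n ∈ X n ∧ q n ∈ X n ∧ z n ∈ X n ∧ p n ≠ q n ∧ z n ≠ p n ∧
      z n ≠ q n) → (w ∈ Deg (X n) (p n) (q n) ∧ w ∈ convexHull ℝ ({p n, q n, z n} : Set E)) := by
    intro n
    by_cases hc : (p n ∈ X n ∧ q n ∈ X n ∧ z n ∈ X n ∧ p n ≠ q n ∧ z n ≠ p n ∧ z n ≠ q n)
    · obtain ⟨b1, b2, b3, b4, b5, b6⟩ := hc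
      obtain ⟨w, hw1, hw2⟩ := exists_partner (h n).gp b1 b2 b3 b4 b5 b6
      exact ⟨w, fun _ => ⟨hw1, hw2⟩⟩
    · exact ⟨0, fun h => absurd h hc⟩
  choose w hw using h1
  refine ⟨w, ?_⟩
  filter_upwards [hp, hq, hz, hpq, hzp, hzq] with n b1 b2 b3 b4 b5 b6
  exact hw n ⟨b1, b2, b3, b4, b5, b6⟩

theorem seq_contra (h : ∀ n, KSet K (X n)) {p q : ℕ → E}
    (hp : ∀ᶠ n in (UN : Filter ℕ), p n ∈ X n) (hq : ∀ᶠ n in (UN : Filter ℕ), q n ∈ X n)
    (hpq : ∀ᶠ n in (UN : Filter ℕ), p n ≠ q n) {w : Fin (K + 1) → ℕ → E}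
    (hw : ∀ i, ∀ᶠ n in (UN : Filter ℕ), w i n ∈ Deg (X n) (p n) (q n))
    (hinj : ∀ i j, i ≠ j → ∀ᶠ n in (UN : Filter ℕ), w i n ≠ w j n) : False := by
  have h1 : ∀ᶠ n in (UN : Filter ℕ), ∀ i, w i n ∈ Deg (X n) (p n) (q n) := by
    rw [Filter.eventually_all]
    exact hw
  have h2 : ∀ᶠ n in (UN : Filter ℕ), ∀ i j, i ≠ j → w i n ≠ w j n := by
    rw [Filter.eventually_all]
    intro i
    rw [Filter.eventually_all]
    intro j
    by_cases hij : i = j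
    · exact Filter.Eventually.of_forall fun n hne => absurd hij hne
    · exact (hinj i j hij).mono fun n hn _ => hn
  obtain ⟨n, ⟨⟨⟨⟨b1, b2⟩, b3⟩, b4⟩, b5⟩⟩ := ((((hp.and hq).and hpq).and h1).and h2).exists
  refine no_many_partners (h n) b1 b2 b3 (w := fun i => w i n) b4 ?_
  intro i j hij
  by_contra hne
  exact b5 i j hne hij

end seq

end Pool.Agent.Lib.MP_8bcb9d_co
end

section

/-!
# Directions, and clusters which see many directions
-/

set_option autoImplicit false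

namespace Pool.Agent.Lib.MP_8bcb9d_co

open Filter Topology

theorem exists_pos_le_finset {α : Type*} (s : Finset α) (f : α → ℝ) (hf : ∀ x ∈ s, 0 < f x) :
    ∃ c > 0, ∀ x ∈ s, c ≤ f x := by
  classical
  induction s using Finset.induction_on with
  | empty => exact ⟨1, one_pos, by simp⟩
  | insert a s ha ih =>
    obtain ⟨c, hc, h⟩ := ih fun x hx => hf x (Finset.mem_insert_of_mem hx)
    refine ⟨min c (f a), lt_min hc (hf a (Finset.mem_insert_self _ _)), ?_⟩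
    intro x hx
    rcases Finset.mem_insert.1 hx with rfl | hx
    · exact min_le_right _ _
    · exact (min_le_left _ _).trans (h x hx)

/-- non-zero vectors in pairwise different directions -/
def Dirs (Φ : Finset E) : Prop :=
  (∀ φ ∈ Φ, φ ≠ 0) ∧ ∀ φ ∈ Φ, ∀ ψ ∈ Φ, ∀ c : ℝ, 0 < c → φ = c • ψ → φ = ψ

theorem Dirs.unit_ne {Φ : Finset E} (h : Dirs Φ) {φ ψ : E} (hφ : φ ∈ Φ) (hψ : ψ ∈ Φ)
    (hne : φ ≠ ψ) : ‖φ‖⁻¹ • φ ≠ ‖ψ‖⁻¹ • ψ := by
  intro heq
  apply hne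
  have h1 : 0 < ‖φ‖ := norm_pos_iff.2 (h.1 φ hφ)
  have h2 : 0 < ‖ψ‖ := norm_pos_iff.2 (h.1 ψ hψ)
  refine h.2 φ hφ ψ hψ (‖φ‖ * ‖ψ‖⁻¹) (by positivity) ?_
  rw [← smul_smul, ← heq, smul_smul, mul_inv_cancel₀ h1.ne', one_smul]

/-- Rays in different directions are separated. -/
theorem Dirs.sep {Φ : Finset E} (h : Dirs Φ) : ∃ c : ℝ, 0 < c ∧ c ≤ 1 ∧
    ∀ φ ∈ Φ, ∀ ψ ∈ Φ, φ ≠ ψ → ∀ w : E, w ≠ 0 → ∀ s t : ℝ, 0 ≤ s → 0 ≤ t →
      ‖w - s • φ‖ ≤ c * ‖w‖ → ‖w - t • ψ‖ ≤ c * ‖w‖ → False := by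
  classical
  obtain ⟨c, hc, hcle⟩ := exists_pos_le_finset (Φ.offDiag)
    (fun x => ‖‖x.1‖⁻¹ • x.1 - ‖x.2‖⁻¹ • x.2‖) (by
      intro x hx
      rw [Finset.mem_offDiag] at hx
      exact norm_pos_iff.2 (sub_ne_zero.2 (h.unit_ne hx.1 hx.2.1 hx.2.2)))
  refine ⟨min 1 (c / 5), by positivity, min_le_left _ _, ?_⟩
  intro φ hφ ψ hψ hne w hw s t hs ht h1 h2
  have hw0 : 0 < ‖w‖ := norm_pos_iff.2 hw
  have key : ∀ χ ∈ Φ, ∀ r : ℝ, 0 ≤ r → ‖w - r • χ‖ ≤ min 1 (c / 5) * ‖w‖ →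
      ‖w - ‖w‖ • (‖χ‖⁻¹ • χ)‖ ≤ 2 * (c / 5) * ‖w‖ := by
    intro χ hχ r hr h3
    have hχ0 : 0 < ‖χ‖ := norm_pos_iff.2 (h.1 χ hχ)
    have h3' : ‖w - r • χ‖ ≤ c / 5 * ‖w‖ :=
      h3.trans (mul_le_mul_of_nonneg_right (min_le_right _ _) hw0.le)
    have h4 : ‖r • χ - ‖w‖ • (‖χ‖⁻¹ • χ)‖ = |r * ‖χ‖ - ‖w‖| := by
      have : r • χ - ‖w‖ • (‖χ‖⁻¹ • χ) = (r * ‖χ‖ - ‖w‖) • (‖χ‖⁻¹ • χ) := by
        rw [sub_smul, mul_smul, smul_smul ‖χ‖, mul_inv_cancel₀ hχ0.ne', one_smul]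
      rw [this, norm_smul, norm_smul, norm_inv, norm_norm, inv_mul_cancel₀ hχ0.ne', mul_one,
        Real.norm_eq_abs]
    have h5 : |r * ‖χ‖ - ‖w‖| ≤ ‖w - r • χ‖ := by
      have h6 : ‖r • χ‖ = r * ‖χ‖ := by rw [norm_smul, Real.norm_of_nonneg hr]
      rw [← h6, abs_sub_comm]
      exact abs_norm_sub_norm_le _ _
    calc ‖w - ‖w‖ • (‖χ‖⁻¹ • χ)‖ ≤ ‖w - r • χ‖ + ‖r • χ - ‖w‖ • (‖χ‖⁻¹ • χ)‖ :=
          norm_sub_le_norm_sub_add_norm_sub _ _ _
      _ ≤ c / 5 * ‖w‖ + c / 5 * ‖w‖ := by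
          rw [h4]; exact add_le_add h3' (h5.trans h3')
      _ = _ := by ring
  have k1 := key φ hφ s hs h1
  have k2 := key ψ hψ t ht h2
  have k3 : ‖w‖ * c ≤ 4 * (c / 5) * ‖w‖ := by
    calc ‖w‖ * c ≤ ‖w‖ * ‖‖φ‖⁻¹ • φ - ‖ψ‖⁻¹ • ψ‖ :=
          mul_le_mul_of_nonneg_left (hcle (φ, ψ) (Finset.mem_offDiag.2 ⟨hφ, hψ, hne⟩)) hw0.le
      _ = ‖‖w‖ • (‖φ‖⁻¹ • φ) - ‖w‖ • (‖ψ‖⁻¹ • ψ)‖ := by
          rw [← smul_sub, norm_smul, norm_norm]
      _ ≤ ‖‖w‖ • (‖φ‖⁻¹ • φ) - w‖ + ‖w - ‖w‖ • (‖ψ‖⁻¹ • ψ)‖ :=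
          norm_sub_le_norm_sub_add_norm_sub _ _ _
      _ ≤ 2 * (c / 5) * ‖w‖ + 2 * (c / 5) * ‖w‖ := by
          rw [norm_sub_rev]; exact add_le_add k1 k2
      _ = _ := by ring
  nlinarith [mul_pos hw0 hc]

/-- A cluster has a pair which sees about half of the points above it. -/
theorem hull_pair {X C : Finset E} (hX : GenPos X) (hC : C ⊆ X) (hC2 : 2 ≤ C.card) {m : ℕ}
    {f : Fin (2 * m + 1) → E} (hf : ∀ i, f i ∈ X) (hfC : ∀ i, ∀ c ∈ C, c 1 < f i 1) :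
    ∃ p ∈ C, ∃ q ∈ C, p ≠ q ∧ ∃ I : Finset (Fin (2 * m + 1)), m + 1 ≤ I.card ∧
      ∀ i ∈ I, ∀ c ∈ C, c ∈ convexHull ℝ ({p, q, f i} : Set E) → c = p ∨ c = q := by
  classical
  have hne : C.Nonempty := Finset.card_pos.1 (by omega)
  obtain ⟨p, hp, hpmax⟩ := C.exists_max_image (fun v => v 1) hne
  have hfne : ∀ i, ∀ c ∈ C, f i ≠ c := fun i c hc h => by
    have := hfC i c hc
    rw [h] at this
    exact lt_irrefl _ this
  -- the common argument
  have key : ∀ q ∈ C, p ≠ q → ∀ (a b : ℝ), (∀ c ∈ C, a * (c 0 - p 0) + b * (c 1 - p 1) ≤ 0) →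
      a * (q 0 - p 0) + b * (q 1 - p 1) = 0 →
      ∀ i, 0 < a * (f i 0 - p 0) + b * (f i 1 - p 1) → ∀ c ∈ C,
        c ∈ convexHull ℝ ({p, q, f i} : Set E) → c = p ∨ c = q := by
    intro q hq hpq a b hab hq0 i hi c hc hcc
    by_contra hcon
    push Not at hcon
    obtain ⟨α, β, γ, hα, hβ, hγ, hsum, hce⟩ := mem_triangle hcc
    have h1 := (cr_comb hsum hce).1
    have h2 := cr_ne_zero hX (hC hp) (hC hq) (hC hc) hpq hcon.1 hcon.2
    have hγ0 : 0 < γ := by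
      rcases hγ.lt_or_eq with h | h
      · exact h
      · rw [← h, zero_mul] at h1
        exact absurd h1 h2
    have h3 : a * (c 0 - p 0) + b * (c 1 - p 1) =
        γ * (a * (f i 0 - p 0) + b * (f i 1 - p 1)) := by
      have hα' : α = 1 - β - γ := by linarith
      rw [hce, hα']
      simp only [PiLp.add_apply, PiLp.smul_apply, smul_eq_mul]
      linear_combination β * hq0
    have h4 := hab c hc
    rw [h3] at h4
    nlinarith [mul_pos hγ0 hi]
  by_cases hA : ∃ c ∈ C, c ≠ p ∧ c 1 = p 1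
  · obtain ⟨q, hq, hqp, hq1⟩ := hA
    refine ⟨p, hp, q, hq, hqp.symm, Finset.univ, by simp; omega, ?_⟩
    intro i _
    refine key q hq hqp.symm 0 1 ?_ ?_ i ?_
    · intro c hc
      have := hpmax c hc
      linarith
    · rw [hq1]; ring
    · have := hfC i p hp
      linarith
  · push Not at hA
    have hlt : ∀ c ∈ C, c ≠ p → c 1 < p 1 := fun c hc hcp =>
      lt_of_le_of_ne (hpmax c hc) (hA c hc hcp)
    have hne' : (C.erase p).Nonempty := by
      rw [← Finset.card_pos, Finset.card_erase_of_mem hp]; omega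
    obtain ⟨l, hl, hlmax⟩ := (C.erase p).exists_max_image
      (fun v => (v 0 - p 0) / (p 1 - v 1)) hne'
    obtain ⟨r, hr, hrmin⟩ := (C.erase p).exists_min_image
      (fun v => (v 0 - p 0) / (p 1 - v 1)) hne'
    rw [Finset.mem_erase] at hl hr
    set σl := (l 0 - p 0) / (p 1 - l 1) with hσl
    set σr := (r 0 - p 0) / (p 1 - r 1) with hσr
    have hlp : 0 < p 1 - l 1 := by linarith [hlt l hl.2 hl.1]
    have hrp : 0 < p 1 - r 1 := by linarith [hlt r hr.2 hr.1]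
    have hl0 : 1 * (l 0 - p 0) + σl * (l 1 - p 1) = 0 := by
      have : σl * (p 1 - l 1) = l 0 - p 0 := by rw [hσl]; field_simp
      linarith
    have hr0 : (-1) * (r 0 - p 0) + (-σr) * (r 1 - p 1) = 0 := by
      have : σr * (p 1 - r 1) = r 0 - p 0 := by rw [hσr]; field_simp
      linarith
    have hlC : ∀ c ∈ C, 1 * (c 0 - p 0) + σl * (c 1 - p 1) ≤ 0 := by
      intro c hc
      by_cases hcp : c = p
      · rw [hcp]; simp
      · have h1 := hlmax c (Finset.mem_erase.2 ⟨hcp, hc⟩)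
        have h2 : 0 < p 1 - c 1 := by linarith [hlt c hc hcp]
        simp only at h1
        rw [div_le_iff₀ h2] at h1
        linarith
    have hrC : ∀ c ∈ C, (-1) * (c 0 - p 0) + (-σr) * (c 1 - p 1) ≤ 0 := by
      intro c hc
      by_cases hcp : c = p
      · rw [hcp]; simp
      · have h1 := hrmin c (Finset.mem_erase.2 ⟨hcp, hc⟩)
        have h2 : 0 < p 1 - c 1 := by linarith [hlt c hc hcp]
        simp only at h1
        rw [le_div_iff₀ h2] at h1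
        linarith
    let Il : Finset (Fin (2 * m + 1)) :=
      Finset.univ.filter fun i => 0 < 1 * (f i 0 - p 0) + σl * (f i 1 - p 1)
    let Ir : Finset (Fin (2 * m + 1)) :=
      Finset.univ.filter fun i => 0 < (-1) * (f i 0 - p 0) + (-σr) * (f i 1 - p 1)
    have hcov : (Finset.univ : Finset (Fin (2 * m + 1))) ⊆ Il ∪ Ir := by
      intro i _
      rw [Finset.mem_union]
      by_contra hcon
      push Not at hcon
      simp only [Il, Ir, Finset.mem_filter, Finset.mem_univ, true_and, not_lt] at hcon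
      obtain ⟨h1, h2⟩ := hcon
      have hY : 0 < f i 1 - p 1 := by linarith [hfC i p hp]
      have hσ : σr ≤ σl := (hrmin l (Finset.mem_erase.2 hl))
      have h3 : σl * (f i 1 - p 1) ≤ σr * (f i 1 - p 1) := by linarith
      have h4 : σl ≤ σr := le_of_mul_le_mul_right h3 hY
      have h5 : σl = σr := le_antisymm h4 hσ
      have h6 : (f i 0 - p 0) + σl * (f i 1 - p 1) = 0 := by
        rw [← h5] at h2; linarith
      have h7 : cr (l - p) (f i - p) = 0 := by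
        simp only [cr, PiLp.sub_apply]
        linear_combination (f i 1 - p 1) * hl0 - (l 1 - p 1) * h6
      exact cr_ne_zero hX (hC hp) (hC hl.2) (hf i) hl.1.symm (hfne i p hp) (hfne i l hl.2) h7
    have hsum : 2 * m + 1 ≤ Il.card + Ir.card := by
      calc 2 * m + 1 = (Finset.univ : Finset (Fin (2 * m + 1))).card := by simp
        _ ≤ (Il ∪ Ir).card := Finset.card_le_card hcov
        _ ≤ _ := Finset.card_union_le _ _
    rcases le_or_gt (m + 1) Il.card with hI | hI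
    · refine ⟨p, hp, l, hl.2, hl.1.symm, Il, hI, ?_⟩
      intro i hi
      exact key l hl.2 hl.1.symm 1 σl hlC hl0 i (Finset.mem_filter.1 hi).2
    · refine ⟨p, hp, r, hr.2, hr.1.symm, Ir, by omega, ?_⟩
      intro i hi
      exact key r hr.2 hr.1.symm (-1) (-σr) hrC hr0 i (Finset.mem_filter.1 hi).2

/-- norm estimate for points of a triangle with a far vertex -/
theorem far_est {x p q f w φ : E} {s ε τ a b γ : ℝ} (hp : dist p x ≤ s) (hq : dist q x ≤ s)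
    (ha : 0 ≤ a) (hb : 0 ≤ b) (hγ : 0 ≤ γ) (hsum : a + b + γ = 1)
    (hw : w = a • p + b • q + γ • f) (hf : dist f (x + τ • φ) ≤ ε * τ) :
    ‖(w - x) - (γ * τ) • φ‖ ≤ s + γ * (ε * τ) := by
  have h1 : (w - x) - (γ * τ) • φ = a • (p - x) + b • (q - x) + γ • (f - (x + τ • φ)) := by
    have ha' : a = 1 - b - γ := by linarith
    rw [hw, ha', mul_smul]
    module
  have hs : 0 ≤ s := dist_nonneg.trans hp
  rw [h1]
  rw [dist_eq_norm] at hp hq hf
  calc ‖a • (p - x) + b • (q - x) + γ • (f - (x + τ • φ))‖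
      ≤ ‖a • (p - x)‖ + ‖b • (q - x)‖ + ‖γ • (f - (x + τ • φ))‖ := norm_add₃_le
    _ = a * ‖p - x‖ + b * ‖q - x‖ + γ * ‖f - (x + τ • φ)‖ := by
        rw [norm_smul, norm_smul, norm_smul, Real.norm_of_nonneg ha, Real.norm_of_nonneg hb,
          Real.norm_of_nonneg hγ]
    _ ≤ a * s + b * s + γ * (ε * τ) := by gcongr
    _ ≤ s + γ * (ε * τ) := by nlinarith

/-- Partners in different far directions are different. -/
theorem far_ne {Φ : Finset E} {c : ℝ} (hc : 0 < c) (hc1 : c ≤ 1)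
    (hsep : ∀ φ ∈ Φ, ∀ ψ ∈ Φ, φ ≠ ψ → ∀ w : E, w ≠ 0 → ∀ s t : ℝ, 0 ≤ s → 0 ≤ t →
      ‖w - s • φ‖ ≤ c * ‖w‖ → ‖w - t • ψ‖ ≤ c * ‖w‖ → False) {x w : E} {s ε : ℝ}
    (hε : 0 < ε) (hεΦ : ∀ φ ∈ Φ, ε ≤ c * ‖φ‖ / 8)
    (hw : s ≤ c / 2 * ‖w - x‖) (hwx : w ≠ x)
    {φ ψ : E} (hφ : φ ∈ Φ) (hψ : ψ ∈ Φ) (hne : φ ≠ ψ) {γ τ γ' τ' : ℝ} (hγ : 0 ≤ γ) (hτ : 0 ≤ τ)
    (hγ' : 0 ≤ γ') (hτ' : 0 ≤ τ')
    (h1 : ‖(w - x) - (γ * τ) • φ‖ ≤ s + γ * (ε * τ))
    (h2 : ‖(w - x) - (γ' * τ') • ψ‖ ≤ s + γ' * (ε * τ')) : False := by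
  have hw0 : 0 < ‖w - x‖ := norm_pos_iff.2 (sub_ne_zero.2 hwx)
  have key : ∀ χ ∈ Φ, ∀ g t : ℝ, 0 ≤ g → 0 ≤ t →
      ‖(w - x) - (g * t) • χ‖ ≤ s + g * (ε * t) → ‖(w - x) - (g * t) • χ‖ ≤ c * ‖w - x‖ := by
    intro χ hχ g t hg ht h3
    have h4 := hεΦ χ hχ
    have hgt : 0 ≤ g * t := mul_nonneg hg ht
    have h5 : g * t * ‖χ‖ ≤ ‖w - x‖ + (s + g * (ε * t)) := by
      calc g * t * ‖χ‖ = ‖(g * t) • χ‖ := by rw [norm_smul, Real.norm_of_nonneg hgt]
        _ = ‖(w - x) - ((w - x) - (g * t) • χ)‖ := by congr 1; abel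
        _ ≤ ‖w - x‖ + ‖(w - x) - (g * t) • χ‖ := norm_sub_le _ _
        _ ≤ _ := add_le_add le_rfl h3
    have h6 : g * t * ε ≤ g * t * (c * ‖χ‖ / 8) := mul_le_mul_of_nonneg_left h4 hgt
    have h7 : g * t * ‖χ‖ ≤ 2 * ‖w - x‖ := by
      have : 0 ≤ g * t * ‖χ‖ := by positivity
      nlinarith
    nlinarith
  exact hsep φ hφ ψ hψ hne (w - x) (sub_ne_zero.2 hwx) (γ * τ) (γ' * τ') (mul_nonneg hγ hτ)
    (mul_nonneg hγ' hτ') (key φ hφ γ τ hγ hτ h1) (key ψ hψ γ' τ' hγ' hτ' h2)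

/-- **No gaps.** A point of `X` which has another point within `s` and far points in sufficiently
many directions above it has a point at distance between `s` and `L * s`. -/
theorem gap_hit {Φ : Finset E} (hΦ : Dirs Φ) {K : ℕ}
    (hcard : 2 * K + 1 ≤ (Φ.filter fun φ => 0 < φ 1).card) :
    ∃ L : ℝ, 1 ≤ L ∧ ∃ ε > 0, ∀ X : Finset E, KSet K X → ∀ x ∈ X, ∀ s > 0,
      (∃ x' ∈ X, x' ≠ x ∧ dist x' x ≤ s) →
      (∀ φ ∈ Φ, ∃ f ∈ X, ∃ τ : ℝ, 0 < τ ∧ L * s ≤ τ ∧ dist f (x + τ • φ) ≤ ε * τ) →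
      ∃ y ∈ X, s < dist y x ∧ dist y x ≤ L * s := by
  classical
  obtain ⟨c, hc, hc1, hsep⟩ := hΦ.sep
  obtain ⟨d, hd, hdle⟩ := exists_pos_le_finset (Φ.filter fun φ => 0 < φ 1) (fun φ => φ 1)
    (fun φ hφ => (Finset.mem_filter.1 hφ).2)
  obtain ⟨e, he, hele⟩ := exists_pos_le_finset Φ (fun φ => c * ‖φ‖ / 8) (by
    intro φ hφ
    have := norm_pos_iff.2 (hΦ.1 φ hφ)
    positivity)
  set ε := min e (d / 2)
  have hε0 : 0 < ε := by positivity
  refine ⟨max (2 / c + 1) (4 / d), (by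
    have : 0 < 2 / c := by positivity
    exact (by linarith : (1 : ℝ) ≤ 2 / c + 1).trans (le_max_left _ _)), ε, hε0, ?_⟩
  intro X hX x hx s hs hx' hfar
  set L := max (2 / c + 1) (4 / d) with hL
  by_contra hcon
  push Not at hcon
  -- the cluster
  let C : Finset E := X.filter fun v => dist v x ≤ s
  have hCX : C ⊆ X := Finset.filter_subset _ _
  have hCmem : ∀ v, v ∈ C ↔ v ∈ X ∧ dist v x ≤ s := fun v => by simp [C]
  have hxC : x ∈ C := by rw [hCmem, dist_self]; exact ⟨hx, hs.le⟩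
  have hC2 : 2 ≤ C.card := by
    obtain ⟨x', hx'X, hne, hd'⟩ := hx'
    exact Finset.one_lt_card.2 ⟨x', by rw [hCmem]; exact ⟨hx'X, hd'⟩, x, hxC, hne⟩
  -- far points
  obtain ⟨S, hS, hScard⟩ := Finset.exists_subset_card_eq hcard
  let eS := S.equivFinOfCardEq hScard
  let φ : Fin (2 * K + 1) → E := fun i => (eS.symm i : E)
  have hφS : ∀ i, φ i ∈ S := fun i => (eS.symm i).2
  have hφΦ : ∀ i, φ i ∈ Φ := fun i => (Finset.mem_filter.1 (hS (hφS i))).1
  have hφd : ∀ i, d ≤ φ i 1 := fun i => hdle _ (hS (hφS i))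
  have hφinj : Function.Injective φ := fun i j h => by
    have : eS.symm i = eS.symm j := Subtype.ext h
    exact eS.symm.injective this
  choose! f hfX τ hτ0 hτ hfτ using hfar
  have hup : ∀ i, ∀ v ∈ C, v 1 < f (φ i) 1 := by
    intro i v hv
    have h1 := abs_sub_one_le (f (φ i)) (x + τ (φ i) • φ i)
    have h2 := hfτ (φ i) (hφΦ i)
    have h3 := abs_le.1 (h1.trans h2)
    have h4 := abs_le.1 ((abs_sub_one_le v x).trans ((hCmem v).1 hv).2)
    have h5 := hτ (φ i) (hφΦ i)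
    have h6 := hτ0 (φ i) (hφΦ i)
    simp only [PiLp.add_apply, PiLp.smul_apply, smul_eq_mul] at h3
    have h7 : ε ≤ d / 2 := min_le_right _ _
    have h8 := hφd i
    have h9 : 4 / d * s ≤ τ (φ i) := (mul_le_mul_of_nonneg_right (le_max_right _ _) hs.le).trans h5
    rw [div_mul_eq_mul_div, div_le_iff₀ hd] at h9
    nlinarith [mul_le_mul_of_nonneg_left h8 h6.le, mul_le_mul_of_nonneg_left h7 h6.le, h3.1, h4.2]
  obtain ⟨p, hp, q, hq, hpq, I, hI, hsee⟩ := hull_pair hX.gp hCX hC2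
    (f := fun i => f (φ i)) (fun i => hfX _ (hφΦ i)) hup
  have hfp : ∀ i, ∀ v ∈ C, f (φ i) ≠ v := fun i v hv h => by
    have := hup i v hv
    rw [h] at this
    exact lt_irrefl _ this
  -- partners
  have hpart : ∀ i, ∃ w ∈ Deg X p q, w ∈ convexHull ℝ ({p, q, f (φ i)} : Set E) := fun i =>
    exists_partner hX.gp (hCX hp) (hCX hq) (hfX _ (hφΦ i)) hpq (hfp i p hp) (hfp i q hq)
  choose w hwD hwc using hpart
  have hwfar : ∀ i ∈ I, L * s < dist (w i) x := by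
    intro i hi
    have h1 : w i ∉ C := by
      intro hwC
      rcases hsee i hi (w i) hwC (hwc i) with h | h
      · exact (hwD i).2.1 h
      · exact (hwD i).2.2.1 h
    have h2 : s < dist (w i) x := by
      by_contra h
      push Not at h
      exact h1 ((hCmem _).2 ⟨(hwD i).1, h⟩)
    exact hcon (w i) (hwD i).1 h2
  have hest : ∀ i, ∃ γ : ℝ, 0 ≤ γ ∧ ‖(w i - x) - (γ * τ (φ i)) • φ i‖ ≤
      s + γ * (ε * τ (φ i)) := by
    intro i
    obtain ⟨a, b, γ, ha, hb, hγ, hsum, hwe⟩ := mem_triangle (hwc i)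
    exact ⟨γ, hγ, far_est ((hCmem p).1 hp).2 ((hCmem q).1 hq).2 ha hb hγ hsum hwe
      (hfτ (φ i) (hφΦ i))⟩
  choose γ hγ0 hγ using hest
  obtain ⟨J, hJ, hJcard⟩ := Finset.exists_subset_card_eq hI
  let eJ := J.equivFinOfCardEq hJcard
  refine no_many_partners hX (hCX hp) (hCX hq) hpq (w := fun k => w (eJ.symm k))
    (fun k => hwD _) ?_
  intro k k' hkk
  by_contra hne
  have hne' : (eJ.symm k : Fin (2 * K + 1)) ≠ eJ.symm k' := fun h =>
    hne (eJ.symm.injective (Subtype.ext h))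
  simp only at hkk
  have h1 := hwfar _ (hJ (eJ.symm k).2)
  have hwx : w (eJ.symm k) ≠ x := by
    intro h
    rw [h, dist_self] at h1
    have : 0 < L * s := by positivity
    linarith
  have h2 : s ≤ c / 2 * ‖w (eJ.symm k) - x‖ := by
    rw [← dist_eq_norm]
    have h3 : (2 / c + 1) * s ≤ L * s := mul_le_mul_of_nonneg_right (le_max_left _ _) hs.le
    have h4 : c / 2 * ((2 / c + 1) * s) = s + c / 2 * s := by field_simp
    have h5 : c / 2 * (L * s) ≤ c / 2 * dist (w (eJ.symm k)) x :=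
      mul_le_mul_of_nonneg_left h1.le (by positivity)
    have h6 : c / 2 * ((2 / c + 1) * s) ≤ c / 2 * (L * s) :=
      mul_le_mul_of_nonneg_left h3 (by positivity)
    nlinarith [mul_pos hc hs]
  refine far_ne hc hc1 hsep hε0 (fun χ hχ => (min_le_left _ _).trans (hele χ hχ)) h2 hwx
    (hφΦ (eJ.symm k)) (hφΦ (eJ.symm k')) (fun h => hne' (hφinj h)) (hγ0 (eJ.symm k))
    (hτ0 _ (hφΦ (eJ.symm k))).le (hγ0 (eJ.symm k')) (hτ0 _ (hφΦ (eJ.symm k'))).le
    (hγ (eJ.symm k)) ?_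
  rw [hkk]
  exact hγ (eJ.symm k')

end Pool.Agent.Lib.MP_8bcb9d_co
end
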