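import Mathlib
import Pool.Agent.Lib.MP_8bcb9d_co.PS3

/-!
# Points with an empty cone above them are isolated
-/

set_option autoImplicit false

namespace Pool.Agent.Lib.MP_8bcb9d_co

open Filter Topology

/-- `K + 1` directions in the first and `K + 1` in the second open quadrant -/
def Std (K : ℕ) (Φ : Finset E) : Prop :=
  K + 1 ≤ (Φ.filter fun φ => 0 < φ 0 ∧ 0 < φ 1).card ∧
    K + 1 ≤ (Φ.filter fun φ => φ 0 < 0 ∧ 0 < φ 1).card

/-- one-sided version, for a finite set -/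
theorem cone_fin_side {Φ : Finset E} (hΦ : Dirs Φ) {K : ℕ} {σ : ℝ} (hσ : σ = 1 ∨ σ = -1)
    {lam : ℝ} (hlam : 1 ≤ lam) (hlamΦ : ∀ φ ∈ Φ, 0 < φ 1 → |φ 0| ≤ lam / 2 * φ 1)
    (hcard : K + 1 ≤ (Φ.filter fun φ => 0 < σ * φ 0 ∧ 0 < φ 1).card) :
    ∃ c' > 0, ∃ ε₀ > 0, ∀ ε > 0, ε ≤ ε₀ → ∀ X : Finset E, KSet K X → ∀ x ∈ X, ∀ ρ > 0,
      (∀ w ∈ X, dist w x ≤ ρ → w 1 - x 1 ≤ 1 / (2 * lam) * |w 0 - x 0|) →
      (∀ φ ∈ Φ, ∃ f ∈ X, ∃ τ : ℝ, 0 < τ ∧ dist f (x + τ • φ) ≤ ε * τ) →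
      ∀ q ∈ X, q ≠ x → 0 ≤ σ * (q 0 - x 0) → c' * ρ < dist q x := by
  classical
  obtain ⟨c, hc, hc1, hsep⟩ := hΦ.sep
  obtain ⟨d, hd, hdle⟩ := exists_pos_le_finset (Φ.filter fun φ => 0 < σ * φ 0 ∧ 0 < φ 1)
    (fun φ => min (σ * φ 0) (φ 1))
    (fun φ hφ => lt_min (Finset.mem_filter.1 hφ).2.1 (Finset.mem_filter.1 hφ).2.2)
  obtain ⟨e, he, hele⟩ := exists_pos_le_finset Φ (fun φ => c * ‖φ‖ / 8) (by
    intro φ hφ
    have := norm_pos_iff.2 (hΦ.1 φ hφ)
    positivity)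
  have hσ2 : σ * σ = 1 := by rcases hσ with rfl | rfl <;> norm_num
  have hσabs : |σ| = 1 := by rcases hσ with rfl | rfl <;> norm_num
  refine ⟨c / (6 * (1 + lam)), by positivity, min e (d / 4), by positivity, ?_⟩
  intro ε hε0 hεle X hX x hx ρ hρ hcone hfar q₀ hq₀ hq₀x hS₀
  by_contra hcon
  push Not at hcon
  let S : E → ℝ := fun v => σ * (v 0 - x 0)
  let Y : E → ℝ := fun v => v 1 - x 1
  let G : E → ℝ := fun v => S v - lam * Y v
  have hSdef : ∀ v, S v = σ * (v 0 - x 0) := fun v => rfl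
  have hYdef : ∀ v, Y v = v 1 - x 1 := fun v => rfl
  have hGdef : ∀ v, G v = S v - lam * Y v := fun v => rfl
  have hSabs : ∀ v, |S v| = |v 0 - x 0| := fun v => by rw [hSdef, abs_mul, hσabs, one_mul]
  have hκ : 1 / (2 * lam) ≤ 1 / 2 := by
    apply one_div_le_one_div_of_le (by norm_num); linarith
  have hκlam : 1 / (2 * lam) * lam = 1 / 2 := by field_simp
  have hκ0 : 0 < 1 / (2 * lam) := by positivity
  -- near points on the right side
  have hnear : ∀ w ∈ X, dist w x ≤ ρ → w ≠ x → 0 ≤ S w →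
      Y w ≤ 1 / (2 * lam) * S w ∧ 0 < G w ∧ dist w x ≤ 3 * G w ∧ (S w = 0 → Y w < 0) := by
    intro w hw hwρ hwx hSw
    have h1 : Y w ≤ 1 / (2 * lam) * S w := by
      have := hcone w hw hwρ
      rwa [← hSabs, abs_of_nonneg hSw] at this
    have h2 : dist w x ≤ S w + |Y w| := by
      have := dist_le_abs w x
      rw [← hSabs, abs_of_nonneg hSw] at this
      exact this
    have h3 : 0 < dist w x := dist_pos.2 hwx
    have h4 : dist w x ≤ 3 * G w := by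
      rw [hGdef]
      rcases le_or_gt 0 (Y w) with hY | hY
      · rw [abs_of_nonneg hY] at h2
        have h5 : lam * Y w ≤ 1 / 2 * S w := by
          calc lam * Y w ≤ lam * (1 / (2 * lam) * S w) :=
                mul_le_mul_of_nonneg_left h1 (by linarith)
            _ = (1 / (2 * lam) * lam) * S w := by ring
            _ = 1 / 2 * S w := by rw [hκlam]
        have h6 : Y w ≤ 1 / 2 * S w := h1.trans (mul_le_mul_of_nonneg_right hκ hSw)
        linarith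
      · rw [abs_of_neg hY] at h2
        nlinarith
    refine ⟨h1, by linarith, h4, ?_⟩
    intro hS0
    have h5 : Y w ≤ 0 := by rw [hS0, mul_zero] at h1; exact h1
    rcases h5.lt_or_eq with h | h
    · exact h
    · rw [hS0, h, abs_zero] at h2
      linarith
  -- far points
  obtain ⟨F, hF, hFcard⟩ := Finset.exists_subset_card_eq hcard
  let eF := F.equivFinOfCardEq hFcard
  let φ : Fin (K + 1) → E := fun i => (eF.symm i : E)
  have hφF : ∀ i, φ i ∈ F := fun i => (eF.symm i).2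
  have hφΦ : ∀ i, φ i ∈ Φ := fun i => (Finset.mem_filter.1 (hF (hφF i))).1
  have hφd0 : ∀ i, d ≤ σ * φ i 0 := fun i => (hdle _ (hF (hφF i))).trans (min_le_left _ _)
  have hφd1 : ∀ i, d ≤ φ i 1 := fun i => (hdle _ (hF (hφF i))).trans (min_le_right _ _)
  have hφinj : Function.Injective φ := fun i j h =>
    eF.symm.injective (Subtype.ext h)
  choose! f hfX τ hτ0 hfτ using hfar
  have hff : ∀ i, 0 < S (f (φ i)) ∧ 0 < Y (f (φ i)) ∧ S (f (φ i)) ≤ lam * Y (f (φ i)) := by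
    intro i
    have h1 := abs_le.1 ((abs_sub_zero_le (f (φ i)) (x + τ (φ i) • φ i)).trans
      (hfτ (φ i) (hφΦ i)))
    have h2 := abs_le.1 ((abs_sub_one_le (f (φ i)) (x + τ (φ i) • φ i)).trans
      (hfτ (φ i) (hφΦ i)))
    simp only [PiLp.add_apply, PiLp.smul_apply, smul_eq_mul] at h1 h2
    have ht := hτ0 (φ i) (hφΦ i)
    set t := τ (φ i) with htdef
    have hεd : ε ≤ d / 4 := hεle.trans (min_le_right _ _)
    have h3 := hφd0 i
    have h4 := hφd1 i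
    have h5 : σ * φ i 0 ≤ lam / 2 * φ i 1 := by
      have := hlamΦ (φ i) (hφΦ i) (by linarith)
      calc σ * φ i 0 ≤ |σ * φ i 0| := le_abs_self _
        _ = |φ i 0| := by rw [abs_mul, hσabs, one_mul]
        _ ≤ _ := this
    have hSf : |S (f (φ i)) - t * (σ * φ i 0)| ≤ ε * t := by
      have : S (f (φ i)) - t * (σ * φ i 0) = σ * (f (φ i) 0 - (x 0 + t * φ i 0)) := by
        rw [hSdef]; ring
      rw [this, abs_mul, hσabs, one_mul, abs_le]
      exact h1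
    have hSf' := abs_le.1 hSf
    have k1 : t * d ≤ t * (σ * φ i 0) := mul_le_mul_of_nonneg_left h3 ht.le
    have k2 : t * d ≤ t * φ i 1 := mul_le_mul_of_nonneg_left h4 ht.le
    have k3 : ε * t ≤ d / 4 * t := mul_le_mul_of_nonneg_right hεd ht.le
    have k4 : 0 < t * d := mul_pos ht hd
    have k5 : t * (σ * φ i 0) ≤ t * (lam / 2 * φ i 1) := mul_le_mul_of_nonneg_left h5 ht.le
    have k6 : lam * (t * d) ≤ lam * (t * φ i 1) := mul_le_mul_of_nonneg_left k2 (by linarith)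
    have k7 : lam * (ε * t) ≤ lam * (d / 4 * t) := mul_le_mul_of_nonneg_left k3 (by linarith)
    have k8 : 1 * (t * d) ≤ lam * (t * d) := mul_le_mul_of_nonneg_right hlam k4.le
    refine ⟨by linarith [hSf'.1], ?_, ?_⟩
    · rw [hYdef]; linarith [h2.1]
    · have k9 : lam * (t * φ i 1 - ε * t) ≤ lam * Y (f (φ i)) := by
        apply mul_le_mul_of_nonneg_left _ (by linarith)
        rw [hYdef]; linarith [h2.1]
      nlinarith [hSf'.2]
  -- the set of candidates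
  let N : Finset E := X.filter fun w => dist w x ≤ ρ ∧ w ≠ x ∧ 0 ≤ S w ∧ G w ≤ G q₀
  have hNmem : ∀ w, w ∈ N ↔ w ∈ X ∧ dist w x ≤ ρ ∧ w ≠ x ∧ 0 ≤ S w ∧ G w ≤ G q₀ := fun w => by
    simp [N]
  have hc'1 : c / (6 * (1 + lam)) ≤ 1 := by
    rw [div_le_one (by positivity)]; nlinarith
  have hq₀ρ : dist q₀ x ≤ ρ := hcon.trans (by nlinarith)
  have hq₀N : q₀ ∈ N := (hNmem q₀).2 ⟨hq₀, hq₀ρ, hq₀x, hS₀, le_rfl⟩
  obtain ⟨q, hqN, hqmax⟩ := N.exists_max_image (fun v => Y v / G v) ⟨q₀, hq₀N⟩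
  obtain ⟨hqX, hqρ, hqx, hSq, hGq⟩ := (hNmem q).1 hqN
  obtain ⟨q1, q2, q3, q4⟩ := hnear q hqX hqρ hqx hSq
  -- size of `q`
  have hGq₀ : G q₀ ≤ (1 + lam) * dist q₀ x := by
    have h1 : |S q₀| ≤ dist q₀ x := by rw [hSabs]; exact abs_sub_zero_le _ _
    have h2 : |Y q₀| ≤ dist q₀ x := abs_sub_one_le _ _
    have h3 := abs_le.1 h1
    have h4 := abs_le.1 h2
    rw [hGdef]
    nlinarith [h3.2, h4.1]
  have hqs : dist q x ≤ c / 2 * ρ := by
    calc dist q x ≤ 3 * G q := q3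
      _ ≤ 3 * ((1 + lam) * dist q₀ x) := by linarith
      _ ≤ 3 * ((1 + lam) * (c / (6 * (1 + lam)) * ρ)) := by gcongr
      _ = c / 2 * ρ := by field_simp; ring
  -- triangles
  have htri : ∀ i, ∀ w ∈ X, w ≠ x → w ≠ q → w ∈ convexHull ℝ ({x, q, f (φ i)} : Set E) →
      ρ < dist w x := by
    intro i w hw hwx hwq hwc
    by_contra hwρ
    push Not at hwρ
    obtain ⟨a, b, γ, ha, hb, hγ, hsum, hwe⟩ := mem_triangle hwc
    have hcr := (cr_comb hsum hwe).1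
    have hcr0 := cr_ne_zero hX.gp hx hqX hw hqx.symm hwx hwq
    have hγ0 : 0 < γ := by
      rcases hγ.lt_or_eq with h | h
      · exact h
      · rw [← h, zero_mul] at hcr
        exact absurd hcr hcr0
    obtain ⟨f1, f2, f3⟩ := hff i
    have ha' : a = 1 - b - γ := by linarith
    have hSw : S w = b * S q + γ * S (f (φ i)) := by
      rw [hSdef, hSdef, hSdef, hwe, ha']
      simp only [PiLp.add_apply, PiLp.smul_apply, smul_eq_mul]
      ring
    have hYw : Y w = b * Y q + γ * Y (f (φ i)) := by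
      rw [hYdef, hYdef, hYdef, hwe, ha']
      simp only [PiLp.add_apply, PiLp.smul_apply, smul_eq_mul]
      ring
    have hSw0 : 0 ≤ S w := by rw [hSw]; positivity
    have hGf : G (f (φ i)) ≤ 0 := by rw [hGdef]; linarith
    have hGw : G w = b * G q + γ * G (f (φ i)) := by
      rw [hGdef, hGdef, hGdef, hSw, hYw]; ring
    have hGle : G w ≤ G q₀ := by
      have h1 : γ * G (f (φ i)) ≤ 0 := mul_nonpos_of_nonneg_of_nonpos hγ hGf
      have h2 : b * G q ≤ 1 * G q := mul_le_mul_of_nonneg_right (by linarith) q2.le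
      linarith
    have hwN : w ∈ N := (hNmem w).2 ⟨hw, hwρ, hwx, hSw0, hGle⟩
    obtain ⟨w1, w2, w3, w4⟩ := hnear w hw hwρ hwx hSw0
    have h1 := hqmax w hwN
    rw [div_le_div_iff₀ w2 q2] at h1
    -- cross product
    have h2 : Y w * G q - Y q * G w = γ * (Y (f (φ i)) * S q - Y q * S (f (φ i))) := by
      rw [hGw, hYw, hGdef, hGdef]; ring
    have h3 : 0 < Y (f (φ i)) * S q - Y q * S (f (φ i)) := by
      rcases hSq.lt_or_eq with hs | hs
      · rcases le_or_gt (Y q) 0 with hy | hy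
        · have k1 : 0 < Y (f (φ i)) * S q := mul_pos f2 hs
          have k2 : Y q * S (f (φ i)) ≤ 0 := mul_nonpos_of_nonpos_of_nonneg hy f1.le
          linarith
        · have k1 : Y q * S (f (φ i)) ≤ (1 / (2 * lam) * S q) * (lam * Y (f (φ i))) :=
            mul_le_mul q1 f3 f1.le (by positivity)
          have k2 : (1 / (2 * lam) * S q) * (lam * Y (f (φ i))) =
              (1 / (2 * lam) * lam) * (S q * Y (f (φ i))) := by ring
          rw [k2, hκlam] at k1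
          have k3 : 0 < S q * Y (f (φ i)) := mul_pos hs f2
          nlinarith
      · have hy := q4 hs.symm
        rw [← hs, mul_zero]
        nlinarith [mul_pos (neg_pos.2 hy) f1]
    nlinarith [mul_pos hγ0 h3]
  -- partners
  have hfx : ∀ i, f (φ i) ≠ x := fun i h => by
    have h1 := (hff i).1
    rw [h, hSdef, sub_self, mul_zero] at h1
    exact lt_irrefl _ h1
  have hfq : ∀ i, f (φ i) ≠ q := fun i h => by
    obtain ⟨f1, f2, f3⟩ := hff i
    rw [h] at f1 f2 f3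
    have : Y q ≤ 1 / (2 * lam) * (lam * Y q) :=
      q1.trans (mul_le_mul_of_nonneg_left f3 hκ0.le)
    rw [← mul_assoc, hκlam] at this
    linarith
  have hpart : ∀ i, ∃ w ∈ Deg X x q, w ∈ convexHull ℝ ({x, q, f (φ i)} : Set E) := fun i =>
    exists_partner hX.gp hx hqX (hfX _ (hφΦ i)) hqx.symm (hfx i) (hfq i)
  choose w hwD hwc using hpart
  have hwfar : ∀ i, ρ < dist (w i) x := fun i =>
    htri i (w i) (hwD i).1 (hwD i).2.1 (hwD i).2.2.1 (hwc i)
  have hest : ∀ i, ∃ γ : ℝ, 0 ≤ γ ∧ ‖(w i - x) - (γ * τ (φ i)) • φ i‖ ≤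
      c / 2 * ρ + γ * (ε * τ (φ i)) := by
    intro i
    obtain ⟨a, b, γ, ha, hb, hγ, hsum, hwe⟩ := mem_triangle (hwc i)
    exact ⟨γ, hγ, far_est (by rw [dist_self]; positivity) hqs ha hb hγ hsum hwe
      (hfτ (φ i) (hφΦ i))⟩
  choose γ hγ0 hγ using hest
  refine no_many_partners hX hx hqX hqx.symm (w := w) hwD ?_
  intro k k' hkk
  by_contra hne
  have h1 := hwfar k
  have hwx : w k ≠ x := by
    intro h
    rw [h, dist_self] at h1
    linarith
  have h2 : c / 2 * ρ ≤ c / 2 * ‖w k - x‖ := by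
    rw [← dist_eq_norm]
    exact mul_le_mul_of_nonneg_left h1.le (by positivity)
  refine far_ne hc hc1 hsep hε0 (fun χ hχ => hεle.trans ((min_le_left _ _).trans (hele χ hχ)))
    h2 hwx (hφΦ k) (hφΦ k') (fun h => hne (hφinj h)) (hγ0 k) (hτ0 _ (hφΦ k)).le (hγ0 k')
    (hτ0 _ (hφΦ k')).le (hγ k) ?_
  rw [hkk]
  exact hγ k'

/-- finite version -/
theorem cone_fin {Φ : Finset E} (hΦ : Dirs Φ) {K : ℕ} (hstd : Std K Φ) :
    ∃ κ > 0, ∃ c' > 0, ∃ ε > 0, ∀ X : Finset E, KSet K X → ∀ x ∈ X, ∀ ρ > 0,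
      (∀ w ∈ X, dist w x ≤ ρ → w 1 - x 1 ≤ κ * |w 0 - x 0|) →
      (∀ φ ∈ Φ, ∃ f ∈ X, ∃ τ : ℝ, 0 < τ ∧ dist f (x + τ • φ) ≤ ε * τ) →
      ∀ q ∈ X, q ≠ x → c' * ρ < dist q x := by
  classical
  -- the slope bound
  have hlam : ∃ lam : ℝ, 1 ≤ lam ∧ ∀ φ ∈ Φ, 0 < φ 1 → |φ 0| ≤ lam / 2 * φ 1 := by
    refine ⟨1 + ∑ φ ∈ Φ, 2 * |φ 0| / |φ 1|, ?_, ?_⟩
    · have : 0 ≤ ∑ φ ∈ Φ, 2 * |φ 0| / |φ 1| := Finset.sum_nonneg fun φ _ => by positivity
      linarith
    · intro φ hφ h1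
      have h2 : 2 * |φ 0| / |φ 1| ≤ ∑ ψ ∈ Φ, 2 * |ψ 0| / |ψ 1| :=
        Finset.single_le_sum (f := fun ψ : E => 2 * |ψ 0| / |ψ 1|)
          (fun ψ _ => by positivity) hφ
      rw [abs_of_pos h1, div_le_iff₀ h1] at h2
      nlinarith
  obtain ⟨lam, hlam1, hlamΦ⟩ := hlam
  obtain ⟨c1, hc1, e1, he1, H1⟩ := cone_fin_side hΦ (K := K) (σ := 1) (Or.inl rfl) hlam1 hlamΦ
    (by simpa using hstd.1)
  obtain ⟨c2, hc2, e2, he2, H2⟩ := cone_fin_side hΦ (K := K) (σ := -1) (Or.inr rfl) hlam1 hlamΦ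
    (by simpa using hstd.2)
  refine ⟨1 / (2 * lam), by positivity, min c1 c2, lt_min hc1 hc2, min e1 e2, lt_min he1 he2, ?_⟩
  intro X hX x hx ρ hρ hcone hfar q hq hqx
  rcases le_total 0 (q 0 - x 0) with h | h
  · have := H1 (min e1 e2) (lt_min he1 he2) (min_le_left _ _) X hX x hx ρ hρ hcone hfar q hq hqx
      (by rw [one_mul]; exact h)
    exact lt_of_le_of_lt (mul_le_mul_of_nonneg_right (min_le_left _ _) hρ.le) this
  · have := H2 (min e1 e2) (lt_min he1 he2) (min_le_right _ _) X hX x hx ρ hρ hcone hfar q hq hqx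
      (by linarith)
    exact lt_of_le_of_lt (mul_le_mul_of_nonneg_right (min_le_right _ _) hρ.le) this

/-- far points seen from a bounded sequence -/
theorem SeqTo.far_ev {K : ℕ} {Φ : Finset E} {T : Set E} {X : ℕ → Finset E} (h : SeqTo K Φ T X)
    {x : ℕ → E} {B : ℝ} (hB : ∀ᶠ n in (UN : Filter ℕ), ‖x n‖ ≤ B) {ε : ℝ} (hε : 0 < ε) (R : ℝ) :
    ∀ᶠ n in (UN : Filter ℕ), ∀ φ ∈ Φ, ∃ f ∈ X n, ∃ τ : ℝ, 0 < τ ∧ R ≤ τ ∧
      dist f (x n + τ • φ) ≤ ε * τ := by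
  rw [Filter.eventually_all_finset]
  intro φ hφ
  obtain ⟨f, τ, hf, hτ, hτ1, hτ2⟩ := h.far φ hφ
  rw [Metric.tendsto_nhds] at hτ2
  filter_upwards [hτ1.eventually_ge_atTop (max R (2 * B / ε)), hτ2 (ε / 2) (half_pos hε), hB]
    with n b1 b2 b3
  refine ⟨f n, hf n, τ n, hτ n, (le_max_left _ _).trans b1, ?_⟩
  have h4 : dist ((τ n)⁻¹ • f n) φ = (τ n)⁻¹ * dist (f n) (τ n • φ) := by
    rw [dist_eq_norm, dist_eq_norm]
    have : (τ n)⁻¹ • f n - φ = (τ n)⁻¹ • (f n - τ n • φ) := by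
      rw [smul_sub, smul_smul, inv_mul_cancel₀ (hτ n).ne', one_smul]
    rw [this, norm_smul, Real.norm_of_nonneg (inv_nonneg.2 (hτ n).le)]
  rw [h4, inv_mul_eq_div, div_lt_iff₀ (hτ n)] at b2
  have h5 : 2 * B / ε ≤ τ n := (le_max_right _ _).trans b1
  rw [div_le_iff₀ hε] at h5
  calc dist (f n) (x n + τ n • φ) ≤ dist (f n) (τ n • φ) + dist (τ n • φ) (x n + τ n • φ) :=
        dist_triangle _ _ _
    _ ≤ ε / 2 * τ n + B := by
        refine add_le_add b2.le ?_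
        rw [dist_eq_norm]
        have : τ n • φ - (x n + τ n • φ) = -x n := by abel
        rw [this, norm_neg]
        exact b3
    _ ≤ ε * τ n := by linarith

/-- **Empty cones.** -/
theorem cone_isolated {Φ : Finset E} (hΦ : Dirs Φ) {K : ℕ} (hstd : Std K Φ) :
    ∃ κ > 0, ∃ c' > 0, ∀ T : Set E, Lim K Φ T → ∀ x ∈ T, ∀ ρ > 0,
      (∀ w ∈ T, dist w x ≤ ρ → w 1 - x 1 ≤ κ * |w 0 - x 0|) →
      ∀ w ∈ T, dist w x ≤ c' * ρ → w = x := by
  classical
  obtain ⟨κ, hκ, c', hc', ε, hε, H⟩ := cone_fin hΦ hstd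
  refine ⟨κ / 2, by positivity, c' / 4, by positivity, ?_⟩
  intro T hT x hx ρ hρ hcone w hw hwx
  by_contra hne
  obtain ⟨X, hX⟩ := hT.seq
  obtain ⟨y, hy, hyx⟩ := hX.exists_seq hx
  -- the maximizers
  let g : E → ℝ := fun v => v 1 - κ * |v 0 - x 0|
  have hg : Continuous g := by
    have h0 : Continuous fun v : E => v 0 := EuclideanSpace.proj (𝕜 := ℝ) (0 : Fin 2) |>.continuous
    have h1 : Continuous fun v : E => v 1 := EuclideanSpace.proj (𝕜 := ℝ) (1 : Fin 2) |>.continuous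
    exact h1.sub (((h0.sub continuous_const).abs).const_smul κ)
  have hmax : ∀ n, ∃ z : E, (y n ∈ X n ∧ dist (y n) x ≤ ρ) →
      (z ∈ X n ∧ dist z x ≤ ρ ∧ ∀ v ∈ X n, dist v x ≤ ρ → g v ≤ g z) := by
    intro n
    by_cases hc : y n ∈ X n ∧ dist (y n) x ≤ ρ
    · obtain ⟨z, hz, hzmax⟩ := ((X n).filter fun v => dist v x ≤ ρ).exists_max_image g
        ⟨y n, Finset.mem_filter.2 hc⟩
      rw [Finset.mem_filter] at hz
      exact ⟨z, fun _ => ⟨hz.1, hz.2, fun v hv hvρ => hzmax v (Finset.mem_filter.2 ⟨hv, hvρ⟩)⟩⟩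
    · exact ⟨0, fun h => absurd h hc⟩
  choose z hz using hmax
  have hyev : ∀ᶠ n in (UN : Filter ℕ), y n ∈ X n ∧ dist (y n) x ≤ ρ := by
    rw [Metric.tendsto_nhds] at hyx
    filter_upwards [hy, hyx ρ hρ] with n h1 h2
    exact ⟨h1, h2.le⟩
  have hzX : ∀ᶠ n in (UN : Filter ℕ), z n ∈ X n := hyev.mono fun n hn => (hz n hn).1
  have hzρ : ∀ᶠ n in (UN : Filter ℕ), dist (z n) x ≤ ρ := hyev.mono fun n hn => (hz n hn).2.1
  have hzb : ∀ᶠ n in (UN : Filter ℕ), ‖z n‖ ≤ ‖x‖ + ρ := by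
    filter_upwards [hzρ] with n hn
    have := norm_le_norm_add_norm_sub' (z n) x
    rw [← dist_eq_norm] at this
    linarith
  obtain ⟨x', hx'T, hzx'⟩ := hX.exists_lim hzX hzb
  have hx'ρ : dist x' x ≤ ρ := le_of_tendsto (hzx'.dist tendsto_const_nhds) hzρ
  have hgle : g x ≤ g x' := by
    have h1 : Tendsto (fun n => g (y n)) UN (𝓝 (g x)) := (hg.tendsto x).comp hyx
    have h2 : Tendsto (fun n => g (z n)) UN (𝓝 (g x')) := (hg.tendsto x').comp hzx'
    refine le_of_tendsto_of_tendsto h1 h2 ?_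
    filter_upwards [hyev] with n hn
    exact (hz n hn).2.2 (y n) hn.1 hn.2
  have hx'x : x' = x := by
    have h1 := hcone x' hx'T hx'ρ
    have h2 : x 1 ≤ x' 1 - κ * |x' 0 - x 0| := by
      have : g x = x 1 := by simp [g]
      rw [← this]; exact hgle
    have h3 : |x' 0 - x 0| = 0 := by
      have h4 := abs_nonneg (x' 0 - x 0)
      nlinarith
    have h4 : dist x' x ≤ 0 := by
      have h5 := dist_le_abs x' x
      rw [h3] at h5 h1 h2
      have h6 : x' 1 - x 1 = 0 := by linarith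
      rw [h6, abs_zero] at h5
      linarith
    exact dist_le_zero.1 h4
  rw [hx'x] at hzx'
  obtain ⟨v, hv, hvw⟩ := hX.exists_seq hw
  have hvz : ∀ᶠ n in (UN : Filter ℕ), v n ≠ z n := by
    have h1 : Tendsto (fun n => dist (v n) (z n)) UN (𝓝 (dist w x)) := hvw.dist hzx'
    filter_upwards [h1.eventually (lt_mem_nhds (dist_pos.2 hne))] with n hn h
    rw [h, dist_self] at hn
    exact lt_irrefl _ hn
  have hzclose : ∀ᶠ n in (UN : Filter ℕ), dist (z n) x < ρ / 2 := by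
    rw [Metric.tendsto_nhds] at hzx'
    exact hzx' (ρ / 2) (by positivity)
  have hfin : ∀ᶠ n in (UN : Filter ℕ), c' * (ρ / 2) ≤ dist (v n) (z n) := by
    filter_upwards [hv, hvz, hzclose, hyev, hX.far_ev hzb hε 0] with n b1 b2 b3 b4 b5
    refine (H (X n) (hX.kset n) (z n) (hz n b4).1 (ρ / 2) (by positivity) ?_ ?_ (v n) b1 b2).le
    · intro u hu huz
      have h1 : dist u x ≤ ρ := by
        calc dist u x ≤ dist u (z n) + dist (z n) x := dist_triangle _ _ _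
          _ ≤ ρ := by linarith
      have h2 := (hz n b4).2.2 u hu h1
      have h3 : |u 0 - x 0| ≤ |u 0 - z n 0| + |z n 0 - x 0| := abs_sub_le _ _ _
      have h3' : |z n 0 - x 0| ≤ |u 0 - z n 0| + |u 0 - x 0| := by
        have := abs_sub_le (z n 0) (u 0) (x 0)
        rwa [abs_sub_comm (z n 0) (u 0)] at this
      simp only [g] at h2
      nlinarith
    · intro φ hφ
      obtain ⟨f, hf, τ, h1, -, h2⟩ := b5 φ hφ
      exact ⟨f, hf, τ, h1, h2⟩
  have h1 : Tendsto (fun n => dist (v n) (z n)) UN (𝓝 (dist w x)) := hvw.dist hzx'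
  have h2 : c' * (ρ / 2) ≤ dist w x := ge_of_tendsto h1 hfin
  nlinarith [mul_pos hc' hρ]

end Pool.Agent.Lib.MP_8bcb9d_co
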