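import Mathlib
import Pool.Agent.Lib.MP_8bcb9d_co.PS5

/-!
# Limits of sets with bounded degrees: accumulation points lie on Lipschitz graphs
-/

set_option autoImplicit false

namespace Pool.Agent.Lib.MP_8bcb9d_co

open Filter Topology MeasureTheory

theorem continuous_hh (η g0 g1 : ℝ) : Continuous (hh η g0 g1) := by
  unfold hh cr' dt'
  fun_prop

/-- limits of centres -/
def Gam (X : ℕ → Finset E) (η g0 g1 : ℝ) : Set E :=
  ulim UN (fun n => {P | Centre (X n) η g0 g1 P})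

theorem Gam.closed (X : ℕ → Finset E) (η g0 g1 : ℝ) : IsClosed (Gam X η g0 g1) :=
  isClosed_ulim

theorem Gam.exists_seq {X : ℕ → Finset E} {η g0 g1 : ℝ} {x : E} (hx : x ∈ Gam X η g0 g1) :
    ∃ P : ℕ → E, (∀ᶠ n in (UN : Filter ℕ), Centre (X n) η g0 g1 (P n)) ∧
      Tendsto P UN (𝓝 x) := by
  obtain ⟨P, h1, h2⟩ := exists_seq_of_mem (T := fun n => {P | Centre (X n) η g0 g1 P})
    (fun n => ((X n).finite_toSet.subset fun P hP => hP.1).isClosed) hx
  exact ⟨P, h1, h2⟩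

theorem Gam.sub {K : ℕ} {Φ : Finset E} {T : Set E} {X : ℕ → Finset E} (h : SeqTo K Φ T X)
    {η g0 g1 : ℝ} : Gam X η g0 g1 ⊆ T := by
  intro x hx
  obtain ⟨P, h1, h2⟩ := Gam.exists_seq hx
  exact h.mem (h1.mono fun n hn => hn.1) h2

theorem Gam.lip {X : ℕ → Finset E} {η g0 g1 : ℝ} (hη : 0 < η) (hη1 : η ≤ 1 / 40)
    (b0 : |g0| ≤ 1.001) (b1 : |g1| ≤ 1.001) (b2 : 0.99 ≤ g0 ^ 2 + g1 ^ 2) {x y : E}
    (hx : x ∈ Gam X η g0 g1) (hy : y ∈ Gam X η g0 g1) :
    η * dist x y ≤ 2.4 * |hh η g0 g1 x - hh η g0 g1 y| := by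
  obtain ⟨P, hP, hPx⟩ := Gam.exists_seq hx
  obtain ⟨Q, hQ, hQy⟩ := Gam.exists_seq hy
  have h1 : Tendsto (fun n => η * dist (P n) (Q n)) UN (𝓝 (η * dist x y)) :=
    (hPx.dist hQy).const_mul _
  have h2 : Tendsto (fun n => 2.4 * |hh η g0 g1 (P n) - hh η g0 g1 (Q n)|) UN
      (𝓝 (2.4 * |hh η g0 g1 x - hh η g0 g1 y|)) := by
    have a1 := ((continuous_hh η g0 g1).tendsto x).comp hPx
    have a2 := ((continuous_hh η g0 g1).tendsto y).comp hQy
    exact ((a1.sub a2).abs).const_mul _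
  refine le_of_tendsto_of_tendsto h1 h2 ?_
  filter_upwards [hP, hQ] with n a b
  have h3 := b.lip hη hη1 b0 b1 b2 a
  rw [hh_sub] at h3
  have h4 := dist_le_abs (P n) (Q n)
  have h5 : η * dist (P n) (Q n) ≤ η * (|P n 0 - Q n 0| + |P n 1 - Q n 1|) :=
    mul_le_mul_of_nonneg_left h4 hη.le
  calc η * dist (P n) (Q n) ≤ η * (|P n 0 - Q n 0| + |P n 1 - Q n 1|) := h5
    _ = η * |P n 0 - Q n 0| + η * |P n 1 - Q n 1| := by ring
    _ ≤ _ := by linarith [h3.1, h3.2]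

/-- `x` is an accumulation point of `T` -/
def Acc (T : Set E) (x : E) : Prop := ∀ ε > 0, ∃ y ∈ T, y ≠ x ∧ dist y x < ε

/-- Accumulation points are limits of centres of one class. -/
theorem acc_in_Gam {K : ℕ} {Φ : Finset E} {T : Set E} {X : ℕ → Finset E} (h : SeqTo K Φ T X)
    {M : ℕ} (hM : M = 4000 * 16 ^ K) {x : E} (hx : x ∈ T) (hacc : Acc T x) :
    ∃ (j : ℕ) (a b : ℤ), (j ≤ K ∧ |a| ≤ M ∧ |b| ≤ M) ∧
      |(a : ℝ) / M| ≤ 1.001 ∧ |(b : ℝ) / M| ≤ 1.001 ∧
      0.99 ≤ ((a : ℝ) / M) ^ 2 + ((b : ℝ) / M) ^ 2 ∧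
      x ∈ Gam X (eta j) ((a : ℝ) / M) ((b : ℝ) / M) := by
  classical
  obtain ⟨p, hp, hpx⟩ := h.exists_seq hx
  -- other points near `p n`
  have hnear : ∀ ε > 0, ∀ᶠ n in (UN : Filter ℕ), ∃ z ∈ X n, z ≠ p n ∧ dist (p n) z < ε := by
    intro ε hε
    obtain ⟨y, hy, hyx, hd⟩ := hacc (ε / 2) (by positivity)
    obtain ⟨q, hq, hqy⟩ := h.exists_seq hy
    have hd0 : 0 < dist x y := dist_pos.2 hyx.symm
    have h1 : Tendsto (fun n => dist (p n) (q n)) UN (𝓝 (dist x y)) := hpx.dist hqy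
    have h2 : dist x y < ε := by rw [dist_comm]; linarith
    filter_upwards [hq, h1.eventually (lt_mem_nhds hd0), h1.eventually (gt_mem_nhds h2)] with n
      b1 b2 b3
    exact ⟨q n, b1, (dist_pos.1 b2).symm, b3⟩
  have key : ∀ n, ∃ (P : E) (j : ℕ) (a b : ℤ), (p n ∈ X n ∧ ∃ z ∈ X n, z ≠ p n) →
      (j ≤ K ∧ |a| ≤ M ∧ |b| ≤ M ∧
      |(a : ℝ) / M| ≤ 1.001 ∧ |(b : ℝ) / M| ≤ 1.001 ∧
      0.99 ≤ ((a : ℝ) / M) ^ 2 + ((b : ℝ) / M) ^ 2 ∧
      Centre (X n) (eta j) ((a : ℝ) / M) ((b : ℝ) / M) P ∧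
      ∀ z ∈ X n, z ≠ p n → dist (p n) P ≤ 2 * dist (p n) z) := by
    intro n
    by_cases hc : (p n ∈ X n ∧ ∃ z ∈ X n, z ≠ p n)
    · obtain ⟨h1, z, h2, h3⟩ := hc
      obtain ⟨P, j, a, b, h4⟩ := exists_class (h.kset n).gp (h.kset n).deg hM h1 h2 h3
      exact ⟨P, j, a, b, fun _ => h4⟩
    · exact ⟨0, 0, 0, 0, fun h => absurd h hc⟩
  choose P j a b hkey using key
  have hev : ∀ᶠ n in (UN : Filter ℕ), p n ∈ X n ∧ ∃ z ∈ X n, z ≠ p n := by
    filter_upwards [hp, hnear 1 one_pos] with n h1 h2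
    obtain ⟨z, hz, hzp, -⟩ := h2
    exact ⟨h1, z, hz, hzp⟩
  let B : Set (ℕ × ℤ × ℤ) := Set.Iic K ×ˢ (Set.Icc (-(M : ℤ)) M ×ˢ Set.Icc (-(M : ℤ)) M)
  have hB : B.Finite := (Set.finite_Iic K).prod ((Set.finite_Icc _ _).prod (Set.finite_Icc _ _))
  have hex : ∀ᶠ n in (UN : Filter ℕ), ∃ c ∈ B, (j n, a n, b n) = c := by
    filter_upwards [hev] with n hn
    obtain ⟨h1, h2, h3, -⟩ := hkey n hn
    exact ⟨(j n, a n, b n), Set.mem_prod.2 ⟨h1, Set.mem_prod.2 ⟨abs_le.1 h2, abs_le.1 h3⟩⟩, rfl⟩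
  rw [Ultrafilter.eventually_exists_mem_iff hB] at hex
  obtain ⟨⟨j0, a0, b0⟩, -, hc⟩ := hex
  have hall := hc.and hev
  obtain ⟨n, hn1, hn2⟩ := hall.exists
  have e1 : j n = j0 := congrArg Prod.fst hn1
  have e2 : a n = a0 := congrArg (fun x => x.2.1) hn1
  have e3 : b n = b0 := congrArg (fun x => x.2.2) hn1
  obtain ⟨h1, h2, h3, h4, h5, h6, -, -⟩ := hkey n hn2
  rw [e1] at h1
  rw [e2] at h2 h4 h6
  rw [e3] at h3 h5 h6
  refine ⟨j0, a0, b0, ⟨h1, h2, h3⟩, h4, h5, h6, ?_⟩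
  refine mem_ulim_of_tendsto (x := P) ?_ ?_
  · filter_upwards [hall] with m hm
    obtain ⟨-, -, -, -, -, -, h7, -⟩ := hkey m hm.2
    have e1 : j m = j0 := congrArg Prod.fst hm.1
    have e2 : a m = a0 := congrArg (fun x => x.2.1) hm.1
    have e3 : b m = b0 := congrArg (fun x => x.2.2) hm.1
    rw [e1, e2, e3] at h7
    exact h7
  · have h9 : Tendsto (fun n => dist (p n) (P n)) UN (𝓝 0) := by
      rw [Metric.tendsto_nhds]
      intro ε hε
      filter_upwards [hev, hnear (ε / 2) (by positivity)] with m hm1 hm2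
      obtain ⟨z, hz, hzp, hzd⟩ := hm2
      obtain ⟨-, -, -, -, -, -, -, h8⟩ := hkey m hm1
      have := h8 z hz hzp
      rw [Real.dist_eq, sub_zero, abs_of_nonneg dist_nonneg]
      linarith
    rw [tendsto_iff_dist_tendsto_zero] at hpx ⊢
    refine squeeze_zero (fun _ => dist_nonneg) (fun n => ?_)
      (by simpa using h9.add hpx)
    calc dist (P n) x ≤ dist (P n) (p n) + dist (p n) x := dist_triangle _ _ _
      _ = dist (p n) (P n) + dist (p n) x := by rw [dist_comm (P n)]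

/-- near a density point there are points in all proportions -/
theorem density_near {A : Set ℝ} {τ : ℝ}
    (h : Tendsto (fun r => volume (A ∩ Metric.closedBall τ r) / volume (Metric.closedBall τ r))
      (𝓝[>] 0) (𝓝 1)) (s : ℝ) {ε : ℝ} (hε : 0 < ε) (hε1 : ε ≤ 1) :
    ∀ᶠ h in 𝓝[>] (0 : ℝ), ∃ t ∈ A, |t - (τ + s * h)| ≤ ε * h := by
  set S : ℝ := |s| + 1 with hS
  have hS0 : 0 < S := by positivity
  have h1 : Tendsto (fun h : ℝ => S * h) (𝓝[>] 0) (𝓝[>] 0) := by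
    rw [tendsto_nhdsWithin_iff]
    constructor
    · have : Tendsto (fun h : ℝ => S * h) (𝓝 0) (𝓝 (S * 0)) := (continuous_const_mul S).tendsto 0
      rw [mul_zero] at this
      exact this.mono_left nhdsWithin_le_nhds
    · filter_upwards [self_mem_nhdsWithin] with h hh
      exact mul_pos hS0 hh
  have h2 := h.comp h1
  have h3 : ENNReal.ofReal (1 - ε / S) < 1 := by
    rw [← ENNReal.ofReal_one]
    apply (ENNReal.ofReal_lt_ofReal_iff one_pos).2
    have : 0 < ε / S := by positivity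
    linarith
  filter_upwards [h2.eventually (lt_mem_nhds h3), self_mem_nhdsWithin] with r hr hr0
  have hr0' : 0 < r := hr0
  by_contra hcon
  push Not at hcon
  simp only [Function.comp_apply] at hr
  have hsub : A ∩ Metric.closedBall τ (S * r) ⊆
      Metric.closedBall τ (S * r) \ Metric.closedBall (τ + s * r) (ε * r) := by
    rintro t ⟨ht, htb⟩
    refine ⟨htb, ?_⟩
    rw [Metric.mem_closedBall, Real.dist_eq, not_le]
    exact hcon t ht
  have hsub2 : Metric.closedBall (τ + s * r) (ε * r) ⊆ Metric.closedBall τ (S * r) := by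
    apply Metric.closedBall_subset_closedBall'
    rw [Real.dist_eq, add_sub_cancel_left, abs_mul, abs_of_pos hr0', hS]
    nlinarith
  have hm : volume (Metric.closedBall τ (S * r) \ Metric.closedBall (τ + s * r) (ε * r)) =
      ENNReal.ofReal (2 * (S * r) - 2 * (ε * r)) := by
    rw [measure_sdiff hsub2 Metric.isClosed_closedBall.measurableSet.nullMeasurableSet
      (by rw [Real.volume_closedBall]; exact ENNReal.ofReal_ne_top),
      Real.volume_closedBall, Real.volume_closedBall, ENNReal.ofReal_sub _ (by positivity)]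
  have hle : volume (A ∩ Metric.closedBall τ (S * r)) / volume (Metric.closedBall τ (S * r)) ≤
      ENNReal.ofReal (1 - ε / S) := by
    calc volume (A ∩ Metric.closedBall τ (S * r)) / volume (Metric.closedBall τ (S * r))
        ≤ ENNReal.ofReal (2 * (S * r) - 2 * (ε * r)) / ENNReal.ofReal (2 * (S * r)) := by
          rw [← hm, Real.volume_closedBall]
          exact ENNReal.div_le_div_right (measure_mono hsub) _
      _ = ENNReal.ofReal (1 - ε / S) := by
          rw [← ENNReal.ofReal_div_of_pos (by positivity)]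
          congr 1
          field_simp
  exact absurd hr (not_lt.2 hle)

/-- The centres of one class project to null sets. -/
theorem Gam.null {Φ : Finset E} (hΦ : Dirs Φ) {K : ℕ} (hcard : 4 * K + 5 ≤ Φ.card) {T : Set E}
    {X : ℕ → Finset E} (h : SeqTo K Φ T X) {η g0 g1 : ℝ} (hη : 0 < η) (hη1 : η ≤ 1 / 40)
    (b0 : |g0| ≤ 1.001) (b1 : |g1| ≤ 1.001) (b2 : 0.99 ≤ g0 ^ 2 + g1 ^ 2) :
    volume (hh η g0 g1 '' Gam X η g0 g1) = 0 := by
  by_contra hne
  set H := hh η g0 g1 with hH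
  set G := Gam X η g0 g1 with hG
  set A := H '' G with hA
  set f : ℝ → E := Function.invFunOn H G with hf
  have hfG : ∀ t ∈ A, f t ∈ G := fun t ht => Function.invFunOn_mem ht
  have hfH : ∀ t ∈ A, H (f t) = t := fun t ht => Function.invFunOn_eq ht
  have hdist : ∀ s ∈ A, ∀ t ∈ A, dist (f s) (f t) ≤ 2.4 / η * |s - t| := by
    intro s hs t ht
    have h1 := Gam.lip hη hη1 b0 b1 b2 (hfG s hs) (hfG t ht)
    rw [← hH, hfH s hs, hfH t ht] at h1
    rw [div_mul_eq_mul_div, le_div_iff₀ hη]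
    linarith
  have hC : 0 ≤ 2.4 / η := by positivity
  have hlip : LipschitzOnWith ⟨2.4 / η, hC⟩ f A := by
    apply LipschitzOnWith.of_dist_le_mul
    intro s hs t ht
    rw [Real.dist_eq]
    exact hdist s hs t ht
  have hAm : MeasurableSet A := by
    have e : A = ⋃ n : ℕ, H '' (G ∩ Metric.closedBall 0 n) := by
      ext t
      simp only [Set.mem_iUnion]
      constructor
      · rintro ⟨x, hx, rfl⟩
        obtain ⟨n, hn⟩ := exists_nat_ge ‖x‖
        exact ⟨n, x, ⟨hx, by simpa using hn⟩, rfl⟩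
      · rintro ⟨n, x, ⟨hx, -⟩, rfl⟩
        exact ⟨x, hx, rfl⟩
    rw [e]
    apply MeasurableSet.iUnion
    intro n
    have hc : IsCompact (G ∩ Metric.closedBall (0 : E) n) :=
      (isCompact_closedBall 0 _).inter_left (Gam.closed X η g0 g1)
    exact (hc.image (continuous_hh η g0 g1)).isClosed.measurableSet
  have hdiff : ∀ᵐ t ∂(volume.restrict A), t ∈ A → DifferentiableWithinAt ℝ f A t :=
    ae_restrict_of_ae hlip.ae_differentiableWithinAt_of_mem
  have hdens := Besicovitch.ae_tendsto_measure_inter_div (volume : Measure ℝ) A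
  have hne' : (ae ((volume : Measure ℝ).restrict A)).NeBot := by
    rw [ae_neBot]
    intro h0
    rw [Measure.restrict_eq_zero] at h0
    exact hne h0
  obtain ⟨τ, ⟨hτ1, hτ2⟩, hτA⟩ := ((hdiff.and hdens).and (ae_restrict_mem hAm)).exists
  have hder := (hτ1 hτA).hasDerivWithinAt
  set v := derivWithin f A τ with hv
  set x := f τ with hx
  -- little-o
  have hlo : ∀ c > 0, ∃ δ > 0, ∀ t ∈ A, |t - τ| < δ → ‖f t - x - (t - τ) • v‖ ≤ c * |t - τ| := by
    intro c hc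
    have h1 := (hasDerivWithinAt_iff_isLittleO.1 hder).def hc
    obtain ⟨δ, hδ, h2⟩ := Metric.mem_nhdsWithin_iff.1 h1
    refine ⟨δ, hδ, fun t ht htd => ?_⟩
    have h3 : t ∈ Metric.ball τ δ ∩ A := ⟨by rwa [Metric.mem_ball, Real.dist_eq], ht⟩
    have := h2 h3
    simpa using this
  have hpos : ∀ᶠ k : ℕ in (UN : Filter ℕ), (0 : ℝ) < 1 / ((k : ℝ) + 1) :=
    Filter.Eventually.of_forall fun k => by positivity
  have hk0 : Tendsto (fun k : ℕ => 1 / ((k : ℝ) + 1)) (UN : Filter ℕ) (𝓝[>] 0) := by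
    rw [tendsto_nhdsWithin_iff]
    exact ⟨tendsto_one_div_add_atTop_nhds_zero_nat.mono_left UN_le, hpos⟩
  -- the derivative does not vanish
  have hv0 : v ≠ 0 := by
    intro hv0
    obtain ⟨δ, hδ, hδ2⟩ := hlo (1 / 10) (by norm_num)
    have h1 := density_near hτ2 1 (by norm_num : (0 : ℝ) < 1 / 2) (by norm_num)
    have h2 : ∀ᶠ r in 𝓝[>] (0 : ℝ), r < δ / 2 :=
      (Filter.Tendsto.mono_left tendsto_id nhdsWithin_le_nhds).eventually
        (gt_mem_nhds (by positivity))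
    obtain ⟨r, ⟨⟨t, ht, htr⟩, hrδ⟩, hr0⟩ := ((h1.and h2).and self_mem_nhdsWithin).exists
    have hr0' : 0 < r := hr0
    have h3 : r / 2 ≤ |t - τ| ∧ |t - τ| < δ := by
      rw [abs_le] at htr
      constructor
      · rw [le_abs]; left; linarith
      · rw [abs_lt]; constructor <;> linarith
    have h4 := hδ2 t ht h3.2
    rw [hv0, smul_zero, sub_zero, ← dist_eq_norm] at h4
    have h5 := hh_sub_le hη hη1 b0 b1 (f t) x
    rw [← hH, hfH t ht, hx, hfH τ hτA] at h5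
    rw [hx] at h4
    linarith [h3.1]
  -- blow-up
  have hs : ∀ k : ℕ, (0 : ℝ) < (k : ℝ) + 1 := fun k => by positivity
  have hLim : Lim K Φ (ulim UN fun k : ℕ => (fun w => ((k : ℝ) + 1) • (w - x)) '' T) :=
    Lim.ulim (Filter.Eventually.of_forall fun k => h.lim'.homo (hs k) x)
  refine no_line hΦ hcard hLim (x := 0) hv0 ?_
  intro s
  rw [zero_add]
  intro ε hε
  set ε' : ℝ := min 1 (ε / (4 * (‖v‖ + 1))) with hε'
  have hε'0 : 0 < ε' := by positivity
  have hε'1 : ε' ≤ 1 := min_le_left _ _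
  have hε'2 : ε' * ‖v‖ ≤ ε / 4 := by
    have h1 : ε' * (‖v‖ + 1) ≤ ε / 4 := by
      calc ε' * (‖v‖ + 1) ≤ ε / (4 * (‖v‖ + 1)) * (‖v‖ + 1) := by
            apply mul_le_mul_of_nonneg_right (min_le_right _ _) (by positivity)
        _ = ε / 4 := by field_simp
    nlinarith [norm_nonneg v]
  obtain ⟨δ, hδ, hδ2⟩ := hlo (ε / (4 * (|s| + 1))) (by positivity)
  have h1 := hk0.eventually (density_near hτ2 s hε'0 hε'1)
  have h2 : ∀ᶠ r in 𝓝[>] (0 : ℝ), r < δ / (|s| + 1) :=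
    (Filter.Tendsto.mono_left tendsto_id nhdsWithin_le_nhds).eventually
      (gt_mem_nhds (by positivity))
  filter_upwards [h1, hk0.eventually h2] with k hk1 hk2
  obtain ⟨t, ht, htr⟩ := hk1
  set r : ℝ := 1 / ((k : ℝ) + 1) with hr
  have hr0 : 0 < r := by positivity
  have hrinv : ((k : ℝ) + 1) * r = 1 := by rw [hr]; field_simp
  have h3 : |t - τ| ≤ (|s| + 1) * r := by
    have e : t - τ = (t - (τ + s * r)) + s * r := by ring
    calc |t - τ| = |(t - (τ + s * r)) + s * r| := by rw [← e]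
      _ ≤ |t - (τ + s * r)| + |s * r| := abs_add_le _ _
      _ ≤ ε' * r + |s| * r := by
          rw [abs_mul, abs_of_pos hr0]
          linarith
      _ ≤ (|s| + 1) * r := by nlinarith
  have h4 : |t - τ| < δ := by
    refine lt_of_le_of_lt h3 ?_
    rw [lt_div_iff₀ (by positivity)] at hk2
    linarith
  have h5 := hδ2 t ht h4
  refine ⟨((k : ℝ) + 1) • (f t - x), ⟨f t, Gam.sub h (hfG t ht), rfl⟩, ?_⟩
  have e : ((k : ℝ) + 1) • (f t - x) - s • v = ((k : ℝ) + 1) • (f t - x - (t - τ) • v) +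
      (((k : ℝ) + 1) * (t - (τ + s * r))) • v := by
    have : ((k : ℝ) + 1) * (t - (τ + s * r)) = ((k : ℝ) + 1) * (t - τ) - s := by
      linear_combination (-s) * hrinv
    rw [this]
    module
  rw [dist_eq_norm, e]
  have h6 : ‖((k : ℝ) + 1) • (f t - x - (t - τ) • v)‖ ≤ ε / 4 := by
    rw [norm_smul, Real.norm_of_nonneg (hs k).le]
    calc ((k : ℝ) + 1) * ‖f t - x - (t - τ) • v‖
        ≤ ((k : ℝ) + 1) * (ε / (4 * (|s| + 1)) * ((|s| + 1) * r)) := by
          apply mul_le_mul_of_nonneg_left _ (hs k).le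
          exact h5.trans (mul_le_mul_of_nonneg_left h3 (by positivity))
      _ = (((k : ℝ) + 1) * r) * (ε / 4) := by field_simp
      _ = ε / 4 := by rw [hrinv, one_mul]
  have h7 : ‖(((k : ℝ) + 1) * (t - (τ + s * r))) • v‖ ≤ ε / 4 := by
    rw [norm_smul, Real.norm_eq_abs, abs_mul, abs_of_pos (hs k)]
    calc ((k : ℝ) + 1) * |t - (τ + s * r)| * ‖v‖ ≤ ((k : ℝ) + 1) * (ε' * r) * ‖v‖ := by
          apply mul_le_mul_of_nonneg_right _ (norm_nonneg _)
          exact mul_le_mul_of_nonneg_left htr (hs k).le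
      _ = (((k : ℝ) + 1) * r) * (ε' * ‖v‖) := by ring
      _ ≤ ε / 4 := by rw [hrinv, one_mul]; exact hε'2
  calc _ ≤ ‖((k : ℝ) + 1) • (f t - x - (t - τ) • v)‖ +
        ‖(((k : ℝ) + 1) * (t - (τ + s * r))) • v‖ := norm_add_le _ _
    _ ≤ ε / 4 + ε / 4 := add_le_add h6 h7
    _ < ε := by linarith

end Pool.Agent.Lib.MP_8bcb9d_co
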