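import Mathlib
import Pool.Agent.Lib.MP_8bcb9d_co.PS6

/-!
# Limits of sets with bounded degrees: null sets and packing numbers
-/

set_option autoImplicit false

namespace Pool.Agent.Lib.MP_8bcb9d_co

open Filter Topology MeasureTheory Metric
open scoped ENNReal NNReal

theorem hausdorff_null_of_lip {H : E → ℝ} {G : Set E} {C : ℝ} (hC : 0 ≤ C)
    (h : ∀ x ∈ G, ∀ y ∈ G, dist x y ≤ C * |H x - H y|) (h0 : volume (H '' G) = 0) :
    μH[1] G = 0 := by
  set A := H '' G with hA
  set f : ℝ → E := Function.invFunOn H G with hf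
  have hfG : ∀ t ∈ A, f t ∈ G := fun t ht => Function.invFunOn_mem ht
  have hfH : ∀ t ∈ A, H (f t) = t := fun t ht => Function.invFunOn_eq ht
  have hlip : LipschitzOnWith ⟨C, hC⟩ f A := by
    apply LipschitzOnWith.of_dist_le_mul
    intro s hs t ht
    rw [Real.dist_eq]
    have := h _ (hfG s hs) _ (hfG t ht)
    rwa [hfH s hs, hfH t ht] at this
  have h1 := hlip.hausdorffMeasure_image_le (d := 1) zero_le_one
  rw [hausdorffMeasure_real, h0, mul_zero] at h1
  refine measure_mono_null ?_ (le_antisymm h1 zero_le)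
  intro x hx
  have hxA : H x ∈ A := ⟨x, hx, rfl⟩
  refine ⟨H x, hxA, ?_⟩
  have h2 := h _ (hfG _ hxA) x hx
  rw [hfH _ hxA, sub_self, abs_zero, mul_zero] at h2
  exact dist_le_zero.1 h2

theorem countable_isolated (T : Set E) : {x ∈ T | ¬ Acc T x}.Countable := by
  have hd : DiscreteTopology {x ∈ T | ¬ Acc T x} := by
    rw [discreteTopology_iff_isOpen_singleton]
    rintro ⟨x, hx, hacc⟩
    simp only [Acc] at hacc
    push Not at hacc
    obtain ⟨ε, hε, h⟩ := hacc
    rw [Metric.isOpen_singleton_iff]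
    refine ⟨ε, hε, ?_⟩
    intro y hyd
    rw [Subtype.dist_eq] at hyd
    apply Subtype.ext
    by_contra hne
    exact absurd hyd (not_lt.2 (h y y.2.1 hne))
  exact Set.countable_coe_iff.1 countable_of_Lindelof_of_discrete

/-- Limit sets have length zero. -/
theorem Lim.null {Φ : Finset E} (hΦ : Dirs Φ) {K : ℕ} (hcard : 4 * K + 5 ≤ Φ.card) {T : Set E}
    (hT : Lim K Φ T) : μH[1] T = 0 := by
  obtain ⟨X, hX⟩ := hT.seq
  obtain ⟨M, hM⟩ : ∃ M : ℕ, M = 4000 * 16 ^ K := ⟨_, rfl⟩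
  let S : ℕ × ℤ × ℤ → Set E := fun c => {x | c.1 ≤ K ∧ |(c.2.1 : ℝ) / M| ≤ 1.001 ∧
    |(c.2.2 : ℝ) / M| ≤ 1.001 ∧ 0.99 ≤ ((c.2.1 : ℝ) / M) ^ 2 + ((c.2.2 : ℝ) / M) ^ 2 ∧
      x ∈ Gam X (eta c.1) ((c.2.1 : ℝ) / M) ((c.2.2 : ℝ) / M)}
  have hS : ∀ c, μH[1] (S c) = 0 := by
    rintro ⟨j, a, b⟩
    by_cases hc : j ≤ K ∧ |(a : ℝ) / M| ≤ 1.001 ∧ |(b : ℝ) / M| ≤ 1.001 ∧
        0.99 ≤ ((a : ℝ) / M) ^ 2 + ((b : ℝ) / M) ^ 2
    · obtain ⟨-, h1, h2, h3⟩ := hc
      refine measure_mono_null (t := Gam X (eta j) ((a : ℝ) / M) ((b : ℝ) / M))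
        (fun x hx => hx.2.2.2.2) ?_
      have hη := eta_pos j
      refine hausdorff_null_of_lip (H := hh (eta j) ((a : ℝ) / M) ((b : ℝ) / M))
        (C := 2.4 / eta j) (by positivity) ?_
        (Gam.null hΦ hcard hX (eta_pos j) (eta_le j) h1 h2 h3)
      intro x hx y hy
      have := Gam.lip (eta_pos j) (eta_le j) h1 h2 h3 hx hy
      rw [div_mul_eq_mul_div, le_div_iff₀ hη]
      linarith
    · refine measure_mono_null (t := ∅) ?_ measure_empty
      rintro x ⟨h1, h2, h3, h4, -⟩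
      exact (hc ⟨h1, h2, h3, h4⟩).elim
  have hna : NullSingletonClass (μH[1] : Measure E) := Measure.nullSingletonClass_hausdorff E one_pos
  have hI : μH[1] {x ∈ T | ¬ Acc T x} = 0 := (countable_isolated T).measure_zero _
  refine measure_mono_null (t := {x ∈ T | ¬ Acc T x} ∪ ⋃ c, S c) ?_
    (measure_union_null hI (measure_iUnion_null hS))
  intro x hx
  by_cases hacc : Acc T x
  · right
    obtain ⟨j, a, b, ⟨h1, -, -⟩, h2, h3, h4, h5⟩ := acc_in_Gam hX hM hx hacc
    exact Set.mem_iUnion.2 ⟨(j, a, b), h1, h2, h3, h4, h5⟩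
  · left
    exact ⟨hx, hacc⟩

/-- Lipschitz functions map limit sets to null sets. -/
theorem Lim.null_image {Φ : Finset E} (hΦ : Dirs Φ) {K : ℕ} (hcard : 4 * K + 5 ≤ Φ.card)
    {T : Set E} (hT : Lim K Φ T) {g : E → ℝ} {C : ℝ≥0} (hg : LipschitzWith C g) :
    volume (g '' T) = 0 := by
  have h1 := hg.hausdorffMeasure_image_le (d := 1) zero_le_one T
  rw [hT.null hΦ hcard, mul_zero, hausdorffMeasure_real] at h1
  exact le_antisymm h1 zero_le

/-- coverings of small total length -/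
theorem Lim.cover {Φ : Finset E} (hΦ : Dirs Φ) {K : ℕ} (hcard : 4 * K + 5 ≤ Φ.card)
    {T : Set E} (hT : Lim K Φ T) (R : ℝ) {δ : ℝ} (hδ : 0 < δ) :
    ∃ (I : Finset ℕ) (x : ℕ → E) (ρ : ℕ → ℝ), (∀ i, 0 < ρ i) ∧ ∑ i ∈ I, ρ i ≤ δ ∧
      T ∩ closedBall 0 R ⊆ ⋃ i ∈ I, ball (x i) (ρ i) := by
  have h0 := hT.null hΦ hcard
  rw [Measure.hausdorffMeasure_apply] at h0
  have h1 : (⨅ (t : ℕ → Set E) (_ : T ⊆ ⋃ n, t n) (_ : ∀ n, ediam (t n) ≤ 1),
          ∑' n, ⨆ _ : (t n).Nonempty, ediam (t n) ^ (1 : ℝ)) = 0 := by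
    rw [← le_zero_iff, ← h0]
    exact le_iSup₂_of_le (1 : ℝ≥0∞) one_pos le_rfl
  have h2 : (⨅ (t : ℕ → Set E) (_ : T ⊆ ⋃ n, t n) (_ : ∀ n, ediam (t n) ≤ 1),
          ∑' n, ⨆ _ : (t n).Nonempty, ediam (t n) ^ (1 : ℝ)) < ENNReal.ofReal (δ / 2) := by
    rw [h1]
    exact ENNReal.ofReal_pos.2 (by positivity)
  simp only [iInf_lt_iff] at h2
  obtain ⟨t, htT, htd, hts⟩ := h2
  have hx : ∀ n, ∃ x : E, (t n).Nonempty → x ∈ t n := by
    intro n
    by_cases h : (t n).Nonempty
    · exact ⟨h.some, fun _ => h.some_mem⟩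
    · exact ⟨0, fun h' => absurd h' h⟩
  choose x hx using hx
  let e : ℕ → ℝ := fun n => δ / 2 * (1 / 2) ^ (n + 1)
  have he : ∀ n, 0 < e n := fun n => by positivity
  have hdr : ∀ n, ediam (t n) ≠ ⊤ := fun n => ne_top_of_le_ne_top ENNReal.one_ne_top (htd n)
  let ρ : ℕ → ℝ := fun n => (ediam (t n)).toReal + e n
  have hρ : ∀ n, 0 < ρ n := fun n => add_pos_of_nonneg_of_pos ENNReal.toReal_nonneg (he n)
  have hsub : ∀ n, t n ⊆ ball (x n) (ρ n) := by
    intro n y hy
    have h3 : edist y (x n) ≤ ediam (t n) := edist_le_ediam_of_mem hy (hx n ⟨y, hy⟩)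
    rw [Metric.mem_ball]
    have h4 : dist y (x n) ≤ (ediam (t n)).toReal := by
      rw [dist_edist]
      exact ENNReal.toReal_mono (hdr n) h3
    exact lt_of_le_of_lt h4 (by simp only [ρ]; linarith [he n])
  have hc : IsCompact (T ∩ closedBall (0 : E) R) := (isCompact_closedBall 0 R).inter_left hT.1
  obtain ⟨I, hI⟩ := hc.elim_finite_subcover (fun n => ball (x n) (ρ n))
    (fun n => isOpen_ball) (by
      rintro y ⟨hy, -⟩
      obtain ⟨n, hn⟩ := Set.mem_iUnion.1 (htT hy)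
      exact Set.mem_iUnion.2 ⟨n, hsub n hn⟩)
  refine ⟨I, x, ρ, hρ, ?_, hI⟩
  have h3 : ∑ n ∈ I, (ediam (t n)).toReal ≤ δ / 2 := by
    have h4 : ∑ n ∈ I, ediam (t n) ≤ ENNReal.ofReal (δ / 2) := by
      refine le_trans ?_ hts.le
      refine le_trans (Finset.sum_le_sum fun n _ => ?_) (ENNReal.sum_le_tsum I)
      rcases (t n).eq_empty_or_nonempty with h | h
      · rw [h, ediam_empty]
        exact zero_le
      · rw [iSup_pos h, ENNReal.rpow_one]
    rw [← ENNReal.toReal_sum (fun n _ => hdr n)]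
    refine (ENNReal.toReal_mono ENNReal.ofReal_ne_top h4).trans ?_
    rw [ENNReal.toReal_ofReal (by positivity)]
  have h4 : ∑ n ∈ I, e n ≤ δ / 2 := by
    have h5 : Summable fun n : ℕ => ((1 : ℝ) / 2) ^ n := summable_geometric_two
    have h6 : ∑ n ∈ I, ((1 : ℝ) / 2) ^ n ≤ 2 := by
      exact (h5.sum_le_tsum I fun n _ => by positivity).trans_eq tsum_geometric_two
    calc ∑ n ∈ I, e n = δ / 4 * ∑ n ∈ I, ((1 : ℝ) / 2) ^ n := by
          rw [Finset.mul_sum]
          apply Finset.sum_congr rfl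
          intro n _
          simp only [e]
          ring
      _ ≤ δ / 4 * 2 := mul_le_mul_of_nonneg_left h6 (by positivity)
      _ = δ / 2 := by ring
  calc ∑ n ∈ I, ρ n = ∑ n ∈ I, (ediam (t n)).toReal + ∑ n ∈ I, e n := Finset.sum_add_distrib
    _ ≤ δ := by linarith

/-- `r`-separated finite sets -/
def Sep (S : Finset E) (r : ℝ) : Prop := ∀ p ∈ S, ∀ q ∈ S, p ≠ q → r ≤ dist p q

theorem Sep.mono {S S' : Finset E} {r : ℝ} (h : Sep S r) (hs : S' ⊆ S) : Sep S' r :=
  fun p hp q hq hpq => h p (hs hp) q (hs hq) hpq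

/-- maximal separated subsets -/
theorem exists_sep (S : Finset E) {r : ℝ} (hr : 0 < r) :
    ∃ S' ⊆ S, Sep S' r ∧ ∀ p ∈ S, ∃ q ∈ S', dist p q < r := by
  classical
  induction S using Finset.induction_on with
  | empty => exact ⟨∅, Finset.Subset.refl _, fun p hp => absurd hp (Finset.notMem_empty p),
      fun p hp => absurd hp (Finset.notMem_empty p)⟩
  | insert a S ha ih =>
    obtain ⟨S', hS', h1, h2⟩ := ih
    by_cases h : ∃ q ∈ S', dist a q < r
    · refine ⟨S', hS'.trans (Finset.subset_insert _ _), h1, ?_⟩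
      intro p hp
      rcases Finset.mem_insert.1 hp with rfl | hp
      · exact h
      · exact h2 p hp
    · push Not at h
      refine ⟨insert a S', Finset.insert_subset_insert _ hS', ?_, ?_⟩
      · intro p hp q hq hpq
        rcases Finset.mem_insert.1 hp with rfl | hp'
        · rcases Finset.mem_insert.1 hq with rfl | hq'
          · exact absurd rfl hpq
          · exact h q hq'
        · rcases Finset.mem_insert.1 hq with rfl | hq'
          · rw [dist_comm]; exact h p hp'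
          · exact h1 p hp' q hq' hpq
      · intro p hp
        rcases Finset.mem_insert.1 hp with rfl | hp'
        · exact ⟨p, Finset.mem_insert_self _ _, by rw [dist_self]; exact hr⟩
        · obtain ⟨q, hq, hd⟩ := h2 p hp'
          exact ⟨q, Finset.mem_insert_of_mem hq, hd⟩

/-- the packing constant -/
noncomputable def CK (K : ℕ) : ℝ := 4 * 10 ^ 15 * 8192 ^ K

theorem CK_pos (K : ℕ) : 0 < CK K := by unfold CK; positivity

/-- Packing numbers of limit sets in unit balls are small. -/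
theorem small_packing {Φ : Finset E} (hΦ : Dirs Φ) {K : ℕ} (hcard : 4 * K + 5 ≤ Φ.card)
    {δ : ℝ} (hδ : 0 < δ) : ∃ L0 : ℝ, 1 ≤ L0 ∧ ∀ L, L0 ≤ L → ∀ T, Lim K Φ T → ∀ S : Finset E,
      (S : Set E) ⊆ T → ∀ c : E, (∀ p ∈ S, dist p c ≤ 1) → Sep S (1 / L) →
        (S.card : ℝ) ≤ δ * L := by
  classical
  by_contra hcon
  push Not at hcon
  have h1 : ∀ n : ℕ, (1 : ℝ) ≤ (n : ℝ) + 1 := fun n => by
    have : (0 : ℝ) ≤ n := Nat.cast_nonneg n
    linarith
  have h2 := fun n : ℕ => hcon ((n : ℝ) + 1) (h1 n)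
  choose L hL T hT S hST c hSc hsep hbig using h2
  have hL0 : ∀ n, 0 < L n := fun n => by linarith [h1 n, hL n]
  set T' : ℕ → Set E := fun n => (fun v => (1 : ℝ) • (v - c n)) '' T n with hT'
  have hT'L : ∀ n, Lim K Φ (T' n) := fun n => (hT n).homo one_pos (c n)
  have hlim : Lim K Φ (ulim UN T') := Lim.ulim (Filter.Eventually.of_forall hT'L)
  have hC := CK_pos K
  obtain ⟨I, x, ρ, hρ, hsum, hcov⟩ := hlim.cover hΦ hcard 2
    (δ := δ / (2 * CK K)) (by positivity)
  have hopen : IsOpen (⋃ i ∈ I, ball (x i) (ρ i)) :=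
    isOpen_biUnion fun i _ => isOpen_ball
  have hcomp : IsCompact (ulim UN T' ∩ closedBall (0 : E) 2) :=
    (isCompact_closedBall 0 2).inter_left isClosed_ulim
  obtain ⟨ε, hε, hthick⟩ := hcomp.exists_thickening_subset_open hopen hcov
  have hnear := near_ulim (U := UN) (T := T') 1 (ε := min (ε / 2) 1) (by positivity)
  have hLt : Tendsto L UN atTop := by
    have h3 : Tendsto (fun n : ℕ => (n : ℝ) + 1) (UN : Filter ℕ) atTop :=
      (tendsto_atTop_add_const_right _ _ tendsto_natCast_atTop_atTop).mono_left UN_le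
    exact tendsto_atTop_mono hL h3
  obtain ⟨n, hn1, hn2⟩ := (hnear.and (hLt.eventually_ge_atTop
    (2 * CK K * I.card / δ))).exists
  -- the points are in the small balls
  have hpt : ∀ p ∈ S n, ∃ i ∈ I, dist (p - c n) (x i) < ρ i := by
    intro p hp
    have h3 : p - c n ∈ T' n := ⟨p, hST n hp, one_smul _ _⟩
    have h4 : ‖p - c n‖ ≤ 1 := by rw [← dist_eq_norm]; exact hSc n p hp
    obtain ⟨v, hv, hvd⟩ := hn1 _ h3 h4
    have hv2 : ‖v‖ ≤ 2 := by
      have h5 : ‖v‖ - ‖p - c n‖ ≤ dist (p - c n) v := by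
        rw [dist_comm, dist_eq_norm]
        exact norm_sub_norm_le v (p - c n)
      linarith [min_le_right (ε / 2) 1]
    have h6 : p - c n ∈ thickening ε (ulim UN T' ∩ closedBall (0 : E) 2) := by
      rw [mem_thickening_iff]
      refine ⟨v, ⟨hv, by simpa using hv2⟩, ?_⟩
      linarith [min_le_left (ε / 2) 1]
    have h7 := hthick h6
    simp only [Set.mem_iUnion, mem_ball, exists_prop] at h7
    exact h7
  have hcount : ∀ i ∈ I, (((S n).filter fun p => dist (p - c n) (x i) < ρ i).card : ℝ) ≤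
      CK K * (1 + ρ i * L n) := by
    intro i _
    have h3 := (hT n).packing (S := (S n).filter fun p => dist (p - c n) (x i) < ρ i)
      (fun p hp => hST n (Finset.mem_filter.1 hp).1) (c := x i + c n)
      (R := max (ρ i) (1 / L n)) (r := 1 / L n) (one_div_pos.2 (hL0 n)) (le_max_right _ _)
      (fun p hp q hq hpq => hsep n p (Finset.mem_filter.1 hp).1 q (Finset.mem_filter.1 hq).1 hpq)
      (fun p hp => by
        refine le_trans ?_ (le_max_left _ _)
        have h4 := (Finset.mem_filter.1 hp).2.le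
        rw [dist_eq_norm] at h4 ⊢
        have e : p - (x i + c n) = p - c n - x i := by abel
        rw [e]; exact h4)
    refine h3.trans ?_
    unfold CK
    apply mul_le_mul_of_nonneg_left _ (by positivity)
    rw [div_div_eq_mul_div, div_one, max_mul_of_nonneg _ _ (hL0 n).le,
      one_div_mul_cancel (hL0 n).ne']
    apply max_le
    · linarith
    · have := mul_pos (hρ i) (hL0 n)
      linarith
  have hle : ((S n).card : ℝ) ≤ ∑ i ∈ I, CK K * (1 + ρ i * L n) := by
    have h3 : S n ⊆ I.biUnion fun i => (S n).filter fun p => dist (p - c n) (x i) < ρ i := by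
      intro p hp
      obtain ⟨i, hi, hd⟩ := hpt p hp
      exact Finset.mem_biUnion.2 ⟨i, hi, Finset.mem_filter.2 ⟨hp, hd⟩⟩
    have h4 := (Finset.card_le_card h3).trans Finset.card_biUnion_le
    calc ((S n).card : ℝ)
        ≤ ((∑ i ∈ I, ((S n).filter fun p => dist (p - c n) (x i) < ρ i).card : ℕ) : ℝ) := by
          exact_mod_cast h4
      _ = ∑ i ∈ I, (((S n).filter fun p => dist (p - c n) (x i) < ρ i).card : ℝ) := by push_cast; rfl
      _ ≤ _ := Finset.sum_le_sum hcount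
  have hsum2 : ∑ i ∈ I, CK K * (1 + ρ i * L n) =
      CK K * I.card + CK K * (∑ i ∈ I, ρ i) * L n := by
    simp only [mul_add, mul_one, Finset.sum_add_distrib, Finset.sum_const, nsmul_eq_mul,
      Finset.mul_sum, Finset.sum_mul]
    congr 1
    · ring
    · apply Finset.sum_congr rfl
      intro i _
      ring
  rw [hsum2] at hle
  have h8 : CK K * (∑ i ∈ I, ρ i) * L n ≤ δ / 2 * L n := by
    apply mul_le_mul_of_nonneg_right _ (hL0 n).le
    calc CK K * (∑ i ∈ I, ρ i) ≤ CK K * (δ / (2 * CK K)) := mul_le_mul_of_nonneg_left hsum hC.le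
      _ = δ / 2 := by field_simp
  have h9 : CK K * I.card ≤ δ / 2 * L n := by
    rw [div_le_iff₀ hδ] at hn2
    linarith
  have := hbig n
  linarith

/-- Packing numbers in geometric scales. -/
theorem pow_packing {Φ : Finset E} (hΦ : Dirs Φ) {K : ℕ} (hcard : 4 * K + 5 ≤ Φ.card)
    {δ : ℝ} (hδ : 0 < δ) : ∃ L : ℝ, 2 ≤ L ∧ ∀ (k : ℕ) (T : Set E), Lim K Φ T →
      ∀ S : Finset E, (S : Set E) ⊆ T → ∀ (c : E) (ρ : ℝ), 0 < ρ →
        (∀ p ∈ S, dist p c ≤ L ^ k * ρ) → Sep S ρ → (S.card : ℝ) ≤ CK K * (δ * L) ^ k := by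
  classical
  obtain ⟨L0, hL0, hmain⟩ := small_packing hΦ hcard hδ
  set L := max L0 2 with hLdef
  have hL2 : 2 ≤ L := le_max_right _ _
  have hLpos : 0 < L := by linarith
  have h1 := hmain L (le_max_left _ _)
  -- all scales
  have h2 : ∀ T, Lim K Φ T → ∀ S : Finset E, (S : Set E) ⊆ T → ∀ (c : E) (ρ : ℝ), 0 < ρ →
      (∀ p ∈ S, dist p c ≤ L * ρ) → Sep S ρ → (S.card : ℝ) ≤ δ * L := by
    intro T hT S hS c ρ hρ hSc hsep
    have hs : 0 < 1 / (L * ρ) := by positivity
    have hinj : Function.Injective (fun v : E => (1 / (L * ρ)) • (v - c)) := by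
      intro v w hvw
      have := smul_right_injective E hs.ne' hvw
      exact sub_left_injective this
    have hd : ∀ v w : E, dist ((1 / (L * ρ)) • (v - c)) ((1 / (L * ρ)) • (w - c)) =
        1 / (L * ρ) * dist v w := by
      intro v w
      rw [dist_eq_norm, ← smul_sub, norm_smul, Real.norm_of_nonneg hs.le, dist_eq_norm]
      congr 2
      abel
    have h3 := h1 _ (hT.homo hs c) (S.image fun v => (1 / (L * ρ)) • (v - c))
      (by rw [Finset.coe_image]; exact Set.image_mono hS) 0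
      (by
        intro p hp
        obtain ⟨v, hv, rfl⟩ := Finset.mem_image.1 hp
        rw [dist_zero_right, norm_smul, Real.norm_of_nonneg hs.le, ← dist_eq_norm,
          div_mul_eq_mul_div, one_mul, div_le_one (by positivity)]
        exact hSc v hv)
      (by
        intro p hp q hq hpq
        obtain ⟨v, hv, rfl⟩ := Finset.mem_image.1 hp
        obtain ⟨w, hw, rfl⟩ := Finset.mem_image.1 hq
        have h4 := hsep v hv w hw (fun h => hpq (by rw [h]))
        rw [hd, div_mul_eq_mul_div, one_mul, div_le_div_iff₀ hLpos (by positivity)]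
        nlinarith)
    rwa [Finset.card_image_of_injective _ hinj] at h3
  refine ⟨L, hL2, ?_⟩
  intro k
  induction k with
  | zero =>
    intro T hT S hS c ρ hρ hSc hsep
    rw [pow_zero, one_mul] at hSc
    have := hT.packing hS hρ le_rfl hsep hSc
    rw [div_self hρ.ne'] at this
    rw [pow_zero]
    exact this
  | succ k ih =>
    intro T hT S hS c ρ hρ hSc hsep
    have hLk : 0 < L ^ k * ρ := by positivity
    obtain ⟨S', hS', h3, h4⟩ := exists_sep S hLk
    have h5 : (S'.card : ℝ) ≤ δ * L := by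
      refine h2 T hT S' (fun p hp => hS (hS' hp)) c (L ^ k * ρ) hLk ?_ h3
      intro p hp
      have := hSc p (hS' hp)
      rw [pow_succ] at this
      linarith
    have h6 : ∀ q ∈ S', ((S.filter fun p => dist p q < L ^ k * ρ).card : ℝ) ≤
        CK K * (δ * L) ^ k := by
      intro q _
      refine ih T hT _ (fun p hp => hS (Finset.mem_filter.1 hp).1) q ρ hρ ?_
        (hsep.mono (Finset.filter_subset _ _))
      intro p hp
      exact (Finset.mem_filter.1 hp).2.le
    have h7 : S ⊆ S'.biUnion fun q => S.filter fun p => dist p q < L ^ k * ρ := by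
      intro p hp
      obtain ⟨q, hq, hd⟩ := h4 p hp
      exact Finset.mem_biUnion.2 ⟨q, hq, Finset.mem_filter.2 ⟨hp, hd⟩⟩
    have h8 := (Finset.card_le_card h7).trans Finset.card_biUnion_le
    have hCK := CK_pos K
    calc (S.card : ℝ)
        ≤ ((∑ q ∈ S', (S.filter fun p => dist p q < L ^ k * ρ).card : ℕ) : ℝ) := by
          exact_mod_cast h8
      _ = ∑ q ∈ S', ((S.filter fun p => dist p q < L ^ k * ρ).card : ℝ) := by push_cast; rfl
      _ ≤ ∑ _q ∈ S', CK K * (δ * L) ^ k := Finset.sum_le_sum h6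
      _ = S'.card * (CK K * (δ * L) ^ k) := by rw [Finset.sum_const, nsmul_eq_mul]
      _ ≤ δ * L * (CK K * (δ * L) ^ k) := mul_le_mul_of_nonneg_right h5 (by positivity)
      _ = CK K * (δ * L) ^ (k + 1) := by ring

end Pool.Agent.Lib.MP_8bcb9d_co
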