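import Mathlib
import Pool.Agent.Lib.MP_8bcb9d_co.PS7

/-!
# Limits of sets with bounded degrees: isolated points
-/

set_option autoImplicit false

namespace Pool.Agent.Lib.MP_8bcb9d_co

open Filter Topology MeasureTheory Metric
open scoped ENNReal NNReal

theorem continuous_coord (i : Fin 2) : Continuous (fun v : E => v i) := by fun_prop

theorem lipschitz_coord (i : Fin 2) : LipschitzWith 1 (fun v : E => v i) := by
  apply LipschitzWith.of_dist_le_mul
  intro v w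
  rw [NNReal.coe_one, one_mul, Real.dist_eq]
  fin_cases i
  · exact abs_sub_zero_le v w
  · exact abs_sub_one_le v w

/-- Heights fill an interval if cones above the points are nonempty. -/
theorem fill_heights {T : Set E} (hcl : IsClosed T) {κ : ℝ} (hκ : 0 < κ) {x₀ : E} (hx₀ : x₀ ∈ T)
    {y₁ : ℝ} (hup : ∀ x ∈ T, x 1 < y₁ → κ * |x 0 - x₀ 0| ≤ x 1 - x₀ 1 → ∀ ρ > 0,
      ∃ w ∈ T, dist w x ≤ ρ ∧ κ * |w 0 - x 0| < w 1 - x 1) {y : ℝ} (hy : x₀ 1 ≤ y) (hy1 : y ≤ y₁) :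
    ∃ v ∈ T, v 1 = y ∧ κ * |v 0 - x₀ 0| ≤ v 1 - x₀ 1 := by
  set S : Set E := {v | v ∈ T ∧ v 1 ≤ y ∧ κ * |v 0 - x₀ 0| ≤ v 1 - x₀ 1} with hS
  have hScl : IsClosed S := by
    refine hcl.inter (IsClosed.inter ?_ ?_)
    · exact isClosed_le (continuous_coord 1) continuous_const
    · exact isClosed_le (continuous_const.mul ((continuous_coord 0).sub continuous_const).abs)
        ((continuous_coord 1).sub continuous_const)
  have hSb : S ⊆ closedBall x₀ ((y - x₀ 1) / κ + (y - x₀ 1)) := by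
    rintro v ⟨-, h1, h2⟩
    rw [mem_closedBall]
    refine (dist_le_abs v x₀).trans (add_le_add ?_ ?_)
    · rw [le_div_iff₀ hκ]; linarith
    · have h3 : 0 ≤ v 1 - x₀ 1 := le_trans (by positivity) h2
      rw [abs_of_nonneg h3]; linarith
  have hSc : IsCompact S := (isCompact_closedBall _ _).of_isClosed_subset hScl hSb
  obtain ⟨v, hv, hmax⟩ := hSc.exists_isMaxOn (f := fun v : E => v 1)
    ⟨x₀, hx₀, hy, by simp⟩ (continuous_coord 1).continuousOn
  obtain ⟨hvT, hvy, hvc⟩ := hv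
  refine ⟨v, hvT, ?_, hvc⟩
  by_contra hne
  have hlt : v 1 < y := lt_of_le_of_ne hvy hne
  obtain ⟨w, hw, hwd, hwc⟩ := hup v hvT (lt_of_lt_of_le hlt hy1) hvc (y - v 1) (by linarith)
  have h1 := abs_le.1 ((abs_sub_one_le w v).trans hwd)
  have h2 : |w 0 - x₀ 0| ≤ |w 0 - v 0| + |v 0 - x₀ 0| := abs_sub_le _ _ _
  have h3 : κ * |w 0 - x₀ 0| ≤ κ * |w 0 - v 0| + κ * |v 0 - x₀ 0| := by
    rw [← mul_add]
    exact mul_le_mul_of_nonneg_left h2 hκ.le
  have hwS : w ∈ S := ⟨hw, by linarith [h1.2], by linarith⟩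
  have h4 : w 1 ≤ v 1 := hmax hwS
  have h5 : 0 ≤ κ * |w 0 - v 0| := by positivity
  linarith

theorem image_linearEquiv_acc {T : Set E} (B : E ≃ₗ[ℝ] E) {x : E} :
    Acc (B '' T) (B x) ↔ Acc T x := by
  obtain ⟨C, hC1, hC2, hC3⟩ := affine_bounds B.toAffineEquiv
  have hC0 : 0 < C := by linarith
  constructor
  · intro h ε hε
    obtain ⟨-, ⟨y, hy, rfl⟩, hne, hd⟩ := h (ε / C) (by positivity)
    refine ⟨y, hy, fun h => hne (by rw [h]), ?_⟩
    have h1 : dist y x ≤ C * dist (B y) (B x) := hC3 y x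
    rw [lt_div_iff₀ hC0] at hd
    linarith
  · intro h ε hε
    obtain ⟨y, hy, hne, hd⟩ := h (ε / C) (by positivity)
    refine ⟨B y, ⟨y, hy, rfl⟩, fun h => hne (B.injective h), ?_⟩
    have h1 : dist (B y) (B x) ≤ C * dist y x := hC2 y x
    rw [lt_div_iff₀ hC0] at hd
    linarith

/-- **Isolated points exist.** -/
theorem exists_isolated {Φ : Finset E} (hΦ : Dirs Φ) {K : ℕ} (hcard : 4 * K + 5 ≤ Φ.card)
    {T : Set E} (hT : Lim K Φ T) (hne : T.Nonempty) : ∃ x ∈ T, ¬ Acc T x := by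
  classical
  by_contra hcon
  push Not at hcon
  have hd : mk 1 0 ≠ 0 := by
    intro h
    have := congrArg (fun v : E => v 0) h
    simp at this
  obtain ⟨B, -, hstd⟩ := exists_std hΦ hcard hd
  have hT' := hT.linear B
  have hΦ' := hΦ.image B
  have hcard' : 4 * K + 5 ≤ (Φ.image B).card := by
    rwa [Finset.card_image_of_injective _ B.injective]
  obtain ⟨κ, hκ, c', hc', H⟩ := cone_isolated hΦ' hstd
  obtain ⟨x₀, hx₀⟩ := hne
  have hup : ∀ x ∈ B '' T, ∀ ρ > 0, ∃ w ∈ B '' T, dist w x ≤ ρ ∧ κ * |w 0 - x 0| < w 1 - x 1 := by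
    rintro - ⟨x, hx, rfl⟩ ρ hρ
    by_contra hno
    push Not at hno
    have h1 := H (B '' T) hT' (B x) ⟨x, hx, rfl⟩ ρ hρ hno
    have h2 := (image_linearEquiv_acc (T := T) B (x := x)).2 (hcon x hx)
    obtain ⟨w, hw, hwne, hwd⟩ := h2 (c' * ρ) (by positivity)
    exact hwne (h1 w hw hwd.le)
  have hnull := hT'.null_image hΦ' hcard' (lipschitz_coord 1)
  have hsub : Set.Icc (B x₀ 1) (B x₀ 1 + 1) ⊆ (fun v : E => v 1) '' (B '' T) := by
    intro y hy
    obtain ⟨v, hv, hvy, -⟩ := fill_heights hT'.1 hκ (x₀ := B x₀) ⟨x₀, hx₀, rfl⟩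
      (y₁ := B x₀ 1 + 1) (fun x hx _ _ => hup x hx) hy.1 hy.2
    exact ⟨v, hv, hvy⟩
  have h1 := measure_mono_null hsub hnull
  rw [Real.volume_Icc] at h1
  norm_num at h1

/-- **No gaps** (without reference to coordinates). -/
theorem gap_hit' {Φ : Finset E} (hΦ : Dirs Φ) {K : ℕ} (hcard : 4 * K + 5 ≤ Φ.card) :
    ∃ L : ℝ, 1 ≤ L ∧ ∃ ε > 0, ∀ X : Finset E, KSet K X → ∀ x ∈ X, ∀ s > 0,
      (∃ x' ∈ X, x' ≠ x ∧ dist x' x ≤ s) →
      (∀ φ ∈ Φ, ∃ f ∈ X, ∃ τ : ℝ, 0 < τ ∧ L * s ≤ τ ∧ dist f (x + τ • φ) ≤ ε * τ) →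
      ∃ y ∈ X, s < dist y x ∧ dist y x ≤ L * s := by
  classical
  have hd : mk 1 0 ≠ 0 := by
    intro h
    have := congrArg (fun v : E => v 0) h
    simp at this
  obtain ⟨B, -, hstd⟩ := exists_std hΦ hcard hd
  obtain ⟨C, hC1, hC2, hC3⟩ := affine_bounds B.toAffineEquiv
  have hC2' : ∀ v w, dist (B v) (B w) ≤ C * dist v w := hC2
  have hC3' : ∀ v w, dist v w ≤ C * dist (B v) (B w) := hC3
  have hC0 : 0 < C := by linarith
  have hnum : 2 * K + 1 ≤ ((Φ.image B).filter fun φ => 0 < φ 1).card := by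
    have h1 : ((Φ.image B).filter fun φ => 0 < φ 0 ∧ 0 < φ 1) ∪
        ((Φ.image B).filter fun φ => φ 0 < 0 ∧ 0 < φ 1) ⊆
        (Φ.image B).filter fun φ => 0 < φ 1 := by
      intro φ hφ
      simp only [Finset.mem_union, Finset.mem_filter] at hφ ⊢
      rcases hφ with h | h
      · exact ⟨h.1, h.2.2⟩
      · exact ⟨h.1, h.2.2⟩
    have h2 := Finset.card_le_card h1
    rw [Finset.card_union_of_disjoint] at h2
    · have := hstd.1
      have := hstd.2
      omega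
    · rw [Finset.disjoint_left]
      intro φ h3 h4
      have h5 := (Finset.mem_filter.1 h3).2.1
      have h6 := (Finset.mem_filter.1 h4).2.1
      linarith
  obtain ⟨L, hL, ε, hε, H⟩ := gap_hit (hΦ.image B) hnum
  refine ⟨C * C * L, ?_, ε / C, by positivity, ?_⟩
  · have : 1 ≤ C * C := one_le_mul_of_one_le_of_one_le hC1 hC1
    exact one_le_mul_of_one_le_of_one_le this hL
  intro X hX x hx s hs hx' hfar
  obtain ⟨x', hx'X, hx'x, hx'd⟩ := hx'
  have hXB := hX.affine B.toAffineEquiv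
  obtain ⟨y', hy', h1, h2⟩ := H (X.image B) hXB (B x) (Finset.mem_image_of_mem _ hx) (C * s)
    (by positivity) ⟨B x', Finset.mem_image_of_mem _ hx'X, fun h => hx'x (B.injective h),
      (hC2' _ _).trans (mul_le_mul_of_nonneg_left hx'd hC0.le)⟩ (by
      intro φ' hφ'
      obtain ⟨φ, hφ, rfl⟩ := Finset.mem_image.1 hφ'
      obtain ⟨f, hf, τ, hτ, h1, h2⟩ := hfar φ hφ
      refine ⟨B f, Finset.mem_image_of_mem _ hf, τ, hτ, ?_, ?_⟩
      · have h3 : C * L * s ≤ C * C * L * s := by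
          apply mul_le_mul_of_nonneg_right _ hs.le
          apply mul_le_mul_of_nonneg_right _ (by linarith)
          nlinarith
        linarith
      · have h3 := (hC2' f (x + τ • φ)).trans (mul_le_mul_of_nonneg_left h2 hC0.le)
        rw [map_add, map_smul] at h3
        refine h3.trans (le_of_eq ?_)
        field_simp)
  obtain ⟨y, hy, rfl⟩ := Finset.mem_image.1 hy'
  refine ⟨y, hy, ?_, ?_⟩
  · have := hC2' y x
    nlinarith
  · have h3 := hC3' y x
    calc dist y x ≤ C * dist (B y) (B x) := h3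
      _ ≤ C * (L * (C * s)) := mul_le_mul_of_nonneg_left h2 hC0.le
      _ = C * C * L * s := by ring

/-- An isolated point of the limit is the limit of exactly one point of the approximating
sets. -/
theorem unique_near {Φ : Finset E} (hΦ : Dirs Φ) {K : ℕ} (hcard : 4 * K + 5 ≤ Φ.card)
    {T : Set E} {X : ℕ → Finset E} (h : SeqTo K Φ T X) {x : E} (hacc : ¬ Acc T x) :
    ∃ ε > 0, ∀ᶠ n in (UN : Filter ℕ), ∀ p ∈ X n, ∀ q ∈ X n, dist p x < ε → dist q x < ε →
      p = q := by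
  classical
  obtain ⟨L, hL, ε₀, hε₀, H⟩ := gap_hit' hΦ hcard
  simp only [Acc] at hacc
  push Not at hacc
  obtain ⟨r, hr, hiso⟩ := hacc
  set ρ := r / (4 * L) with hρ
  have hρ0 : 0 < ρ := by positivity
  have hLρ : L * ρ = r / 4 := by rw [hρ]; field_simp
  refine ⟨ρ / 4, by positivity, ?_⟩
  by_contra hcon
  rw [← Ultrafilter.eventually_not] at hcon
  have h1 : ∀ n, ∃ p : E, (¬ ∀ p ∈ X n, ∀ q ∈ X n, dist p x < ρ / 4 → dist q x < ρ / 4 → p = q) →
      (p ∈ X n ∧ dist p x < ρ / 4 ∧ ∃ q ∈ X n, q ≠ p ∧ dist q x < ρ / 4) := by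
    intro n
    by_cases hc : ∀ p ∈ X n, ∀ q ∈ X n, dist p x < ρ / 4 → dist q x < ρ / 4 → p = q
    · exact ⟨0, fun h' => absurd hc h'⟩
    · push Not at hc
      obtain ⟨p, hp, q, hq, h2, h3, h4⟩ := hc
      exact ⟨p, fun _ => ⟨hp, h2, q, hq, h4.symm, h3⟩⟩
  choose p hp using h1
  have hpb : ∀ᶠ n in (UN : Filter ℕ), ‖p n‖ ≤ ‖x‖ + ρ := by
    filter_upwards [hcon] with n hn
    have h2 := (hp n hn).2.1
    have h3 := norm_le_norm_add_norm_sub' (p n) x
    rw [← dist_eq_norm] at h3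
    linarith
  have hfar := h.far_ev hpb hε₀ (L * ρ)
  have hy : ∀ n, ∃ y : E, ((¬ ∀ p ∈ X n, ∀ q ∈ X n, dist p x < ρ / 4 → dist q x < ρ / 4 → p = q) ∧
      (∀ φ ∈ Φ, ∃ f ∈ X n, ∃ τ : ℝ, 0 < τ ∧ L * ρ ≤ τ ∧ dist f (p n + τ • φ) ≤ ε₀ * τ)) →
      (y ∈ X n ∧ ρ < dist y (p n) ∧ dist y (p n) ≤ r / 4) := by
    intro n
    by_cases hc : (¬ ∀ p ∈ X n, ∀ q ∈ X n, dist p x < ρ / 4 → dist q x < ρ / 4 → p = q) ∧
      (∀ φ ∈ Φ, ∃ f ∈ X n, ∃ τ : ℝ, 0 < τ ∧ L * ρ ≤ τ ∧ dist f (p n + τ • φ) ≤ ε₀ * τ)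
    · obtain ⟨hc1, hc2⟩ := hc
      obtain ⟨hpX, hpx, q, hqX, hqp, hqx⟩ := hp n hc1
      have hqS : q ∈ (X n).filter fun q => q ≠ p n ∧ dist q (p n) ≤ ρ := by
        refine Finset.mem_filter.2 ⟨hqX, hqp, ?_⟩
        have := dist_triangle_right q (p n) x
        linarith
      obtain ⟨q', hq'S, hmax⟩ := ((X n).filter fun q => q ≠ p n ∧ dist q (p n) ≤ ρ).exists_max_image
        (fun q => dist q (p n)) ⟨q, hqS⟩
      obtain ⟨hq'X, hq'p, hq'd⟩ := Finset.mem_filter.1 hq'S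
      have hs : 0 < dist q' (p n) := dist_pos.2 hq'p
      obtain ⟨y, hyX, hy1, hy2⟩ := H (X n) (h.kset n) (p n) hpX (dist q' (p n)) hs
        ⟨q', hq'X, hq'p, le_rfl⟩ (by
          intro φ hφ
          obtain ⟨f, hf, τ, b1, b2, b3⟩ := hc2 φ hφ
          refine ⟨f, hf, τ, b1, ?_, b3⟩
          have := mul_le_mul_of_nonneg_left hq'd (by linarith : 0 ≤ L)
          linarith)
      refine ⟨y, fun _ => ⟨hyX, ?_, ?_⟩⟩
      · by_contra hle
        push Not at hle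
        have hyp : y ≠ p n := by
          intro h'
          rw [h', dist_self] at hy1
          linarith
        have := hmax y (Finset.mem_filter.2 ⟨hyX, hyp, hle⟩)
        linarith
      · have := mul_le_mul_of_nonneg_left hq'd (by linarith : 0 ≤ L)
        linarith
    · exact ⟨0, fun h' => absurd h' hc⟩
  choose y hy using hy
  have hall := hcon.and hfar
  have hyX : ∀ᶠ n in (UN : Filter ℕ), y n ∈ X n := hall.mono fun n hn => (hy n hn).1
  have hyb : ∀ᶠ n in (UN : Filter ℕ), 3 * ρ / 4 ≤ dist (y n) x ∧ dist (y n) x ≤ r / 2 := by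
    filter_upwards [hall] with n hn
    obtain ⟨-, b1, b2⟩ := hy n hn
    have b3 := (hp n hn.1).2.1
    have b4 := dist_triangle (y n) (p n) x
    have b5 := dist_triangle_right (y n) (p n) x
    have b6 : ρ ≤ r / 4 := by
      rw [← hLρ]
      nlinarith
    constructor <;> linarith
  obtain ⟨v, hvT, hv⟩ := h.exists_lim (R := ‖x‖ + r) hyX (by
    filter_upwards [hyb] with n hn
    have h3 := norm_le_norm_add_norm_sub' (y n) x
    rw [← dist_eq_norm] at h3
    linarith [hn.2])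
  have hd : Tendsto (fun n => dist (y n) x) UN (𝓝 (dist v x)) := hv.dist tendsto_const_nhds
  have h5 : 3 * ρ / 4 ≤ dist v x := ge_of_tendsto hd (hyb.mono fun n hn => hn.1)
  have h6 : dist v x ≤ r / 2 := le_of_tendsto hd (hyb.mono fun n hn => hn.2)
  have hne : v ≠ x := by
    intro h'
    rw [h', dist_self] at h5
    linarith
  have := hiso v hvT hne
  linarith

end Pool.Agent.Lib.MP_8bcb9d_co
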