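import Mathlib
import Pool.Agent.Lib.MP_8bcb9d_co.PS8

/-!
# Limit sets with points at all scales: minimal sets of directions
-/

set_option autoImplicit false

namespace Pool.Agent.Lib.MP_8bcb9d_co

open Filter Topology MeasureTheory Metric
open scoped ENNReal NNReal

/-- directions of points of `T` -/
def Dir (T : Set E) : Set E :=
  {d | d ≠ 0 ∧ ∀ ε > 0, ∃ v ∈ T, ∃ s : ℝ, 0 < s ∧ dist (s • v) d < ε}

/-- directions of far points of `T` -/
def DirInf (T : Set E) : Set E :=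
  {d | d ≠ 0 ∧ ∀ ε > 0, ∀ R : ℝ, ∃ v ∈ T, R ≤ ‖v‖ ∧ ∃ s : ℝ, 0 < s ∧ dist (s • v) d < ε}

/-- directions of points of `T` near the origin -/
def DirZero (T : Set E) : Set E :=
  {d | d ≠ 0 ∧ ∀ ε > 0, ∀ r > 0, ∃ v ∈ T, ‖v‖ ≤ r ∧ ∃ s : ℝ, 0 < s ∧ dist (s • v) d < ε}

/-- points at all scales -/
def Hit (L : ℝ) (T : Set E) : Prop := ∀ s > 0, ∃ v ∈ T, s ≤ ‖v‖ ∧ ‖v‖ ≤ L * s

theorem mem_Dir {T : Set E} {v : E} (hv : v ∈ T) (hv0 : v ≠ 0) {s : ℝ} (hs : 0 < s) :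
    s • v ∈ Dir T :=
  ⟨smul_ne_zero hs.ne' hv0, fun ε hε => ⟨v, hv, s, hs, by rwa [dist_self]⟩⟩

theorem Hit.ulim {ι : Type*} {U : Ultrafilter ι} {T : ι → Set E} {L : ℝ}
    (h : ∀ᶠ i in (U : Filter ι), Hit L (T i)) :
    Hit L (Pool.Agent.Lib.MP_8bcb9d_co.ulim U T) := by
  intro s hs
  have h1 : ∀ i, ∃ v : E, Hit L (T i) → (v ∈ T i ∧ s ≤ ‖v‖ ∧ ‖v‖ ≤ L * s) := by
    intro i
    by_cases hc : Hit L (T i)
    · obtain ⟨v, hv⟩ := hc s hs
      exact ⟨v, fun _ => hv⟩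
    · exact ⟨0, fun h' => absurd h' hc⟩
  choose v hv using h1
  obtain ⟨w, hw⟩ := exists_tendsto (h.mono fun i hi => (hv i hi).2.2)
  refine ⟨w, mem_ulim_of_tendsto (h.mono fun i hi => (hv i hi).1) hw, ?_, ?_⟩
  · exact ge_of_tendsto hw.norm (h.mono fun i hi => (hv i hi).2.1)
  · exact le_of_tendsto hw.norm (h.mono fun i hi => (hv i hi).2.2)

theorem Hit.smul {T : Set E} {L : ℝ} (h : Hit L T) {c : ℝ} (hc : 0 < c) :
    Hit L ((fun v : E => c • (v - 0)) '' T) := by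
  intro s hs
  obtain ⟨v, hv, h1, h2⟩ := h (s / c) (by positivity)
  refine ⟨c • (v - 0), ⟨v, hv, rfl⟩, ?_, ?_⟩
  · rw [sub_zero, norm_smul, Real.norm_of_nonneg hc.le]
    rwa [div_le_iff₀' hc] at h1
  · rw [sub_zero, norm_smul, Real.norm_of_nonneg hc.le]
    have := mul_le_mul_of_nonneg_left h2 hc.le
    refine this.trans (le_of_eq ?_)
    field_simp

theorem Dir_smul_sub {T : Set E} {c : ℝ} (hc : 0 < c) :
    Dir ((fun v : E => c • (v - 0)) '' T) ⊆ Dir T := by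
  rintro d ⟨hd, h⟩
  refine ⟨hd, fun ε hε => ?_⟩
  obtain ⟨-, ⟨v, hv, rfl⟩, s, hs, h1⟩ := h ε hε
  refine ⟨v, hv, s * c, by positivity, ?_⟩
  simp only [sub_zero] at h1
  rwa [mul_smul]

theorem Dir_ulim_sub {ι : Type*} {U : Ultrafilter ι} {T : ι → Set E} {T₀ : Set E}
    (h : ∀ᶠ i in (U : Filter ι), Dir (T i) ⊆ Dir T₀) :
    Dir (ulim U T) ⊆ Dir T₀ := by
  rintro d ⟨hd, hd1⟩
  refine ⟨hd, fun ε hε => ?_⟩
  have hdn : 0 < ‖d‖ := norm_pos_iff.2 hd
  obtain ⟨v, hv, s, hs, h1⟩ := hd1 (min (ε / 3) (‖d‖ / 3)) (by positivity)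
  obtain ⟨i, hi1, t, ht, htv⟩ := (h.and (hv (min (ε / 3) (‖d‖ / 3) / s) (by positivity))).exists
  rw [lt_div_iff₀ hs] at htv
  have h2 : dist (s • t) (s • v) < min (ε / 3) (‖d‖ / 3) := by
    rw [dist_smul₀, Real.norm_of_nonneg hs.le]
    linarith
  have h3 : dist (s • t) d < 2 * min (ε / 3) (‖d‖ / 3) := by
    have := dist_triangle (s • t) (s • v) d
    linarith
  have ht0 : t ≠ 0 := by
    intro h0
    rw [h0, smul_zero, dist_zero_left] at h3
    have := min_le_right (ε / 3) (‖d‖ / 3)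
    linarith
  have h4 := hi1 (mem_Dir ht ht0 hs)
  obtain ⟨v', hv', s', hs', h5⟩ := h4.2 (ε / 3) (by positivity)
  refine ⟨v', hv', s', hs', ?_⟩
  have := dist_triangle (s' • v') (s • t) d
  have := min_le_left (ε / 3) (‖d‖ / 3)
  linarith

/-- Existence of a set with a minimal set of directions. -/
theorem exists_minimal {K : ℕ} {Φ : Finset E} {L : ℝ} {T₁ : Set E} (hT₁ : Lim K Φ T₁)
    (hH₁ : Hit L T₁) : ∃ T, Lim K Φ T ∧ Hit L T ∧
      ∀ T', Lim K Φ T' → Hit L T' → Dir T' ⊆ Dir T → Dir T ⊆ Dir T' := by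
  classical
  let S : Set (Set E) := {D | ∃ T, Lim K Φ T ∧ Hit L T ∧ Dir T = D}
  have hz := zorn_superset_nonempty S (by
    intro c hcS hc hne
    have hT : ∀ D : c, ∃ T, Lim K Φ T ∧ Hit L T ∧ Dir T = D := fun D => hcS D.2
    choose T hT1 hT2 hT3 using hT
    haveI : Nonempty c := hne.to_subtype
    haveI : IsCodirectedOrder c := ⟨by
      intro a b
      rcases hc.total a.2 b.2 with h | h
      · exact ⟨a, le_refl a, h⟩
      · exact ⟨b, h, le_refl b⟩⟩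
    let U : Ultrafilter c := Ultrafilter.of atBot
    have hU : (U : Filter c) ≤ atBot := Ultrafilter.of_le atBot
    refine ⟨Dir (ulim U T), ⟨ulim U T, Lim.ulim (Filter.Eventually.of_forall hT1),
      Hit.ulim (Filter.Eventually.of_forall hT2), rfl⟩, ?_⟩
    intro D hD
    have h1 : ∀ᶠ D' in (U : Filter c), D' ≤ (⟨D, hD⟩ : c) := hU (eventually_le_atBot _)
    have h2 := Dir_ulim_sub (U := U) (T := T) (T₀ := T ⟨D, hD⟩) (by
      filter_upwards [h1] with D' hD'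
      rw [hT3, hT3]
      exact hD')
    rw [hT3] at h2
    exact h2) (Dir T₁) ⟨T₁, hT₁, hH₁, rfl⟩
  obtain ⟨D, -, hmin⟩ := hz
  obtain ⟨T, hT1, hT2, rfl⟩ := hmin.1
  refine ⟨T, hT1, hT2, ?_⟩
  intro T' h1 h2 h3
  exact hmin.2 ⟨T', h1, h2, rfl⟩ h3

/-- the directions occur near infinity and near the origin -/
structure Conic (T : Set E) : Prop where
  ne : (Dir T).Nonempty
  inf : Dir T ⊆ DirInf T
  zero : Dir T ⊆ DirZero T

theorem exists_conic {K : ℕ} {Φ : Finset E} {L : ℝ} {T₁ : Set E} (hT₁ : Lim K Φ T₁)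
    (hH₁ : Hit L T₁) : ∃ T, Lim K Φ T ∧ Conic T := by
  obtain ⟨T, hT, hH, hmin⟩ := exists_minimal hT₁ hH₁
  have hk : ∀ k : ℕ, (0 : ℝ) < (k : ℝ) + 1 := fun k => by positivity
  have hk' : ∀ k : ℕ, (0 : ℝ) < 1 / ((k : ℝ) + 1) := fun k => by positivity
  have hkt : Tendsto (fun k : ℕ => (k : ℝ) + 1) (UN : Filter ℕ) atTop :=
    (tendsto_atTop_add_const_right _ _ tendsto_natCast_atTop_atTop).mono_left UN_le
  refine ⟨T, hT, ?_, ?_, ?_⟩
  · obtain ⟨v, hv, h1, -⟩ := hH 1 one_pos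
    exact ⟨(1 : ℝ) • v, mem_Dir hv (norm_pos_iff.1 (by linarith)) one_pos⟩
  · -- zoom out
    have h1 := hmin (ulim UN fun k : ℕ => (fun v : E => (1 / ((k : ℝ) + 1)) • (v - 0)) '' T)
      (Lim.ulim (Filter.Eventually.of_forall fun k => hT.homo (hk' k) 0))
      (Hit.ulim (Filter.Eventually.of_forall fun k => hH.smul (hk' k)))
      (Dir_ulim_sub (Filter.Eventually.of_forall fun k => Dir_smul_sub (hk' k)))
    intro d hd
    obtain ⟨hd0, h2⟩ := h1 hd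
    refine ⟨hd0, fun ε hε R => ?_⟩
    have hdn : 0 < ‖d‖ := norm_pos_iff.2 hd0
    obtain ⟨v, hv, s, hs, h3⟩ := h2 (min (ε / 2) ‖d‖) (by positivity)
    have hv0 : 0 < ‖v‖ := by
      rw [norm_pos_iff]
      intro h0
      rw [h0, smul_zero, dist_zero_left] at h3
      have := min_le_right (ε / 2) ‖d‖
      linarith
    obtain ⟨k, hk1, hk2⟩ := ((hv (min (ε / (2 * s)) (‖v‖ / 2)) (by positivity)).and
      (hkt.eventually_ge_atTop (2 * R / ‖v‖))).exists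
    obtain ⟨-, ⟨t, ht, rfl⟩, hd'⟩ := hk1
    simp only [sub_zero] at hd'
    have h4 : ‖v‖ / 2 ≤ ‖(1 / ((k : ℝ) + 1)) • t‖ := by
      have h5 := norm_sub_norm_le v ((1 / ((k : ℝ) + 1)) • t)
      rw [← dist_eq_norm, dist_comm] at h5
      have := min_le_right (ε / (2 * s)) (‖v‖ / 2)
      linarith
    rw [norm_smul, Real.norm_of_nonneg (hk' k).le, one_div, inv_mul_eq_div, le_div_iff₀ (hk k)]
      at h4
    rw [div_le_iff₀ hv0] at hk2
    refine ⟨t, ht, by nlinarith, s * (1 / ((k : ℝ) + 1)), mul_pos hs (hk' k), ?_⟩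
    rw [mul_smul]
    have h6 : dist (s • ((1 / ((k : ℝ) + 1)) • t)) (s • v) < ε / 2 := by
      rw [dist_smul₀, Real.norm_of_nonneg hs.le]
      have := lt_of_lt_of_le hd' (min_le_left _ _)
      rw [lt_div_iff₀ (by positivity)] at this
      linarith
    have := dist_triangle (s • ((1 / ((k : ℝ) + 1)) • t)) (s • v) d
    have := min_le_left (ε / 2) ‖d‖
    linarith
  · -- zoom in
    have h1 := hmin (ulim UN fun k : ℕ => (fun v : E => ((k : ℝ) + 1) • (v - 0)) '' T)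
      (Lim.ulim (Filter.Eventually.of_forall fun k => hT.homo (hk k) 0))
      (Hit.ulim (Filter.Eventually.of_forall fun k => hH.smul (hk k)))
      (Dir_ulim_sub (Filter.Eventually.of_forall fun k => Dir_smul_sub (hk k)))
    intro d hd
    obtain ⟨hd0, h2⟩ := h1 hd
    refine ⟨hd0, fun ε hε r hr => ?_⟩
    have hdn : 0 < ‖d‖ := norm_pos_iff.2 hd0
    obtain ⟨v, hv, s, hs, h3⟩ := h2 (min (ε / 2) ‖d‖) (by positivity)
    obtain ⟨k, hk1, hk2⟩ := ((hv (min (ε / (2 * s)) 1) (by positivity)).and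
      (hkt.eventually_ge_atTop ((‖v‖ + 1) / r))).exists
    obtain ⟨-, ⟨t, ht, rfl⟩, hd'⟩ := hk1
    simp only [sub_zero] at hd'
    have h4 : ‖((k : ℝ) + 1) • t‖ ≤ ‖v‖ + 1 := by
      have h5 := norm_sub_norm_le (((k : ℝ) + 1) • t) v
      rw [← dist_eq_norm] at h5
      have := min_le_right (ε / (2 * s)) 1
      linarith
    rw [norm_smul, Real.norm_of_nonneg (hk k).le] at h4
    rw [div_le_iff₀ hr] at hk2
    refine ⟨t, ht, ?_, s * ((k : ℝ) + 1), mul_pos hs (hk k), ?_⟩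
    · have h5 : ((k : ℝ) + 1) * ‖t‖ ≤ ((k : ℝ) + 1) * r := by linarith
      exact le_of_mul_le_mul_left h5 (hk k)
    · rw [mul_smul]
      have h6 : dist (s • (((k : ℝ) + 1) • t)) (s • v) < ε / 2 := by
        rw [dist_smul₀, Real.norm_of_nonneg hs.le]
        have := lt_of_lt_of_le hd' (min_le_left _ _)
        rw [lt_div_iff₀ (by positivity)] at this
        linarith
      have := dist_triangle (s • (((k : ℝ) + 1) • t)) (s • v) d
      have := min_le_left (ε / 2) ‖d‖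
      linarith

/-! ### linear images -/

theorem Dir_image {T : Set E} (B : E ≃ₗ[ℝ] E) {d : E} : B d ∈ Dir (B '' T) ↔ d ∈ Dir T := by
  obtain ⟨C, hC1, hC2, hC3⟩ := affine_bounds B.toAffineEquiv
  have hC2' : ∀ v w, dist (B v) (B w) ≤ C * dist v w := hC2
  have hC3' : ∀ v w, dist v w ≤ C * dist (B v) (B w) := hC3
  have hC0 : 0 < C := by linarith
  constructor
  · rintro ⟨h0, h⟩
    refine ⟨fun h' => h0 (by rw [h', map_zero]), fun ε hε => ?_⟩
    obtain ⟨-, ⟨v, hv, rfl⟩, s, hs, h1⟩ := h (ε / C) (by positivity)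
    refine ⟨v, hv, s, hs, ?_⟩
    rw [← map_smul, lt_div_iff₀ hC0] at h1
    linarith [hC3' (s • v) d]
  · rintro ⟨h0, h⟩
    refine ⟨fun h' => h0 (by simpa using h'), fun ε hε => ?_⟩
    obtain ⟨v, hv, s, hs, h1⟩ := h (ε / C) (by positivity)
    refine ⟨B v, ⟨v, hv, rfl⟩, s, hs, ?_⟩
    rw [← map_smul]
    rw [lt_div_iff₀ hC0] at h1
    linarith [hC2' (s • v) d]

theorem Conic.image {T : Set E} (h : Conic T) (B : E ≃ₗ[ℝ] E) : Conic (B '' T) := by
  obtain ⟨C, hC1, hC2, hC3⟩ := affine_bounds B.toAffineEquiv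
  have hC2' : ∀ v w, dist (B v) (B w) ≤ C * dist v w := hC2
  have hC3' : ∀ v w, dist v w ≤ C * dist (B v) (B w) := hC3
  have hC0 : 0 < C := by linarith
  refine ⟨?_, ?_, ?_⟩
  · obtain ⟨d, hd⟩ := h.ne
    exact ⟨B d, (Dir_image B).2 hd⟩
  · intro d' hd'
    obtain ⟨d, rfl⟩ := B.surjective d'
    have hd := h.inf ((Dir_image B).1 hd')
    refine ⟨hd'.1, fun ε hε R => ?_⟩
    obtain ⟨v, hv, hvR, s, hs, h1⟩ := hd.2 (ε / C) (by positivity) (C * R)
    refine ⟨B v, ⟨v, hv, rfl⟩, ?_, s, hs, ?_⟩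
    · have h2 := hC3' v 0
      rw [map_zero, dist_zero_right, dist_zero_right] at h2
      exact le_of_mul_le_mul_left (hvR.trans h2) hC0
    · rw [← map_smul]
      rw [lt_div_iff₀ hC0] at h1
      linarith [hC2' (s • v) d]
  · intro d' hd'
    obtain ⟨d, rfl⟩ := B.surjective d'
    have hd := h.zero ((Dir_image B).1 hd')
    refine ⟨hd'.1, fun ε hε r hr => ?_⟩
    obtain ⟨v, hv, hvR, s, hs, h1⟩ := hd.2 (ε / C) (by positivity) (r / C) (by positivity)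
    refine ⟨B v, ⟨v, hv, rfl⟩, ?_, s, hs, ?_⟩
    · have h2 := hC2' v 0
      rw [map_zero, dist_zero_right, dist_zero_right] at h2
      rw [le_div_iff₀ hC0] at hvR
      linarith
    · rw [← map_smul]
      rw [lt_div_iff₀ hC0] at h1
      linarith [hC2' (s • v) d]

end Pool.Agent.Lib.MP_8bcb9d_co
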