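import Mathlib
import Pool.Agent.Lib.MP_8bcb9d_co.PS9

/-!
# Limit sets contained in a line
-/

set_option autoImplicit false

namespace Pool.Agent.Lib.MP_8bcb9d_co

open Filter Topology MeasureTheory Metric
open scoped ENNReal NNReal

/-- linear functionals -/
def lf (c0 c1 : ℝ) (v : E) : ℝ := c0 * v 0 + c1 * v 1

theorem lf_add (c0 c1 : ℝ) (v w : E) : lf c0 c1 (v + w) = lf c0 c1 v + lf c0 c1 w := by
  simp only [lf, PiLp.add_apply]; ring

theorem lf_smul (c0 c1 s : ℝ) (v : E) : lf c0 c1 (s • v) = s * lf c0 c1 v := by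
  simp only [lf, PiLp.smul_apply, smul_eq_mul]; ring

theorem continuous_lf (c0 c1 : ℝ) : Continuous (lf c0 c1) := by
  unfold lf
  fun_prop

theorem lf_mk_axis (c0 c1 x : ℝ) : lf c0 c1 (mk x 0) = c0 * x := by
  simp [lf]

theorem tendsto_lf {c0 c1 : ℝ} {x : ℕ → E} {v : E} (hx : Tendsto x UN (𝓝 v)) :
    Tendsto (fun n => lf c0 c1 (x n)) UN (𝓝 (lf c0 c1 v)) :=
  ((continuous_lf c0 c1).tendsto _).comp hx

theorem lf_lt {c0 c1 : ℝ} {p q f w : E} (hw : w ∈ convexHull ℝ ({p, q, f} : Set E))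
    (hwp : w ≠ p) (hq : lf c0 c1 p < lf c0 c1 q) (hf : lf c0 c1 p < lf c0 c1 f) :
    lf c0 c1 p < lf c0 c1 w := by
  obtain ⟨a, b, c, ha, hb, hc, hsum, rfl⟩ := mem_triangle hw
  rw [lf_add, lf_add, lf_smul, lf_smul, lf_smul]
  have ha' : a = 1 - b - c := by linarith
  have hbc : 0 < b + c := by
    rcases (add_nonneg hb hc).lt_or_eq with h | h
    · exact h
    · exfalso
      apply hwp
      have hb0 : b = 0 := by linarith
      have hc0 : c = 0 := by linarith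
      rw [ha', hb0, hc0]
      simp
  have h1 : a * lf c0 c1 p + b * lf c0 c1 q + c * lf c0 c1 f - lf c0 c1 p =
      b * (lf c0 c1 q - lf c0 c1 p) + c * (lf c0 c1 f - lf c0 c1 p) := by
    rw [ha']; ring
  have h2 : 0 < b * (lf c0 c1 q - lf c0 c1 p) + c * (lf c0 c1 f - lf c0 c1 p) := by
    rcases hb.lt_or_eq with h | h
    · have := mul_pos h (sub_pos.2 hq)
      have := mul_nonneg hc (sub_pos.2 hf).le
      linarith
    · have hc0 : 0 < c := by linarith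
      have := mul_pos hc0 (sub_pos.2 hf)
      rw [← h]
      linarith
  linarith

theorem lf_le {c0 c1 M : ℝ} {p q f w : E} (hw : w ∈ convexHull ℝ ({p, q, f} : Set E))
    (hp : lf c0 c1 p ≤ M) (hq : lf c0 c1 q ≤ M) (hf : lf c0 c1 f ≤ M) :
    lf c0 c1 w ≤ M := by
  obtain ⟨a, b, c, ha, hb, hc, hsum, rfl⟩ := mem_triangle hw
  rw [lf_add, lf_add, lf_smul, lf_smul, lf_smul]
  have h1 : a * M + b * M + c * M = M := by rw [← add_mul, ← add_mul, hsum, one_mul]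
  linarith [mul_le_mul_of_nonneg_left hp ha, mul_le_mul_of_nonneg_left hq hb,
    mul_le_mul_of_nonneg_left hf hc]

/-- maximisers -/
theorem exists_argmax (X : ℕ → Finset E) (P : E → Prop) (F : E → ℝ) {x : ℕ → E}
    (hx : ∀ᶠ n in (UN : Filter ℕ), x n ∈ X n) (hP : ∀ᶠ n in (UN : Filter ℕ), P (x n)) :
    ∃ p : ℕ → E, ∀ᶠ n in (UN : Filter ℕ), (p n ∈ X n ∧ P (p n)) ∧
      ∀ w ∈ X n, P w → F w ≤ F (p n) := by
  classical
  have h1 : ∀ n, ∃ p : E, (x n ∈ X n ∧ P (x n)) → ((p ∈ X n ∧ P p) ∧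
      ∀ w ∈ X n, P w → F w ≤ F p) := by
    intro n
    by_cases hc : x n ∈ X n ∧ P (x n)
    · obtain ⟨p, hp, hmax⟩ := ((X n).filter P).exists_max_image F
        ⟨x n, Finset.mem_filter.2 hc⟩
      exact ⟨p, fun _ => ⟨Finset.mem_filter.1 hp, fun w hw hPw =>
        hmax w (Finset.mem_filter.2 ⟨hw, hPw⟩)⟩⟩
    · exact ⟨0, fun h => absurd h hc⟩
  choose p hp using h1
  exact ⟨p, (hx.and hP).mono fun n hn => hp n hn⟩

theorem far_shift {f : ℕ → E} {τ : ℕ → ℝ} {φ : E} {x : ℕ → E} {B : ℝ} (hτ0 : ∀ n, 0 < τ n)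
    (hτ : Tendsto τ UN atTop) (hf : Tendsto (fun n => (τ n)⁻¹ • f n) UN (𝓝 φ))
    (hx : ∀ᶠ n in (UN : Filter ℕ), ‖x n‖ ≤ B) {ε : ℝ} (hε : 0 < ε) :
    ∀ᶠ n in (UN : Filter ℕ), dist (f n) (x n + τ n • φ) ≤ ε * τ n := by
  rw [Metric.tendsto_nhds] at hf
  filter_upwards [hτ.eventually_ge_atTop (2 * B / ε), hf (ε / 2) (half_pos hε), hx]
    with n b1 b2 b3
  have h4 : dist ((τ n)⁻¹ • f n) φ = (τ n)⁻¹ * dist (f n) (τ n • φ) := by
    rw [dist_eq_norm, dist_eq_norm]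
    have : (τ n)⁻¹ • f n - φ = (τ n)⁻¹ • (f n - τ n • φ) := by
      rw [smul_sub, smul_smul, inv_mul_cancel₀ (hτ0 n).ne', one_smul]
    rw [this, norm_smul, Real.norm_of_nonneg (inv_nonneg.2 (hτ0 n).le)]
  rw [h4, inv_mul_eq_div, div_lt_iff₀ (hτ0 n)] at b2
  rw [div_le_iff₀ hε] at b1
  calc dist (f n) (x n + τ n • φ) ≤ dist (f n) (τ n • φ) + dist (τ n • φ) (x n + τ n • φ) :=
        dist_triangle _ _ _
    _ ≤ ε / 2 * τ n + B := by
        refine add_le_add b2.le ?_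
        rw [dist_eq_norm]
        have : τ n • φ - (x n + τ n • φ) = -x n := by abel
        rw [this, norm_neg]
        exact b3
    _ ≤ ε * τ n := by linarith

/-- Partners in `K + 1` directions cannot all escape. -/
theorem no_escape {K : ℕ} {Φ : Finset E} (hΦ : Dirs Φ) {X : ℕ → Finset E}
    (hX : ∀ n, KSet K (X n)) {Ψ : Finset E} (hΨ : Ψ ⊆ Φ) (hcard : K + 1 ≤ Ψ.card)
    {f : E → ℕ → E} {τ : E → ℕ → ℝ} (hτ0 : ∀ φ ∈ Ψ, ∀ n, 0 < τ φ n)
    (hτ : ∀ φ ∈ Ψ, Tendsto (τ φ) UN atTop)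
    (hf : ∀ φ ∈ Ψ, Tendsto (fun n => (τ φ n)⁻¹ • f φ n) UN (𝓝 φ)) {p q : ℕ → E} {B : ℝ}
    (hp : ∀ᶠ n in (UN : Filter ℕ), p n ∈ X n) (hq : ∀ᶠ n in (UN : Filter ℕ), q n ∈ X n)
    (hpq : ∀ᶠ n in (UN : Filter ℕ), p n ≠ q n) (hpB : ∀ᶠ n in (UN : Filter ℕ), ‖p n‖ ≤ B)
    (hqB : ∀ᶠ n in (UN : Filter ℕ), ‖q n‖ ≤ B) {w : E → ℕ → E}
    (hw : ∀ φ ∈ Ψ, ∀ᶠ n in (UN : Filter ℕ), w φ n ∈ Deg (X n) (p n) (q n) ∧
      w φ n ∈ convexHull ℝ ({p n, q n, f φ n} : Set E))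
    (hesc : ∀ φ ∈ Ψ, ∀ R : ℝ, ∀ᶠ n in (UN : Filter ℕ), R ≤ ‖w φ n‖) : False := by
  classical
  obtain ⟨c, hc, hc1, hsep⟩ := hΦ.sep
  obtain ⟨e, he, hele⟩ := exists_pos_le_finset Φ (fun φ => c * ‖φ‖ / 8) (by
    intro φ hφ
    have := norm_pos_iff.2 (hΦ.1 φ hφ)
    positivity)
  obtain ⟨Ψ', hΨ', hcard'⟩ := Finset.exists_subset_card_eq hcard
  let g : Fin (K + 1) ≃ Ψ' := (Ψ'.equivFinOfCardEq hcard').symm
  have hgΨ : ∀ i, (g i : E) ∈ Ψ := fun i => hΨ' (g i).2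
  refine seq_contra hX hp hq hpq (w := fun i => w (g i)) (fun i => (hw _ (hgΨ i)).mono
    fun n hn => hn.1) ?_
  intro i j hij
  have hne : (g i : E) ≠ g j := fun h => hij (g.injective (Subtype.ext h))
  have hB0 : ∀ᶠ n in (UN : Filter ℕ), (0 : ℝ) ≤ B := by
    filter_upwards [hpB] with n hn
    exact (norm_nonneg _).trans hn
  obtain ⟨n0, hB⟩ := hB0.exists
  filter_upwards [hw _ (hgΨ i), hw _ (hgΨ j), hesc _ (hgΨ i) (B + 4 * (B + 1) / c), hpB, hqB,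
    far_shift (hτ0 _ (hgΨ i)) (hτ _ (hgΨ i)) (hf _ (hgΨ i)) hpB he,
    far_shift (hτ0 _ (hgΨ j)) (hτ _ (hgΨ j)) (hf _ (hgΨ j)) hpB he] with n b1 b2 b3 b4 b5 b6 b7
  intro heq
  obtain ⟨a, b, γ, ha, hb, hγ, hsum, hwe⟩ := mem_triangle b1.2
  rw [← heq] at b2
  obtain ⟨a', b', γ', ha', hb', hγ', hsum', hwe'⟩ := mem_triangle b2.2
  have hqp : dist (q n) (p n) ≤ 2 * B := by
    have := dist_le_norm_add_norm (q n) (p n)
    linarith
  have h1 := far_est (x := p n) (s := 2 * B) (by rw [dist_self]; linarith) hqp ha hb hγ hsum hwe b6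
  have h2 := far_est (x := p n) (s := 2 * B) (by rw [dist_self]; linarith) hqp ha' hb' hγ' hsum'
    hwe' b7
  have h3 : 4 * (B + 1) / c ≤ ‖w (g i) n - p n‖ := by
    have := norm_sub_norm_le (w (g i) n) (p n)
    linarith
  have h4 : 4 * (B + 1) ≤ c * ‖w (g i) n - p n‖ := by
    rw [div_le_iff₀ hc] at h3
    linarith
  refine far_ne hc hc1 hsep he hele (x := p n) (w := w (g i) n) (s := 2 * B) (by linarith) ?_
    (hΨ (hgΨ i)) (hΨ (hgΨ j)) hne hγ (hτ0 _ (hgΨ i) n).le hγ' (hτ0 _ (hgΨ j) n).le h1 h2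
  intro h0
  rw [h0, sub_self, norm_zero, mul_zero] at h4
  linarith

/-- A limit set contained in the axis has no gaps. -/
theorem no_gap_axis {Φ : Finset E} (hΦ : Dirs Φ) {K : ℕ} (hstd : Std K Φ) {T : Set E}
    {X : ℕ → Finset E} (h : SeqTo K Φ T X) (hax : ∀ v ∈ T, v 1 = 0) {a b : ℝ} (hab : a < b)
    (ha : mk a 0 ∈ T) (hb : mk b 0 ∈ T) (hgap : ∀ v ∈ T, a ≤ v 0 → v 0 ≤ b → v 0 = a ∨ v 0 = b) :
    False := by
  classical
  -- the directions
  set Ψ := Φ.filter fun φ => 0 < φ 0 ∧ 0 < φ 1 with hΨdef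
  have hΨ : Ψ ⊆ Φ := Finset.filter_subset _ _
  have hΨcard : K + 1 ≤ Ψ.card := hstd.1
  have hΨ0 : ∀ φ ∈ Ψ, 0 < φ 0 := fun φ hφ => (Finset.mem_filter.1 hφ).2.1
  have hΨ1 : ∀ φ ∈ Ψ, 0 < φ 1 := fun φ hφ => (Finset.mem_filter.1 hφ).2.2
  set Λ : ℝ := 1 + ∑ φ ∈ Ψ, φ 0 / φ 1 with hΛ
  have hsum0 : 0 ≤ ∑ φ ∈ Ψ, φ 0 / φ 1 :=
    Finset.sum_nonneg fun φ hφ => (div_pos (hΨ0 φ hφ) (hΨ1 φ hφ)).le
  have hΛ1 : 1 ≤ Λ := by rw [hΛ]; linarith
  have hΛφ : ∀ φ ∈ Ψ, φ 0 < Λ * φ 1 := by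
    intro φ hφ
    have h1 : φ 0 / φ 1 ≤ ∑ φ ∈ Ψ, φ 0 / φ 1 :=
      Finset.single_le_sum (f := fun φ : E => φ 0 / φ 1)
        (fun ψ hψ => (div_pos (hΨ0 ψ hψ) (hΨ1 ψ hψ)).le) hφ
    rw [← div_lt_iff₀ (hΨ1 φ hφ)]
    rw [hΛ]; linarith
  choose! f τ hfX hτ0 hτ hf using h.far
  -- the extremal points
  set m : ℝ := (a + b) / 2 with hm
  obtain ⟨xa, hxaX, hxa⟩ := h.exists_seq ha
  obtain ⟨xb, hxbX, hxb⟩ := h.exists_seq hb
  set PA : E → Prop := fun v => (a - 1 ≤ v 0 ∧ v 0 ≤ m) ∧ (-1 ≤ v 1 ∧ v 1 ≤ 1) with hPA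
  set PB : E → Prop := fun v => (m ≤ v 0 ∧ v 0 ≤ b + 1) ∧ (-1 ≤ v 1 ∧ v 1 ≤ 1) with hPB
  have hcoord : ∀ {x : ℕ → E} {v : E} (i : Fin 2), Tendsto x UN (𝓝 v) →
      Tendsto (fun n => x n i) UN (𝓝 (v i)) := fun i hx =>
    ((continuous_coord i).tendsto _).comp hx
  have hmkA : ∀ {x : ℕ → E}, Tendsto x UN (𝓝 (mk a 0)) → ∀ᶠ n in (UN : Filter ℕ), PA (x n) := by
    intro x hx
    have h0 := hcoord 0 hx
    have h1 := hcoord 1 hx
    rw [mk_zero] at h0
    rw [mk_one] at h1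
    filter_upwards [h0.eventually (lt_mem_nhds (by linarith : a - 1 < a)),
      h0.eventually (gt_mem_nhds (by rw [hm]; linarith : a < m)),
      h1.eventually (lt_mem_nhds (by norm_num : (-1 : ℝ) < 0)),
      h1.eventually (gt_mem_nhds (by norm_num : (0 : ℝ) < 1))] with n c1 c2 c3 c4
    exact ⟨⟨c1.le, c2.le⟩, ⟨c3.le, c4.le⟩⟩
  have hmkB : ∀ {x : ℕ → E}, Tendsto x UN (𝓝 (mk b 0)) → ∀ᶠ n in (UN : Filter ℕ), PB (x n) := by
    intro x hx
    have h0 := hcoord 0 hx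
    have h1 := hcoord 1 hx
    rw [mk_zero] at h0
    rw [mk_one] at h1
    filter_upwards [h0.eventually (lt_mem_nhds (by rw [hm]; linarith : m < b)),
      h0.eventually (gt_mem_nhds (by linarith : b < b + 1)),
      h1.eventually (lt_mem_nhds (by norm_num : (-1 : ℝ) < 0)),
      h1.eventually (gt_mem_nhds (by norm_num : (0 : ℝ) < 1))] with n c1 c2 c3 c4
    exact ⟨⟨c1.le, c2.le⟩, ⟨c3.le, c4.le⟩⟩
  obtain ⟨p, hp⟩ := exists_argmax X PA (lf 1 Λ) hxaX (hmkA hxa)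
  obtain ⟨q, hq⟩ := exists_argmax X PB (lf (-1) Λ) hxbX (hmkB hxb)
  set B : ℝ := |a| + |b| + 2 with hB
  have hnorm : ∀ v : E, a - 1 ≤ v 0 → v 0 ≤ b + 1 → -1 ≤ v 1 → v 1 ≤ 1 → ‖v‖ ≤ B := by
    intro v h1 h2 h3 h4
    have h5 := dist_le_abs v 0
    rw [dist_zero_right] at h5
    have h6 : |v 0 - (0 : E) 0| ≤ |a| + |b| + 1 := by
      simp only [PiLp.zero_apply, sub_zero]
      rw [abs_le]
      constructor
      · linarith [neg_abs_le a, abs_nonneg b]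
      · linarith [le_abs_self b, abs_nonneg a]
    have h7 : |v 1 - (0 : E) 1| ≤ 1 := by
      simp only [PiLp.zero_apply, sub_zero]
      rw [abs_le]
      exact ⟨h3, h4⟩
    rw [hB]; linarith
  have hpB : ∀ᶠ n in (UN : Filter ℕ), ‖p n‖ ≤ B := by
    filter_upwards [hp] with n hn
    obtain ⟨⟨-, ⟨h1, h2⟩, h3, h4⟩, -⟩ := hn
    exact hnorm _ h1 (by rw [hm] at h2; linarith) h3 h4
  have hqB : ∀ᶠ n in (UN : Filter ℕ), ‖q n‖ ≤ B := by
    filter_upwards [hq] with n hn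
    obtain ⟨⟨-, ⟨h1, h2⟩, h3, h4⟩, -⟩ := hn
    exact hnorm _ (by rw [hm] at h1; linarith) h2 h3 h4
  obtain ⟨p', hp'T, hp'⟩ := h.exists_lim (hp.mono fun n hn => hn.1.1) hpB
  obtain ⟨q', hq'T, hq'⟩ := h.exists_lim (hq.mono fun n hn => hn.1.1) hqB
  have hlfA : Tendsto (fun n => lf 1 Λ (p n)) UN (𝓝 (lf 1 Λ p')) :=
    ((continuous_lf 1 Λ).tendsto _).comp hp'
  have hlfB : Tendsto (fun n => lf (-1) Λ (q n)) UN (𝓝 (lf (-1) Λ q')) :=
    ((continuous_lf (-1) Λ).tendsto _).comp hq'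
  have hp'e : p' = mk a 0 := by
    have h1 : p' 1 = 0 := hax _ hp'T
    have h2 : p' 0 ≤ m := le_of_tendsto (hcoord 0 hp') (hp.mono fun n hn => hn.1.2.1.2)
    have h3 : lf 1 Λ (mk a 0) ≤ lf 1 Λ p' := by
      refine le_of_tendsto_of_tendsto (((continuous_lf 1 Λ).tendsto _).comp hxa) hlfA ?_
      filter_upwards [hp, hxaX, hmkA hxa] with n c1 c2 c3
      exact c1.2 _ c2 c3
    simp only [lf, mk_zero, mk_one, h1] at h3
    have h4 : p' 0 = a := by
      rcases hgap p' hp'T (by linarith) (by rw [hm] at h2; linarith) with h | h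
      · exact h
      · rw [hm] at h2; linarith
    exact ext2 (by rw [h4, mk_zero]) (by rw [h1, mk_one])
  have hq'e : q' = mk b 0 := by
    have h1 : q' 1 = 0 := hax _ hq'T
    have h2 : m ≤ q' 0 := ge_of_tendsto (hcoord 0 hq') (hq.mono fun n hn => hn.1.2.1.1)
    have h3 : lf (-1) Λ (mk b 0) ≤ lf (-1) Λ q' := by
      refine le_of_tendsto_of_tendsto (((continuous_lf (-1) Λ).tendsto _).comp hxb) hlfB ?_
      filter_upwards [hq, hxbX, hmkB hxb] with n c1 c2 c3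
      exact c1.2 _ c2 c3
    simp only [lf, mk_zero, mk_one, h1] at h3
    have h4 : q' 0 = b := by
      rcases hgap q' hq'T (by rw [hm] at h2; linarith) (by linarith) with h | h
      · rw [hm] at h2; linarith
      · exact h
    exact ext2 (by rw [h4, mk_zero]) (by rw [h1, mk_one])
  rw [hp'e] at hp'
  rw [hq'e] at hq'
  have hp0 := hcoord 0 hp'
  have hp1 := hcoord 1 hp'
  have hq0 := hcoord 0 hq'
  have hq1 := hcoord 1 hq'
  rw [mk_zero] at hp0 hq0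
  rw [mk_one] at hp1 hq1
  have hpq : ∀ᶠ n in (UN : Filter ℕ), p n ≠ q n := by
    filter_upwards [hp0.eventually (gt_mem_nhds (by rw [hm]; linarith : a < m)),
      hq0.eventually (lt_mem_nhds (by rw [hm]; linarith : m < b))] with n h1 h2 h3
    rw [h3] at h1
    linarith
  have hFpq : ∀ᶠ n in (UN : Filter ℕ), lf 1 Λ (p n) < lf 1 Λ (q n) := by
    have h1 : Tendsto (fun n => lf 1 Λ (p n)) UN (𝓝 a) := by
      have := tendsto_lf (c0 := 1) (c1 := Λ) hp'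
      rwa [lf_mk_axis, one_mul] at this
    have h2 : Tendsto (fun n => lf 1 Λ (q n)) UN (𝓝 b) := by
      have := tendsto_lf (c0 := 1) (c1 := Λ) hq'
      rwa [lf_mk_axis, one_mul] at this
    exact h1.eventually_lt h2 hab
  have hGpq : ∀ᶠ n in (UN : Filter ℕ), lf (-1) Λ (q n) < lf (-1) Λ (p n) := by
    have h1 : Tendsto (fun n => lf (-1) Λ (p n)) UN (𝓝 (-a)) := by
      have := tendsto_lf (c0 := -1) (c1 := Λ) hp'
      rwa [lf_mk_axis, neg_one_mul] at this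
    have h2 : Tendsto (fun n => lf (-1) Λ (q n)) UN (𝓝 (-b)) := by
      have := tendsto_lf (c0 := -1) (c1 := Λ) hq'
      rwa [lf_mk_axis, neg_one_mul] at this
    exact h2.eventually_lt h1 (by linarith)
  -- far points have large values
  have hfar : ∀ c0 : ℝ, ∀ φ ∈ Ψ, 0 < lf c0 Λ φ → Tendsto (fun n => lf c0 Λ (f φ n)) UN atTop := by
    intro c0 φ hφ hpos
    have h1 : Tendsto (fun n => lf c0 Λ ((τ φ n)⁻¹ • f φ n)) UN (𝓝 (lf c0 Λ φ)) :=
      ((continuous_lf c0 Λ).tendsto _).comp (hf φ (hΨ hφ))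
    have h2 := (hτ φ (hΨ hφ)).atTop_mul_pos hpos h1
    refine h2.congr fun n => ?_
    rw [lf_smul, ← mul_assoc, mul_inv_cancel₀ (hτ0 φ (hΨ hφ) n).ne', one_mul]
  have hFφ : ∀ φ ∈ Ψ, 0 < lf 1 Λ φ := by
    intro φ hφ
    have := mul_pos (by linarith : 0 < Λ) (hΨ1 φ hφ)
    simp only [lf]
    linarith [hΨ0 φ hφ]
  have hGφ : ∀ φ ∈ Ψ, 0 < lf (-1) Λ φ := by
    intro φ hφ
    simp only [lf]
    linarith [hΛφ φ hφ]
  have hFp : ∀ φ ∈ Ψ, ∀ᶠ n in (UN : Filter ℕ), lf 1 Λ (p n) < lf 1 Λ (f φ n) := by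
    intro φ hφ
    have h1 := (((continuous_lf 1 Λ).tendsto _).comp hp').eventually
      (gt_mem_nhds (by linarith : lf 1 Λ (mk a 0) < lf 1 Λ (mk a 0) + 1))
    filter_upwards [h1, (hfar 1 φ hφ (hFφ φ hφ)).eventually_ge_atTop (lf 1 Λ (mk a 0) + 1)]
      with n c1 c2
    exact lt_of_lt_of_le c1 c2
  have hGq : ∀ φ ∈ Ψ, ∀ᶠ n in (UN : Filter ℕ), lf (-1) Λ (q n) < lf (-1) Λ (f φ n) := by
    intro φ hφ
    have h1 := (((continuous_lf (-1) Λ).tendsto _).comp hq').eventually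
      (gt_mem_nhds (by linarith : lf (-1) Λ (mk b 0) < lf (-1) Λ (mk b 0) + 1))
    filter_upwards [h1, (hfar (-1) φ hφ (hGφ φ hφ)).eventually_ge_atTop
      (lf (-1) Λ (mk b 0) + 1)] with n c1 c2
    exact lt_of_lt_of_le c1 c2
  -- partners
  have hpart : ∀ φ : E, ∃ w : ℕ → E, φ ∈ Ψ → ∀ᶠ n in (UN : Filter ℕ),
      w n ∈ Deg (X n) (p n) (q n) ∧ w n ∈ convexHull ℝ ({p n, q n, f φ n} : Set E) := by
    intro φ
    by_cases hφ : φ ∈ Ψ
    · obtain ⟨w, hw⟩ := exists_partners h.kset (hp.mono fun n hn => hn.1.1)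
        (hq.mono fun n hn => hn.1.1)
        (Filter.Eventually.of_forall fun n => hfX φ (hΨ hφ) n) hpq
        (by
          filter_upwards [hFp φ hφ] with n hn h0
          rw [h0] at hn
          exact lt_irrefl _ hn)
        (by
          filter_upwards [hGq φ hφ] with n hn h0
          rw [h0] at hn
          exact lt_irrefl _ hn)
      exact ⟨w, fun _ => hw⟩
    · exact ⟨fun _ => 0, fun h => absurd h hφ⟩
  choose w hw using hpart
  refine no_escape hΦ h.kset hΨ hΨcard (fun φ hφ => hτ0 φ (hΨ hφ)) (fun φ hφ => hτ φ (hΨ hφ))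
    (fun φ hφ => hf φ (hΨ hφ)) (hp.mono fun n hn => hn.1.1) (hq.mono fun n hn => hn.1.1) hpq
    hpB hqB (w := w) hw ?_
  intro φ hφ R
  by_contra hcon
  rw [← Ultrafilter.eventually_not] at hcon
  have hwB : ∀ᶠ n in (UN : Filter ℕ), ‖w φ n‖ ≤ R := hcon.mono fun n hn => (not_le.1 hn).le
  obtain ⟨w', hw'T, hw'⟩ := h.exists_lim ((hw φ hφ).mono fun n hn => hn.1.1) hwB
  have hw1 : w' 1 = 0 := hax _ hw'T
  -- coefficients
  have hco : ∀ n, ∃ α β γ : ℝ, w φ n ∈ convexHull ℝ ({p n, q n, f φ n} : Set E) →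
      (0 ≤ α ∧ 0 ≤ β ∧ 0 ≤ γ ∧ α + β + γ = 1 ∧ w φ n = α • p n + β • q n + γ • f φ n) := by
    intro n
    by_cases hc : w φ n ∈ convexHull ℝ ({p n, q n, f φ n} : Set E)
    · obtain ⟨α, β, γ, h1⟩ := mem_triangle hc
      exact ⟨α, β, γ, fun _ => h1⟩
    · exact ⟨0, 0, 0, fun h => absurd h hc⟩
  choose α β γ hco using hco
  have hco' := (hw φ hφ).mono fun n hn => hco n hn.2
  have hφ1 := hΨ1 φ hφ
  have hu := hf φ (hΨ hφ)
  -- `γ τ → 0`
  have hw1' := hcoord 1 hw'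
  rw [hw1] at hw1'
  have hγτ : Tendsto (fun n => γ n * τ φ n) UN (𝓝 0) := by
    have hub : Tendsto (fun n => 2 / φ 1 * (|w φ n 1| + |p n 1| + |q n 1|)) UN (𝓝 0) := by
      have := ((hw1'.abs.add hp1.abs).add hq1.abs).const_mul (2 / φ 1)
      simpa using this
    refine squeeze_zero' ?_ ?_ hub
    · filter_upwards [hco'] with n hn
      exact mul_nonneg hn.2.2.1 (hτ0 φ (hΨ hφ) n).le
    · have h1 := (hcoord 1 hu).eventually (lt_mem_nhds (by linarith : φ 1 / 2 < φ 1))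
      filter_upwards [hco', h1] with n hn h2
      obtain ⟨c1, c2, c3, c4, c5⟩ := hn
      have hτn := hτ0 φ (hΨ hφ) n
      simp only [PiLp.smul_apply, smul_eq_mul] at h2
      rw [inv_mul_eq_div, lt_div_iff₀ hτn] at h2
      have e : w φ n 1 = α n * p n 1 + β n * q n 1 + γ n * f φ n 1 := by
        conv_lhs => rw [c5]
        simp only [PiLp.add_apply, PiLp.smul_apply, smul_eq_mul]
      have h3 : γ n * f φ n 1 ≤ |w φ n 1| + |p n 1| + |q n 1| := by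
        have g1 : -(α n * p n 1) ≤ |p n 1| := by
          have : |α n * p n 1| ≤ |p n 1| := by
            rw [abs_mul, abs_of_nonneg c1]
            exact mul_le_of_le_one_left (abs_nonneg _) (by linarith)
          linarith [neg_abs_le (α n * p n 1)]
        have g2 : -(β n * q n 1) ≤ |q n 1| := by
          have : |β n * q n 1| ≤ |q n 1| := by
            rw [abs_mul, abs_of_nonneg c2]
            exact mul_le_of_le_one_left (abs_nonneg _) (by linarith)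
          linarith [neg_abs_le (β n * q n 1)]
        linarith [le_abs_self (w φ n 1)]
      have h4 : γ n * (φ 1 / 2 * τ φ n) ≤ γ n * f φ n 1 := mul_le_mul_of_nonneg_left h2.le c3
      rw [div_mul_eq_mul_div, le_div_iff₀ hφ1]
      linarith
  have hγf : Tendsto (fun n => γ n * f φ n 0) UN (𝓝 0) := by
    have h1 := hγτ.mul (hcoord 0 hu)
    rw [zero_mul] at h1
    refine h1.congr fun n => ?_
    simp only [PiLp.smul_apply, smul_eq_mul]
    field_simp [(hτ0 φ (hΨ hφ) n).ne']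
  have hγ0 : Tendsto γ UN (𝓝 0) := by
    refine squeeze_zero' (hco'.mono fun n hn => hn.2.2.1) ?_ hγτ
    filter_upwards [hco', (hτ φ (hΨ hφ)).eventually_ge_atTop 1] with n hn h1
    have := hn.2.2.1
    nlinarith
  have hw0 := hcoord 0 hw'
  have hlow : a ≤ w' 0 := by
    have hlim : Tendsto (fun n => a + (-|p n 0 - a| - |q n 0 - b| + γ n * f φ n 0 - γ n * a)) UN
        (𝓝 (a + (-|a - a| - |b - b| + 0 - 0 * a))) :=
      (((((hp0.sub_const a).abs.neg).sub ((hq0.sub_const b).abs)).add hγf).sub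
        (hγ0.mul_const a)).const_add a
    have hlim' : a + (-|a - a| - |b - b| + 0 - 0 * a) = a := by simp
    rw [hlim'] at hlim
    refine le_of_tendsto_of_tendsto hlim hw0 ?_
    filter_upwards [hco'] with n hn
    obtain ⟨c1, c2, c3, c4, c5⟩ := hn
    have e : w φ n 0 = α n * p n 0 + β n * q n 0 + γ n * f φ n 0 := by
      conv_lhs => rw [c5]
      simp only [PiLp.add_apply, PiLp.smul_apply, smul_eq_mul]
    have g1 : -|p n 0 - a| ≤ α n * (p n 0 - a) := by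
      have : |α n * (p n 0 - a)| ≤ |p n 0 - a| := by
        rw [abs_mul, abs_of_nonneg c1]
        exact mul_le_of_le_one_left (abs_nonneg _) (by linarith)
      linarith [neg_abs_le (α n * (p n 0 - a))]
    have g2 : -|q n 0 - b| ≤ β n * (q n 0 - b) := by
      have : |β n * (q n 0 - b)| ≤ |q n 0 - b| := by
        rw [abs_mul, abs_of_nonneg c2]
        exact mul_le_of_le_one_left (abs_nonneg _) (by linarith)
      linarith [neg_abs_le (β n * (q n 0 - b))]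
    have g3 : 0 ≤ β n * (b - a) := mul_nonneg c2 (by linarith)
    have e2 : α n = 1 - β n - γ n := by linarith
    rw [e2] at g1
    rw [e, e2]
    nlinarith
  have hupp : w' 0 ≤ b := by
    have hlim : Tendsto (fun n => b + (|p n 0 - a| + |q n 0 - b| + γ n * f φ n 0 - γ n * b)) UN
        (𝓝 (b + (|a - a| + |b - b| + 0 - 0 * b))) :=
      (((((hp0.sub_const a).abs).add ((hq0.sub_const b).abs)).add hγf).sub
        (hγ0.mul_const b)).const_add b
    have hlim' : b + (|a - a| + |b - b| + 0 - 0 * b) = b := by simp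
    rw [hlim'] at hlim
    refine le_of_tendsto_of_tendsto hw0 hlim ?_
    filter_upwards [hco'] with n hn
    obtain ⟨c1, c2, c3, c4, c5⟩ := hn
    have e : w φ n 0 = α n * p n 0 + β n * q n 0 + γ n * f φ n 0 := by
      conv_lhs => rw [c5]
      simp only [PiLp.add_apply, PiLp.smul_apply, smul_eq_mul]
    have g1 : α n * (p n 0 - a) ≤ |p n 0 - a| := by
      have : |α n * (p n 0 - a)| ≤ |p n 0 - a| := by
        rw [abs_mul, abs_of_nonneg c1]
        exact mul_le_of_le_one_left (abs_nonneg _) (by linarith)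
      linarith [le_abs_self (α n * (p n 0 - a))]
    have g2 : β n * (q n 0 - b) ≤ |q n 0 - b| := by
      have : |β n * (q n 0 - b)| ≤ |q n 0 - b| := by
        rw [abs_mul, abs_of_nonneg c2]
        exact mul_le_of_le_one_left (abs_nonneg _) (by linarith)
      linarith [le_abs_self (β n * (q n 0 - b))]
    have g3 : 0 ≤ α n * (b - a) := mul_nonneg c1 (by linarith)
    have e2 : β n = 1 - α n - γ n := by linarith
    rw [e2] at g2
    rw [e, e2]
    nlinarith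
  rcases hgap w' hw'T hlow hupp with h0 | h0
  · have hwe : w' = mk a 0 := ext2 (by rw [h0, mk_zero]) (by rw [hw1, mk_one])
    rw [hwe] at hw'
    obtain ⟨n, ⟨⟨⟨⟨c1, c2⟩, c3⟩, c4⟩, c5⟩⟩ := (((((hw φ hφ).and hp).and hFpq).and
      (hFp φ hφ)).and (hmkA hw')).exists
    have h1 := lf_lt c1.2 c1.1.2.1 c3 c4
    have h2 := c2.2 _ c1.1.1 c5
    linarith
  · have hwe : w' = mk b 0 := ext2 (by rw [h0, mk_zero]) (by rw [hw1, mk_one])
    rw [hwe] at hw'
    obtain ⟨n, ⟨⟨⟨⟨c1, c2⟩, c3⟩, c4⟩, c5⟩⟩ := (((((hw φ hφ).and hq).and hGpq).and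
      (hGq φ hφ)).and (hmkB hw')).exists
    have hc : w φ n ∈ convexHull ℝ ({q n, p n, f φ n} : Set E) := by
      have := c1.2
      rwa [Set.insert_comm] at this
    have h1 := lf_lt hc c1.1.2.2.1 c3 c4
    have h2 := c2.2 _ c1.1.1 c5
    linarith

/-- No limit set contained in the axis has two points. -/
theorem no_axis_set {Φ : Finset E} (hΦ : Dirs Φ) {K : ℕ} (hcard : 4 * K + 5 ≤ Φ.card)
    (hstd : Std K Φ) {T : Set E} (hT : Lim K Φ T) (hax : ∀ v ∈ T, v 1 = 0) {v w : E} (hv : v ∈ T)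
    (hw : w ∈ T) (hvw : v 0 < w 0) : False := by
  obtain ⟨X, hX⟩ := hT.seq
  have hcont : Continuous (fun x : ℝ => mk x 0) := by
    have : LipschitzWith 1 (fun x : ℝ => mk x 0) := by
      apply LipschitzWith.of_dist_le_mul
      intro x y
      rw [NNReal.coe_one, one_mul]
      refine (dist_le_abs _ _).trans ?_
      simp [Real.dist_eq]
    exact this.continuous
  set S : Set ℝ := {x | mk x 0 ∈ T} with hS
  have hScl : IsClosed S := hT.1.preimage hcont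
  have hmem : ∀ u ∈ T, u 0 ∈ S := by
    intro u hu
    have : u = mk (u 0) 0 := ext2 (by rw [mk_zero]) (by rw [mk_one, hax u hu])
    show mk (u 0) 0 ∈ T
    rwa [← this]
  have hsub : Set.Icc (v 0) (w 0) ⊆ (fun u : E => u 0) '' T := by
    intro c hc
    by_contra hno
    have hcS : c ∉ S := fun h => hno ⟨mk c 0, h, by simp⟩
    obtain ⟨a, ⟨haS, ha1, ha2⟩, ha3⟩ := ((isCompact_Icc (a := v 0) (b := c)).inter_left
      hScl).exists_isGreatest ⟨v 0, hmem v hv, le_rfl, hc.1⟩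
    obtain ⟨b, ⟨hbS, hb1, hb2⟩, hb3⟩ := ((isCompact_Icc (a := c) (b := w 0)).inter_left
      hScl).exists_isLeast ⟨w 0, hmem w hw, hc.2, le_rfl⟩
    have hac : a < c := lt_of_le_of_ne ha2 (fun h => hcS (h ▸ haS))
    have hcb : c < b := lt_of_le_of_ne hb1 (fun h => hcS (h ▸ hbS))
    refine no_gap_axis hΦ hstd hX hax (hac.trans hcb) haS hbS ?_
    intro u hu h1 h2
    have huS := hmem u hu
    rcases le_or_gt (u 0) c with h3 | h3
    · left
      exact le_antisymm (ha3 ⟨huS, by linarith, h3⟩) h1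
    · right
      exact le_antisymm h2 (hb3 ⟨huS, h3.le, by linarith⟩)
  have hnull := hT.null_image hΦ hcard (lipschitz_coord 0)
  have h1 := measure_mono_null hsub hnull
  rw [Real.volume_Icc, ENNReal.ofReal_eq_zero] at h1
  linarith

end Pool.Agent.Lib.MP_8bcb9d_co
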