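import Mathlib
import Pool.Agent.Lib.MP_8bcb9d_co.PS10

/-!
# The directions of a limit set have no gaps
-/

set_option autoImplicit false

namespace Pool.Agent.Lib.MP_8bcb9d_co

open Filter Topology MeasureTheory Metric
open scoped ENNReal NNReal

theorem abs_coord_le (i : Fin 2) (v : E) : |v i| ≤ ‖v‖ := by
  have h := (lipschitz_coord i).dist_le_mul v 0
  rw [NNReal.coe_one, one_mul, Real.dist_eq, dist_zero_right] at h
  simpa using h

/-- Slopes of points of limit sets form a null set. -/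
theorem Lim.null_slope {Φ : Finset E} (hΦ : Dirs Φ) {K : ℕ} (hcard : 4 * K + 5 ≤ Φ.card)
    {T : Set E} (hT : Lim K Φ T) (i j : Fin 2) :
    volume ((fun v : E => v i / v j) '' (T ∩ {v | 0 < v j})) = 0 := by
  set N : ℕ → Set E := fun n => {v : E | 1 / ((n : ℝ) + 1) ≤ v j ∧ ‖v‖ ≤ n} with hN
  have hcov : (fun v : E => v i / v j) '' (T ∩ {v | 0 < v j}) ⊆
      ⋃ n : ℕ, (fun v : E => v i / v j) '' (T ∩ N n) := by
    rintro - ⟨v, ⟨hv, hvj⟩, rfl⟩
    have hvj' : 0 < v j := hvj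
    obtain ⟨n, hn⟩ := exists_nat_ge (max ‖v‖ (1 / v j))
    refine Set.mem_iUnion.2 ⟨n, v, ⟨hv, ?_, (le_max_left _ _).trans hn⟩, rfl⟩
    rw [div_le_iff₀ (by positivity)]
    have h1 : 1 / v j ≤ n := (le_max_right _ _).trans hn
    rw [div_le_iff₀ hvj'] at h1
    nlinarith
  refine measure_mono_null hcov (measure_iUnion_null fun n => ?_)
  have hn0 : (0 : ℝ) ≤ n := Nat.cast_nonneg n
  have hn1 : (0 : ℝ) < (n : ℝ) + 1 := by positivity
  have hC : (0 : ℝ) ≤ 2 * n * ((n : ℝ) + 1) ^ 2 := by positivity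
  have hlip : LipschitzOnWith ⟨2 * n * ((n : ℝ) + 1) ^ 2, hC⟩ (fun v : E => v i / v j)
      (T ∩ N n) := by
    apply LipschitzOnWith.of_dist_le_mul
    rintro v ⟨-, hv1, hv2⟩ w ⟨-, hw1, hw2⟩
    have hv0 : 0 < v j := lt_of_lt_of_le (by positivity) hv1
    have hw0 : 0 < w j := lt_of_lt_of_le (by positivity) hw1
    rw [div_le_iff₀ hn1] at hv1 hw1
    have h1 := (lipschitz_coord i).dist_le_mul v w
    have h2 := (lipschitz_coord j).dist_le_mul v w
    rw [NNReal.coe_one, one_mul, Real.dist_eq] at h1 h2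
    have h3 := (abs_coord_le i v).trans hv2
    have h4 := (abs_coord_le j v).trans hv2
    have e : v i / v j - w i / w j = (v i * (w j - v j) + v j * (v i - w i)) / (v j * w j) := by
      field_simp
      ring
    have hd : 0 ≤ dist v w := dist_nonneg
    show dist (v i / v j) (w i / w j) ≤ 2 * n * ((n : ℝ) + 1) ^ 2 * dist v w
    rw [Real.dist_eq, e, abs_div, abs_of_pos (mul_pos hv0 hw0), div_le_iff₀ (mul_pos hv0 hw0)]
    have h5 : |v i * (w j - v j) + v j * (v i - w i)| ≤ 2 * n * dist v w := by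
      calc |v i * (w j - v j) + v j * (v i - w i)| ≤ |v i * (w j - v j)| + |v j * (v i - w i)| :=
            abs_add_le _ _
        _ = |v i| * |v j - w j| + |v j| * |v i - w i| := by
            rw [abs_mul, abs_mul, abs_sub_comm (w j)]
        _ ≤ n * dist v w + n * dist v w :=
            add_le_add (mul_le_mul h3 h2 (abs_nonneg _) hn0) (mul_le_mul h4 h1 (abs_nonneg _) hn0)
        _ = _ := by ring
    have h6 : 1 ≤ ((n : ℝ) + 1) ^ 2 * (v j * w j) := by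
      have : 1 * 1 ≤ (v j * ((n : ℝ) + 1)) * (w j * ((n : ℝ) + 1)) :=
        mul_le_mul hv1 hw1 (by norm_num) (by positivity)
      calc (1 : ℝ) = 1 * 1 := by norm_num
        _ ≤ _ := this
        _ = _ := by ring
    have h7 : 0 ≤ 2 * n * dist v w := by positivity
    calc |v i * (w j - v j) + v j * (v i - w i)| ≤ 2 * n * dist v w := h5
      _ = 2 * n * dist v w * 1 := (mul_one _).symm
      _ ≤ 2 * n * dist v w * (((n : ℝ) + 1) ^ 2 * (v j * w j)) := mul_le_mul_of_nonneg_left h6 h7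
      _ = _ := by ring
  have h1 := hlip.hausdorffMeasure_image_le (d := 1) zero_le_one
  have h2 : μH[1] (T ∩ N n) = 0 := measure_mono_null Set.inter_subset_left (hT.null hΦ hcard)
  rw [h2, mul_zero, hausdorffMeasure_real] at h1
  exact le_antisymm h1 zero_le

/-- infinitely many partners with different limits -/
theorem seq_contra_unbounded {K : ℕ} {X : ℕ → Finset E} (hX : ∀ n, KSet K (X n)) {p q : ℕ → E}
    (hp : ∀ᶠ n in (UN : Filter ℕ), p n ∈ X n) (hq : ∀ᶠ n in (UN : Filter ℕ), q n ∈ X n)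
    (hpq : ∀ᶠ n in (UN : Filter ℕ), p n ≠ q n)
    (h : ∀ R : ℝ, ∃ (w : ℕ → E) (w' : E), Tendsto w UN (𝓝 w') ∧ R ≤ w' 0 ∧
      ∀ᶠ n in (UN : Filter ℕ), w n ∈ Deg (X n) (p n) (q n)) : False := by
  choose W W' h1 h2 h3 using h
  let r : ℕ → ℝ := fun n => Nat.rec (0 : ℝ) (fun _ x => W' x 0 + 1) n
  have hr : ∀ n, r (n + 1) = W' (r n) 0 + 1 := fun n => rfl
  have hmono : StrictMono fun n => W' (r n) 0 := by
    apply strictMono_nat_of_lt_succ
    intro n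
    have := h2 (r (n + 1))
    rw [hr n] at this ⊢
    linarith
  refine seq_contra hX hp hq hpq (w := fun i : Fin (K + 1) => W (r i)) (fun i => h3 _) ?_
  intro i j hij
  have hne : W' (r i) ≠ W' (r j) := by
    intro h
    have h4 : (fun n : ℕ => W' (r n) 0) i = (fun n : ℕ => W' (r n) 0) j := by
      simp only
      rw [h]
    exact hij (Fin.ext (hmono.injective h4))
  obtain ⟨U, V, hU, hV, hWU, hWV, hdis⟩ := t2_separation hne
  filter_upwards [(h1 (r i)).eventually (hU.mem_nhds hWU), (h1 (r j)).eventually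
    (hV.mem_nhds hWV)] with n a b heq
  rw [heq] at a
  exact Set.disjoint_left.1 hdis a b

/-- far points near the horizontal axis -/
theorem DirInf.axis {T : Set E} (h : mk 1 0 ∈ DirInf T) {ε : ℝ} (hε : 0 < ε) (R : ℝ) :
    ∃ z ∈ T, R ≤ z 0 ∧ 0 < z 0 ∧ |z 1| ≤ ε * z 0 := by
  obtain ⟨z, hz, hzR, s, hs, hd⟩ := h.2 (min (1 / 2) (ε / 2)) (by positivity) (2 * (|R| + 1))
  have h0 := (abs_sub_zero_le (s • z) (mk 1 0)).trans hd.le
  have h1 := (abs_sub_one_le (s • z) (mk 1 0)).trans hd.le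
  simp only [PiLp.smul_apply, smul_eq_mul, mk_zero, mk_one, sub_zero] at h0 h1
  have h2 := abs_le.1 (h0.trans (min_le_left _ _))
  have hz0 : 0 < z 0 := by
    by_contra hcon
    push Not at hcon
    have : s * z 0 ≤ 0 := mul_nonpos_of_nonneg_of_nonpos hs.le hcon
    linarith [h2.1]
  rw [abs_mul, abs_of_pos hs] at h1
  have h3 : s * |z 1| ≤ s * (ε * z 0) := by
    have h4 : s * |z 1| ≤ ε / 2 := h1.trans (min_le_right _ _)
    have h5 : ε * (1 / 2) ≤ ε * (s * z 0) := mul_le_mul_of_nonneg_left (by linarith [h2.1]) hε.le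
    nlinarith
  have h4 : s * |z 1| ≤ s * z 0 := by
    have h5 : s * |z 1| ≤ 1 / 2 := h1.trans (min_le_left _ _)
    linarith [h2.1]
  have h5 : |z 1| ≤ z 0 := le_of_mul_le_mul_left h4 hs
  refine ⟨z, hz, ?_, hz0, le_of_mul_le_mul_left h3 hs⟩
  have h6 := dist_le_abs z 0
  rw [dist_zero_right] at h6
  simp only [PiLp.zero_apply, sub_zero] at h6
  rw [abs_of_pos hz0] at h6
  linarith [le_abs_self R]

/-- points near the vertical axis -/
theorem dir_vert {z : E} {s ε : ℝ} (hs : 0 < s) (hε : 0 < ε) (hε1 : ε ≤ 1 / 2)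
    (hd : dist (s • z) (mk 0 1) < ε) : 0 < z 1 ∧ |z 0| ≤ 2 * ε * z 1 := by
  have h0 := (abs_sub_zero_le (s • z) (mk 0 1)).trans hd.le
  have h1 := (abs_sub_one_le (s • z) (mk 0 1)).trans hd.le
  simp only [PiLp.smul_apply, smul_eq_mul, mk_zero, mk_one, sub_zero] at h0 h1
  have h2 := abs_le.1 h1
  have hz0 : 0 < z 1 := by
    by_contra hcon
    push Not at hcon
    have : s * z 1 ≤ 0 := mul_nonpos_of_nonneg_of_nonpos hs.le hcon
    linarith [h2.1]
  refine ⟨hz0, ?_⟩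
  rw [abs_mul, abs_of_pos hs] at h0
  have h3 : s * |z 0| ≤ s * (2 * ε * z 1) := by
    have h5 : 2 * ε * (1 / 2) ≤ 2 * ε * (s * z 1) :=
      mul_le_mul_of_nonneg_left (by linarith [h2.1]) (by linarith)
    nlinarith
  exact le_of_mul_le_mul_left h3 hs

/-- **No gaps between directions.** -/
theorem no_quadrant_dir {Φ : Finset E} (hΦ : Dirs Φ) {K : ℕ} (hcard : 4 * K + 5 ≤ Φ.card)
    {T : Set E} {X : ℕ → Finset E} (h : SeqTo K Φ T X)
    (hfree : ∀ v ∈ T, 0 < v 0 → 0 < v 1 → False) (h1 : mk 1 0 ∈ DirInf T)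
    (h2 : mk 0 1 ∈ DirInf T) (h3 : mk 0 1 ∈ DirZero T) : False := by
  classical
  have hT := h.lim'
  -- a ray without points
  obtain ⟨a, ha0, hray⟩ : ∃ a : ℝ, 0 < a ∧ ∀ v ∈ T, 0 < v 1 → v 0 ≠ -a * v 1 := by
    have hnull := hT.null_slope hΦ hcard 0 1
    by_contra hcon
    push Not at hcon
    have hsub : Set.Icc (-2 : ℝ) (-1) ⊆ (fun v : E => v 0 / v 1) '' (T ∩ {v | 0 < v 1}) := by
      intro t ht
      obtain ⟨v, hv, hv1, hv0⟩ := hcon (-t) (by linarith [ht.2])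
      refine ⟨v, ⟨hv, hv1⟩, ?_⟩
      simp only
      rw [hv0]
      field_simp
    have := measure_mono_null hsub hnull
    rw [Real.volume_Icc, ENNReal.ofReal_eq_zero] at this
    norm_num at this
  -- the region
  set S : Set ℝ := {y | ∃ v ∈ T, v 1 = y ∧ -a * v 1 ≤ v 0 ∧ v 0 ≤ 0} with hS
  -- compactness
  have hcomp : ∀ c d : ℝ, 0 ≤ c → IsCompact (S ∩ Set.Icc c d) := by
    intro c d hc
    set Z : Set E := {v | v ∈ T ∧ (-a * v 1 ≤ v 0 ∧ v 0 ≤ 0) ∧ (c ≤ v 1 ∧ v 1 ≤ d)} with hZ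
    have hZcl : IsClosed Z := by
      refine hT.1.inter (IsClosed.inter (IsClosed.inter ?_ ?_) (IsClosed.inter ?_ ?_))
      · exact isClosed_le (continuous_const.mul (continuous_coord 1)) (continuous_coord 0)
      · exact isClosed_le (continuous_coord 0) continuous_const
      · exact isClosed_le continuous_const (continuous_coord 1)
      · exact isClosed_le (continuous_coord 1) continuous_const
    have hZb : Z ⊆ closedBall 0 (a * |d| + |d|) := by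
      rintro v ⟨-, ⟨g1, g2⟩, g3, g4⟩
      rw [mem_closedBall]
      refine (dist_le_abs v 0).trans ?_
      simp only [PiLp.zero_apply, sub_zero]
      have g5 : v 1 ≤ |d| := g4.trans (le_abs_self d)
      have g6 : 0 ≤ v 1 := hc.trans g3
      rw [abs_of_nonpos g2, abs_of_nonneg g6]
      nlinarith
    have hZc : IsCompact Z := (isCompact_closedBall _ _).of_isClosed_subset hZcl hZb
    have e : S ∩ Set.Icc c d = (fun v : E => v 1) '' Z := by
      ext y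
      constructor
      · rintro ⟨⟨v, hv, rfl, g1, g2⟩, g3, g4⟩
        exact ⟨v, ⟨hv, ⟨g1, g2⟩, g3, g4⟩, rfl⟩
      · rintro ⟨v, ⟨hv, ⟨g1, g2⟩, g3, g4⟩, rfl⟩
        exact ⟨⟨v, hv, rfl, g1, g2⟩, g3, g4⟩
    rw [e]
    exact hZc.image (continuous_coord 1)
  -- a height which does not occur
  obtain ⟨c, hc0, hcS⟩ : ∃ c : ℝ, 0 < c ∧ c ∉ S := by
    by_contra hcon
    push Not at hcon
    have hsub : Set.Icc (1 : ℝ) 2 ⊆ (fun v : E => v 1) '' T := by
      intro t ht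
      obtain ⟨v, hv, hv1, -⟩ := hcon t (by linarith [ht.1])
      exact ⟨v, hv, hv1⟩
    have := measure_mono_null hsub (hT.null_image hΦ hcard (lipschitz_coord 1))
    rw [Real.volume_Icc, ENNReal.ofReal_eq_zero] at this
    norm_num at this
  -- points of the region
  have hmemS : ∀ v ∈ T, 0 < v 1 → -a * v 1 ≤ v 0 → v 1 ∈ S := by
    intro v hv g1 g2
    refine ⟨v, hv, rfl, g2, ?_⟩
    by_contra g3
    push Not at g3
    exact hfree v hv g3 g1
  set ε₁ : ℝ := min (1 / 2) (a / 2) with hε₁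
  have hε₁0 : 0 < ε₁ := by positivity
  have hε₁1 : ε₁ ≤ 1 / 2 := min_le_left _ _
  have hε₁2 : 2 * ε₁ ≤ a := by have := min_le_right (1 / 2) (a / 2); linarith
  have hsmall : ∀ r > 0, ∃ y ∈ S, 0 < y ∧ y ≤ r := by
    intro r hr
    obtain ⟨v, hv, hvr, s, hs, hd⟩ := h3.2 ε₁ hε₁0 r hr
    obtain ⟨g1, g2⟩ := dir_vert hs hε₁0 hε₁1 hd
    refine ⟨v 1, hmemS v hv g1 ?_, g1, ?_⟩
    · have g3 := neg_abs_le (v 0)
      nlinarith
    · exact (le_abs_self _).trans ((abs_coord_le 1 v).trans hvr)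
  have hlarge : ∀ R : ℝ, ∃ y ∈ S, R ≤ y := by
    intro R
    obtain ⟨v, hv, hvR, s, hs, hd⟩ := h2.2 ε₁ hε₁0 ((1 + a) * |R|)
    obtain ⟨g1, g2⟩ := dir_vert hs hε₁0 hε₁1 hd
    refine ⟨v 1, hmemS v hv g1 ?_, ?_⟩
    · have g3 := neg_abs_le (v 0)
      nlinarith
    · have h6 := dist_le_abs v 0
      rw [dist_zero_right] at h6
      simp only [PiLp.zero_apply, sub_zero] at h6
      rw [abs_of_pos g1] at h6
      have h7 : (1 + a) * |R| ≤ (1 + a) * v 1 := by nlinarith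
      exact (le_abs_self R).trans (le_of_mul_le_mul_left h7 (by linarith))
  obtain ⟨y₀, hy₀S, hy₀, hy₀c⟩ := hsmall c hc0
  obtain ⟨y₁, ⟨hy₁S, hy₁0, hy₁c⟩, hy₁max⟩ := (hcomp y₀ c hy₀.le).exists_isGreatest
    ⟨y₀, hy₀S, le_rfl, hy₀c⟩
  obtain ⟨y₃, hy₃S, hy₃⟩ := hlarge c
  obtain ⟨y₂, ⟨hy₂S, hy₂c, hy₂u⟩, hy₂min⟩ := (hcomp c y₃ hc0.le).exists_isLeast
    ⟨y₃, hy₃S, hy₃, le_rfl⟩
  have hy₁pos : 0 < y₁ := lt_of_lt_of_le hy₀ hy₁0
  have hy₁c' : y₁ < c := lt_of_le_of_ne hy₁c fun h => hcS (h ▸ hy₁S)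
  have hy₂c' : c < y₂ := lt_of_le_of_ne hy₂c fun h => hcS (h ▸ hy₂S)
  have hbelow : ∀ y ∈ S, y ≤ c → y ≤ y₁ := by
    intro y hy hyc
    rcases le_or_gt y₀ y with g | g
    · exact hy₁max ⟨hy, g, hyc⟩
    · linarith
  have habove : ∀ y ∈ S, c ≤ y → y₂ ≤ y := by
    intro y hy hyc
    rcases le_or_gt y y₃ with g | g
    · exact hy₂min ⟨hy, hyc, g⟩
    · linarith
  obtain ⟨u₁, hu₁T, hu₁y, hu₁a, hu₁0⟩ := hy₁S
  obtain ⟨u₂, hu₂T, hu₂y, hu₂a, hu₂0⟩ := hy₂S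
  -- the functionals
  set Λ : ℝ := 2 * a + 1 + (a + 2) / y₁ + (a * (y₂ + 1) + 1) / (y₂ - y₁) with hΛ
  have hy12 : 0 < y₂ - y₁ := by linarith
  have hΛa : 0 < (a + 2) / y₁ := by positivity
  have hΛb : 0 < (a * (y₂ + 1) + 1) / (y₂ - y₁) := by
    apply div_pos _ hy12
    have : 0 < y₂ := by linarith
    positivity
  have hΛ1 : 2 * a < Λ := by rw [hΛ]; linarith
  have hΛpos : 0 < Λ := by linarith
  have hΛ2 : 1 < (Λ - a) * y₁ := by
    have : (a + 2) / y₁ < Λ - a := by rw [hΛ]; linarith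
    rw [div_lt_iff₀ hy₁pos] at this
    linarith
  have hΛ3 : a * (y₂ + 1) < Λ * (y₂ - y₁) := by
    have : (a * (y₂ + 1) + 1) / (y₂ - y₁) < Λ := by rw [hΛ]; linarith
    rw [div_lt_iff₀ hy12] at this
    linarith
  have hy₂pos : 0 < y₂ := by linarith
  -- the extremal points
  set PA : E → Prop := fun v => (-a * v 1 ≤ v 0 ∧ v 0 ≤ 1) ∧ (0 ≤ v 1 ∧ v 1 ≤ c) with hPA
  set PB : E → Prop := fun v => (-a * v 1 ≤ v 0 ∧ v 0 ≤ 1) ∧ (c ≤ v 1 ∧ v 1 ≤ y₂ + 1) with hPB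
  have hcoord : ∀ {x : ℕ → E} {v : E} (i : Fin 2), Tendsto x UN (𝓝 v) →
      Tendsto (fun n => x n i) UN (𝓝 (v i)) := fun i hx =>
    ((continuous_coord i).tendsto _).comp hx
  obtain ⟨x₁, hx₁X, hx₁⟩ := h.exists_seq hu₁T
  obtain ⟨x₂, hx₂X, hx₂⟩ := h.exists_seq hu₂T
  have hx₁P : ∀ᶠ n in (UN : Filter ℕ), PA (x₁ n) := by
    have g0 := hcoord 0 hx₁
    have g1 := hcoord 1 hx₁
    have g2 : -a * u₁ 1 < u₁ 0 := lt_of_le_of_ne hu₁a
      (hray u₁ hu₁T (by rw [hu₁y]; exact hy₁pos)).symm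
    filter_upwards [(g1.const_mul (-a)).eventually_lt g0 g2,
      g0.eventually (gt_mem_nhds (by linarith : u₁ 0 < 1)),
      g1.eventually (lt_mem_nhds (by rw [hu₁y]; exact hy₁pos : 0 < u₁ 1)),
      g1.eventually (gt_mem_nhds (by rw [hu₁y]; exact hy₁c' : u₁ 1 < c))] with n c1 c2 c3 c4
    exact ⟨⟨c1.le, c2.le⟩, c3.le, c4.le⟩
  have hx₂P : ∀ᶠ n in (UN : Filter ℕ), PB (x₂ n) := by
    have g0 := hcoord 0 hx₂
    have g1 := hcoord 1 hx₂
    have g2 : -a * u₂ 1 < u₂ 0 := lt_of_le_of_ne hu₂a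
      (hray u₂ hu₂T (by rw [hu₂y]; exact hy₂pos)).symm
    filter_upwards [(g1.const_mul (-a)).eventually_lt g0 g2,
      g0.eventually (gt_mem_nhds (by linarith : u₂ 0 < 1)),
      g1.eventually (lt_mem_nhds (by rw [hu₂y]; exact hy₂c' : c < u₂ 1)),
      g1.eventually (gt_mem_nhds (by rw [hu₂y]; linarith : u₂ 1 < y₂ + 1))] with n c1 c2 c3 c4
    exact ⟨⟨c1.le, c2.le⟩, c3.le, c4.le⟩
  obtain ⟨p, hp⟩ := exists_argmax X PA (lf 1 Λ) hx₁X hx₁P
  obtain ⟨q, hq⟩ := exists_argmax X PB (lf 1 (-Λ)) hx₂X hx₂P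
  have hnorm : ∀ v : E, -a * v 1 ≤ v 0 → v 0 ≤ 1 → 0 ≤ v 1 → v 1 ≤ y₂ + 1 →
      ‖v‖ ≤ a * (y₂ + 1) + 1 + (y₂ + 1) := by
    intro v g1 g2 g3 g4
    have g5 := dist_le_abs v 0
    rw [dist_zero_right] at g5
    simp only [PiLp.zero_apply, sub_zero] at g5
    have g6 : |v 0| ≤ a * (y₂ + 1) + 1 := by
      rw [abs_le]
      constructor
      · nlinarith
      · nlinarith
    rw [abs_of_nonneg g3] at g5
    linarith
  have hpB : ∀ᶠ n in (UN : Filter ℕ), ‖p n‖ ≤ a * (y₂ + 1) + 1 + (y₂ + 1) :=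
    hp.mono fun n hn => hnorm _ hn.1.2.1.1 hn.1.2.1.2 hn.1.2.2.1 (by linarith [hn.1.2.2.2])
  have hqB : ∀ᶠ n in (UN : Filter ℕ), ‖q n‖ ≤ a * (y₂ + 1) + 1 + (y₂ + 1) :=
    hq.mono fun n hn => hnorm _ hn.1.2.1.1 hn.1.2.1.2 (by linarith [hn.1.2.2.1]) hn.1.2.2.2
  obtain ⟨p', hp'T, hp'⟩ := h.exists_lim (hp.mono fun n hn => hn.1.1) hpB
  obtain ⟨q', hq'T, hq'⟩ := h.exists_lim (hq.mono fun n hn => hn.1.1) hqB
  have hp0 := hcoord 0 hp'
  have hp1 := hcoord 1 hp'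
  have hq0 := hcoord 0 hq'
  have hq1 := hcoord 1 hq'
  -- position of the limits
  have hp'a : -a * p' 1 ≤ p' 0 := le_of_tendsto_of_tendsto (hp1.const_mul (-a)) hp0
    (hp.mono fun n hn => hn.1.2.1.1)
  have hp'1 : p' 0 ≤ 1 := le_of_tendsto hp0 (hp.mono fun n hn => hn.1.2.1.2)
  have hp'c : p' 1 ≤ c := le_of_tendsto hp1 (hp.mono fun n hn => hn.1.2.2.2)
  have hp'z : 0 ≤ p' 1 := ge_of_tendsto hp1 (hp.mono fun n hn => hn.1.2.2.1)
  have hFp' : (Λ - a) * y₁ ≤ lf 1 Λ p' := by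
    have g1 : lf 1 Λ u₁ ≤ lf 1 Λ p' := by
      refine le_of_tendsto_of_tendsto (tendsto_lf hx₁) (tendsto_lf hp') ?_
      filter_upwards [hp, hx₁X, hx₁P] with n c1 c2 c3
      exact c1.2 _ c2 c3
    refine le_trans ?_ g1
    simp only [lf]
    rw [hu₁y] at hu₁a ⊢
    linarith
  have hp'pos : 0 < p' 1 := by
    rcases hp'z.lt_or_eq with g | g
    · exact g
    · exfalso
      simp only [lf] at hFp'
      rw [← g] at hFp'
      linarith
  have hp'0 : p' 0 ≤ 0 := by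
    by_contra g
    push Not at g
    exact hfree p' hp'T g hp'pos
  have hp'y : p' 1 ≤ y₁ := hbelow _ (hmemS p' hp'T hp'pos hp'a) hp'c
  have hp'low : y₁ / 2 ≤ p' 1 := by
    simp only [lf] at hFp'
    have g1 : (Λ - a) * y₁ ≤ Λ * p' 1 := by linarith
    have g2 : Λ / 2 * y₁ ≤ (Λ - a) * y₁ := mul_le_mul_of_nonneg_right (by linarith) hy₁pos.le
    have g3 : Λ * (y₁ / 2) ≤ Λ * p' 1 := by linarith
    exact le_of_mul_le_mul_left g3 hΛpos
  have hq'a : -a * q' 1 ≤ q' 0 := le_of_tendsto_of_tendsto (hq1.const_mul (-a)) hq0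
    (hq.mono fun n hn => hn.1.2.1.1)
  have hq'c : c ≤ q' 1 := ge_of_tendsto hq1 (hq.mono fun n hn => hn.1.2.2.1)
  have hq'u : q' 1 ≤ y₂ + 1 := le_of_tendsto hq1 (hq.mono fun n hn => hn.1.2.2.2)
  have hq'pos : 0 < q' 1 := by linarith
  have hq'0 : q' 0 ≤ 0 := by
    by_contra g
    push Not at g
    exact hfree q' hq'T g hq'pos
  have hq'y : y₂ ≤ q' 1 := habove _ (hmemS q' hq'T hq'pos hq'a) hq'c
  have hq'low : -a * (y₂ + 1) ≤ q' 0 := by nlinarith
  have hp'low' : -a * (y₂ + 1) ≤ p' 0 := by nlinarith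
  have hΛ4 : Λ * (y₂ - y₁) ≤ Λ * (q' 1 - p' 1) := mul_le_mul_of_nonneg_left (by linarith) hΛpos.le
  have hFlim : lf 1 Λ p' < lf 1 Λ q' := by
    simp only [lf]
    linarith
  have hGlim : lf 1 (-Λ) q' < lf 1 (-Λ) p' := by
    simp only [lf]
    linarith
  have hFpq : ∀ᶠ n in (UN : Filter ℕ), lf 1 Λ (p n) < lf 1 Λ (q n) :=
    (tendsto_lf hp').eventually_lt (tendsto_lf hq') hFlim
  have hGpq : ∀ᶠ n in (UN : Filter ℕ), lf 1 (-Λ) (q n) < lf 1 (-Λ) (p n) :=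
    (tendsto_lf hq').eventually_lt (tendsto_lf hp') hGlim
  have hpq : ∀ᶠ n in (UN : Filter ℕ), p n ≠ q n := by
    filter_upwards [hFpq] with n hn h0
    rw [h0] at hn
    exact lt_irrefl _ hn
  -- partners
  refine seq_contra_unbounded h.kset (hp.mono fun n hn => hn.1.1) (hq.mono fun n hn => hn.1.1)
    hpq ?_
  intro R
  set R₁ : ℝ := |R| + a * (y₂ + 1) + 1 with hR₁
  have hR₁pos : 0 < R₁ := by positivity
  obtain ⟨z, hzT, hzR, hz0, hzε⟩ := DirInf.axis h1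
    (ε := min (1 / (2 * Λ)) (y₁ / (4 * R₁))) (by positivity)
    (2 * R₁ + 2 * (2 + Λ * (y₂ + 2)))
  have hz1 : z 1 ≤ 0 := by
    by_contra g
    push Not at g
    exact hfree z hzT hz0 g
  rw [abs_of_nonpos hz1] at hzε
  have hzε1 : -z 1 ≤ 1 / (2 * Λ) * z 0 :=
    hzε.trans (mul_le_mul_of_nonneg_right (min_le_left _ _) hz0.le)
  have hzε2 : -z 1 ≤ y₁ / (4 * R₁) * z 0 :=
    hzε.trans (mul_le_mul_of_nonneg_right (min_le_right _ _) hz0.le)
  have hzΛ : -(Λ * z 1) ≤ z 0 / 2 := by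
    have := mul_le_mul_of_nonneg_left hzε1 hΛpos.le
    have e : Λ * (1 / (2 * Λ) * z 0) = z 0 / 2 := by field_simp
    rw [e] at this
    linarith
  have hza : 0 < lf 1 a z := by
    simp only [lf]
    have : -(a * z 1) ≤ -(Λ * z 1) := by nlinarith
    linarith
  have hΛy : 0 < Λ * (y₂ + 2) := by positivity
  have hFz : lf 1 Λ p' < lf 1 Λ z := by
    simp only [lf]
    have g1 : Λ * p' 1 ≤ Λ * (y₂ + 2) := mul_le_mul_of_nonneg_left (by linarith) hΛpos.le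
    linarith
  have hGz : lf 1 (-Λ) q' < lf 1 (-Λ) z := by
    simp only [lf]
    have g1 : 0 < Λ * q' 1 := by positivity
    have g2 : Λ * z 1 ≤ 0 := mul_nonpos_of_nonneg_of_nonpos hΛpos.le hz1
    linarith
  obtain ⟨zn, hznX, hzn⟩ := h.exists_seq hzT
  have hFpz : ∀ᶠ n in (UN : Filter ℕ), lf 1 Λ (p n) < lf 1 Λ (zn n) :=
    (tendsto_lf hp').eventually_lt (tendsto_lf hzn) hFz
  have hGqz : ∀ᶠ n in (UN : Filter ℕ), lf 1 (-Λ) (q n) < lf 1 (-Λ) (zn n) :=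
    (tendsto_lf hq').eventually_lt (tendsto_lf hzn) hGz
  have hzna : ∀ᶠ n in (UN : Filter ℕ), 0 < lf 1 a (zn n) :=
    (tendsto_lf hzn).eventually (lt_mem_nhds hza)
  have hzn1 : ∀ᶠ n in (UN : Filter ℕ), zn n 1 < y₂ + 1 :=
    (hcoord 1 hzn).eventually (gt_mem_nhds (by linarith))
  obtain ⟨w, hw⟩ := exists_partners h.kset (hp.mono fun n hn => hn.1.1)
    (hq.mono fun n hn => hn.1.1) hznX hpq
    (by
      filter_upwards [hFpz] with n hn h0
      rw [h0] at hn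
      exact lt_irrefl _ hn)
    (by
      filter_upwards [hGqz] with n hn h0
      rw [h0] at hn
      exact lt_irrefl _ hn)
  -- coefficients
  have hco : ∀ n, ∃ α β γ : ℝ, w n ∈ convexHull ℝ ({p n, q n, zn n} : Set E) →
      (0 ≤ α ∧ 0 ≤ β ∧ 0 ≤ γ ∧ α + β + γ = 1 ∧ w n = α • p n + β • q n + γ • zn n) := by
    intro n
    by_cases hc : w n ∈ convexHull ℝ ({p n, q n, zn n} : Set E)
    · obtain ⟨α, β, γ, h1⟩ := mem_triangle hc
      exact ⟨α, β, γ, fun _ => h1⟩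
    · exact ⟨0, 0, 0, fun h => absurd h hc⟩
  choose α β γ hco using hco
  have hco' := hw.mono fun n hn => hco n hn.2
  obtain ⟨α', hα'⟩ := exists_tendsto_real (R := 1) (x := α) (U := UN) (by
    filter_upwards [hco'] with n hn
    rw [abs_of_nonneg hn.1]; linarith [hn.2.1, hn.2.2.1, hn.2.2.2.1])
  obtain ⟨β', hβ'⟩ := exists_tendsto_real (R := 1) (x := β) (U := UN) (by
    filter_upwards [hco'] with n hn
    rw [abs_of_nonneg hn.2.1]; linarith [hn.1, hn.2.2.1, hn.2.2.2.1])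
  obtain ⟨γ', hγ'⟩ := exists_tendsto_real (R := 1) (x := γ) (U := UN) (by
    filter_upwards [hco'] with n hn
    rw [abs_of_nonneg hn.2.2.1]; linarith [hn.1, hn.2.1, hn.2.2.2.1])
  have hw'lim : Tendsto w UN (𝓝 (α' • p' + β' • q' + γ' • z)) := by
    have := ((hα'.smul hp').add (hβ'.smul hq')).add (hγ'.smul hzn)
    refine this.congr' ?_
    filter_upwards [hco'] with n hn
    exact hn.2.2.2.2.symm
  set w' : E := α' • p' + β' • q' + γ' • z with hw'
  have hα0 : 0 ≤ α' := ge_of_tendsto hα' (hco'.mono fun n hn => hn.1)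
  have hβ0 : 0 ≤ β' := ge_of_tendsto hβ' (hco'.mono fun n hn => hn.2.1)
  have hγ0 : 0 ≤ γ' := ge_of_tendsto hγ' (hco'.mono fun n hn => hn.2.2.1)
  have hsum' : α' + β' + γ' = 1 := by
    have g1 := (hα'.add hβ').add hγ'
    have g2 : Tendsto (fun n => α n + β n + γ n) UN (𝓝 1) :=
      tendsto_const_nhds.congr' (hco'.mono fun n hn => hn.2.2.2.1.symm)
    exact tendsto_nhds_unique g1 g2
  have hw'T : w' ∈ T := h.mem (hw.mono fun n hn => hn.1.1) hw'lim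
  have hw'0 : w' 0 = α' * p' 0 + β' * q' 0 + γ' * z 0 := by
    rw [hw']; simp only [PiLp.add_apply, PiLp.smul_apply, smul_eq_mul]
  have hw'1 : w' 1 = α' * p' 1 + β' * q' 1 + γ' * z 1 := by
    rw [hw']; simp only [PiLp.add_apply, PiLp.smul_apply, smul_eq_mul]
  -- the partner is below the axis
  have hbel : w' 1 ≤ 0 := by
    by_contra hpos
    push Not at hpos
    have hw'neg : w' 0 ≤ 0 := by
      by_contra g
      push Not at g
      exact hfree w' hw'T g hpos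
    have g0 := hcoord 0 hw'lim
    have g1 := hcoord 1 hw'lim
    obtain ⟨n, ⟨⟨⟨⟨⟨⟨⟨⟨⟨c1, c2⟩, c3⟩, c4⟩, c5⟩, c6⟩, c7⟩, c8⟩, c9⟩, c10⟩⟩ :=
      (((((((((hw.and hp).and hq).and hFpq).and hGpq).and hFpz).and hGqz).and hzna).and hzn1).and
        ((g0.eventually (gt_mem_nhds (by linarith : w' 0 < 1))).and
          (g1.eventually (lt_mem_nhds hpos)))).exists
    have d1 := lf_lt c1.2 c1.1.2.1 c4 c6
    have hc : w n ∈ convexHull ℝ ({q n, p n, zn n} : Set E) := by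
      have := c1.2
      rwa [Set.insert_comm] at this
    have d2 := lf_lt hc c1.1.2.2.1 c5 c7
    -- half planes
    have d3 : lf (-1) (-a) (w n) ≤ 0 := by
      refine lf_le c1.2 ?_ ?_ ?_
      · simp only [lf]; linarith [c2.1.2.1.1]
      · simp only [lf]; linarith [c3.1.2.1.1]
      · simp only [lf] at c8 ⊢; linarith
    have d4 : lf 0 1 (w n) ≤ y₂ + 1 := by
      refine lf_le c1.2 ?_ ?_ ?_
      · simp only [lf]; linarith [c2.1.2.2.2]
      · simp only [lf]; linarith [c3.1.2.2.2]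
      · simp only [lf]; linarith
    simp only [lf] at d3 d4
    rcases le_or_gt (w n 1) c with g | g
    · have := c2.2 (w n) c1.1.1 ⟨⟨by linarith, c10.1.le⟩, c10.2.le, g⟩
      linarith
    · have := c3.2 (w n) c1.1.1 ⟨⟨by linarith, c10.1.le⟩, g.le, by linarith⟩
      linarith
  refine ⟨w, w', hw'lim, ?_, hw.mono fun n hn => hn.1⟩
  -- the partner is far
  have e1 : α' = 1 - β' - γ' := by linarith
  have k1 : (1 - γ') * (y₁ / 2) ≤ γ' * (-z 1) := by
    have l1 : α' * (y₁ / 2) ≤ α' * p' 1 := mul_le_mul_of_nonneg_left hp'low hα0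
    have l2 : β' * (y₁ / 2) ≤ β' * q' 1 := mul_le_mul_of_nonneg_left (by linarith) hβ0
    have l3 : (1 - γ') * (y₁ / 2) = α' * (y₁ / 2) + β' * (y₁ / 2) := by rw [e1]; ring
    rw [l3]
    linarith
  have k2 : -a * (y₂ + 1) + γ' * z 0 ≤ w' 0 := by
    have l1 : α' * (-a * (y₂ + 1)) ≤ α' * p' 0 := mul_le_mul_of_nonneg_left hp'low' hα0
    have l2 : β' * (-a * (y₂ + 1)) ≤ β' * q' 0 := mul_le_mul_of_nonneg_left hq'low hβ0
    have l3 : γ' * (-a * (y₂ + 1)) ≤ 0 := by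
      apply mul_nonpos_of_nonneg_of_nonpos hγ0
      have : 0 < a * (y₂ + 1) := by positivity
      linarith
    have l4 : -a * (y₂ + 1) = α' * (-a * (y₂ + 1)) + β' * (-a * (y₂ + 1)) +
        γ' * (-a * (y₂ + 1)) := by rw [← add_mul, ← add_mul, hsum', one_mul]
    rw [hw'0]
    linarith
  have k3 : R₁ ≤ γ' * z 0 := by
    rcases le_or_gt (1 / 2) γ' with g | g
    · have : 1 / 2 * z 0 ≤ γ' * z 0 := mul_le_mul_of_nonneg_right g hz0.le
      linarith
    · have l1 : 1 / 2 * (y₁ / 2) ≤ (1 - γ') * (y₁ / 2) :=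
        mul_le_mul_of_nonneg_right (by linarith) (by linarith)
      have l2 : γ' * (-z 1) ≤ γ' * (y₁ / (4 * R₁) * z 0) := mul_le_mul_of_nonneg_left hzε2 hγ0
      have l3 : y₁ / 4 ≤ y₁ / (4 * R₁) * (γ' * z 0) := by linarith
      have l4 : y₁ / (4 * R₁) * (γ' * z 0) = y₁ / 4 * ((γ' * z 0) / R₁) := by field_simp
      rw [l4] at l3
      have l5 : 1 ≤ (γ' * z 0) / R₁ := by
        by_contra hcon
        push Not at hcon
        have : y₁ / 4 * ((γ' * z 0) / R₁) < y₁ / 4 * 1 := mul_lt_mul_of_pos_left hcon (by linarith)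
        linarith
      rw [one_le_div hR₁pos] at l5
      exact l5
  have k4 : R ≤ |R| := le_abs_self R
  rw [hR₁] at k3
  linarith

end Pool.Agent.Lib.MP_8bcb9d_co
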