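import Mathlib
import Pool.Agent.Lib.MP_8bcb9d_co.PS11

/-!
# Limit sets: an isolated point and a ray which avoids the set
-/

set_option autoImplicit false

namespace Pool.Agent.Lib.MP_8bcb9d_co

open Filter Topology MeasureTheory Metric
open scoped ENNReal NNReal

/-- Pareto minimal points for height and slope -/
def PM (T : Set E) (w : E) : Prop := w ∈ T ∧ 0 < w 0 ∧ 0 < w 1 ∧
  ∀ v ∈ T, 0 < v 0 → 0 < v 1 → v 1 ≤ w 1 → v 1 * w 0 ≤ w 1 * v 0 → v = w

/-- the positive horizontal axis avoids the set strongly, the origin is isolated -/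
structure Good (T : Set E) : Prop where
  closed : IsClosed T
  iso : ∃ r > 0, ∀ v ∈ T, v ≠ 0 → r ≤ ‖v‖
  far : ∀ M : ℝ, ∃ R : ℝ, ∀ v ∈ T, R ≤ v 0 → M < |v 1|
  ax : ∀ v ∈ T, 0 < v 0 → v 1 ≠ 0
  slope : ∀ σ > 0, ∃ v ∈ T, 0 < v 0 ∧ 0 < v 1 ∧ v 1 ≤ σ * v 0

theorem norm_le_coords (v : E) : ‖v‖ ≤ |v 0| + |v 1| := by
  have h6 := dist_le_abs v 0
  rw [dist_zero_right] at h6
  simpa using h6

theorem exists_PM {T : Set E} (h : Good T) {σ : ℝ} (hσ : 0 < σ) :
    ∃ w, PM T w ∧ w 1 ≤ σ * w 0 := by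
  obtain ⟨v, hv, hv0, hv1, hvσ⟩ := h.slope σ hσ
  obtain ⟨r, hr, hiso⟩ := h.iso
  obtain ⟨R, hR⟩ := h.far (v 1)
  set Z : Set E := {u | u ∈ T ∧ (r ≤ ‖u‖ ∧ u 1 ≤ σ * u 0) ∧ (0 ≤ u 0 ∧ 0 ≤ u 1) ∧ u 1 ≤ v 1} with hZ
  have hZcl : IsClosed Z := by
    refine h.closed.inter (IsClosed.inter (IsClosed.inter ?_ ?_)
      (IsClosed.inter (IsClosed.inter ?_ ?_) ?_))
    · exact isClosed_le continuous_const continuous_norm
    · exact isClosed_le (continuous_coord 1) (continuous_const.mul (continuous_coord 0))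
    · exact isClosed_le continuous_const (continuous_coord 0)
    · exact isClosed_le continuous_const (continuous_coord 1)
    · exact isClosed_le (continuous_coord 1) continuous_const
  have hZpos : ∀ u ∈ Z, 0 < u 0 ∧ 0 < u 1 := by
    rintro u ⟨huT, ⟨h1, h2⟩, ⟨h3, h4⟩, h5⟩
    have h6 : 0 < u 0 := by
      rcases h3.lt_or_eq with g | g
      · exact g
      · exfalso
        rw [← g, mul_zero] at h2
        have h7 := norm_le_coords u
        rw [← g, le_antisymm h2 h4] at h7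
        simp at h7
        rw [h7, norm_zero] at h1
        linarith
    exact ⟨h6, lt_of_le_of_ne h4 (h.ax u huT h6).symm⟩
  have hZb : Z ⊆ closedBall 0 (|R| + v 1) := by
    rintro u hu
    obtain ⟨g1, g2⟩ := hZpos u hu
    obtain ⟨huT, ⟨h1, h2⟩, ⟨h3, h4⟩, h5⟩ := hu
    rw [mem_closedBall, dist_zero_right]
    refine (norm_le_coords u).trans ?_
    rw [abs_of_pos g1, abs_of_pos g2]
    have : u 0 < R := by
      by_contra hcon
      push Not at hcon
      have := hR u huT hcon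
      rw [abs_of_pos g2] at this
      linarith
    linarith [le_abs_self R]
  have hZc : IsCompact Z := (isCompact_closedBall _ _).of_isClosed_subset hZcl hZb
  have hvne : v ≠ 0 := fun h0 => by rw [h0] at hv0; simp at hv0
  have hvZ : v ∈ Z := ⟨hv, ⟨hiso v hv hvne, hvσ⟩, ⟨hv0.le, hv1.le⟩, le_rfl⟩
  -- minimal slope
  have hcont : ContinuousOn (fun u : E => u 1 / u 0) Z :=
    (continuous_coord 1).continuousOn.div (continuous_coord 0).continuousOn
      fun u hu => (hZpos u hu).1.ne'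
  obtain ⟨w₁, hw₁Z, hw₁⟩ := hZc.exists_isMinOn ⟨v, hvZ⟩ hcont
  -- minimal height among these
  set Z' : Set E := {u | u ∈ Z ∧ u 1 * w₁ 0 ≤ w₁ 1 * u 0} with hZ'
  have hZ'cl : IsClosed Z' := hZcl.inter (isClosed_le ((continuous_coord 1).mul continuous_const)
    (continuous_const.mul (continuous_coord 0)))
  have hZ'c : IsCompact Z' := hZc.of_isClosed_subset hZ'cl fun u hu => hu.1
  obtain ⟨w, hwZ', hwmin⟩ := hZ'c.exists_isMinOn ⟨w₁, hw₁Z, le_rfl⟩
    (continuous_coord 1).continuousOn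
  obtain ⟨hwZ, hws⟩ := hwZ'
  obtain ⟨hw0, hw1⟩ := hZpos w hwZ
  obtain ⟨hw₁0, hw₁1⟩ := hZpos w₁ hw₁Z
  refine ⟨w, ⟨hwZ.1, hw0, hw1, ?_⟩, hwZ.2.1.2⟩
  intro u hu hu0 hu1 huw hus
  have hune : u ≠ 0 := fun h0 => by rw [h0] at hu0; simp at hu0
  have hwσ : w 1 ≤ σ * w 0 := hwZ.2.1.2
  have huσ : u 1 ≤ σ * u 0 := by
    have h1 : u 1 * w 0 ≤ (σ * u 0) * w 0 := by
      calc u 1 * w 0 ≤ w 1 * u 0 := hus
        _ ≤ (σ * w 0) * u 0 := mul_le_mul_of_nonneg_right hwσ hu0.le
        _ = _ := by ring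
    exact le_of_mul_le_mul_right h1 hw0
  have huZ : u ∈ Z := ⟨hu, ⟨hiso u hu hune, huσ⟩, ⟨hu0.le, hu1.le⟩, huw.trans hwZ.2.2.2⟩
  have h2 : w₁ 1 / w₁ 0 ≤ u 1 / u 0 := hw₁ huZ
  rw [div_le_div_iff₀ hw₁0 hu0] at h2
  have huZ' : u ∈ Z' := by
    refine ⟨huZ, ?_⟩
    have h3 : (u 1 * w₁ 0) * w 0 ≤ (w₁ 1 * u 0) * w 0 := by
      calc (u 1 * w₁ 0) * w 0 = (u 1 * w 0) * w₁ 0 := by ring
        _ ≤ (w 1 * u 0) * w₁ 0 := mul_le_mul_of_nonneg_right hus hw₁0.le
        _ = (w 1 * w₁ 0) * u 0 := by ring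
        _ ≤ (w₁ 1 * w 0) * u 0 := mul_le_mul_of_nonneg_right hws hu0.le
        _ = _ := by ring
    exact le_of_mul_le_mul_right h3 hw0
  have h4 : w 1 ≤ u 1 := hwmin huZ'
  have h5 : u 1 = w 1 := le_antisymm huw h4
  -- equal slopes
  have h6 : w₁ 1 / w₁ 0 ≤ w 1 / w 0 := hw₁ hwZ
  rw [div_le_div_iff₀ hw₁0 hw0] at h6
  have e1 : w 1 * w₁ 0 = w₁ 1 * w 0 := le_antisymm hws h6
  have e2 : u 1 * w₁ 0 = w₁ 1 * u 0 := le_antisymm huZ'.2 h2
  have e3 : u 0 = w 0 := by
    rw [h5, e1] at e2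
    exact (mul_left_cancel₀ hw₁1.ne' e2).symm
  exact ext2 e3 h5

theorem infinite_PM {T : Set E} (h : Good T) : {w | PM T w}.Infinite := by
  intro hfin
  obtain ⟨c, hc, hcle⟩ := exists_pos_le_finset hfin.toFinset (fun w => w 1 / w 0) (by
    intro w hw
    have hw' : PM T w := by simpa using hw
    exact div_pos hw'.2.2.1 hw'.2.1)
  obtain ⟨w, hw, hwc⟩ := exists_PM h (σ := c / 2) (by positivity)
  have h1 := hcle w (by simpa using hw)
  rw [le_div_iff₀ hw.2.1] at h1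
  have := mul_pos hc hw.2.1
  linarith

/-- points slightly above a Pareto minimal point -/
theorem PM.near {T : Set E} (h : Good T) {w : E} (hw : PM T w) {ε : ℝ} (hε : 0 < ε) (R : ℝ) :
    ∃ δ > 0, ∀ u ∈ T, 0 ≤ u 0 → u 0 ≤ R → w 1 ≤ u 1 → u 1 ≤ w 1 + δ →
      u 1 * w 0 ≤ w 1 * u 0 → dist u w < ε := by
  set Z : Set E := {u | u ∈ T ∧ (0 ≤ u 0 ∧ u 0 ≤ R) ∧ (w 1 ≤ u 1 ∧ u 1 ≤ w 1 + 1) ∧
    (u 1 * w 0 ≤ w 1 * u 0 ∧ ε ≤ dist u w)} with hZ
  have hZcl : IsClosed Z := by
    refine h.closed.inter (IsClosed.inter (IsClosed.inter ?_ ?_)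
      (IsClosed.inter (IsClosed.inter ?_ ?_) (IsClosed.inter ?_ ?_)))
    · exact isClosed_le continuous_const (continuous_coord 0)
    · exact isClosed_le (continuous_coord 0) continuous_const
    · exact isClosed_le continuous_const (continuous_coord 1)
    · exact isClosed_le (continuous_coord 1) continuous_const
    · exact isClosed_le ((continuous_coord 1).mul continuous_const)
        (continuous_const.mul (continuous_coord 0))
    · exact isClosed_le continuous_const (continuous_id.dist continuous_const)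
  have hZb : Z ⊆ closedBall 0 (|R| + (w 1 + 1)) := by
    rintro u ⟨-, ⟨g1, g2⟩, ⟨g3, g4⟩, -⟩
    rw [mem_closedBall, dist_zero_right]
    refine (norm_le_coords u).trans ?_
    have := hw.2.2.1
    rw [abs_of_nonneg g1, abs_of_nonneg (by linarith)]
    linarith [le_abs_self R]
  have hZc : IsCompact Z := (isCompact_closedBall _ _).of_isClosed_subset hZcl hZb
  rcases Z.eq_empty_or_nonempty with hemp | hne
  · refine ⟨1, one_pos, fun u hu g1 g2 g3 g4 g5 => ?_⟩
    by_contra hcon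
    push Not at hcon
    have : u ∈ Z := ⟨hu, ⟨g1, g2⟩, ⟨g3, g4⟩, g5, hcon⟩
    rw [hemp] at this
    exact this
  · obtain ⟨v, hvZ, hvmin⟩ := hZc.exists_isMinOn hne (continuous_coord 1).continuousOn
    have hv1 : w 1 < v 1 := by
      obtain ⟨hvT, ⟨g1, g2⟩, ⟨g3, g4⟩, g5, g6⟩ := hvZ
      rcases g3.lt_or_eq with g | g
      · exact g
      · exfalso
        have hw0 := hw.2.1
        have hw1 := hw.2.2.1
        have hv0 : 0 < v 0 := by
          have : 0 < w 1 * v 0 := lt_of_lt_of_le (by rw [← g]; positivity) g5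
          exact (mul_pos_iff_of_pos_left hw1).1 this
        have := hw.2.2.2 v hvT hv0 (by rw [← g]; exact hw1) g.symm.le g5
        rw [this, dist_self] at g6
        linarith
    refine ⟨min 1 ((v 1 - w 1) / 2), by
      apply lt_min one_pos
      linarith, fun u hu g1 g2 g3 g4 g5 => ?_⟩
    by_contra hcon
    push Not at hcon
    have h1 := min_le_left 1 ((v 1 - w 1) / 2)
    have h2 := min_le_right 1 ((v 1 - w 1) / 2)
    have huZ : u ∈ Z := ⟨hu, ⟨g1, g2⟩, ⟨g3, by linarith⟩, g5, hcon⟩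
    have h3 : v 1 ≤ u 1 := hvmin huZ
    linarith

theorem lf_le_hull {c0 c1 M : ℝ} {S : Set E} {v : E} (hv : v ∈ convexHull ℝ S)
    (h : ∀ s ∈ S, lf c0 c1 s ≤ M) : lf c0 c1 v ≤ M := by
  have hconv : Convex ℝ {u : E | lf c0 c1 u ≤ M} := by
    intro x hx y hy a b ha hb hab
    simp only [Set.mem_setOf_eq] at hx hy ⊢
    rw [lf_add, lf_smul, lf_smul]
    calc a * lf c0 c1 x + b * lf c0 c1 y ≤ a * M + b * M :=
          add_le_add (mul_le_mul_of_nonneg_left hx ha) (mul_le_mul_of_nonneg_left hy hb)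
      _ = M := by rw [← add_mul, hab, one_mul]
  exact convexHull_min (fun s hs => h s hs) hconv hv

/-- maximisers in varying regions -/
theorem exists_argmax' (X : ℕ → Finset E) (P : ℕ → E → Prop) (F : E → ℝ) {x : ℕ → E}
    (hx : ∀ᶠ n in (UN : Filter ℕ), x n ∈ X n) (hP : ∀ᶠ n in (UN : Filter ℕ), P n (x n)) :
    ∃ p : ℕ → E, ∀ᶠ n in (UN : Filter ℕ), (p n ∈ X n ∧ P n (p n)) ∧
      ∀ w ∈ X n, P n w → F w ≤ F (p n) := by
  classical
  have h1 : ∀ n, ∃ p : E, (x n ∈ X n ∧ P n (x n)) → ((p ∈ X n ∧ P n p) ∧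
      ∀ w ∈ X n, P n w → F w ≤ F p) := by
    intro n
    by_cases hc : x n ∈ X n ∧ P n (x n)
    · obtain ⟨p, hp, hmax⟩ := ((X n).filter (P n)).exists_max_image F
        ⟨x n, Finset.mem_filter.2 hc⟩
      exact ⟨p, fun _ => ⟨Finset.mem_filter.1 hp, fun w hw hPw =>
        hmax w (Finset.mem_filter.2 ⟨hw, hPw⟩)⟩⟩
    · exact ⟨0, fun h => absurd h hc⟩
  choose p hp using h1
  exact ⟨p, (hx.and hP).mono fun n hn => hp n hn⟩

/-- limits of points in triangles -/
theorem tri_limit {a b c u : ℕ → E} {a' b' c' u' : E} (ha : Tendsto a UN (𝓝 a'))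
    (hb : Tendsto b UN (𝓝 b')) (hc : Tendsto c UN (𝓝 c')) (hu : Tendsto u UN (𝓝 u'))
    (h : ∀ᶠ n in (UN : Filter ℕ), u n ∈ convexHull ℝ ({a n, b n, c n} : Set E)) :
    u' ∈ convexHull ℝ ({a', b', c'} : Set E) := by
  have hco : ∀ n, ∃ α β γ : ℝ, u n ∈ convexHull ℝ ({a n, b n, c n} : Set E) →
      (0 ≤ α ∧ 0 ≤ β ∧ 0 ≤ γ ∧ α + β + γ = 1 ∧ u n = α • a n + β • b n + γ • c n) := by
    intro n
    by_cases hc : u n ∈ convexHull ℝ ({a n, b n, c n} : Set E)
    · obtain ⟨α, β, γ, h1⟩ := mem_triangle hc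
      exact ⟨α, β, γ, fun _ => h1⟩
    · exact ⟨0, 0, 0, fun h => absurd h hc⟩
  choose α β γ hco using hco
  have hco' := h.mono fun n hn => hco n hn
  obtain ⟨α', hα'⟩ := exists_tendsto_real (R := 1) (x := α) (U := UN) (by
    filter_upwards [hco'] with n hn
    rw [abs_of_nonneg hn.1]; linarith [hn.2.1, hn.2.2.1, hn.2.2.2.1])
  obtain ⟨β', hβ'⟩ := exists_tendsto_real (R := 1) (x := β) (U := UN) (by
    filter_upwards [hco'] with n hn
    rw [abs_of_nonneg hn.2.1]; linarith [hn.1, hn.2.2.1, hn.2.2.2.1])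
  obtain ⟨γ', hγ'⟩ := exists_tendsto_real (R := 1) (x := γ) (U := UN) (by
    filter_upwards [hco'] with n hn
    rw [abs_of_nonneg hn.2.2.1]; linarith [hn.1, hn.2.1, hn.2.2.2.1])
  have hlim : Tendsto u UN (𝓝 (α' • a' + β' • b' + γ' • c')) := by
    have := ((hα'.smul ha).add (hβ'.smul hb)).add (hγ'.smul hc)
    refine this.congr' ?_
    filter_upwards [hco'] with n hn
    exact hn.2.2.2.2.symm
  have hα0 : 0 ≤ α' := ge_of_tendsto hα' (hco'.mono fun n hn => hn.1)
  have hβ0 : 0 ≤ β' := ge_of_tendsto hβ' (hco'.mono fun n hn => hn.2.1)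
  have hγ0 : 0 ≤ γ' := ge_of_tendsto hγ' (hco'.mono fun n hn => hn.2.2.1)
  have hsum' : α' + β' + γ' = 1 := by
    have g1 := (hα'.add hβ').add hγ'
    have g2 : Tendsto (fun n => α n + β n + γ n) UN (𝓝 1) :=
      tendsto_const_nhds.congr' (hco'.mono fun n hn => hn.2.2.2.1.symm)
    exact tendsto_nhds_unique g1 g2
  rw [tendsto_nhds_unique hu hlim]
  exact triangle_mem hα0 hβ0 hγ0 hsum'

/-- **No good rays.** -/
theorem no_good {Φ : Finset E} (hΦ : Dirs Φ) {K : ℕ} (hcard : 4 * K + 5 ≤ Φ.card)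
    {T : Set E} {X : ℕ → Finset E} (h : SeqTo K Φ T X) (hgood : Good T) (h0 : (0 : E) ∈ T)
    (hacc : ¬ Acc T 0) : False := by
  classical
  obtain ⟨W, hWsub, hWcard⟩ := (infinite_PM hgood).exists_subset_card_eq (K + 1)
  have hW : ∀ w ∈ W, PM T w := fun w hw => hWsub hw
  have hWne : W.Nonempty := Finset.card_pos.1 (by omega)
  obtain ⟨A, hA0, hA⟩ : ∃ A : ℝ, 0 < A ∧ ∀ w ∈ W, ‖w‖ ≤ A := by
    refine ⟨1 + ∑ w ∈ W, ‖w‖, by positivity, fun w hw => ?_⟩
    have := Finset.single_le_sum (f := fun w : E => ‖w‖) (fun w _ => norm_nonneg w) hw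
    linarith
  obtain ⟨R0, hR0⟩ := hgood.far (A + 1)
  set R1 : ℝ := max R0 A + 1 with hR1
  have hR1R0 : R0 ≤ R1 := by have := le_max_left R0 A; linarith
  have hR1A : A < R1 := by have := le_max_right R0 A; linarith
  have hR1pos : 0 < R1 := by linarith
  obtain ⟨ε, hε, hεW⟩ : ∃ ε > 0, ∀ w ∈ W, ∀ w' ∈ W, w ≠ w' → 2 * ε ≤ dist w w' := by
    obtain ⟨e, he, hle⟩ := exists_pos_le_finset W.offDiag (fun x => dist x.1 x.2) (by
      rintro ⟨x, y⟩ hxy
      rw [Finset.mem_offDiag] at hxy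
      exact dist_pos.2 hxy.2.2)
    refine ⟨e / 2, by positivity, fun w hw w' hw' hne => ?_⟩
    have := hle (w, w') (Finset.mem_offDiag.2 ⟨hw, hw', hne⟩)
    simp only at this
    linarith
  have hδ : ∀ w : E, ∃ δ : ℝ, w ∈ W → (0 < δ ∧ ∀ u ∈ T, 0 ≤ u 0 → u 0 ≤ R1 → w 1 ≤ u 1 →
      u 1 ≤ w 1 + δ → u 1 * w 0 ≤ w 1 * u 0 → dist u w < ε) := by
    intro w
    by_cases hw : w ∈ W
    · obtain ⟨δ, h1, h2⟩ := (hW w hw).near hgood hε R1
      exact ⟨δ, fun _ => ⟨h1, h2⟩⟩
    · exact ⟨0, fun h => absurd h hw⟩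
  choose δ hδ using hδ
  obtain ⟨δ0, hδ00, hδ0le⟩ := exists_pos_le_finset W δ fun w hw => (hδ w hw).1
  obtain ⟨m, hm, hmle⟩ := exists_pos_le_finset W (fun w => min (w 1) (w 1 / w 0)) fun w hw =>
    lt_min (hW w hw).2.2.1 (div_pos (hW w hw).2.2.1 (hW w hw).2.1)
  -- the point `z`
  set σ : ℝ := min (δ0 / (R1 * (A + 1))) (min (m / (2 * (A + 1))) (m / (2 * R1))) with hσ
  have hσ0 : 0 < σ := by positivity
  have hσ1 : R1 * ((A + 1) * σ) ≤ δ0 := by
    have := min_le_left (δ0 / (R1 * (A + 1))) (min (m / (2 * (A + 1))) (m / (2 * R1)))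
    rw [← hσ, le_div_iff₀ (by positivity)] at this
    linarith
  have hσ2 : (A + 1) * σ ≤ m / 2 := by
    have : σ ≤ m / (2 * (A + 1)) := (min_le_right _ _).trans (min_le_left _ _)
    rw [le_div_iff₀ (by positivity)] at this
    linarith
  have hσ3 : σ * R1 ≤ m / 2 := by
    have : σ ≤ m / (2 * R1) := (min_le_right _ _).trans (min_le_right _ _)
    rw [le_div_iff₀ (by positivity)] at this
    linarith
  have hσm : σ < m := by nlinarith
  obtain ⟨z, hzT, hz0, hz1, hzσ⟩ := hgood.slope σ hσ0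
  have hmw : ∀ w ∈ W, m ≤ w 1 ∧ m * w 0 ≤ w 1 := by
    intro w hw
    have h1 := hmle w hw
    refine ⟨h1.trans (min_le_left _ _), ?_⟩
    have h2 := h1.trans (min_le_right _ _)
    rwa [le_div_iff₀ (hW w hw).2.1] at h2
  have hzR1 : R1 < z 0 := by
    by_contra hcon
    push Not at hcon
    obtain ⟨w, hw⟩ := hWne
    have h1 : z 1 ≤ m / 2 := hzσ.trans ((mul_le_mul_of_nonneg_left hcon hσ0.le).trans hσ3)
    obtain ⟨h2, h3⟩ := hmw w hw
    have h4 : z 1 * w 0 ≤ w 1 * z 0 := by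
      calc z 1 * w 0 ≤ (σ * z 0) * w 0 := mul_le_mul_of_nonneg_right hzσ (hW w hw).2.1.le
        _ ≤ (m * z 0) * w 0 := by
            apply mul_le_mul_of_nonneg_right _ (hW w hw).2.1.le
            exact mul_le_mul_of_nonneg_right hσm.le hz0.le
        _ = (m * w 0) * z 0 := by ring
        _ ≤ w 1 * z 0 := mul_le_mul_of_nonneg_right h3 hz0.le
    have h5 := (hW w hw).2.2.2 z hzT hz0 hz1 (by linarith) h4
    rw [h5] at h1
    linarith
  set sl : ℝ := z 1 / z 0 with hsl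
  have hsl0 : 0 < sl := div_pos hz1 hz0
  have hslσ : sl ≤ σ := by rw [hsl, div_le_iff₀ hz0]; exact hzσ
  have hslz : sl * z 0 = z 1 := div_mul_cancel₀ _ hz0.ne'
  -- sequences
  have hcoord : ∀ {x : ℕ → E} {v : E} (i : Fin 2), Tendsto x UN (𝓝 v) →
      Tendsto (fun n => x n i) UN (𝓝 (v i)) := fun i hx =>
    ((continuous_coord i).tendsto _).comp hx
  obtain ⟨o, hoX, ho⟩ := h.exists_seq h0
  obtain ⟨zn, hznX, hzn⟩ := h.exists_seq hzT
  have hwn : ∀ w : E, ∃ x : ℕ → E, w ∈ W → ((∀ᶠ n in (UN : Filter ℕ), x n ∈ X n) ∧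
      Tendsto x UN (𝓝 w)) := by
    intro w
    by_cases hw : w ∈ W
    · obtain ⟨x, hx⟩ := h.exists_seq (hW w hw).1
      exact ⟨x, fun _ => hx⟩
    · exact ⟨fun _ => 0, fun h => absurd h hw⟩
  choose wn hwn using hwn
  set V : ℕ → Set E := fun n => {v | v = o n ∨ v = zn n ∨ ∃ w ∈ W, v = wn w n} with hV
  set H : ℕ → Set E := fun n => convexHull ℝ (V n) with hH
  have hVfun : ∀ (c0 c1 M : ℝ), 0 ≤ M → lf c0 c1 z ≤ M → (∀ w ∈ W, lf c0 c1 w ≤ M) → ∀ η > 0,
      ∀ᶠ n in (UN : Filter ℕ), ∀ v ∈ V n, lf c0 c1 v ≤ M + η := by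
    intro c0 c1 M hM0 hMz hMW η hη
    have e1 : ∀ᶠ n in (UN : Filter ℕ), lf c0 c1 (o n) ≤ M + η := by
      have := (tendsto_lf (c0 := c0) (c1 := c1) ho).eventually
        (gt_mem_nhds (by simp [lf]; linarith : lf c0 c1 0 < M + η))
      exact this.mono fun n hn => hn.le
    have e2 : ∀ᶠ n in (UN : Filter ℕ), lf c0 c1 (zn n) ≤ M + η := by
      have := (tendsto_lf (c0 := c0) (c1 := c1) hzn).eventually
        (gt_mem_nhds (by linarith : lf c0 c1 z < M + η))
      exact this.mono fun n hn => hn.le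
    have e3 : ∀ᶠ n in (UN : Filter ℕ), ∀ w ∈ W, lf c0 c1 (wn w n) ≤ M + η := by
      rw [Filter.eventually_all_finset]
      intro w hw
      have := (tendsto_lf (c0 := c0) (c1 := c1) (hwn w hw).2).eventually
        (gt_mem_nhds (by linarith [hMW w hw] : lf c0 c1 w < M + η))
      exact this.mono fun n hn => hn.le
    filter_upwards [e1, e2, e3] with n g1 g2 g3
    rintro v (rfl | rfl | ⟨w, hw, rfl⟩)
    · exact g1
    · exact g2
    · exact g3 w hw
  have hVB : ∀ᶠ n in (UN : Filter ℕ), ∀ v ∈ V n, ‖v‖ ≤ ‖z‖ + A + 1 := by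
    have e1 : ∀ᶠ n in (UN : Filter ℕ), ‖o n‖ ≤ ‖z‖ + A + 1 := by
      have := ho.norm.eventually (gt_mem_nhds (by
        rw [norm_zero]; positivity : ‖(0 : E)‖ < ‖z‖ + A + 1))
      exact this.mono fun n hn => hn.le
    have e2 : ∀ᶠ n in (UN : Filter ℕ), ‖zn n‖ ≤ ‖z‖ + A + 1 := by
      have := hzn.norm.eventually (gt_mem_nhds (by linarith : ‖z‖ < ‖z‖ + A + 1))
      exact this.mono fun n hn => hn.le
    have e3 : ∀ᶠ n in (UN : Filter ℕ), ∀ w ∈ W, ‖wn w n‖ ≤ ‖z‖ + A + 1 := by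
      rw [Filter.eventually_all_finset]
      intro w hw
      have := (hwn w hw).2.norm.eventually (gt_mem_nhds (by
        linarith [hA w hw, norm_nonneg z] : ‖w‖ < ‖z‖ + A + 1))
      exact this.mono fun n hn => hn.le
    filter_upwards [e1, e2, e3] with n g1 g2 g3
    rintro v (rfl | rfl | ⟨w, hw, rfl⟩)
    · exact g1
    · exact g2
    · exact g3 w hw
  -- the leftmost point
  obtain ⟨p, hp⟩ := exists_argmax' X (fun n v => v ∈ H n ∧ R1 ≤ v 0) (lf (-1) 0) hznX (by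
    filter_upwards [(hcoord 0 hzn).eventually (lt_mem_nhds hzR1)] with n hn
    exact ⟨subset_convexHull ℝ _ (Or.inr (Or.inl rfl)), hn.le⟩)
  have hpB : ∀ᶠ n in (UN : Filter ℕ), ‖p n‖ ≤ ‖z‖ + A + 1 := by
    filter_upwards [hp, hVB] with n g1 g2
    have g3 : H n ⊆ closedBall 0 (‖z‖ + A + 1) := by
      apply convexHull_min _ (convex_closedBall 0 _)
      intro v hv
      rw [mem_closedBall, dist_zero_right]
      exact g2 v hv
    have := g3 g1.1.2.1
    rwa [mem_closedBall, dist_zero_right] at this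
  obtain ⟨p', hp'T, hp'⟩ := h.exists_lim (hp.mono fun n hn => hn.1.1) hpB
  have hp'R : R1 ≤ p' 0 := ge_of_tendsto (hcoord 0 hp') (hp.mono fun n hn => hn.1.2.2)
  have hp'fun : ∀ (c0 c1 M : ℝ), 0 ≤ M → lf c0 c1 z ≤ M → (∀ w ∈ W, lf c0 c1 w ≤ M) →
      lf c0 c1 p' ≤ M := by
    intro c0 c1 M hM0 hMz hMW
    apply le_of_forall_pos_le_add
    intro η hη
    refine le_of_tendsto (tendsto_lf hp') ?_
    filter_upwards [hVfun c0 c1 M hM0 hMz hMW η hη, hp] with n g1 g2
    exact lf_le_hull g2.1.2.1 g1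
  have hp'1 : sl * p' 0 ≤ p' 1 := by
    have := hp'fun sl (-1) 0 le_rfl (by simp only [lf]; linarith) (by
      intro w hw
      simp only [lf]
      obtain ⟨-, g⟩ := hmw w hw
      have := mul_le_mul_of_nonneg_right (hslσ.trans hσm.le) (hW w hw).2.1.le
      linarith)
    simp only [lf] at this
    linarith
  have hp'2 : p' 1 ≤ A + sl * p' 0 := by
    have := hp'fun (-sl) 1 A hA0.le (by simp only [lf]; linarith) (by
      intro w hw
      simp only [lf]
      have g1 : w 1 ≤ A := (le_abs_self _).trans ((abs_coord_le 1 w).trans (hA w hw))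
      have := mul_pos hsl0 (hW w hw).2.1
      linarith)
    simp only [lf] at this
    linarith
  have hp'0 : 0 < p' 0 := by linarith
  have hp'pos : 0 < p' 1 := lt_of_lt_of_le (mul_pos hsl0 hp'0) hp'1
  have hp'3 : A + 1 < p' 1 := by
    have := hR0 p' hp'T (by linarith)
    rwa [abs_of_pos hp'pos] at this
  have hp'4 : p' 1 ≤ (A + 1) * σ * p' 0 := by
    have g1 : 1 ≤ sl * p' 0 := by linarith
    have g2 : p' 1 ≤ (A + 1) * (sl * p' 0) := by nlinarith
    have g3 : sl * p' 0 ≤ σ * p' 0 := mul_le_mul_of_nonneg_right hslσ hp'0.le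
    have g4 : (A + 1) * (sl * p' 0) ≤ (A + 1) * (σ * p' 0) :=
      mul_le_mul_of_nonneg_left g3 (by linarith)
    linarith
  -- `o n ≠ p n`
  have hop0 : ∀ᶠ n in (UN : Filter ℕ), o n 0 < p n 0 := by
    have g1 := (hcoord 0 ho).eventually (gt_mem_nhds (by
      simpa using hR1pos : (0 : E) 0 < R1))
    filter_upwards [g1, hp] with n g2 g3
    linarith [g3.1.2.2]
  have hop : ∀ᶠ n in (UN : Filter ℕ), o n ≠ p n := by
    filter_upwards [hop0] with n hn h'
    rw [h'] at hn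
    exact lt_irrefl _ hn
  obtain ⟨r, hr, huniq⟩ := unique_near hΦ hcard h hacc
  -- the partners
  have hpart : ∀ w : E, ∃ (u : ℕ → E) (u' : E), w ∈ W → (Tendsto u UN (𝓝 u') ∧
      dist u' w < ε ∧ ∀ᶠ n in (UN : Filter ℕ), u n ∈ Deg (X n) (o n) (p n)) := by
    intro w
    by_cases hw : w ∈ W
    swap
    · exact ⟨fun _ => 0, 0, fun h => absurd h hw⟩
    obtain ⟨hwT, hw0, hw1, hwPM⟩ := hW w hw
    obtain ⟨hwnX, hwnlim⟩ := hwn w hw
    have hwA : w 0 ≤ A := (le_abs_self _).trans ((abs_coord_le 0 w).trans (hA w hw))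
    have hwp0 : ∀ᶠ n in (UN : Filter ℕ), wn w n 0 < p n 0 := by
      filter_upwards [(hcoord 0 hwnlim).eventually (gt_mem_nhds (by linarith : w 0 < R1)), hp]
        with n g2 g3
      linarith [g3.1.2.2]
    have how0 : ∀ᶠ n in (UN : Filter ℕ), o n 0 < wn w n 0 :=
      (hcoord 0 ho).eventually_lt (hcoord 0 hwnlim) (by simpa using hw0)
    obtain ⟨u, hu⟩ := exists_partners h.kset hoX (hp.mono fun n hn => hn.1.1) hwnX hop
      (by
        filter_upwards [how0] with n hn h'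
        rw [h'] at hn
        exact lt_irrefl _ hn)
      (by
        filter_upwards [hwp0] with n hn h'
        rw [h'] at hn
        exact lt_irrefl _ hn)
    have huH : ∀ᶠ n in (UN : Filter ℕ), u n ∈ H n := by
      filter_upwards [hu, hp] with n g1 g2
      have g3 : convexHull ℝ ({o n, p n, wn w n} : Set E) ⊆ H n := by
        apply convexHull_min _ (convex_convexHull ℝ _)
        rintro v (rfl | rfl | rfl)
        · exact subset_convexHull ℝ _ (Or.inl rfl)
        · exact g2.1.2.1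
        · exact subset_convexHull ℝ _ (Or.inr (Or.inr ⟨w, hw, rfl⟩))
      exact g3 g1.2
    have huB : ∀ᶠ n in (UN : Filter ℕ), ‖u n‖ ≤ ‖z‖ + A + 1 := by
      filter_upwards [huH, hVB] with n g1 g2
      have g3 : H n ⊆ closedBall 0 (‖z‖ + A + 1) := by
        apply convexHull_min _ (convex_closedBall 0 _)
        intro v hv
        rw [mem_closedBall, dist_zero_right]
        exact g2 v hv
      have := g3 g1
      rwa [mem_closedBall, dist_zero_right] at this
    obtain ⟨u', hu'T, hu'⟩ := h.exists_lim (hu.mono fun n hn => hn.1.1) huB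
    refine ⟨u, u', fun _ => ⟨hu', ?_, hu.mono fun n hn => hn.1⟩⟩
    -- not the origin
    have hu'ne : u' ≠ 0 := by
      intro h'
      rw [h'] at hu'
      have g1 : ∀ᶠ n in (UN : Filter ℕ), dist (u n) 0 < r :=
        (hu'.dist tendsto_const_nhds).eventually (gt_mem_nhds (by rw [dist_self]; exact hr))
      have g2 : ∀ᶠ n in (UN : Filter ℕ), dist (o n) 0 < r :=
        (ho.dist tendsto_const_nhds).eventually (gt_mem_nhds (by rw [dist_self]; exact hr))
      obtain ⟨n, ⟨⟨⟨⟨c1, c2⟩, c3⟩, c4⟩, c5⟩⟩ := ((((hu.and g1).and g2).and huniq).and hoX).exists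
      exact c1.1.2.1 (c4 _ c1.1.1 _ c5 c2 c3)
    -- bounded abscissa
    have hu'R : u' 0 ≤ R1 := by
      refine le_of_tendsto (hcoord 0 hu') ?_
      filter_upwards [hu, hp, huH, hop0, hwp0] with n c1 c2 c3 c4 c5
      by_contra hcon
      push Not at hcon
      have d1 := c2.2 (u n) c1.1.1 ⟨c3, hcon.le⟩
      have hc : u n ∈ convexHull ℝ ({p n, o n, wn w n} : Set E) := by
        have := c1.2
        rwa [Set.insert_comm] at this
      have d2 := lf_lt (c0 := -1) (c1 := 0) hc c1.1.2.2.1 (by simp only [lf]; linarith)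
        (by simp only [lf]; linarith)
      linarith
    have htri := tri_limit ho hp' hwnlim hu' (hu.mono fun n hn => hn.2)
    have hslp : p' 1 * w 0 ≤ w 1 * p' 0 := by
      obtain ⟨-, g⟩ := hmw w hw
      have g1 : (A + 1) * σ ≤ m := by linarith
      calc p' 1 * w 0 ≤ ((A + 1) * σ * p' 0) * w 0 := mul_le_mul_of_nonneg_right hp'4 hw0.le
        _ ≤ (m * p' 0) * w 0 := by
            apply mul_le_mul_of_nonneg_right _ hw0.le
            exact mul_le_mul_of_nonneg_right g1 hp'0.le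
        _ = (m * w 0) * p' 0 := by ring
        _ ≤ w 1 * p' 0 := mul_le_mul_of_nonneg_right g hp'0.le
    have k0 : 0 ≤ u' 0 := by
      have := lf_le (c0 := -1) (c1 := 0) (M := 0) htri (by simp [lf]) (by simp only [lf]; linarith)
        (by simp only [lf]; linarith)
      simp only [lf] at this
      linarith
    have k1 : 0 ≤ u' 1 := by
      have := lf_le (c0 := 0) (c1 := -1) (M := 0) htri (by simp [lf]) (by simp only [lf]; linarith)
        (by simp only [lf]; linarith)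
      simp only [lf] at this
      linarith
    have k2 : u' 1 * w 0 ≤ w 1 * u' 0 := by
      have := lf_le (c0 := -(w 1)) (c1 := w 0) (M := 0) htri (by simp [lf])
        (by simp only [lf]; linarith) (by simp only [lf]; linarith)
      simp only [lf] at this
      linarith
    have k3 : u' 1 ≤ w 1 + δ w := by
      have g1 := lf_le (c0 := -((A + 1) * σ)) (c1 := 1) (M := w 1) htri
        (by simp only [lf, PiLp.zero_apply]; linarith)
        (by simp only [lf]; linarith)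
        (by
          simp only [lf]
          have : 0 < (A + 1) * σ * w 0 := by positivity
          linarith)
      simp only [lf] at g1
      have g2 : (A + 1) * σ * u' 0 ≤ (A + 1) * σ * R1 :=
        mul_le_mul_of_nonneg_left hu'R (by positivity)
      have g3 := hδ0le w hw
      linarith
    rcases le_or_gt (w 1) (u' 1) with g | g
    · exact (hδ w hw).2 u' hu'T k0 hu'R g k3 k2
    · have k4 : 0 < u' 0 := by
        rcases k0.lt_or_eq with g' | g'
        · exact g'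
        · exfalso
          rw [← g', mul_zero] at k2
          have k5 : u' 1 = 0 := by
            apply le_antisymm _ k1
            by_contra hcon
            push Not at hcon
            have := mul_pos hcon hw0
            linarith
          exact hu'ne (ext2 (by rw [← g']; rfl) (by rw [k5]; rfl))
      have k5 : 0 < u' 1 := lt_of_le_of_ne k1 (hgood.ax u' hu'T k4).symm
      rw [hwPM u' hu'T k4 k5 g.le k2, dist_self]
      exact hε
  choose u u' hu using hpart
  let g : Fin (K + 1) ≃ W := (W.equivFinOfCardEq hWcard).symm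
  have hgW : ∀ i, (g i : E) ∈ W := fun i => (g i).2
  refine seq_contra h.kset hoX (hp.mono fun n hn => hn.1.1) hop (w := fun i => u (g i))
    (fun i => (hu _ (hgW i)).2.2) ?_
  intro i j hij
  have hne : (g i : E) ≠ g j := fun h => hij (g.injective (Subtype.ext h))
  have hne' : u' (g i) ≠ u' (g j) := by
    intro heq
    have h1 := (hu _ (hgW i)).2.1
    have h2 := (hu _ (hgW j)).2.1
    have h3 := hεW _ (hgW i) _ (hgW j) hne
    have h4 := dist_triangle_left (g i : E) (g j) (u' (g i))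
    rw [heq] at h1 h4
    linarith
  obtain ⟨U, V', hU, hV', hWU, hWV, hdis⟩ := t2_separation hne'
  filter_upwards [(hu _ (hgW i)).1.eventually (hU.mem_nhds hWU), (hu _ (hgW j)).1.eventually
    (hV'.mem_nhds hWV)] with n a b heq
  rw [heq] at a
  exact Set.disjoint_left.1 hdis a b

end Pool.Agent.Lib.MP_8bcb9d_co
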