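import Mathlib
import Pool.Agent.Lib.MP_8bcb9d_co.PS12

/-!
# Limit sets do not have an interval of directions
-/

set_option autoImplicit false

namespace Pool.Agent.Lib.MP_8bcb9d_co

open Filter Topology MeasureTheory Metric
open scoped ENNReal NNReal

/-- nets -/
theorem exists_net {Φ : Finset E} {K : ℕ} {T : Set E} (hT : Lim K Φ T) {A : Set E} (hA : A ⊆ T)
    {c : E} {R ρ : ℝ} (hρ : 0 < ρ) (hρR : ρ ≤ R) (hAR : ∀ p ∈ A, dist p c ≤ R) :
    ∃ S : Finset E, (S : Set E) ⊆ A ∧ Sep S ρ ∧ ∀ p ∈ A, ∃ q ∈ S, dist p q < ρ := by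
  classical
  obtain ⟨N, hN⟩ := exists_nat_ge (4 * 10 ^ 15 * 8192 ^ K * (R / ρ))
  let P : ℕ → Prop := fun n => ∃ S : Finset E, (S : Set E) ⊆ A ∧ Sep S ρ ∧ S.card = n
  have hPN : ∀ n, P n → n ≤ N := by
    rintro n ⟨S, h1, h2, rfl⟩
    have h3 := hT.packing (S := S) (h1.trans hA) hρ hρR h2 (fun p hp => hAR p (h1 hp))
    exact_mod_cast h3.trans hN
  have hP0 : P 0 := ⟨∅, by simp, fun p hp => absurd hp (Finset.notMem_empty p), rfl⟩
  obtain ⟨S, hS1, hS2, hS3⟩ : P (Nat.findGreatest P N) :=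
    Nat.findGreatest_spec (P := P) (Nat.zero_le N) hP0
  refine ⟨S, hS1, hS2, ?_⟩
  intro p hp
  by_contra hcon
  push Not at hcon
  have hpS : p ∉ S := by
    intro hpS
    have := hcon p hpS
    rw [dist_self] at this
    linarith
  have hP1 : P (Nat.findGreatest P N + 1) := by
    refine ⟨insert p S, ?_, ?_, ?_⟩
    · rw [Finset.coe_insert]
      exact Set.insert_subset hp hS1
    · intro x hx y hy hxy
      rcases Finset.mem_insert.1 hx with rfl | hx'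
      · rcases Finset.mem_insert.1 hy with rfl | hy'
        · exact absurd rfl hxy
        · exact hcon y hy'
      · rcases Finset.mem_insert.1 hy with rfl | hy'
        · rw [dist_comm]; exact hcon x hx'
        · exact hS2 x hx' y hy' hxy
    · rw [Finset.card_insert_of_notMem hpS, hS3]
  have h1 := hPN _ hP1
  exact Nat.findGreatest_is_greatest (Nat.lt_succ_self _) h1 hP1

/-- Almost all rays of slope in `[-1, 1]` avoid the set strongly. -/
theorem ae_tube {Φ : Finset E} (hΦ : Dirs Φ) {K : ℕ} (hcard : 4 * K + 5 ≤ Φ.card) {T : Set E}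
    (hT : Lim K Φ T) (M : ℕ) :
    ∀ᵐ t : ℝ, t ∈ Set.Icc (-1 : ℝ) 1 → ∃ R : ℝ, ∀ v ∈ T, R ≤ v 0 → (M : ℝ) < |v 1 - t * v 0| := by
  classical
  obtain ⟨L, hL, hpack⟩ := pow_packing hΦ hcard (δ := 1 / 2) (by norm_num)
  have hL0 : 0 < L := by linarith
  have hM0 : (0 : ℝ) ≤ M := Nat.cast_nonneg M
  set ρ : ℝ := M + 2 with hρ
  have hρ0 : 0 < ρ := by positivity
  have hLk1 : ∀ k : ℕ, (1 : ℝ) ≤ L ^ k := fun k => one_le_pow₀ (by linarith)
  have hLk : ∀ k : ℕ, (0 : ℝ) < L ^ k := fun k => by positivity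
  set Bad : ℕ → Set ℝ := fun k => {t | t ∈ Set.Icc (-1 : ℝ) 1 ∧ ∃ v ∈ T, L ^ k ≤ v 0 ∧
    v 0 ≤ L ^ (k + 1) ∧ |v 1 - t * v 0| ≤ M} with hBad
  set c0 : ℝ := CK K * (2 * (M + 2 * ρ)) * (L / 2) ^ 2 with hc0
  have hCK := CK_pos K
  have hc0pos : 0 ≤ c0 := by positivity
  have hvol : ∀ k, volume (Bad k) ≤ ENNReal.ofReal (c0 * (1 / 2) ^ k) := by
    intro k
    set A : Set E := {v | v ∈ T ∧ L ^ k ≤ v 0 ∧ v 0 ≤ L ^ (k + 1) ∧ |v 1| ≤ v 0 + M} with hA
    have hAR : ∀ p ∈ A, dist p 0 ≤ L ^ (k + 2) * ρ := by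
      rintro v ⟨-, h1, h2, h3⟩
      rw [dist_zero_right]
      have h4 := norm_le_coords v
      have h5 : 0 < v 0 := lt_of_lt_of_le (hLk k) h1
      rw [abs_of_pos h5] at h4
      have h6 : 2 * L ^ (k + 1) ≤ L ^ (k + 2) := by
        rw [pow_succ L (k + 1)]
        nlinarith [hLk (k + 1)]
      have h7 : (M : ℝ) ≤ L ^ (k + 2) * M := by
        nlinarith [hLk1 (k + 2)]
      have h8 := hLk (k + 2)
      calc ‖v‖ ≤ 2 * v 0 + M := by linarith
        _ ≤ L ^ (k + 2) + L ^ (k + 2) * M := by linarith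
        _ ≤ L ^ (k + 2) * ρ := by rw [hρ]; nlinarith
    have hρR : ρ ≤ L ^ (k + 2) * ρ := by nlinarith [hLk1 (k + 2)]
    obtain ⟨S, hSA, hSsep, hSnet⟩ := exists_net hT (A := A) (fun v hv => hv.1) hρ0 hρR hAR
    have hScard := hpack (k + 2) T hT S (fun p hp => (hSA hp).1) 0 ρ hρ0
      (fun p hp => hAR p (hSA hp)) hSsep
    have hsub : Bad k ⊆ ⋃ s ∈ S, closedBall (s 1 / s 0) ((M + 2 * ρ) / L ^ k) := by
      rintro t ⟨⟨ht1, ht2⟩, v, hv, h1, h2, h3⟩
      have hv0 : 0 < v 0 := lt_of_lt_of_le (hLk k) h1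
      have hta : |t| ≤ 1 := abs_le.2 ⟨ht1, ht2⟩
      have hvA : v ∈ A := by
        refine ⟨hv, h1, h2, ?_⟩
        have e : v 1 = (v 1 - t * v 0) + t * v 0 := by ring
        calc |v 1| = |(v 1 - t * v 0) + t * v 0| := by rw [← e]
          _ ≤ |v 1 - t * v 0| + |t * v 0| := abs_add_le _ _
          _ ≤ M + 1 * v 0 := by
              rw [abs_mul, abs_of_pos hv0]
              exact add_le_add h3 (mul_le_mul_of_nonneg_right hta hv0.le)
          _ = v 0 + M := by ring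
      obtain ⟨s, hs, hd⟩ := hSnet v hvA
      refine Set.mem_iUnion₂.2 ⟨s, hs, ?_⟩
      have hs0 : L ^ k ≤ s 0 := (hSA hs).2.1
      have hs0' : 0 < s 0 := lt_of_lt_of_le (hLk k) hs0
      have g0 := (abs_sub_zero_le v s).trans hd.le
      have g1 := (abs_sub_one_le v s).trans hd.le
      have g2 : |s 1 - t * s 0| ≤ M + 2 * ρ := by
        have e : s 1 - t * s 0 = (v 1 - t * v 0) - (v 1 - s 1) + t * (v 0 - s 0) := by ring
        calc |s 1 - t * s 0| = |(v 1 - t * v 0) - (v 1 - s 1) + t * (v 0 - s 0)| := by rw [e]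
          _ ≤ |(v 1 - t * v 0) - (v 1 - s 1)| + |t * (v 0 - s 0)| := abs_add_le _ _
          _ ≤ (|v 1 - t * v 0| + |v 1 - s 1|) + |t| * |v 0 - s 0| := by
              rw [abs_mul]
              exact add_le_add (abs_sub _ _) le_rfl
          _ ≤ (M + ρ) + 1 * ρ := by
              apply add_le_add (add_le_add h3 g1)
              exact mul_le_mul hta g0 (abs_nonneg _) (by norm_num)
          _ = M + 2 * ρ := by ring
      rw [mem_closedBall, Real.dist_eq]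
      have e : t - s 1 / s 0 = -(s 1 - t * s 0) / s 0 := by field_simp; ring
      rw [e, abs_div, abs_neg, abs_of_pos hs0']
      exact div_le_div₀ (by positivity) g2 (hLk k) hs0
    calc volume (Bad k) ≤ volume (⋃ s ∈ S, closedBall (s 1 / s 0) ((M + 2 * ρ) / L ^ k)) :=
          measure_mono hsub
      _ ≤ ∑ s ∈ S, volume (closedBall (s 1 / s 0) ((M + 2 * ρ) / L ^ k)) :=
          measure_biUnion_finset_le _ _
      _ = ∑ _s ∈ S, ENNReal.ofReal (2 * ((M + 2 * ρ) / L ^ k)) := by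
          apply Finset.sum_congr rfl
          intro s _
          rw [Real.volume_closedBall]
      _ = ENNReal.ofReal (S.card * (2 * ((M + 2 * ρ) / L ^ k))) := by
          rw [Finset.sum_const, nsmul_eq_mul,
            ENNReal.ofReal_mul (p := (S.card : ℝ)) (Nat.cast_nonneg _), ENNReal.ofReal_natCast]
      _ ≤ ENNReal.ofReal (c0 * (1 / 2) ^ k) := by
          apply ENNReal.ofReal_le_ofReal
          calc (S.card : ℝ) * (2 * ((M + 2 * ρ) / L ^ k))
              ≤ CK K * (1 / 2 * L) ^ (k + 2) * (2 * ((M + 2 * ρ) / L ^ k)) :=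
                mul_le_mul_of_nonneg_right hScard (by positivity)
            _ = c0 * (1 / 2) ^ k := by
                rw [hc0, mul_pow, pow_add L, pow_add (1 / 2 : ℝ)]
                field_simp
  have hsum : (∑' k, volume (Bad k)) ≠ ⊤ := by
    have h1 : (∑' k, volume (Bad k)) ≤ ∑' k : ℕ, ENNReal.ofReal (c0 * (1 / 2) ^ k) :=
      ENNReal.tsum_le_tsum hvol
    have h2 : Summable fun k : ℕ => c0 * (1 / 2 : ℝ) ^ k := summable_geometric_two.mul_left c0
    have h3 : (∑' k : ℕ, ENNReal.ofReal (c0 * (1 / 2) ^ k)) ≠ ⊤ := by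
      rw [← ENNReal.ofReal_tsum_of_nonneg (fun k => by positivity) h2]
      exact ENNReal.ofReal_ne_top
    exact ne_top_of_le_ne_top h3 h1
  filter_upwards [ae_eventually_notMem hsum] with t ht htI
  obtain ⟨k0, hk0⟩ := eventually_atTop.1 ht
  refine ⟨L ^ k0, fun v hv hvR => ?_⟩
  obtain ⟨k, hk1, hk2⟩ := exists_nat_pow_near ((hLk1 k0).trans hvR) (by linarith : 1 < L)
  have hkk : k0 ≤ k := by
    have h1 : L ^ k0 < L ^ (k + 1) := lt_of_le_of_lt hvR hk2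
    have h2 := (pow_lt_pow_iff_right₀ (by linarith : 1 < L)).1 h1
    omega
  by_contra hcon
  push Not at hcon
  exact hk0 k hkk ⟨htI, v, hv, hk1, hk2.le, hcon⟩

/-- **No interval of directions.** -/
theorem no_arc' {Φ : Finset E} (hΦ : Dirs Φ) {K : ℕ} (hcard : 4 * K + 5 ≤ Φ.card) {T : Set E}
    (hT : Lim K Φ T) {ζ : ℝ} (hζ : 0 < ζ)
    (hfar : ∀ σ : ℝ, |σ| ≤ ζ → ∀ η > 0, ∀ R : ℝ, ∃ z ∈ T, R ≤ z 0 ∧
      |z 1 - σ * z 0| ≤ η * z 0) : False := by
  classical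
  have hne : T.Nonempty := by
    obtain ⟨z, hz, -⟩ := hfar 0 (by rw [abs_zero]; exact hζ.le) 1 one_pos 0
    exact ⟨z, hz⟩
  obtain ⟨o, ho, hacc⟩ := exists_isolated hΦ hcard hT hne
  have hT0 := hT.homo one_pos o
  set T0 : Set E := (fun v => (1 : ℝ) • (v - o)) '' T with hT0def
  have h0T0 : (0 : E) ∈ T0 := ⟨o, ho, by simp⟩
  have hacc0 : ¬ Acc T0 0 := by
    intro h
    apply hacc
    intro ε hε
    obtain ⟨-, ⟨y, hy, rfl⟩, hne, hd⟩ := h ε hε
    simp only [one_smul] at hne hd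
    refine ⟨y, hy, fun h' => hne (by rw [h', sub_self]), ?_⟩
    rwa [dist_zero_right, ← dist_eq_norm] at hd
  -- the slope
  have h1 : ∀ᵐ t : ℝ, ∀ M : ℕ, t ∈ Set.Icc (-1 : ℝ) 1 → ∃ R : ℝ, ∀ v ∈ T0, R ≤ v 0 →
      (M : ℝ) < |v 1 - t * v 0| := ae_all_iff.2 fun M => ae_tube hΦ hcard hT0 M
  have h2 : ∀ᵐ t : ℝ, t ∉ (fun v : E => v 1 / v 0) '' (T0 ∩ {v | 0 < v 0}) :=
    measure_eq_zero_iff_ae_notMem.1 (hT0.null_slope hΦ hcard 1 0)
  set ζ' : ℝ := min ζ 1 with hζ'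
  have hζ'0 : 0 < ζ' := by positivity
  obtain ⟨t, ⟨ht1, ht2⟩, ht3⟩ : ∃ t : ℝ, ((∀ M : ℕ, t ∈ Set.Icc (-1 : ℝ) 1 → ∃ R : ℝ, ∀ v ∈ T0,
      R ≤ v 0 → (M : ℝ) < |v 1 - t * v 0|) ∧ t ∉ (fun v : E => v 1 / v 0) '' (T0 ∩ {v | 0 < v 0})) ∧
      t ∈ Set.Ioo 0 ζ' := by
    by_contra hcon
    push Not at hcon
    have h3 : Set.Ioo 0 ζ' ⊆ {t | ¬ ((∀ M : ℕ, t ∈ Set.Icc (-1 : ℝ) 1 → ∃ R : ℝ, ∀ v ∈ T0,
      R ≤ v 0 → (M : ℝ) < |v 1 - t * v 0|) ∧
        t ∉ (fun v : E => v 1 / v 0) '' (T0 ∩ {v | 0 < v 0}))} :=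
      fun t ht h => hcon t h ht
    have h4 := measure_mono_null h3 (h1.and h2)
    rw [Real.volume_Ioo, ENNReal.ofReal_eq_zero] at h4
    linarith
  have htζ : t < ζ := lt_of_lt_of_le ht3.2 (min_le_left _ _)
  have htI : t ∈ Set.Icc (-1 : ℝ) 1 :=
    ⟨by linarith [ht3.1], (ht3.2.le).trans (min_le_right _ _)⟩
  -- shear
  set B := linE 1 0 (-t) 1 (by norm_num) with hB
  have hB0 : ∀ v, B v 0 = v 0 := fun v => by rw [hB, linE_zero]; ring
  have hB1 : ∀ v, B v 1 = v 1 - t * v 0 := fun v => by rw [hB, linE_one]; ring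
  have hT1 := hT0.linear B
  have hcard' : 4 * K + 5 ≤ (Φ.image B).card := by
    rwa [Finset.card_image_of_injective _ B.injective]
  have hacc1 : ¬ Acc (B '' T0) 0 := by
    have := image_linearEquiv_acc (T := T0) B (x := 0)
    rw [map_zero] at this
    rw [this]
    exact hacc0
  obtain ⟨X, hX⟩ := hT1.seq
  refine no_good (hΦ.image B) hcard' hX ⟨hT1.1, ?_, ?_, ?_, ?_⟩ ⟨0, h0T0, map_zero B⟩ hacc1
  · have h3 := hacc1
    simp only [Acc] at h3
    push Not at h3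
    obtain ⟨r, hr, h4⟩ := h3
    refine ⟨r, hr, fun v hv hv0 => ?_⟩
    have := h4 v hv hv0
    rwa [dist_zero_right] at this
  · intro M
    obtain ⟨n, hn⟩ := exists_nat_ge M
    obtain ⟨R, hR⟩ := ht1 n htI
    refine ⟨R, ?_⟩
    rintro - ⟨v, hv, rfl⟩ hvR
    rw [hB0] at hvR
    rw [hB1]
    exact lt_of_le_of_lt hn (hR v hv hvR)
  · rintro - ⟨v, hv, rfl⟩ hv0 hv1
    rw [hB0] at hv0
    rw [hB1] at hv1
    apply ht2
    refine ⟨v, ⟨hv, hv0⟩, ?_⟩
    simp only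
    rw [div_eq_iff hv0.ne']
    linarith
  · intro σ hσ
    set s : ℝ := min (σ / 2) (ζ - t) with hs
    have hs0 : 0 < s := lt_min (by positivity) (by linarith)
    have hs1 : s ≤ σ / 2 := min_le_left _ _
    have hs2 : t + s ≤ ζ := by have := min_le_right (σ / 2) (ζ - t); linarith
    obtain ⟨z, hz, hzR, hzη⟩ := hfar (t + s) (by
      rw [abs_of_pos (by linarith [ht3.1])]
      exact hs2) (s / 4) (by positivity)
      (4 * (|o 0| + |o 1| + 1) * (1 + 1 / s))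
    have hinv : 0 < 1 / s := by positivity
    have ho0 := abs_nonneg (o 0)
    have ho1 := abs_nonneg (o 1)
    have g1 : 4 * (|o 0| + |o 1| + 1) ≤ z 0 := by nlinarith
    have g2 : 4 * (|o 0| + |o 1| + 1) ≤ s * z 0 := by
      have : s * (4 * (|o 0| + |o 1| + 1) * (1 + 1 / s)) ≤ s * z 0 :=
        mul_le_mul_of_nonneg_left hzR hs0.le
      have e : s * (4 * (|o 0| + |o 1| + 1) * (1 + 1 / s)) =
          4 * (|o 0| + |o 1| + 1) * s + 4 * (|o 0| + |o 1| + 1) := by field_simp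
      rw [e] at this
      nlinarith
    have hz0 : 0 < z 0 := by linarith
    have g3 := abs_le.1 hzη
    have g4 : |t * o 0| ≤ |o 0| := by
      rw [abs_mul]
      exact mul_le_of_le_one_left ho0 (abs_le.2 htI)
    have g5 := abs_le.1 g4
    have g6 := le_abs_self (o 0)
    have g7 := neg_abs_le (o 0)
    have g8 := le_abs_self (o 1)
    have g9 := neg_abs_le (o 1)
    refine ⟨B ((1 : ℝ) • (z - o)), ⟨_, ⟨z, hz, rfl⟩, rfl⟩, ?_, ?_, ?_⟩
    · rw [hB0]
      simp only [one_smul, PiLp.sub_apply]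
      linarith
    · rw [hB1]
      simp only [one_smul, PiLp.sub_apply]
      nlinarith [g3.1, g5.1, g5.2]
    · rw [hB1, hB0]
      simp only [one_smul, PiLp.sub_apply]
      have k1 : z 1 - o 1 - t * (z 0 - o 0) ≤ 3 / 2 * (s * z 0) := by
        nlinarith [g3.2, g5.1, g5.2]
      have k2 : 3 / 2 * (s * z 0) ≤ 3 / 2 * (σ / 2 * z 0) := by
        apply mul_le_mul_of_nonneg_left _ (by norm_num)
        exact mul_le_mul_of_nonneg_right hs1 hz0.le
      have k3 : σ * (3 / 4 * z 0) ≤ σ * (z 0 - o 0) := by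
        apply mul_le_mul_of_nonneg_left _ hσ.le
        linarith
      linarith

end Pool.Agent.Lib.MP_8bcb9d_co
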