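import Mathlib
import Pool.Agent.Lib.MP_8bcb9d_co.PS13

/-!
# No limit set has points at all scales
-/

set_option autoImplicit false

namespace Pool.Agent.Lib.MP_8bcb9d_co

open Filter Topology MeasureTheory Metric
open scoped ENNReal NNReal

theorem Dir_scale {T : Set E} {d : E} (h : d ∈ Dir T) {s : ℝ} (hs : 0 < s) : s • d ∈ Dir T := by
  refine ⟨smul_ne_zero hs.ne' h.1, fun ε hε => ?_⟩
  obtain ⟨v, hv, r, hr, h1⟩ := h.2 (ε / s) (by positivity)
  refine ⟨v, hv, s * r, by positivity, ?_⟩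
  rw [mul_smul, dist_smul₀, Real.norm_of_nonneg hs.le]
  rw [lt_div_iff₀ hs] at h1
  linarith

/-- coordinates with respect to two directions -/
theorem exists_basis {d₁ d₂ : E} (h : cr d₁ d₂ ≠ 0) : ∃ B : E ≃ₗ[ℝ] E, B d₁ = mk 1 0 ∧
    B d₂ = mk 0 1 ∧ ∀ v, v = (B v 0) • d₁ + (B v 1) • d₂ := by
  have hD : d₁ 0 * d₂ 1 - d₁ 1 * d₂ 0 ≠ 0 := h
  set D := d₁ 0 * d₂ 1 - d₁ 1 * d₂ 0 with hDdef
  have hdet : d₂ 1 / D * (d₁ 0 / D) - -d₂ 0 / D * (-d₁ 1 / D) ≠ 0 := by
    have e : d₂ 1 / D * (d₁ 0 / D) - -d₂ 0 / D * (-d₁ 1 / D) = 1 / D := by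
      field_simp
      rw [hDdef]
      ring
    rw [e]
    exact one_div_ne_zero hD
  refine ⟨linE (d₂ 1 / D) (-d₂ 0 / D) (-d₁ 1 / D) (d₁ 0 / D) hdet, ?_, ?_, ?_⟩
  · apply ext2
    · rw [linE_zero, mk_zero]
      field_simp
      rw [hDdef]; ring
    · rw [linE_one, mk_one]
      field_simp
      ring
  · apply ext2
    · rw [linE_zero, mk_zero]
      field_simp
      ring
    · rw [linE_one, mk_one]
      field_simp
      rw [hDdef]; ring
  · intro v
    apply ext2
    · simp only [PiLp.add_apply, PiLp.smul_apply, smul_eq_mul]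
      rw [linE_zero, linE_one]
      field_simp
      rw [hDdef]; ring
    · simp only [PiLp.add_apply, PiLp.smul_apply, smul_eq_mul]
      rw [linE_zero, linE_one]
      field_simp
      rw [hDdef]; ring

theorem conic_slope {T : Set E} (h : Conic T) {σ : ℝ} (hσ : mk 1 σ ∈ Dir T) {η : ℝ} (hη : 0 < η)
    (R : ℝ) : ∃ z ∈ T, R ≤ z 0 ∧ |z 1 - σ * z 0| ≤ η * z 0 := by
  set B := linE 1 0 (-σ) 1 (by norm_num) with hB
  have hB0 : ∀ v, B v 0 = v 0 := fun v => by rw [hB, linE_zero]; ring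
  have hB1 : ∀ v, B v 1 = v 1 - σ * v 0 := fun v => by rw [hB, linE_one]; ring
  have h1 : mk 1 0 ∈ Dir (B '' T) := by
    have := (Dir_image (T := T) B).2 hσ
    have e : B (mk 1 σ) = mk 1 0 := ext2 (by rw [hB0, mk_zero, mk_zero])
      (by rw [hB1, mk_one, mk_one, mk_zero]; ring)
    rwa [e] at this
  obtain ⟨-, ⟨z, hz, rfl⟩, h2, h3, h4⟩ := DirInf.axis ((h.image B).inf h1) hη R
  rw [hB0] at h2 h4
  rw [hB1] at h4
  exact ⟨z, hz, h2, h4⟩

/-- the case of a line -/
theorem conic_line {Φ : Finset E} (hΦ : Dirs Φ) {K : ℕ} (hcard : 4 * K + 5 ≤ Φ.card) {T : Set E}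
    (hT : Lim K Φ T) (hC : Conic T) (hline : ∀ d ∈ Dir T, ∀ d' ∈ Dir T, cr d d' = 0) : False := by
  classical
  obtain ⟨d, hd⟩ := hC.ne
  obtain ⟨B, hBd, hstd⟩ := exists_std hΦ hcard hd.1
  have hcard' : 4 * K + 5 ≤ (Φ.image B).card := by
    rwa [Finset.card_image_of_injective _ B.injective]
  have hdpos : 0 < d 0 ^ 2 + d 1 ^ 2 := by
    have h1 : 0 < dist d 0 ^ 2 := by
      have := dist_pos.2 hd.1
      positivity
    rw [dist_sq] at h1
    simpa using h1
  -- points are multiples of `d`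
  have hmul : ∀ v ∈ T, v = (dt d v / (d 0 ^ 2 + d 1 ^ 2)) • d := by
    intro v hv
    rcases eq_or_ne v 0 with rfl | hv0
    · simp [dt]
    · have h1 : v ∈ Dir T := by
        have := mem_Dir hv hv0 one_pos
        rwa [one_smul] at this
      have h2 := hline d hd v h1
      simp only [cr] at h2
      apply ext2
      · simp only [PiLp.smul_apply, smul_eq_mul, dt]
        rw [div_mul_eq_mul_div, eq_div_iff hdpos.ne']
        linear_combination (-(d 1)) * h2
      · simp only [PiLp.smul_apply, smul_eq_mul, dt]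
        rw [div_mul_eq_mul_div, eq_div_iff hdpos.ne']
        linear_combination (d 0) * h2
  have hax : ∀ v ∈ B '' T, v 1 = 0 := by
    rintro - ⟨v, hv, rfl⟩
    rw [hmul v hv, map_smul, hBd]
    simp
  obtain ⟨-, h1⟩ := hC.inf hd
  obtain ⟨v, hv, -, -⟩ := h1 1 one_pos 0
  obtain ⟨w, hw, hwv, -⟩ := h1 1 one_pos (‖v‖ + 1)
  have hne : B v 0 ≠ B w 0 := by
    intro h0
    have h2 : B v = B w := ext2 h0 (by rw [hax _ ⟨v, hv, rfl⟩, hax _ ⟨w, hw, rfl⟩])
    have h3 := B.injective h2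
    rw [h3] at hwv
    linarith
  rcases lt_or_gt_of_ne hne with h2 | h2
  · exact no_axis_set (hΦ.image B) hcard' hstd (hT.linear B) hax ⟨v, hv, rfl⟩ ⟨w, hw, rfl⟩ h2
  · exact no_axis_set (hΦ.image B) hcard' hstd (hT.linear B) hax ⟨w, hw, rfl⟩ ⟨v, hv, rfl⟩ h2

/-- the case of two directions, in coordinates -/
theorem conic_two {Φ : Finset E} (hΦ : Dirs Φ) {K : ℕ} (hcard : 4 * K + 5 ≤ Φ.card) {T : Set E}
    (hT : Lim K Φ T) (hC : Conic T) (h1 : mk 1 0 ∈ Dir T) (h2 : mk 0 1 ∈ Dir T) : False := by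
  classical
  set A : Set ℝ := {t | mk (1 - t) t ∈ Dir T} with hA
  have h0A : (0 : ℝ) ∈ A := by
    show mk (1 - 0) 0 ∈ Dir T
    rwa [sub_zero]
  have h1A : (1 : ℝ) ∈ A := by
    show mk (1 - 1) 1 ∈ Dir T
    rwa [sub_self]
  have hAcl : IsClosed A := by
    apply isClosed_of_closure_subset
    intro t ht
    rw [Metric.mem_closure_iff] at ht
    refine ⟨?_, fun ε hε => ?_⟩
    · intro h0
      have g0 := congrArg (fun v : E => v 0) h0
      have g1 := congrArg (fun v : E => v 1) h0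
      simp at g0 g1
      linarith
    · obtain ⟨t', ht', hd⟩ := ht (ε / 4) (by positivity)
      obtain ⟨v, hv, s, hs, h3⟩ := ht'.2 (ε / 2) (by positivity)
      refine ⟨v, hv, s, hs, ?_⟩
      have h4 : dist (mk (1 - t') t') (mk (1 - t) t) ≤ 2 * |t - t'| := by
        refine (dist_le_abs _ _).trans ?_
        simp only [mk_zero, mk_one]
        have e1 : 1 - t' - (1 - t) = t - t' := by ring
        rw [e1, abs_sub_comm t' t]
        linarith
      rw [Real.dist_eq] at hd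
      have := dist_triangle (s • v) (mk (1 - t') t') (mk (1 - t) t)
      linarith
  by_cases hall : ∀ t ∈ Set.Icc (0 : ℝ) 1, t ∈ A
  · -- an interval of directions
    set B := linE 1 1 (-1) 1 (by norm_num) with hB
    have hB0 : ∀ v, B v 0 = v 0 + v 1 := fun v => by rw [hB, linE_zero]; ring
    have hB1 : ∀ v, B v 1 = v 1 - v 0 := fun v => by rw [hB, linE_one]; ring
    have hcard' : 4 * K + 5 ≤ (Φ.image B).card := by
      rwa [Finset.card_image_of_injective _ B.injective]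
    refine no_arc' (hΦ.image B) hcard' (hT.linear B) (ζ := 1) one_pos ?_
    intro σ hσ η hη R
    rw [abs_le] at hσ
    refine conic_slope (hC.image B) ?_ hη R
    have h3 := hall ((1 + σ) / 2) ⟨by linarith [hσ.1], by linarith [hσ.2]⟩
    have h4 := (Dir_image (T := T) B).2 h3
    have e : B (mk (1 - (1 + σ) / 2) ((1 + σ) / 2)) = mk 1 σ := ext2
      (by rw [hB0, mk_zero, mk_one, mk_zero]; ring)
      (by rw [hB1, mk_zero, mk_one, mk_one]; ring)
    rwa [e] at h4
  · -- a gap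
    push Not at hall
    obtain ⟨t₀, ht₀, ht₀A⟩ := hall
    obtain ⟨t₁, ⟨ht₁A, ht₁0, ht₁1⟩, ht₁max⟩ := ((isCompact_Icc (a := (0 : ℝ)) (b := t₀)).inter_left
      hAcl).exists_isGreatest ⟨0, h0A, le_rfl, ht₀.1⟩
    obtain ⟨t₂, ⟨ht₂A, ht₂0, ht₂1⟩, ht₂min⟩ := ((isCompact_Icc (a := t₀) (b := (1 : ℝ))).inter_left
      hAcl).exists_isLeast ⟨1, h1A, ht₀.2, le_rfl⟩
    have h10 : t₁ < t₀ := lt_of_le_of_ne ht₁1 (fun h => ht₀A (h ▸ ht₁A))
    have h02 : t₀ < t₂ := lt_of_le_of_ne ht₂0 (fun h => ht₀A (h ▸ ht₂A))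
    have hno : ∀ t ∈ A, t₁ < t → t < t₂ → False := by
      intro t ht g1 g2
      rcases le_or_gt t t₀ with g | g
      · have := ht₁max ⟨ht, by linarith, g⟩
        linarith
      · have := ht₂min ⟨ht, g.le, by linarith⟩
        linarith
    have hcr : cr (mk (1 - t₁) t₁) (mk (1 - t₂) t₂) ≠ 0 := by
      simp only [cr, mk_zero, mk_one]
      have : (1 - t₁) * t₂ - t₁ * (1 - t₂) = t₂ - t₁ := by ring
      rw [this]
      linarith
    obtain ⟨B, hBd₁, hBd₂, hBv⟩ := exists_basis hcr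
    have hcard' : 4 * K + 5 ≤ (Φ.image B).card := by
      rwa [Finset.card_image_of_injective _ B.injective]
    have hCB := hC.image B
    have g1 : mk 1 0 ∈ Dir (B '' T) := by
      rw [← hBd₁]
      exact (Dir_image B).2 ht₁A
    have g2 : mk 0 1 ∈ Dir (B '' T) := by
      rw [← hBd₂]
      exact (Dir_image B).2 ht₂A
    obtain ⟨X, hX⟩ := (hT.linear B).seq
    refine no_quadrant_dir (hΦ.image B) hcard' hX ?_ (hCB.inf g1) (hCB.inf g2) (hCB.zero g2)
    rintro - ⟨v, hv, rfl⟩ k1 k2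
    set a := B v 0 with ha
    set b := B v 1 with hb
    have hab : 0 < a + b := by linarith
    have hv' : v = (a + b) • mk (1 - (a * t₁ + b * t₂) / (a + b)) ((a * t₁ + b * t₂) / (a + b)) := by
      have hv2 : v = a • mk (1 - t₁) t₁ + b • mk (1 - t₂) t₂ := hBv v
      refine hv2.trans ?_
      apply ext2
      · simp only [PiLp.add_apply, PiLp.smul_apply, smul_eq_mul, mk_zero]
        field_simp
        ring
      · simp only [PiLp.add_apply, PiLp.smul_apply, smul_eq_mul, mk_one]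
        field_simp
    have hv0 : v ≠ 0 := by
      intro h0
      rw [ha, h0, map_zero] at k1
      simp at k1
    have h3 : mk (1 - (a * t₁ + b * t₂) / (a + b)) ((a * t₁ + b * t₂) / (a + b)) ∈ Dir T := by
      have h4 := mem_Dir hv hv0 (s := 1 / (a + b)) (by positivity)
      rw [hv', smul_smul, one_div_mul_cancel hab.ne', one_smul] at h4
      exact h4
    refine hno _ h3 ?_ ?_
    · rw [lt_div_iff₀ hab]
      nlinarith
    · rw [div_lt_iff₀ hab]
      nlinarith

/-- **No limit set has points at all scales.** -/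
theorem no_hit {Φ : Finset E} (hΦ : Dirs Φ) {K : ℕ} (hcard : 4 * K + 5 ≤ Φ.card) {L : ℝ}
    {T : Set E} (hT : Lim K Φ T) (hH : Hit L T) : False := by
  classical
  obtain ⟨T', hT', hC⟩ := exists_conic hT hH
  by_cases hline : ∀ d ∈ Dir T', ∀ d' ∈ Dir T', cr d d' = 0
  · exact conic_line hΦ hcard hT' hC hline
  · push Not at hline
    obtain ⟨d, hd, d', hd', hcr⟩ := hline
    obtain ⟨B, hB1, hB2, -⟩ := exists_basis hcr
    have hcard' : 4 * K + 5 ≤ (Φ.image B).card := by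
      rwa [Finset.card_image_of_injective _ B.injective]
    refine conic_two (hΦ.image B) hcard' (hT'.linear B) (hC.image B) ?_ ?_
    · rw [← hB1]
      exact (Dir_image B).2 hd
    · rw [← hB2]
      exact (Dir_image B).2 hd'

end Pool.Agent.Lib.MP_8bcb9d_co
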